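import Mathlib
import Pool.Agent.Work.MP_c04246_lc.HDefs

set_option autoImplicit false

namespace Pool.Agent.Work.MP_c04246_lc

namespace Fml

variable {p : ℕ} {V : Type}

/-- The cost of a formula (below a connective of the kind `r`: `some true` is the disjunction,
`some false` is the conjunction, `none` is anything else); adjacent disjunctions are merged, and
adjacent conjunctions are merged. The scope of a formula is its number of variables. The cost is `0`
if the scope is at most `κ`; the cost of a disjunction or conjunction is the minimum of its scope
and `τ`, plus the sum of the costs of the arguments; the cost of a counting connective is the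
minimum of this number and of `n` plus the maximum of the costs of the arguments. -/
noncomputable def cost (κ τ n : ℕ) : Option Bool → Fml p V → ℕ
  | _, var _ => 0
  | _, cst _ => 0
  | _, neg a => cost κ τ n none a
  | r, bin c a b => if (vars (bin c a b)).card ≤ κ then 0 else
      (if r = some c then 0 else min (vars (bin c a b)).card τ) +
        (cost κ τ n (some c) a + cost κ τ n (some c) b)
  | _, mod i k f => if (vars (mod i k f)).card ≤ κ then 0 else
      min (min (vars (mod i k f)).card τ + ∑ j, cost κ τ n none (f j))
        (n + Finset.univ.sup fun j => cost κ τ n none (f j))

/-- the literal `(x, b)` as a formula -/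
def litF (l : V × Bool) : Fml p V := if l.2 = true then var l.1 else neg (var l.1)

/-- the clause with the literals `C 0, ..., C (k-1)` as a formula -/
def clauseF {k : ℕ} (C : Fin k → V × Bool) : Fml p V :=
  disj ((List.finRange k).map fun j => litF (C j))

/-- the disjunction of the negations of the clauses `F 0, ..., F (m-1)` -/
def dnfF {m k : ℕ} (F : Fin m → Fin k → V × Bool) : Fml p V :=
  disj ((List.finRange m).map fun i => neg (clauseF (F i)))

/-- every line of `pi` belongs to `A` or follows from earlier lines by a `K`-local inference -/
def IsDer (K : ℕ) (A : Set (Fml p V)) (pi : List (Fml p V)) : Prop :=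
  ∀ i : Fin pi.length, pi.get i ∈ A ∨ ∃ P : Finset (Fml p V),
    (∀ b ∈ P, ∃ j : Fin pi.length, j < i ∧ pi.get j = b) ∧ LocInf K P (pi.get i)

end Fml

end Pool.Agent.Work.MP_c04246_lc
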