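import Mathlib

/-!
MODULE RNum (size M). The numerical estimate for random k-CNFs (Mathlib only).

Let `x = s / n`, `c = (2 k + 1) s / 4` (floor), so `1 ≤ c` (`k ≥ 3`, `s ≥ 1`), `c ≤ k s ≤ n`, `4 c ≤ (2 k + 1) s`.
`a.choose b ≤ a^b / b! ≤ (e a / b)^b` (`Nat.choose_le_pow_div`, `Real.pow_div_factorial_le_exp`). Hence with
`t` the quantity to be bounded, `t ≤ (e Δ / x)^s * (e n / c)^c * (c / n)^(k s) = (e Δ / x)^s * e^c * (c/n)^(k s - c)`,
`t^4 ≤ (e Δ / x)^(4 s) * e^(4 c) * (c / n)^(4 k s - 4 c)`, and `e^(4c) ≤ e^(4 k s)`; since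
`4 k s - 4 c ≥ (2 k - 1) s ≥ 5 s` and `c / n ≤ k x ≤ 1`, `(c/n)^(4 k s - 4 c) ≤ (k x)^(5 s)`. So
`t^4 ≤ (A x)^s`, `A = e^(4 k + 4) Δ^4 k^5`. Let `ρ ≥ 16 A`, `ρ ≥ k`; for `s ≤ n / ρ`, `A x ≤ 1/16`, so
`t^4 ≤ A x (1/16)^(s-1) ≤ (A / n) * s^4 * (1/16)^(s-1)`, i.e. `t ≤ √√(A / n) * s * (1/2)^(s-1)`.
(If `Δ = 0` then `choose 0 s = 0` for `s ≥ 1`; the estimate is still true. One may replace `A` by `A + 1`.)
Statement: `A` real, `ρ` natural, both depending on `k`, `Δ` only.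
-/

set_option autoImplicit false

namespace Pool.Agent.Work.MP_c04246_lc.R

private lemma choose_le_exp (a b : ℕ) (hb : 1 ≤ b) :
    (a.choose b : ℝ) ≤ (Real.exp 1 * a / b) ^ b := by
  have hb0 : (0 : ℝ) < b := by exact_mod_cast hb
  have h1 : (a.choose b : ℝ) ≤ (a : ℝ) ^ b / (b.factorial : ℝ) := by
    exact_mod_cast Nat.choose_le_pow_div (α := ℝ) b a
  have h2 : (b : ℝ) ^ b / (b.factorial : ℝ) ≤ Real.exp b :=
    Real.pow_div_factorial_le_exp (b : ℝ) hb0.le b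
  have h3 : (0 : ℝ) < (b.factorial : ℝ) := by exact_mod_cast b.factorial_pos
  have h4 : Real.exp (b : ℝ) = Real.exp 1 ^ b := by
    rw [← Real.exp_nat_mul, mul_one]
  rw [h4] at h2
  refine h1.trans ?_
  rw [div_pow, mul_pow, div_le_div_iff₀ h3 (by positivity)]
  rw [div_le_iff₀ h3] at h2
  calc (a : ℝ) ^ b * (b : ℝ) ^ b ≤ (a : ℝ) ^ b * (Real.exp 1 ^ b * (b.factorial : ℝ)) := by
        gcongr
    _ = Real.exp 1 ^ b * (a : ℝ) ^ b * (b.factorial : ℝ) := by ring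

lemma rnum (k Δ : ℕ) (hk : 3 ≤ k) : ∃ (A : ℝ) (ρ : ℕ), 0 ≤ A ∧ k ≤ ρ ∧
    ∀ n s : ℕ, 1 ≤ s → s ≤ n / ρ →
      ((Δ * n).choose s : ℝ) * (n.choose ((2 * k + 1) * s / 4) : ℝ) *
        ((((2 * k + 1) * s / 4 : ℕ) : ℝ) / n) ^ (k * s) ≤
          √(√(A / n)) * (s * (1 / 2 : ℝ) ^ (s - 1)) := by
  set E : ℝ := Real.exp 1 with hE
  have hE1 : 1 ≤ E := by
    rw [hE]
    have := Real.add_one_le_exp (1 : ℝ)
    linarith
  have hE0 : 0 < E := by linarith
  set A : ℝ := E ^ (4 * k + 4) * (Δ : ℝ) ^ 4 * (k : ℝ) ^ 5 with hA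
  have hA0 : 0 ≤ A := by positivity
  refine ⟨A, max k ⌈16 * A⌉₊, hA0, le_max_left _ _, ?_⟩
  intro n s hs1 hsn
  set ρ : ℕ := max k ⌈16 * A⌉₊ with hρ
  have hkρ : k ≤ ρ := le_max_left _ _
  have hρ1 : 1 ≤ ρ := by omega
  have hAρ : 16 * A ≤ (ρ : ℝ) := (Nat.le_ceil _).trans (by exact_mod_cast le_max_right _ _)
  have hsn' : s * ρ ≤ n := (Nat.le_div_iff_mul_le hρ1).1 hsn
  have hn1 : 1 ≤ n := le_trans (Nat.mul_le_mul hs1 hρ1) hsn'
  have hks : k * s ≤ n := by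
    calc k * s ≤ ρ * s := Nat.mul_le_mul_right _ hkρ
      _ ≤ n := by rw [mul_comm]; exact hsn'
  obtain ⟨c, hc⟩ : ∃ c, c = (2 * k + 1) * s / 4 := ⟨_, rfl⟩
  rw [← hc]
  have hc4 : 4 * c ≤ (2 * k + 1) * s := by
    rw [hc, mul_comm 4]
    exact Nat.div_mul_le_self _ _
  have hc1 : 1 ≤ c := by
    rw [hc, Nat.le_div_iff_mul_le (by norm_num)]
    nlinarith
  have hcks : c ≤ k * s := by nlinarith
  have hn0 : (0 : ℝ) < n := by exact_mod_cast hn1
  have hs0 : (0 : ℝ) < s := by exact_mod_cast hs1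
  have hc0 : (0 : ℝ) < c := by exact_mod_cast hc1
  have hk0 : (0 : ℝ) < k := by exact_mod_cast (by omega : 0 < k)
  set x : ℝ := s / n with hx
  have hx0 : 0 < x := by positivity
  have hkx : (k : ℝ) * x ≤ 1 := by
    rw [hx, ← mul_div_assoc, div_le_one hn0]
    exact_mod_cast hks
  have hcx : (c : ℝ) / n ≤ k * x := by
    rw [hx, ← mul_div_assoc]
    gcongr
    exact_mod_cast hcks
  have hcn0 : 0 < (c : ℝ) / n := by positivity
  set t : ℝ := ((Δ * n).choose s : ℝ) * (n.choose c : ℝ) * ((c : ℝ) / n) ^ (k * s) with ht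
  have ht0 : 0 ≤ t := by positivity
  -- first estimate
  have h1 : t ≤ (E * Δ / x) ^ s * E ^ c * ((c : ℝ) / n) ^ (k * s - c) := by
    have e1 := choose_le_exp (Δ * n) s hs1
    have e2 := choose_le_exp n c hc1
    rw [← hE] at e1 e2
    have e3 : ((c : ℝ) / n) ^ (k * s) = ((c : ℝ) / n) ^ c * ((c : ℝ) / n) ^ (k * s - c) := by
      rw [← pow_add, Nat.add_sub_cancel' hcks]
    have e4 : (E * ((Δ * n : ℕ) : ℝ) / s) = E * Δ / x := by
      rw [hx]
      push_cast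
      field_simp
    have e5 : (E * n / c) ^ c * ((c : ℝ) / n) ^ c = E ^ c := by
      rw [← mul_pow]
      congr 1
      field_simp
    rw [e4] at e1
    rw [ht, e3]
    calc ((Δ * n).choose s : ℝ) * (n.choose c : ℝ) *
          (((c : ℝ) / n) ^ c * ((c : ℝ) / n) ^ (k * s - c)) ≤
          (E * Δ / x) ^ s * (E * n / c) ^ c *
          (((c : ℝ) / n) ^ c * ((c : ℝ) / n) ^ (k * s - c)) := by gcongr
      _ = (E * Δ / x) ^ s * ((E * n / c) ^ c * ((c : ℝ) / n) ^ c) *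
          ((c : ℝ) / n) ^ (k * s - c) := by ring
      _ = _ := by rw [e5]
  -- fourth power
  have h2 : t ^ 4 ≤ (A * x) ^ s := by
    have e1 : t ^ 4 ≤ ((E * Δ / x) ^ s * E ^ c * ((c : ℝ) / n) ^ (k * s - c)) ^ 4 :=
      pow_le_pow_left₀ ht0 h1 4
    have e2 : ((E * Δ / x) ^ s * E ^ c * ((c : ℝ) / n) ^ (k * s - c)) ^ 4 =
        ((E * Δ / x) ^ 4) ^ s * E ^ (4 * c) * ((c : ℝ) / n) ^ (4 * (k * s - c)) := by
      rw [mul_pow, mul_pow, ← pow_mul, ← pow_mul, ← pow_mul, ← pow_mul, mul_comm s 4,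
        mul_comm c 4, mul_comm (k * s - c) 4]
    have e3 : E ^ (4 * c) ≤ E ^ (4 * k * s) := by
      apply pow_le_pow_right₀ hE1
      nlinarith
    have e4 : ((c : ℝ) / n) ^ (4 * (k * s - c)) ≤ (k * x) ^ (5 * s) := by
      calc ((c : ℝ) / n) ^ (4 * (k * s - c)) ≤ (k * x) ^ (4 * (k * s - c)) := by
            gcongr
        _ ≤ (k * x) ^ (5 * s) := by
            apply pow_le_pow_of_le_one (by positivity) hkx
            have : 4 * (k * s - c) = 4 * (k * s) - 4 * c := by omega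
            rw [this]
            have h7 : 5 * s + 4 * c ≤ 4 * (k * s) := by nlinarith
            omega
    calc t ^ 4 ≤ _ := e1
      _ = _ := e2
      _ ≤ ((E * Δ / x) ^ 4) ^ s * E ^ (4 * k * s) * (k * x) ^ (5 * s) := by
          gcongr
      _ = (A * x) ^ s := by
          rw [pow_mul E (4 * k) s, pow_mul (k * x) 5 s, ← mul_pow, ← mul_pow]
          congr 1
          rw [hA, pow_add]
          field_simp
  -- second estimate
  have h3 : A * x ≤ 1 / 16 := by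
    have e1 : x ≤ 1 / ρ := by
      rw [hx, div_le_div_iff₀ hn0 (by exact_mod_cast hρ1), one_mul]
      exact_mod_cast hsn'
    have hρ0 : (0 : ℝ) < ρ := by exact_mod_cast hρ1
    calc A * x ≤ A * (1 / ρ) := by gcongr
      _ ≤ 1 / 16 := by
        rw [mul_one_div, div_le_div_iff₀ hρ0 (by norm_num)]
        linarith
  have h4 : (A * x) ^ s ≤ (A / n) * (s * (1 / 2 : ℝ) ^ (s - 1)) ^ 4 := by
    have hAx : 0 ≤ A * x := by positivity
    calc (A * x) ^ s = (A * x) * (A * x) ^ (s - 1) := by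
          rw [← pow_succ', Nat.sub_add_cancel hs1]
      _ ≤ (A * x) * (1 / 16) ^ (s - 1) := by gcongr
      _ = (A / n) * (s * (1 / 16) ^ (s - 1)) := by
          rw [hx]
          ring
      _ ≤ (A / n) * (s ^ 4 * (1 / 16) ^ (s - 1)) := by
          have : (s : ℝ) ≤ (s : ℝ) ^ 4 := by
            have h8 : (1 : ℝ) ≤ s := by exact_mod_cast hs1
            exact le_self_pow₀ h8 (by norm_num)
          gcongr
      _ = _ := by
          rw [mul_pow, ← pow_mul, mul_comm (s - 1) 4, pow_mul]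
          norm_num
  have h5 : (√(√(A / n)) * (s * (1 / 2 : ℝ) ^ (s - 1))) ^ 4 =
      (A / n) * (s * (1 / 2 : ℝ) ^ (s - 1)) ^ 4 := by
    rw [mul_pow]
    congr 1
    rw [show (4 : ℕ) = 2 * 2 by norm_num, pow_mul, Real.sq_sqrt (Real.sqrt_nonneg _),
      Real.sq_sqrt (by positivity)]
  rw [← pow_le_pow_iff_left₀ ht0 (by positivity) (by norm_num : (4 : ℕ) ≠ 0), h5]
  exact h2.trans h4

end Pool.Agent.Work.MP_c04246_lc.R
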