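import Pool.Agent.Work.MP_c04246_lc.R.RCnt
import Pool.Agent.Work.MP_c04246_lc.R.RNum

/-!
MODULE RTyp (size M). Typical random k-CNFs.

* `expand_typ`: let `A, ρ` be given by `rnum`. If `¬ Expn (clF F) (n / ρ) 2`, then by `not_expn`
  (`card_vr_clF`) some `S` with `1 ≤ S.card = s ≤ n / ρ` has `4 (Vr S).card < (2 k + 1) s`. So the proportion is at
  most `∑ s ∈ Icc 1 (n / ρ), √√(A/n) * (s * (1/2)^(s-1))` (`card_bad_le`: `(2k+1) s / 4 ≤ k s ≤ ρ (n/ρ) ≤ n`; `rnum`) and
  `∑ s ≥ 1, s (1/2)^(s-1) = 4` (`tsum_coe_mul_geometric_of_norm_lt_one`, or bound partial sums by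
  `4` by induction: `∑ s ∈ Icc 1 N, s (1/2)^(s-1) = 4 - (2 N + 4) (1/2)^N`). `4 √√(A / n) → 0`.
* `unsat_typ`: for fixed `v` the number of `F` all of whose clauses are satisfied by `v` is
  `((2 n)^k - n^k)^m`, `m = Δ n` (a tuple falsified by `v` has all entries `(x, !(v x))`), i.e. the proportion
  is `(1 - 2^(-k))^(Δ n)` for `n ≥ 1`. Union over the `2^n` assignments `v`. For `Δ ≥ 2^k`:
  `(1 - 2^(-k))^Δ ≤ (1 - 2^(-k))^(2^k) ≤ exp(-1)` (`Real.one_sub_le_exp_neg` / `Real.add_one_le_exp`), so the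
  proportion of satisfiable `F` is at most `(2 / e)^n → 0`.
* `typical`: `G n` = the set of the `F` with `Expn (clF F) (n / ρ) 2` which are moreover unsatisfiable if
  `2 ^ k ≤ Δ`.
-/

set_option autoImplicit false

namespace Pool.Agent.Work.MP_c04246_lc.R

open Finset Filter Topology

private lemma sum_half (N : ℕ) : ∑ s ∈ Icc 1 N, (s : ℝ) * (1 / 2 : ℝ) ^ (s - 1) =
    4 - (2 * N + 4) * (1 / 2 : ℝ) ^ N := by
  induction N with
  | zero => norm_num
  | succ N ih =>
    rw [Finset.sum_Icc_succ_top (by omega), ih, Nat.add_sub_cancel, pow_succ]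
    push_cast
    ring

private lemma sum_half_le (N : ℕ) : ∑ s ∈ Icc 1 N, (s : ℝ) * (1 / 2 : ℝ) ^ (s - 1) ≤ 4 := by
  rw [sum_half]
  have : 0 ≤ (2 * (N : ℝ) + 4) * (1 / 2 : ℝ) ^ N := by positivity
  linarith

private lemma card_pos {m k n : ℕ} (hn : 1 ≤ n) :
    (0 : ℝ) < Fintype.card (Fin m → Fin k → Fin n × Bool) := by
  have : Nonempty (Fin m → Fin k → Fin n × Bool) := ⟨fun _ _ => (⟨0, hn⟩, true)⟩
  exact_mod_cast Fintype.card_pos

private lemma card_not_expn_le (k Δ : ℕ) {A : ℝ} {ρ : ℕ} (hkρ : k ≤ ρ) (hρ : 1 ≤ ρ)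
    (h : ∀ n s : ℕ, 1 ≤ s → s ≤ n / ρ →
      ((Δ * n).choose s : ℝ) * (n.choose ((2 * k + 1) * s / 4) : ℝ) *
        ((((2 * k + 1) * s / 4 : ℕ) : ℝ) / n) ^ (k * s) ≤
          √(√(A / n)) * (s * (1 / 2 : ℝ) ^ (s - 1))) (hk : 3 ≤ k) (n : ℕ) (hn : 1 ≤ n) :
    ((open Classical in univ.filter fun F : Fin (Δ * n) → Fin k → Fin n × Bool =>
      ¬ Expn (clF F) (n / ρ) 2).card : ℝ) /
        Fintype.card (Fin (Δ * n) → Fin k → Fin n × Bool) ≤ 4 * √(√(A / n)) := by
  classical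
  have hN := card_pos (m := Δ * n) (k := k) hn
  have h1 : (univ.filter fun F : Fin (Δ * n) → Fin k → Fin n × Bool =>
      ¬ Expn (clF F) (n / ρ) 2) ⊆ (Icc 1 (n / ρ)).biUnion fun s =>
        univ.filter fun F : Fin (Δ * n) → Fin k → Fin n × Bool =>
          ∃ S : Finset (Fin (Δ * n)), S.card = s ∧
            4 * (Vr (clF F) S).card < (2 * k + 1) * s := by
    intro F hF
    obtain ⟨S, hS1, hS2, hS3⟩ := not_expn (fun i => card_vr_clF F i) (Finset.mem_filter.1 hF).2
    rw [Finset.mem_biUnion]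
    refine ⟨S.card, Finset.mem_Icc.2 ⟨Finset.card_pos.2 hS1, hS2⟩, ?_⟩
    rw [Finset.mem_filter]
    exact ⟨Finset.mem_univ _, S, rfl, hS3⟩
  have h2 : ((univ.filter fun F : Fin (Δ * n) → Fin k → Fin n × Bool =>
      ¬ Expn (clF F) (n / ρ) 2).card : ℝ) ≤
      ∑ s ∈ Icc 1 (n / ρ), ((univ.filter fun F : Fin (Δ * n) → Fin k → Fin n × Bool =>
          ∃ S : Finset (Fin (Δ * n)), S.card = s ∧
            4 * (Vr (clF F) S).card < (2 * k + 1) * s).card : ℝ) := by
    exact_mod_cast (Finset.card_le_card h1).trans Finset.card_biUnion_le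
  rw [div_le_iff₀ hN]
  refine le_trans (le_of_eq ?_) (h2.trans ?_)
  · congr!
  have h3 : ∀ s ∈ Icc 1 (n / ρ), ((univ.filter fun F : Fin (Δ * n) → Fin k → Fin n × Bool =>
          ∃ S : Finset (Fin (Δ * n)), S.card = s ∧
            4 * (Vr (clF F) S).card < (2 * k + 1) * s).card : ℝ) ≤
      √(√(A / n)) * (s * (1 / 2 : ℝ) ^ (s - 1)) *
        Fintype.card (Fin (Δ * n) → Fin k → Fin n × Bool) := by
    intro s hs
    rw [Finset.mem_Icc] at hs
    have hsn : s * ρ ≤ n := (Nat.le_div_iff_mul_le hρ).1 hs.2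
    have h4 : (2 * k + 1) * s / 4 ≤ n := by
      have h5 : (2 * k + 1) * s / 4 ≤ k * s := by
        apply Nat.div_le_of_le_mul
        nlinarith
      have h6 : k * s ≤ s * ρ := by
        rw [mul_comm]
        exact Nat.mul_le_mul_left _ hkρ
      omega
    have h5 := card_bad_le (m := Δ * n) (k := k) hn h4
    refine le_trans (le_of_eq ?_) (h5.trans ?_)
    · congr!
    · exact mul_le_mul_of_nonneg_right (h n s hs.1 hs.2) hN.le
  calc _ ≤ ∑ s ∈ Icc 1 (n / ρ), √(√(A / n)) * (s * (1 / 2 : ℝ) ^ (s - 1)) *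
        Fintype.card (Fin (Δ * n) → Fin k → Fin n × Bool) := Finset.sum_le_sum h3
    _ = √(√(A / n)) * (∑ s ∈ Icc 1 (n / ρ), (s : ℝ) * (1 / 2 : ℝ) ^ (s - 1)) *
        Fintype.card (Fin (Δ * n) → Fin k → Fin n × Bool) := by
        rw [Finset.mul_sum, Finset.sum_mul]
    _ ≤ √(√(A / n)) * 4 * Fintype.card (Fin (Δ * n) → Fin k → Fin n × Bool) := by
        gcongr
        exact sum_half_le _
    _ = _ := by ring

lemma expand_typ (k Δ : ℕ) (hk : 3 ≤ k) : ∃ ρ : ℕ, 1 ≤ ρ ∧ Tendsto (fun n : ℕ =>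
    ((open Classical in univ.filter fun F : Fin (Δ * n) → Fin k → Fin n × Bool =>
      ¬ Expn (clF F) (n / ρ) 2).card : ℝ) /
        Fintype.card (Fin (Δ * n) → Fin k → Fin n × Bool)) atTop (𝓝 0) := by
  obtain ⟨A, ρ, hA, hkρ, h⟩ := rnum k Δ hk
  have hρ : 1 ≤ ρ := by omega
  refine ⟨ρ, hρ, ?_⟩
  have hlim : Tendsto (fun n : ℕ => 4 * √(√(A / n))) atTop (𝓝 0) := by
    have h1 : Tendsto (fun n : ℕ => A / (n : ℝ)) atTop (𝓝 0) :=
      tendsto_const_div_atTop_nhds_zero_nat A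
    have h2 := ((h1.sqrt).sqrt).const_mul 4
    simpa using h2
  refine squeeze_zero' (Eventually.of_forall fun n => by positivity) ?_ hlim
  filter_upwards [eventually_ge_atTop 1] with n hn
  exact card_not_expn_le k Δ hkρ hρ h hk n hn

private lemma card_falsified {k n : ℕ} (v : Fin n → Bool) :
    (univ.filter fun C : Fin k → Fin n × Bool => ∀ j, v (C j).1 ≠ (C j).2).card = n ^ k := by
  classical
  have h1 : (univ.filter fun C : Fin k → Fin n × Bool => ∀ j, v (C j).1 ≠ (C j).2) =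
      Fintype.piFinset fun _ : Fin k => (univ : Finset (Fin n)).image fun x => (x, !(v x)) := by
    ext C
    simp only [Finset.mem_filter, Finset.mem_univ, true_and, Fintype.mem_piFinset,
      Finset.mem_image]
    refine forall_congr' fun j => ?_
    constructor
    · intro h
      refine ⟨(C j).1, Prod.ext rfl ?_⟩
      show (!(v (C j).1)) = (C j).2
      revert h
      cases v (C j).1 <;> cases (C j).2 <;> simp
    · rintro ⟨x, hx⟩
      rw [← hx]
      simp
  rw [h1, Fintype.card_piFinset, Finset.prod_const, Finset.card_univ, Fintype.card_fin,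
    Finset.card_image_of_injective _ (fun x y h => (Prod.ext_iff.1 h).1), Finset.card_univ,
    Fintype.card_fin]

private lemma card_satisfied {m k n : ℕ} (v : Fin n → Bool) :
    ((univ.filter fun F : Fin m → Fin k → Fin n × Bool =>
      ∀ i, ∃ j, v (F i j).1 = (F i j).2).card : ℝ) =
        ((2 * n : ℝ) ^ k - (n : ℝ) ^ k) ^ m := by
  classical
  have h1 : (univ.filter fun F : Fin m → Fin k → Fin n × Bool =>
      ∀ i, ∃ j, v (F i j).1 = (F i j).2) =
      Fintype.piFinset fun _ : Fin m => (univ : Finset (Fin k → Fin n × Bool)) \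
        (univ.filter fun C : Fin k → Fin n × Bool => ∀ j, v (C j).1 ≠ (C j).2) := by
    ext F
    simp only [Finset.mem_filter, Finset.mem_univ, true_and, Fintype.mem_piFinset,
      Finset.mem_sdiff]
    refine forall_congr' fun i => ?_
    push Not
    rfl
  rw [h1, Fintype.card_piFinset, Finset.prod_const, Finset.card_univ, Fintype.card_fin,
    Nat.cast_pow]
  congr 1
  rw [Finset.cast_card_sdiff (Finset.filter_subset _ _), card_falsified]
  congr 1
  · simp [mul_comm]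
  · push_cast
    rfl

lemma unsat_typ (k Δ : ℕ) (hk : 1 ≤ k) (hΔ : 2 ^ k ≤ Δ) : Tendsto (fun n : ℕ =>
    ((open Classical in univ.filter fun F : Fin (Δ * n) → Fin k → Fin n × Bool =>
      ∃ v : Fin n → Bool, ∀ i, ∃ j, v (F i j).1 = (F i j).2).card : ℝ) /
        Fintype.card (Fin (Δ * n) → Fin k → Fin n × Bool)) atTop (𝓝 0) := by
  classical
  have hq0 : (0 : ℝ) ≤ 1 - (1 / 2 : ℝ) ^ k := by
    have : (1 / 2 : ℝ) ^ k ≤ 1 := pow_le_one₀ (by norm_num) (by norm_num)
    linarith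
  have hq1 : (1 : ℝ) - (1 / 2 : ℝ) ^ k ≤ 1 := by
    have : (0 : ℝ) ≤ (1 / 2 : ℝ) ^ k := by positivity
    linarith
  have hq : (1 - (1 / 2 : ℝ) ^ k) ^ Δ ≤ Real.exp (-1) := by
    calc (1 - (1 / 2 : ℝ) ^ k) ^ Δ ≤ (1 - (1 / 2 : ℝ) ^ k) ^ (2 ^ k) :=
          pow_le_pow_of_le_one hq0 hq1 hΔ
      _ ≤ (Real.exp (-(1 / 2 : ℝ) ^ k)) ^ (2 ^ k) := by
          gcongr
          have := Real.add_one_le_exp (-(1 / 2 : ℝ) ^ k)
          linarith
      _ = Real.exp (-1) := by
          rw [← Real.exp_nat_mul]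
          congr 1
          push_cast
          rw [mul_neg, ← mul_pow]
          norm_num
  have he : 2 * Real.exp (-1) < 1 := by
    have h1 : (2 : ℝ) < Real.exp 1 := by
      have := Real.add_one_lt_exp (one_ne_zero : (1 : ℝ) ≠ 0)
      linarith
    have h2 : Real.exp (-1) * Real.exp 1 = 1 := by
      rw [← Real.exp_add]
      simp
    nlinarith [Real.exp_pos (-1)]
  have hlim : Tendsto (fun n : ℕ => (2 * Real.exp (-1)) ^ n) atTop (𝓝 0) :=
    tendsto_pow_atTop_nhds_zero_of_lt_one (by positivity) he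
  refine squeeze_zero' (Eventually.of_forall fun n => by positivity) ?_ hlim
  filter_upwards [eventually_ge_atTop 1] with n hn
  have hN := card_pos (m := Δ * n) (k := k) hn
  have hn0 : (0 : ℝ) < n := by exact_mod_cast hn
  rw [div_le_iff₀ hN]
  have h1 : (univ.filter fun F : Fin (Δ * n) → Fin k → Fin n × Bool =>
      ∃ v : Fin n → Bool, ∀ i, ∃ j, v (F i j).1 = (F i j).2) ⊆
      (univ : Finset (Fin n → Bool)).biUnion fun v =>
        univ.filter fun F : Fin (Δ * n) → Fin k → Fin n × Bool =>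
          ∀ i, ∃ j, v (F i j).1 = (F i j).2 := by
    intro F hF
    obtain ⟨v, hv⟩ := (Finset.mem_filter.1 hF).2
    exact Finset.mem_biUnion.2 ⟨v, Finset.mem_univ _, Finset.mem_filter.2 ⟨Finset.mem_univ _, hv⟩⟩
  have h2 : ((univ.filter fun F : Fin (Δ * n) → Fin k → Fin n × Bool =>
      ∃ v : Fin n → Bool, ∀ i, ∃ j, v (F i j).1 = (F i j).2).card : ℝ) ≤
      ∑ v : Fin n → Bool, ((univ.filter fun F : Fin (Δ * n) → Fin k → Fin n × Bool =>
          ∀ i, ∃ j, v (F i j).1 = (F i j).2).card : ℝ) := by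
    exact_mod_cast (Finset.card_le_card h1).trans Finset.card_biUnion_le
  refine le_trans (le_of_eq ?_) (h2.trans ?_)
  · congr!
  rw [Finset.sum_congr rfl fun v _ => card_satisfied v, Finset.sum_const, Finset.card_univ,
    nsmul_eq_mul]
  have h3 : (Fintype.card (Fin n → Bool) : ℝ) = 2 ^ n := by
    simp
  have h4 : (Fintype.card (Fin (Δ * n) → Fin k → Fin n × Bool) : ℝ) =
      ((2 * n : ℝ) ^ k) ^ (Δ * n) := by
    simp [mul_comm]
  have h5 : (2 * n : ℝ) ^ k - (n : ℝ) ^ k = (1 - (1 / 2 : ℝ) ^ k) * (2 * n : ℝ) ^ k := by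
    rw [sub_mul, one_mul, ← mul_pow]
    congr 2
    ring
  rw [h3, h4, h5, mul_pow (1 - (1 / 2 : ℝ) ^ k), pow_mul (1 - (1 / 2 : ℝ) ^ k), ← mul_assoc,
    ← mul_pow 2]
  gcongr

theorem typical (k Δ : ℕ) (hk : 3 ≤ k) : ∃ (ρ : ℕ)
    (G : (n : ℕ) → Finset (Fin (Δ * n) → Fin k → Fin n × Bool)), 1 ≤ ρ ∧
    Tendsto (fun n : ℕ => ((G n).card : ℝ) /
      Fintype.card (Fin (Δ * n) → Fin k → Fin n × Bool)) atTop (𝓝 1) ∧
    (2 ^ k ≤ Δ → ∀ n, ∀ F ∈ G n, ∀ v : Fin n → Bool, ∃ i, ∀ j, v (F i j).1 ≠ (F i j).2) ∧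
    ∀ n, ∀ F ∈ G n, Expn (clF F) (n / ρ) 2 := by
  classical
  obtain ⟨ρ, hρ, h1⟩ := expand_typ k Δ hk
  refine ⟨ρ, fun n => univ.filter fun F => Expn (clF F) (n / ρ) 2 ∧
    (2 ^ k ≤ Δ → ∀ v : Fin n → Bool, ∃ i, ∀ j, v (F i j).1 ≠ (F i j).2), hρ, ?_, ?_, ?_⟩
  · set b : ℕ → ℝ := fun n => ((univ.filter fun F : Fin (Δ * n) → Fin k → Fin n × Bool =>
      ¬ Expn (clF F) (n / ρ) 2).card : ℝ) /
        Fintype.card (Fin (Δ * n) → Fin k → Fin n × Bool) +
        (if 2 ^ k ≤ Δ then ((univ.filter fun F : Fin (Δ * n) → Fin k → Fin n × Bool =>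
          ∃ v : Fin n → Bool, ∀ i, ∃ j, v (F i j).1 = (F i j).2).card : ℝ) /
        Fintype.card (Fin (Δ * n) → Fin k → Fin n × Bool) else 0) with hb
    have hb0 : Tendsto b atTop (𝓝 0) := by
      have e1 : Tendsto (fun n : ℕ => ((univ.filter fun F : Fin (Δ * n) → Fin k → Fin n × Bool =>
          ¬ Expn (clF F) (n / ρ) 2).card : ℝ) /
          Fintype.card (Fin (Δ * n) → Fin k → Fin n × Bool)) atTop (𝓝 0) := by
        convert h1 using 5
      have e2 : Tendsto (fun n : ℕ => (if 2 ^ k ≤ Δ then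
          ((univ.filter fun F : Fin (Δ * n) → Fin k → Fin n × Bool =>
          ∃ v : Fin n → Bool, ∀ i, ∃ j, v (F i j).1 = (F i j).2).card : ℝ) /
        Fintype.card (Fin (Δ * n) → Fin k → Fin n × Bool) else 0)) atTop (𝓝 0) := by
        by_cases hΔ : 2 ^ k ≤ Δ
        · simp only [if_pos hΔ]
          have h2 := unsat_typ k Δ (by omega) hΔ
          convert h2 using 5
        · simp only [if_neg hΔ]
          exact tendsto_const_nhds
      have e3 := e1.add e2
      rw [add_zero] at e3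
      exact e3
    have hlow : Tendsto (fun n => 1 - b n) atTop (𝓝 1) := by
      simpa using hb0.const_sub 1
    refine tendsto_of_tendsto_of_tendsto_of_le_of_le' hlow tendsto_const_nhds ?_ ?_
    · filter_upwards [eventually_ge_atTop 1] with n hn
      have hN := card_pos (m := Δ * n) (k := k) hn
      set N : ℝ := (Fintype.card (Fin (Δ * n) → Fin k → Fin n × Bool) : ℝ) with hNdef
      have hsub : (univ : Finset (Fin (Δ * n) → Fin k → Fin n × Bool)) ⊆
          (univ.filter fun F : Fin (Δ * n) → Fin k → Fin n × Bool => Expn (clF F) (n / ρ) 2 ∧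
          (2 ^ k ≤ Δ → ∀ v : Fin n → Bool, ∃ i, ∀ j, v (F i j).1 ≠ (F i j).2)) ∪
          ((univ.filter fun F : Fin (Δ * n) → Fin k → Fin n × Bool =>
            ¬ Expn (clF F) (n / ρ) 2) ∪
          (if 2 ^ k ≤ Δ then (univ.filter fun F : Fin (Δ * n) → Fin k → Fin n × Bool =>
            ∃ v : Fin n → Bool, ∀ i, ∃ j, v (F i j).1 = (F i j).2) else ∅)) := by
        intro F _
        by_cases c1 : Expn (clF F) (n / ρ) 2
        · by_cases c2 : (2 ^ k ≤ Δ → ∀ v : Fin n → Bool, ∃ i, ∀ j, v (F i j).1 ≠ (F i j).2)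
          · exact Finset.mem_union_left _ (Finset.mem_filter.2 ⟨Finset.mem_univ _, c1, c2⟩)
          · push Not at c2
            refine Finset.mem_union_right _ (Finset.mem_union_right _ ?_)
            rw [if_pos c2.1]
            exact Finset.mem_filter.2 ⟨Finset.mem_univ _, c2.2⟩
        · exact Finset.mem_union_right _ (Finset.mem_union_left _
            (Finset.mem_filter.2 ⟨Finset.mem_univ _, c1⟩))
      have hcard := (Finset.card_le_card hsub).trans ((Finset.card_union_le _ _).trans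
        (Nat.add_le_add_left (Finset.card_union_le _ _) _))
      rw [Finset.card_univ] at hcard
      have hcard' : N ≤ ((univ.filter fun F : Fin (Δ * n) → Fin k → Fin n × Bool =>
          Expn (clF F) (n / ρ) 2 ∧
          (2 ^ k ≤ Δ → ∀ v : Fin n → Bool, ∃ i, ∀ j, v (F i j).1 ≠ (F i j).2)).card : ℝ) +
          (((univ.filter fun F : Fin (Δ * n) → Fin k → Fin n × Bool =>
            ¬ Expn (clF F) (n / ρ) 2).card : ℝ) +
          ((if 2 ^ k ≤ Δ then (univ.filter fun F : Fin (Δ * n) → Fin k → Fin n × Bool =>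
            ∃ v : Fin n → Bool, ∀ i, ∃ j, v (F i j).1 = (F i j).2) else ∅).card : ℝ)) := by
        rw [hNdef]
        exact_mod_cast hcard
      have hif : (((if 2 ^ k ≤ Δ then (univ.filter fun F : Fin (Δ * n) → Fin k → Fin n × Bool =>
            ∃ v : Fin n → Bool, ∀ i, ∃ j, v (F i j).1 = (F i j).2) else ∅) :
            Finset (Fin (Δ * n) → Fin k → Fin n × Bool)).card : ℝ) =
          (if 2 ^ k ≤ Δ then ((univ.filter fun F : Fin (Δ * n) → Fin k → Fin n × Bool =>
            ∃ v : Fin n → Bool, ∀ i, ∃ j, v (F i j).1 = (F i j).2).card : ℝ) / N else 0) * N := by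
        by_cases hΔ : 2 ^ k ≤ Δ
        · simp only [if_pos hΔ]
          rw [div_mul_cancel₀ _ hN.ne']
        · simp [if_neg hΔ]
      rw [hif] at hcard'
      rw [le_div_iff₀ hN, hb]
      simp only
      rw [sub_mul, one_mul, add_mul, div_mul_cancel₀ _ hN.ne']
      linarith
    · filter_upwards [eventually_ge_atTop 1] with n hn
      have hN := card_pos (m := Δ * n) (k := k) hn
      rw [div_le_one hN]
      exact_mod_cast Finset.card_le_univ _
  · intro hΔ n F hF
    exact (Finset.mem_filter.1 hF).2.2 hΔ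
  · intro n F hF
    exact (Finset.mem_filter.1 hF).2.1

end Pool.Agent.Work.MP_c04246_lc.R
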