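import Pool.Agent.Work.MP_c04246_lc.R.Fin2
import Pool.Agent.Work.MP_c04246_lc.R.RTyp

/-!
MODULE Fin3 (size S-M). Random k-CNFs.

Proof. `typical` gives `ρ`, `G`. Let `ρ' = 2 * ρ * (Δ + 1)`; for `n ≥ ρ`, `r = n / ρ` satisfies `n ≤ 2 ρ r ≤ ρ' r` and
`Δ n ≤ ρ' r`. `C' = (C + 1) * C + C`; lines with `depth ≤ C`, `size ≤ C n` have cost `≤ C * (C n) ≤ C' n` by
`cost_le_depth`. Let `τ, a, r0` be given by `main_exp k 2 ρ' _ p K κ C'`. For `n ≥ ρ * (r0 + 1) + 1`: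
`2 ^ r ≤ size ^ a`, and `n ≤ 2 ρ r`, so `2 ^ n ≤ (2 ^ r)^(2 ρ) ≤ size ^ (2 ρ a)`.
-/

set_option autoImplicit false

namespace Pool.Agent.Work.MP_c04246_lc.R

open Finset Filter Topology

theorem main_random (k Δ : ℕ) (hk : 3 ≤ k) :
    ∃ G : (n : ℕ) → Finset (Fin (Δ * n) → Fin k → Fin n × Bool),
      Tendsto (fun n : ℕ => ((G n).card : ℝ) /
        Fintype.card (Fin (Δ * n) → Fin k → Fin n × Bool)) atTop (𝓝 1) ∧
      (2 ^ k ≤ Δ → ∀ n, ∀ F ∈ G n, ∀ v : Fin n → Bool, ∃ i, ∀ j, v (F i j).1 ≠ (F i j).2) ∧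
      ∀ p : ℕ, p.Prime → ∀ K κ C : ℕ, ∃ τ a n0 : ℕ, ∀ n ≥ n0, ∀ F ∈ G n,
        ∀ pi : List (Fml p (Fin n)), Fml.IsDer K (Set.range fun i => Fml.clauseF (F i)) pi →
          (Fml.dnfF F ∈ pi ∨ Fml.cst false ∈ pi) →
          (∀ b ∈ pi, Fml.cost κ τ n none b ≤ C * n ∨
            (Fml.depth b ≤ C ∧ Fml.size b ≤ C * n)) →
          2 ^ n ≤ (pi.map Fml.size).sum ^ a := by
  obtain ⟨ρ, G, hρ1, hT, hun, hexp⟩ := typical k Δ hk
  refine ⟨G, hT, hun, ?_⟩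
  intro p hp K κ C
  have : Fact p.Prime := ⟨hp⟩
  obtain ⟨τ, a, r0, h⟩ := main_exp k 2 (2 * ρ * (Δ + 1)) (by norm_num) p K κ ((C + 1) * C + C)
  refine ⟨τ, a * (2 * ρ), ρ * (r0 + 1) + 1, ?_⟩
  intro n hn F hF pi hpi hend hcost
  have hρ : 0 < ρ := hρ1
  obtain ⟨r, hrd⟩ : ∃ r, r = n / ρ := ⟨_, rfl⟩
  have hr0 : r0 + 1 ≤ r := by
    rw [hrd, Nat.le_div_iff_mul_le hρ, mul_comm]
    omega
  have hnr : n ≤ 2 * ρ * r := by
    have h1 : n < ρ * (r + 1) := by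
      rw [hrd]
      exact Nat.lt_mul_div_succ n hρ
    have h2 : ρ * (r + 1) ≤ ρ * (2 * r) := Nat.mul_le_mul_left ρ (by omega)
    have h3 : ρ * (2 * r) = 2 * ρ * r := by ring
    omega
  have hn1 : 1 ≤ n := by omega
  have h1 := h n (Δ * n) F r (by omega) hn1
    (by
      refine hnr.trans (Nat.mul_le_mul_right r ?_)
      exact Nat.le_mul_of_pos_right _ (by omega))
    (by
      calc Δ * n ≤ Δ * (2 * ρ * r) := Nat.mul_le_mul_left Δ hnr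
        _ = 2 * ρ * Δ * r := by ring
        _ ≤ 2 * ρ * (Δ + 1) * r :=
          Nat.mul_le_mul_right r (Nat.mul_le_mul_left _ (Nat.le_succ Δ)))
    (by rw [hrd]; exact hexp n F hF) pi hpi hend
    (by
      intro b hb
      rcases hcost b hb with h2 | ⟨h2, h3⟩
      · refine h2.trans (Nat.mul_le_mul_right n ?_)
        exact Nat.le_add_left _ _
      · calc Fml.cost κ τ n none b ≤ Fml.depth b * Fml.size b := cost_le_depth κ τ n b
          _ ≤ C * (C * n) := Nat.mul_le_mul h2 h3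
          _ = C * C * n := by ring
          _ ≤ ((C + 1) * C + C) * n := Nat.mul_le_mul_right n (by nlinarith))
  calc 2 ^ n ≤ 2 ^ (2 * ρ * r) := Nat.pow_le_pow_right (by norm_num) hnr
    _ = (2 ^ r) ^ (2 * ρ) := by rw [← pow_mul, mul_comm r]
    _ ≤ ((pi.map Fml.size).sum ^ a) ^ (2 * ρ) := Nat.pow_le_pow_left h1 _
    _ = (pi.map Fml.size).sum ^ (a * (2 * ρ)) := by rw [← pow_mul]

end Pool.Agent.Work.MP_c04246_lc.R
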