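import Pool.Agent.Work.MP_c04246_lc.R.RBase

/-!
MODULE Cells (size M-L). Combinatorics of the children of a few counting connectives.

`RespZ P c`: the values `P` (in `ZMod p`) obey the truth table of the outermost connective of `c`.

Construction. `ch` = the set of all children `f j` of the members `mod i k f` of `C`; `N1` = `N0`, `C`, and the
children of the members of `C` of the form `neg a`, `bin c a b` (at most `3 C.card` new formulas). For a
formula `ψ` let `μ ψ : C → ZMod p`, `μ ψ ⟨mod i k f, _⟩ = #{j | f j = ψ}` (mod `p`), `0` for the other members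
of `C`. For `a : C → ZMod p` let `cell a = {ψ ∈ ch \ N1 | μ ψ = a}`. If `(cell a).card < p` put all of its
members in `N`, otherwise put the finset `cell a` in `G`. So `N.card ≤ N0.card + 3 K + p * p^K`,
`G.card ≤ p^K`; the members of `G` are disjoint from each other and from `N`.
(meas) for `mod i k f ∈ C`: `∑ j, P (f j) = ∑ ψ ∈ ch, μ ψ c * P ψ` (fibers of `f`; `c = mod i k f`) `=`
`∑ ψ ∈ ch ∩ N, μ ψ c * P ψ + ∑ (cell a ∈ G) a c * ∑ ψ ∈ cell a, P ψ`: determined by the values on `N` and the sums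
over the members of `G`.
(real) given `P` with values `0`, `1` on `N` and `RespZ P c` for `c ∈ C`: for a member `q` of `G` let
`t = ∑ ψ ∈ q, P ψ`, `t.val < p ≤ q.card`, choose a subset `q' ⊆ q` with `q'.card = t.val`
(`Finset.exists_subset_card_eq`). Let `v ψ = true` iff (`ψ ∈ N` and `P ψ = 1`) or `ψ ∈ q'` for some `q ∈ G`. Then
the function `P' ψ = if v ψ then 1 else 0` agrees with `P` on `N` and has the same sums over the members
of `G`; by (meas) `∑ j, P' (f j) = ∑ j, P (f j)` for `mod i k f ∈ C`; so `RespZ P c` gives `Resp v c` in all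
cases (for `neg`, `bin`, `cst` the formulas involved are in `N`, with values `0`, `1`).
`K` bounds `C.card`. `NB p K = 4 * K + 1 + p * p ^ K + p ^ K` bounds `N.card + G.card`, if `N0.card ≤ K + 1`.
-/

set_option autoImplicit false

namespace Pool.Agent.Work.MP_c04246_lc.R

open Finset

variable {U : Type} {p : ℕ} [Fact p.Prime]

/-- the values obey the truth table of the outermost connective -/
def RespZ (P : Fml p U → ZMod p) : Fml p U → Prop
  | .var _ => True
  | .cst b => P (.cst b) = if b = true then 1 else 0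
  | .neg a => P (.neg a) = 1 - P a
  | .bin c a b => P (.bin c a b) = if c = true then P a + P b - P a * P b else P a * P b
  | .mod i k f => P (.mod i k f) = if (∑ j, P (f j)) = i then 1 else 0

/-- number of named quantities -/
def NB (p K : ℕ) : ℕ := 4 * K + 1 + p * p ^ K + p ^ K

open Classical in
private noncomputable def kids : Fml p U → Finset (Fml p U)
  | .var _ => ∅
  | .cst _ => ∅
  | .neg _ => ∅
  | .bin _ _ _ => ∅
  | .mod _ _ f => univ.image f

open Classical in
private noncomputable def unk : Fml p U → Finset (Fml p U)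
  | .var _ => ∅
  | .cst _ => ∅
  | .neg a => {a}
  | .bin _ a b => {a, b}
  | .mod _ _ _ => ∅

open Classical in
private noncomputable def mu (ψ : Fml p U) : Fml p U → ZMod p
  | .var _ => 0
  | .cst _ => 0
  | .neg _ => 0
  | .bin _ _ _ => 0
  | .mod _ _ f => ∑ j, if f j = ψ then 1 else 0

private theorem self_mem (a : Fml p U) : a ∈ Fml.subs a := by
  cases a <;> simp [Fml.subs]

open Classical in
private theorem kids_sub (c : Fml p U) : kids c ⊆ Fml.subs c := by
  cases c with
  | var x => simp [kids]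
  | cst b => simp [kids]
  | neg a => simp [kids]
  | bin c a b => simp [kids]
  | mod i k f =>
    intro ψ hψ
    simp only [kids, mem_image, mem_univ, true_and] at hψ
    obtain ⟨j, rfl⟩ := hψ
    simp only [Fml.subs, mem_insert, mem_biUnion, mem_univ, true_and]
    exact Or.inr ⟨j, self_mem _⟩

open Classical in
private theorem unk_sub (c : Fml p U) : unk c ⊆ Fml.subs c := by
  cases c with
  | var x => simp [unk]
  | cst b => simp [unk]
  | neg a =>
    intro ψ hψ
    simp only [unk, mem_singleton] at hψ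
    subst hψ
    simp only [Fml.subs, mem_insert]
    exact Or.inr (self_mem _)
  | bin c a b =>
    intro ψ hψ
    simp only [unk, mem_insert, mem_singleton] at hψ
    simp only [Fml.subs, mem_insert, mem_union]
    rcases hψ with rfl | rfl
    · exact Or.inr (Or.inl (self_mem _))
    · exact Or.inr (Or.inr (self_mem _))
  | mod i k f => simp [unk]

open Classical in
private theorem unk_card (c : Fml p U) : (unk c).card ≤ 2 := by
  cases c with
  | var x => simp [unk]
  | cst b => simp [unk]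
  | neg a => simp [unk]
  | bin c a b => simpa [unk] using card_le_two
  | mod i k f => simp [unk]

open Classical in
private theorem sum_mu (ch : Finset (Fml p U)) (P : Fml p U → ZMod p) (i : ZMod p) (k : ℕ)
    (f : Fin k → Fml p U) (h : ∀ j, f j ∈ ch) :
    ∑ j, P (f j) = ∑ ψ ∈ ch, mu ψ (.mod i k f) * P ψ := by
  have h1 : ∀ j, P (f j) = ∑ ψ ∈ ch, (if f j = ψ then 1 else 0) * P ψ := by
    intro j
    rw [Finset.sum_eq_single (f j)]
    · simp
    · intro b _ hb
      rw [if_neg (Ne.symm hb), zero_mul]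
    · intro hh
      exact absurd (h j) hh
  rw [Finset.sum_congr rfl fun j _ => h1 j, Finset.sum_comm]
  refine Finset.sum_congr rfl fun ψ _ => ?_
  rw [← Finset.sum_mul]
  simp only [mu]

theorem cells (K : ℕ) (C N0 : Finset (Fml p U)) (hC : C.card ≤ K) (hN0 : N0.card ≤ K + 1) :
    ∃ (N : Finset (Fml p U)) (G : Finset (Finset (Fml p U))), N.card + G.card ≤ NB p K ∧
      N0 ⊆ N ∧ C ⊆ N ∧
      (∀ a, Fml.neg a ∈ C → a ∈ N) ∧ (∀ c a b, Fml.bin c a b ∈ C → a ∈ N ∧ b ∈ N) ∧
      (∀ ψ ∈ N, ψ ∈ N0 ∨ ∃ c ∈ C, ψ ∈ Fml.subs c) ∧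
      (∀ q ∈ G, ∀ ψ ∈ q, ∃ c ∈ C, ψ ∈ Fml.subs c) ∧
      (∀ P P' : Fml p U → ZMod p, (∀ ψ ∈ N, P ψ = P' ψ) →
        (∀ q ∈ G, ∑ ψ ∈ q, P ψ = ∑ ψ ∈ q, P' ψ) →
        ∀ (i : ZMod p) (k : ℕ) (f : Fin k → Fml p U), Fml.mod i k f ∈ C →
          ∑ j, P (f j) = ∑ j, P' (f j)) ∧
      ∀ P : Fml p U → ZMod p, (∀ ψ ∈ N, P ψ = 0 ∨ P ψ = 1) → (∀ c ∈ C, RespZ P c) →
        ∃ v : Fml p U → Bool, (∀ ψ ∈ N, v ψ = true ↔ P ψ = 1) ∧ ∀ c ∈ C, Fml.Resp v c := by
  classical
  have hp : 0 < p := (Fact.out : p.Prime).pos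
  have : NeZero p := ⟨hp.ne'⟩
  set ch : Finset (Fml p U) := C.biUnion kids with hch
  set N1 : Finset (Fml p U) := N0 ∪ (C ∪ C.biUnion unk) with hN1
  let lab : Fml p U → ({c // c ∈ C} → ZMod p) := fun ψ c => mu ψ c.1
  let cell : ({c // c ∈ C} → ZMod p) → Finset (Fml p U) := fun a =>
    (ch \ N1).filter fun ψ => lab ψ = a
  have hcell : ∀ a ψ, ψ ∈ cell a ↔ (ψ ∈ ch ∧ ψ ∉ N1) ∧ lab ψ = a := by
    intro a ψ
    simp only [cell, mem_filter, mem_sdiff]
  set N : Finset (Fml p U) := N1 ∪ (univ.filter fun a => (cell a).card < p).biUnion cell with hN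
  set G : Finset (Finset (Fml p U)) := (univ.filter fun a => ¬ (cell a).card < p).image cell
    with hG
  have hNmem : ∀ ψ, ψ ∈ N ↔ ψ ∈ N1 ∨ ∃ a, (cell a).card < p ∧ ψ ∈ cell a := by
    intro ψ
    simp only [hN, mem_union, mem_biUnion, mem_filter, mem_univ, true_and]
  have hGmem : ∀ q, q ∈ G ↔ ∃ a, ¬ (cell a).card < p ∧ cell a = q := by
    intro q
    simp only [hG, mem_image, mem_filter, mem_univ, true_and]
  have hN1N : N1 ⊆ N := fun ψ h => (hNmem ψ).2 (Or.inl h)
  have hchs : ∀ ψ ∈ ch, ∃ c ∈ C, ψ ∈ Fml.subs c := by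
    intro ψ h
    obtain ⟨c, hc, hψ⟩ := mem_biUnion.1 h
    exact ⟨c, hc, kids_sub c hψ⟩
  have hCN : C ⊆ N := fun c hc => hN1N (mem_union_right _ (mem_union_left _ hc))
  have hUN : ∀ c ∈ C, unk c ⊆ N := fun c hc ψ h =>
    hN1N (mem_union_right _ (mem_union_right _ (mem_biUnion.2 ⟨c, hc, h⟩)))
  have hneg : ∀ a, Fml.neg a ∈ C → a ∈ N := fun a ha => hUN _ ha (by simp [unk])
  have hbin : ∀ c a b, Fml.bin c a b ∈ C → a ∈ N ∧ b ∈ N := fun c a b h =>
    ⟨hUN _ h (by simp [unk]), hUN _ h (by simp [unk])⟩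
  have hmeas : ∀ P P' : Fml p U → ZMod p, (∀ ψ ∈ N, P ψ = P' ψ) →
        (∀ q ∈ G, ∑ ψ ∈ q, P ψ = ∑ ψ ∈ q, P' ψ) →
        ∀ (i : ZMod p) (k : ℕ) (f : Fin k → Fml p U), Fml.mod i k f ∈ C →
          ∑ j, P (f j) = ∑ j, P' (f j) := by
    intro P P' h1 h2 i k f hf
    have hfch : ∀ j, f j ∈ ch := fun j => mem_biUnion.2 ⟨_, hf, by simp [kids]⟩
    rw [sum_mu ch P i k f hfch, sum_mu ch P' i k f hfch]
    rw [← Finset.sum_inter_add_sum_sdiff ch N1, ← Finset.sum_inter_add_sum_sdiff ch N1]
    congr 1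
    · refine Finset.sum_congr rfl fun ψ hψ => ?_
      rw [h1 ψ (hN1N (mem_inter.1 hψ).2)]
    · rw [← Finset.sum_fiberwise (ch \ N1) lab, ← Finset.sum_fiberwise (ch \ N1) lab]
      refine Finset.sum_congr rfl fun a _ => ?_
      show ∑ ψ ∈ cell a, _ = ∑ ψ ∈ cell a, _
      by_cases ha : (cell a).card < p
      · refine Finset.sum_congr rfl fun ψ hψ => ?_
        rw [h1 ψ ((hNmem ψ).2 (Or.inr ⟨a, ha, hψ⟩))]
      · have h3 : ∀ R : Fml p U → ZMod p, ∑ ψ ∈ cell a, mu ψ (.mod i k f) * R ψ =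
            a ⟨_, hf⟩ * ∑ ψ ∈ cell a, R ψ := by
          intro R
          rw [Finset.mul_sum]
          refine Finset.sum_congr rfl fun ψ hψ => ?_
          rw [← ((hcell a ψ).1 hψ).2]
        rw [h3, h3, h2 _ ((hGmem _).2 ⟨a, ha, rfl⟩)]
  have hcardA : Fintype.card ({c // c ∈ C} → ZMod p) ≤ p ^ K := by
    rw [Fintype.card_fun, ZMod.card, Fintype.card_coe]
    exact Nat.pow_le_pow_right hp hC
  refine ⟨N, G, ?_, fun ψ h => hN1N (mem_union_left _ h), hCN, hneg, hbin, ?_, ?_, hmeas, ?_⟩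
  · have e1 : N1.card ≤ 4 * K + 1 := by
      have a1 : N1.card ≤ N0.card + (C.card + (C.biUnion unk).card) :=
        (card_union_le _ _).trans (Nat.add_le_add_left (card_union_le _ _) _)
      have a2 : (C.biUnion unk).card ≤ C.card * 2 :=
        card_biUnion_le_card_mul _ _ _ fun c _ => unk_card c
      omega
    have e2 : ((univ.filter fun a => (cell a).card < p).biUnion cell).card ≤ p ^ K * p := by
      refine (card_biUnion_le_card_mul _ _ p fun a ha => ?_).trans ?_
      · exact (mem_filter.1 ha).2.le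
      · refine Nat.mul_le_mul_right _ ?_
        exact (card_le_univ _).trans hcardA
    have e3 : G.card ≤ p ^ K := card_image_le.trans ((card_le_univ _).trans hcardA)
    have e4 : N.card ≤ N1.card + ((univ.filter fun a => (cell a).card < p).biUnion cell).card :=
      card_union_le _ _
    unfold NB
    rw [mul_comm p (p ^ K)]
    omega
  · intro ψ hψ
    rcases (hNmem ψ).1 hψ with h | ⟨a, _, ha⟩
    · rcases mem_union.1 h with h | h
      · exact Or.inl h
      · right
        rcases mem_union.1 h with h | h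
        · exact ⟨ψ, h, self_mem ψ⟩
        · obtain ⟨c, hc, h⟩ := mem_biUnion.1 h
          exact ⟨c, hc, unk_sub c h⟩
    · exact Or.inr (hchs ψ ((hcell a ψ).1 ha).1.1)
  · intro q hq ψ hψ
    obtain ⟨a, _, rfl⟩ := (hGmem q).1 hq
    exact hchs ψ ((hcell a ψ).1 hψ).1.1
  · intro P h01 hR
    have hsub : ∀ q : Finset (Fml p U), q ∈ G → ∃ q' ⊆ q, q'.card = (∑ ψ ∈ q, P ψ).val := by
      intro q hq
      obtain ⟨a, ha, rfl⟩ := (hGmem q).1 hq
      have := ZMod.val_lt (∑ ψ ∈ cell a, P ψ)
      exact exists_subset_card_eq (by omega)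
    choose! s hs1 hs2 using hsub
    let v : Fml p U → Bool := fun ψ => decide ((ψ ∈ N ∧ P ψ = 1) ∨ ∃ q ∈ G, ψ ∈ s q)
    have hdis : ∀ q ∈ G, ∀ ψ ∈ q, ψ ∉ N := by
      intro q hq ψ hψ hψN
      obtain ⟨a, ha, rfl⟩ := (hGmem q).1 hq
      obtain ⟨⟨h1, h2⟩, h3⟩ := (hcell a ψ).1 hψ
      rcases (hNmem ψ).1 hψN with h | ⟨a', ha', h⟩
      · exact h2 h
      · rw [← h3] at ha
        rw [← ((hcell a' ψ).1 h).2] at ha'
        exact ha ha'
    have huniq : ∀ q ∈ G, ∀ q' ∈ G, ∀ ψ, ψ ∈ q → ψ ∈ q' → q = q' := by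
      intro q hq q' hq' ψ h h'
      obtain ⟨a, ha, rfl⟩ := (hGmem q).1 hq
      obtain ⟨a', ha', rfl⟩ := (hGmem q').1 hq'
      rw [← ((hcell a ψ).1 h).2, ← ((hcell a' ψ).1 h').2]
    have hvN : ∀ ψ ∈ N, v ψ = true ↔ P ψ = 1 := by
      intro ψ hψ
      simp only [v, decide_eq_true_eq]
      constructor
      · rintro (h | ⟨q, hq, h⟩)
        · exact h.2
        · exact absurd hψ (hdis q hq ψ (hs1 q hq h))
      · intro h
        exact Or.inl ⟨hψ, h⟩
    have hvG : ∀ q ∈ G, ∀ ψ ∈ q, (v ψ = true ↔ ψ ∈ s q) := by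
      intro q hq ψ hψ
      simp only [v, decide_eq_true_eq]
      constructor
      · rintro (h | ⟨q', hq', h⟩)
        · exact absurd h.1 (hdis q hq ψ hψ)
        · rw [huniq q hq q' hq' ψ hψ (hs1 q' hq' h)]
          exact h
      · intro h
        exact Or.inr ⟨q, hq, h⟩
    have hPN : ∀ ψ ∈ N, P ψ = if v ψ = true then 1 else 0 := by
      intro ψ hψ
      rcases h01 ψ hψ with h | h
      · have : ¬ v ψ = true := by
          rw [hvN ψ hψ, h]
          exact zero_ne_one
        rw [if_neg this, h]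
      · rw [if_pos ((hvN ψ hψ).2 h), h]
    have hPG : ∀ q ∈ G, ∑ ψ ∈ q, P ψ = ∑ ψ ∈ q, (if v ψ = true then 1 else 0) := by
      intro q hq
      have h1 : ∑ ψ ∈ q, (if v ψ = true then (1 : ZMod p) else 0) =
          ∑ ψ ∈ q, if ψ ∈ s q then 1 else 0 := by
        refine Finset.sum_congr rfl fun ψ hψ => ?_
        by_cases h : v ψ = true
        · rw [if_pos h, if_pos ((hvG q hq ψ hψ).1 h)]
        · rw [if_neg h, if_neg fun h' => h ((hvG q hq ψ hψ).2 h')]
      rw [h1, Finset.sum_ite_mem, inter_eq_right.2 (hs1 q hq), Finset.sum_const, hs2 q hq,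
        nsmul_eq_mul, mul_one, ZMod.natCast_zmod_val]
    have hsum := hmeas P (fun ψ => if v ψ = true then 1 else 0) hPN hPG
    refine ⟨v, hvN, ?_⟩
    intro c hc
    have hcR := hR c hc
    have hcN := hCN hc
    cases c with
    | var x => trivial
    | cst b =>
      show v (.cst b) = b
      simp only [RespZ] at hcR
      cases b with
      | true =>
        rw [hvN _ hcN, hcR]
        simp
      | false =>
        rw [← Bool.not_eq_true, hvN _ hcN, hcR]
        simp
    | neg a =>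
      show v (.neg a) = !(v a)
      simp only [RespZ] at hcR
      have haN := hneg a hc
      have e1 := hPN _ hcN
      have e2 := hPN _ haN
      rw [e1, e2] at hcR
      cases h1 : v (.neg a) <;> cases h2 : v a <;> simp [h1, h2] at hcR ⊢
    | bin c a b =>
      show v (.bin c a b) = if c then (v a || v b) else (v a && v b)
      simp only [RespZ] at hcR
      obtain ⟨haN, hbN⟩ := hbin c a b hc
      have e1 := hPN _ hcN
      have e2 := hPN _ haN
      have e3 := hPN _ hbN
      rw [e1, e2, e3] at hcR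
      cases h0 : c <;> cases h1 : v (.bin c a b) <;> cases h2 : v a <;> cases h3 : v b <;>
        subst h0 <;> simp [h1, h2, h3] at hcR ⊢
    | mod i k f =>
      show v (.mod i k f) = decide ((∑ j, if v (f j) then (1 : ZMod p) else 0) = i)
      simp only [RespZ] at hcR
      have h1 := hsum i k f hc
      rw [h1, hPN _ hcN] at hcR
      by_cases h : (∑ j, if v (f j) = true then (1 : ZMod p) else 0) = i
      · rw [if_pos h] at hcR
        rw [decide_eq_true h]
        by_contra h2
        rw [if_neg h2] at hcR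
        exact zero_ne_one hcR
      · rw [if_neg h] at hcR
        rw [decide_eq_false h]
        by_contra h2
        rw [Bool.not_eq_false] at h2
        rw [if_pos h2] at hcR
        exact one_ne_zero hcR

end Pool.Agent.Work.MP_c04246_lc.R
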