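import Pool.Agent.Work.MP_c04246_lc.R.RBase

/-!
MODULE WC (size M). Translation from `Fml` to negation normal form, subformulas, cost.

Proofs.
* `varsU_toU`: induction on `χ`; `varsU (gateL c l)` is the union of the `varsU` of the members of `l`, and the
  union over `argsOf c u` is `varsU u`.
* `self_mem_subs`, `subs_trans`, `card_subs_le`: induction (`card_insert_le`, `card_union_le`,
  `card_biUnion_le`).
* `costU_toU`: compare `dep_toU_aux` in XUF.lean. Show by induction on `χ`, for all `s`:
  (a) `costU (toU s χ) ≤ cost none χ`, (b) for every `c'`: the sum of `costU` over `argsOf c' (toU s χ)` is at most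
  `cost (some (xor c' s)) χ`, and (c) `cost (some c) χ ≤ cost none χ` for every `c`. For `χ = bin c a b` and
  `c' = xor c s`: `toU s χ = gateL c' (argsOf c' (toU s a) ++ argsOf c' (toU s b))`; if its scope is
  `≤ κ` everything vanishes (all arguments have scope `≤ κ`, cost 0); otherwise use (b) for `a`, `b`.
  (b) for another `c'`: `argsOf c' (toU s χ) = [toU s χ]`, and `cost (some (xor c' s)) χ = cost none χ`
  because `xor c' s ≠ c`. For `neg a`: `toU s (neg a) = toU (!s) a`, `cost r (neg a) = cost none a`, use (b), (c)
  for `a`. For `mod`: monotonicity of `min`, sum, sup.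
* `SbU_toU`: induction on `χ` for all `s`; a subterm of `gateL c l` is it itself (not a `mod`) or a subterm of a
  member of `l`; a subterm of a member of `argsOf c u` is a subterm of `u`. For `χ = mod i k f` the
  subterm itself is of the required form.
* `cost_subs`: for `ψ ∈ subs χ`: `cost none ψ ≤ cost none χ`. Induction on `χ`. For `χ = bin c a b`,
  `ψ ∈ subs a`: `cost none ψ ≤ cost none a` and `cost none a ≤ cost none χ`: if the scope of `χ` is
  `≤ κ` then also that of `a`, and the cost of a formula with scope `≤ κ` is `0`; otherwise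
  `cost none a ≤ min (scope a) τ + cost (some c) a ≤ min (scope χ) τ + ...` (`cost none a` equals
  `cost (some c) a` unless `a = bin c ..` with scope `> κ`, when it is larger by `min (scope a) τ`). For
  `mod` use the sum and the sup.
-/

set_option autoImplicit false

namespace Pool.Agent.Work.MP_c04246_lc.R

open Finset

variable {U : Type} {p : ℕ}

private lemma mem_varsU_gateL {c : Bool} {l : List (X.UF p U)} {x : U} :
    x ∈ varsU (X.UF.gateL c l) ↔ ∃ u ∈ l, x ∈ varsU u := by
  classical
  unfold X.UF.gateL
  simp only [varsU, mem_biUnion, mem_univ, true_and]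
  constructor
  · rintro ⟨j, hj⟩
    exact ⟨_, List.get_mem l j, hj⟩
  · rintro ⟨u, hu, hx⟩
    obtain ⟨j, hj⟩ := List.get_of_mem hu
    exact ⟨j, by rw [hj]; exact hx⟩

private lemma mem_varsU_args {c : Bool} {u : X.UF p U} {x : U} :
    (∃ u' ∈ X.UF.argsOf c u, x ∈ varsU u') ↔ x ∈ varsU u := by
  classical
  cases u with
  | lit y b => simp [X.UF.argsOf]
  | cst b => simp [X.UF.argsOf]
  | gate c' k f =>
    simp only [X.UF.argsOf]
    split_ifs with h
    · simp only [List.mem_ofFn, varsU, mem_biUnion, mem_univ, true_and]
      constructor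
      · rintro ⟨u', ⟨j, rfl⟩, hj⟩
        exact ⟨j, hj⟩
      · rintro ⟨j, hj⟩
        exact ⟨_, ⟨j, rfl⟩, hj⟩
    · simp
  | mod A k f => simp [X.UF.argsOf]

lemma varsU_toU (s : Bool) (χ : Fml p U) : varsU (X.UF.toU s χ) = Fml.vars χ := by
  classical
  induction χ generalizing s with
  | var x => simp [X.UF.toU, varsU, Fml.vars]
  | cst b => simp [X.UF.toU, varsU, Fml.vars]
  | neg a ih => simp only [X.UF.toU, Fml.vars]; exact ih _
  | bin c a b iha ihb =>
    ext x
    simp only [X.UF.toU, Fml.vars, mem_union]
    rw [mem_varsU_gateL, ← iha s, ← ihb s, ← mem_varsU_args (c := xor c s) (u := X.UF.toU s a),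
      ← mem_varsU_args (c := xor c s) (u := X.UF.toU s b)]
    simp only [List.mem_append]
    constructor
    · rintro ⟨u, hu | hu, h⟩
      · left; exact ⟨u, hu, h⟩
      · right; exact ⟨u, hu, h⟩
    · rintro (⟨u, hu, h⟩ | ⟨u, hu, h⟩)
      · exact ⟨u, Or.inl hu, h⟩
      · exact ⟨u, Or.inr hu, h⟩
  | mod i k f ih =>
    ext x
    simp only [X.UF.toU, varsU, Fml.vars, mem_biUnion, mem_univ, true_and, ih]

lemma self_mem_subs (χ : Fml p U) : χ ∈ Fml.subs χ := by
  classical
  cases χ <;> simp [Fml.subs]

lemma subs_trans {a b c : Fml p U} (h : a ∈ Fml.subs b) (h' : b ∈ Fml.subs c) :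
    a ∈ Fml.subs c := by
  classical
  induction c with
  | var x =>
    simp only [Fml.subs, mem_singleton] at h'
    subst h'
    exact h
  | cst x =>
    simp only [Fml.subs, mem_singleton] at h'
    subst h'
    exact h
  | neg d ih =>
    simp only [Fml.subs, mem_insert] at h'
    rcases h' with h' | h'
    · subst h'
      exact h
    · simp only [Fml.subs, mem_insert]
      exact Or.inr (ih h')
  | bin e d d' ih ih' =>
    simp only [Fml.subs, mem_insert, mem_union] at h'
    rcases h' with h' | h' | h'
    · subst h'
      exact h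
    · simp only [Fml.subs, mem_insert, mem_union]
      exact Or.inr (Or.inl (ih h'))
    · simp only [Fml.subs, mem_insert, mem_union]
      exact Or.inr (Or.inr (ih' h'))
  | mod i k f ih =>
    simp only [Fml.subs, mem_insert, mem_biUnion, mem_univ, true_and] at h'
    rcases h' with h' | ⟨j, h'⟩
    · subst h'
      exact h
    · simp only [Fml.subs, mem_insert, mem_biUnion, mem_univ, true_and]
      exact Or.inr ⟨j, ih j h'⟩

lemma card_subs_le (χ : Fml p U) : (Fml.subs χ).card ≤ Fml.size χ := by
  classical
  induction χ with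
  | var x => simp [Fml.subs, Fml.size]
  | cst x => simp [Fml.subs, Fml.size]
  | neg d ih =>
    simp only [Fml.subs, Fml.size]
    exact (card_insert_le _ _).trans (Nat.add_le_add_right ih 1)
  | bin e d d' ih ih' =>
    simp only [Fml.subs, Fml.size]
    exact (card_insert_le _ _).trans (Nat.add_le_add_right
      ((card_union_le _ _).trans (Nat.add_le_add ih ih')) 1)
  | mod i k f ih =>
    simp only [Fml.subs, Fml.size]
    exact (card_insert_le _ _).trans (Nat.add_le_add_right
      (card_biUnion_le.trans (sum_le_sum fun j _ => ih j)) 1)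

private lemma costU_zero' {κ τ n : ℕ} {u : X.UF p U} (h : (varsU u).card ≤ κ) :
    costU κ τ n u = 0 := by
  cases u with
  | lit x b => simp [costU]
  | cst b => simp [costU]
  | gate c k f => simp only [costU, if_pos h]
  | mod A k f => simp only [costU, if_pos h]

private lemma cost_zero {κ τ n : ℕ} (r : Option Bool) {a : Fml p U}
    (h : (Fml.vars a).card ≤ κ) : Fml.cost κ τ n r a = 0 := by
  induction a generalizing r with
  | var x => simp [Fml.cost]
  | cst x => simp [Fml.cost]
  | neg d ih =>
    simp only [Fml.cost]
    exact ih none (by simpa only [Fml.vars] using h)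
  | bin e d d' ih ih' => simp only [Fml.cost, if_pos h]
  | mod i k f ih => simp only [Fml.cost, if_pos h]

private lemma cost_some_le {κ τ n : ℕ} (c : Bool) (a : Fml p U) :
    Fml.cost κ τ n (some c) a ≤ Fml.cost κ τ n none a := by
  cases a with
  | var x => simp [Fml.cost]
  | cst x => simp [Fml.cost]
  | neg d => simp [Fml.cost]
  | bin e d d' =>
    simp only [Fml.cost]
    have h0 : ¬ (none : Option Bool) = some e := by simp
    simp only [if_neg h0]
    split_ifs with h1 h2
    · exact le_rfl
    · omega
    · exact le_rfl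
  | mod i k f => simp [Fml.cost]

private lemma cost_none_le {κ τ n : ℕ} (c : Bool) (a : Fml p U) :
    Fml.cost κ τ n none a ≤ min (Fml.vars a).card τ + Fml.cost κ τ n (some c) a := by
  cases a with
  | var x => simp [Fml.cost]
  | cst x => simp [Fml.cost]
  | neg d => simp [Fml.cost]
  | bin e d d' =>
    simp only [Fml.cost]
    have h0 : ¬ (none : Option Bool) = some e := by simp
    simp only [if_neg h0]
    split_ifs with h1 h2
    · exact Nat.zero_le _
    · omega
    · omega
  | mod i k f => simp [Fml.cost]

private lemma costU_gateL {κ τ n : ℕ} (c : Bool) (l : List (X.UF p U)) :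
    costU κ τ n (X.UF.gateL c l) = if (varsU (X.UF.gateL c l)).card ≤ κ then 0 else
      min (varsU (X.UF.gateL c l)).card τ + (l.map (costU κ τ n)).sum := by
  have h : ∑ j : Fin l.length, costU κ τ n (l.get j) = (l.map (costU κ τ n)).sum := by
    rw [← List.sum_ofFn]
    congr 1
    apply List.ext_get
    · simp
    · intro i h1 h2
      simp
  rw [← h]
  rfl

private lemma costU_toU_aux (κ τ n : ℕ) (χ : Fml p U) : ∀ s : Bool,
    costU κ τ n (X.UF.toU s χ) ≤ Fml.cost κ τ n none χ ∧
    ∀ c', ((X.UF.argsOf c' (X.UF.toU s χ)).map (costU κ τ n)).sum ≤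
      Fml.cost κ τ n (some (xor c' s)) χ := by
  classical
  induction χ with
  | var x => intro s; simp [X.UF.toU, costU, X.UF.argsOf]
  | cst x => intro s; simp [X.UF.toU, costU, X.UF.argsOf]
  | neg a ih =>
    intro s
    obtain ⟨h1, h2⟩ := ih (!s)
    simp only [X.UF.toU, Fml.cost]
    exact ⟨h1, fun c' => (h2 c').trans (cost_some_le _ _)⟩
  | bin c a b iha ihb =>
    intro s
    obtain ⟨a1, a2⟩ := iha s
    obtain ⟨b1, b2⟩ := ihb s
    have hx : xor (xor c s) s = c := by cases c <;> cases s <;> rfl
    have hl : ((X.UF.argsOf (xor c s) (X.UF.toU s a) ++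
        X.UF.argsOf (xor c s) (X.UF.toU s b)).map (costU κ τ n)).sum ≤
        Fml.cost κ τ n (some c) a + Fml.cost κ τ n (some c) b := by
      rw [List.map_append, List.sum_append]
      have e1 := a2 (xor c s)
      have e2 := b2 (xor c s)
      rw [hx] at e1 e2
      omega
    have hvars : varsU (X.UF.toU s (Fml.bin c a b)) = Fml.vars (Fml.bin c a b) := varsU_toU s _
    have hd : costU κ τ n (X.UF.toU s (Fml.bin c a b)) ≤
        Fml.cost κ τ n none (Fml.bin c a b) := by
      have e : X.UF.toU s (Fml.bin c a b) = X.UF.gateL (xor c s)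
        (X.UF.argsOf (xor c s) (X.UF.toU s a) ++ X.UF.argsOf (xor c s) (X.UF.toU s b)) := rfl
      rw [e] at hvars ⊢
      rw [costU_gateL, hvars]
      simp only [Fml.cost]
      have h0 : ¬ (none : Option Bool) = some c := by simp
      simp only [if_neg h0]
      split_ifs with h1
      · exact le_rfl
      · omega
    refine ⟨hd, fun c' => ?_⟩
    by_cases hc : c' = xor c s
    · subst hc
      have e : X.UF.toU s (Fml.bin c a b) = X.UF.gateL (xor c s)
        (X.UF.argsOf (xor c s) (X.UF.toU s a) ++ X.UF.argsOf (xor c s) (X.UF.toU s b)) := rfl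
      rw [e, X.UF.argsOf_gateL_same, hx]
      refine hl.trans ?_
      simp only [Fml.cost, if_true]
      split_ifs with h1
      · have s1 : (Fml.vars a).card ≤ κ :=
          (card_le_card (by simp only [Fml.vars]; exact subset_union_left)).trans h1
        have s2 : (Fml.vars b).card ≤ κ :=
          (card_le_card (by simp only [Fml.vars]; exact subset_union_right)).trans h1
        rw [cost_zero _ s1, cost_zero _ s2]
      · omega
    · have e : X.UF.toU s (Fml.bin c a b) = X.UF.gateL (xor c s)
        (X.UF.argsOf (xor c s) (X.UF.toU s a) ++ X.UF.argsOf (xor c s) (X.UF.toU s b)) := rfl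
      have h1 : X.UF.argsOf c' (X.UF.toU s (Fml.bin c a b)) = [X.UF.toU s (Fml.bin c a b)] := by
        rw [e]
        exact X.UF.argsOf_gateL_ne (Ne.symm hc) _
      rw [h1, List.map_singleton, List.sum_singleton]
      refine hd.trans (le_of_eq ?_)
      have h2 : ¬ some (xor c' s) = some c := by
        intro h3
        apply hc
        have h4 := Option.some.inj h3
        rw [← h4]
        cases c' <;> cases s <;> rfl
      have h0 : ¬ (none : Option Bool) = some c := by simp
      simp only [Fml.cost, if_neg h0, if_neg h2]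
  | mod i k f ih =>
    intro s
    have hvars : varsU (X.UF.toU s (Fml.mod i k f)) = Fml.vars (Fml.mod i k f) := varsU_toU s _
    have hd : costU κ τ n (X.UF.toU s (Fml.mod i k f)) ≤
        Fml.cost κ τ n none (Fml.mod i k f) := by
      simp only [X.UF.toU] at hvars ⊢
      simp only [costU, hvars, Fml.cost]
      split_ifs with h1
      · exact le_rfl
      · apply min_le_min
        · exact Nat.add_le_add_left (sum_le_sum fun j _ => (ih j false).1) _
        · apply Nat.add_le_add_left
          apply Finset.sup_mono_fun
          intro j _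
          exact (ih j false).1
    refine ⟨hd, fun c' => ?_⟩
    have h1 : X.UF.argsOf c' (X.UF.toU s (Fml.mod i k f)) = [X.UF.toU s (Fml.mod i k f)] := rfl
    rw [h1, List.map_singleton, List.sum_singleton]
    refine hd.trans (le_of_eq ?_)
    simp only [Fml.cost]

lemma costU_toU (κ τ n : ℕ) (s : Bool) (χ : Fml p U) :
    costU κ τ n (X.UF.toU s χ) ≤ Fml.cost κ τ n none χ := (costU_toU_aux κ τ n χ s).1

private lemma SbU_args {c : Bool} {u u' m : X.UF p U} (h : u' ∈ X.UF.argsOf c u)
    (hs : SbU m u') : SbU m u := by
  cases u with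
  | lit y b =>
    simp only [X.UF.argsOf, List.mem_singleton] at h
    subst h
    exact hs
  | cst b =>
    simp only [X.UF.argsOf, List.mem_singleton] at h
    subst h
    exact hs
  | gate c' k f =>
    simp only [X.UF.argsOf] at h
    split_ifs at h with h1
    · rw [List.mem_ofFn] at h
      obtain ⟨j, rfl⟩ := h
      exact SbU.gate c' k f j m hs
    · rw [List.mem_singleton] at h
      subst h
      exact hs
  | mod A k f =>
    simp only [X.UF.argsOf, List.mem_singleton] at h
    subst h
    exact hs

lemma SbU_toU {A : ZMod p → Bool} {k : ℕ} {f' : Fin k → X.UF p U} {s : Bool} {χ : Fml p U}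
    (h : SbU (X.UF.mod A k f') (X.UF.toU s χ)) :
    ∃ (i : ZMod p) (f : Fin k → Fml p U), Fml.mod i k f ∈ Fml.subs χ ∧
      f' = fun j => X.UF.toU false (f j) := by
  classical
  induction χ generalizing s with
  | var x =>
    simp only [X.UF.toU] at h
    cases h
  | cst x =>
    simp only [X.UF.toU] at h
    cases h
  | neg a ih =>
    simp only [X.UF.toU] at h
    obtain ⟨i, f, h1, h2⟩ := ih h
    refine ⟨i, f, ?_, h2⟩
    simp only [Fml.subs, mem_insert]
    exact Or.inr h1
  | bin c a b iha ihb =>
    simp only [X.UF.toU, X.UF.gateL] at h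
    cases h with
    | gate _ _ _ j _ hj =>
      have hmem := List.get_mem (X.UF.argsOf (xor c s) (X.UF.toU s a) ++
        X.UF.argsOf (xor c s) (X.UF.toU s b)) j
      rw [List.mem_append] at hmem
      rcases hmem with hmem | hmem
      · obtain ⟨i, f, h1, h2⟩ := iha (SbU_args hmem hj)
        refine ⟨i, f, ?_, h2⟩
        simp only [Fml.subs, mem_insert, mem_union]
        exact Or.inr (Or.inl h1)
      · obtain ⟨i, f, h1, h2⟩ := ihb (SbU_args hmem hj)
        refine ⟨i, f, ?_, h2⟩
        simp only [Fml.subs, mem_insert, mem_union]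
        exact Or.inr (Or.inr h1)
  | mod i k0 f0 ih =>
    simp only [X.UF.toU] at h
    cases h with
    | refl => exact ⟨i, f0, self_mem_subs _, rfl⟩
    | mod _ _ _ j _ hj =>
      obtain ⟨i', f, h1, h2⟩ := ih j hj
      refine ⟨i', f, ?_, h2⟩
      simp only [Fml.subs, mem_insert, mem_biUnion, mem_univ, true_and]
      exact Or.inr ⟨j, h1⟩

lemma cost_subs (κ τ n : ℕ) {ψ χ : Fml p U} (h : ψ ∈ Fml.subs χ) :
    Fml.cost κ τ n none ψ ≤ Fml.cost κ τ n none χ := by
  classical
  induction χ with
  | var x =>
    simp only [Fml.subs, mem_singleton] at h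
    rw [h]
  | cst x =>
    simp only [Fml.subs, mem_singleton] at h
    rw [h]
  | neg a ih =>
    simp only [Fml.subs, mem_insert] at h
    rcases h with rfl | h
    · exact le_rfl
    · refine (ih h).trans (le_of_eq ?_)
      simp only [Fml.cost]
  | bin c a b iha ihb =>
    simp only [Fml.subs, mem_insert, mem_union] at h
    have key : ∀ d : Fml p U, Fml.vars d ⊆ Fml.vars (Fml.bin c a b) →
        (κ < (Fml.vars (Fml.bin c a b)).card → Fml.cost κ τ n (some c) d ≤
          Fml.cost κ τ n (some c) a + Fml.cost κ τ n (some c) b) →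
        Fml.cost κ τ n none d ≤ Fml.cost κ τ n none (Fml.bin c a b) := by
      intro d hd hd2
      by_cases h1 : (Fml.vars (Fml.bin c a b)).card ≤ κ
      · rw [cost_zero none ((card_le_card hd).trans h1)]
        exact Nat.zero_le _
      · refine (cost_none_le c d).trans ?_
        have h0 : ¬ (none : Option Bool) = some c := by simp
        simp only [Fml.cost, if_neg h0, if_neg h1]
        exact Nat.add_le_add (min_le_min_right _ (card_le_card hd)) (hd2 (not_le.1 h1))
    rcases h with rfl | h | h
    · exact le_rfl
    · refine (iha h).trans (key a ?_ fun _ => Nat.le_add_right _ _)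
      simp only [Fml.vars]; exact subset_union_left
    · refine (ihb h).trans (key b ?_ fun _ => Nat.le_add_left _ _)
      simp only [Fml.vars]; exact subset_union_right
  | mod i k f ih =>
    simp only [Fml.subs, mem_insert, mem_biUnion, mem_univ, true_and] at h
    rcases h with rfl | ⟨j, h⟩
    · exact le_rfl
    · refine (ih j h).trans ?_
      by_cases h1 : (Fml.vars (Fml.mod i k f)).card ≤ κ
      · rw [cost_zero none]
        · exact Nat.zero_le _
        · refine (card_le_card ?_).trans h1
          intro x hx
          simp only [Fml.vars, mem_biUnion, mem_univ, true_and]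
          exact ⟨j, hx⟩
      · simp only [Fml.cost, if_neg h1]
        have e1 : Fml.cost κ τ n none (f j) ≤ ∑ j, Fml.cost κ τ n none (f j) :=
          Finset.single_le_sum (f := fun j => Fml.cost κ τ n none (f j))
            (fun _ _ => Nat.zero_le _) (mem_univ j)
        have e2 : Fml.cost κ τ n none (f j) ≤ univ.sup fun j => Fml.cost κ τ n none (f j) :=
          Finset.le_sup (f := fun j => Fml.cost κ τ n none (f j)) (mem_univ j)
        apply le_min <;> omega

end Pool.Agent.Work.MP_c04246_lc.R
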