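import Pool.Agent.Work.MP_c04246_lc.R.Null
import Pool.Agent.Work.MP_c04246_lc.R.Cells
import Pool.Agent.Work.MP_c04246_lc.R.WC

/-!
MODULE Sound (size M). Soundness of `K`-local inferences modulo `V`.

Proof. Let `LocInf K Pr a` with the set `C`. Apply `cells` with `N0 = insert a Pr` (`card ≤ K + 1`): `N`, `G`. Apply
`null` with `I = N ⊕ G` (as subtypes; cardinality `N.card + G.card ≤ NB p K`), `q ψ = Pf ψ` for `ψ ∈ N`,
`q g = ∑ ψ ∈ g, Pf ψ` for `g ∈ G`; all in `Dg d` (the formulas involved are subformulas of `a` or of a premise: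
`subs_trans`, `self_mem_subs`). `ρ`: for `ψ ∈ N` the function `Pf ψ * (1 - Pf ψ)`; for `c ∈ C` the function which is in
`V` by `RelV V sg Pf c` (for `c = var x` take `0`); for `b ∈ Pr` the function `1 - Pf b`. All in `V` and in
`Dg (2 * p * d)` (`mdA_mem_Dg`; `d ≤ 2 p d`, `2 d ≤ 2 p d`). `T = 1 - Pf a`. Measurability: the functions `Pf ψ`,
`ψ ∈ N`, are among the `q`; for `c = mod i k f ∈ C` the function `mdA .. (∑ j, Pf (f j))` is determined by the `q`
by the property (meas) of `cells` applied to `P = fun ψ => Pf ψ y`, `P' = fun ψ => Pf ψ y'`.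
Pointwise: let all `ρ` vanish at `y`; `P ψ = Pf ψ y`. Then `P ψ ∈ {0, 1}` for `ψ ∈ N`, `RespZ P c` for `c ∈ C`. Let `v` be
given by `cells`. For `b ∈ Pr`: `b ∈ N`, `P b = 1`, so `v b = true`. By `LocInf`, `v a = true`, so
`P a = 1` and `T y = 0`. Degrees: `2 p d + NB p K * ((p-1) * d) ≤ cS p K * d ≤ D`.
-/

set_option autoImplicit false
set_option linter.unusedSectionVars false

namespace Pool.Agent.Work.MP_c04246_lc.R

open Finset

variable {U : Type} [Fintype U] [DecidableEq U] {p : ℕ} [Fact p.Prime]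

/-- constant of the soundness lemma -/
def cS (p K : ℕ) : ℕ := 2 * p + NB p K * p

/-- the function vanishing when the truth table of the outermost connective is obeyed -/
private def rl (Pf : Fml p U → (U → Bool) → ZMod p) : Fml p U → (U → Bool) → ZMod p
  | .var _ => 0
  | .cst b => Pf (.cst b) - indF (fun _ => b)
  | .neg a => Pf (.neg a) - (1 - Pf a)
  | .bin c a b => Pf (.bin c a b) -
      (if c = true then Pf a + Pf b - Pf a * Pf b else Pf a * Pf b)
  | .mod i k f => Pf (.mod i k f) - mdA (fun r => decide (r = i)) (∑ j, Pf (f j))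

private lemma rl_mem {V : Submodule (ZMod p) ((U → Bool) → ZMod p)}
    {sg : (U → Bool) → (U → Bool)} {Pf : Fml p U → (U → Bool) → ZMod p} {c : Fml p U}
    (h : RelV V sg Pf c) : rl Pf c ∈ V := by
  cases c with
  | var x => simp only [rl]; exact V.zero_mem
  | cst b => exact h
  | neg a => exact h
  | bin c a b => exact h
  | mod i k f => exact h

private lemma rl_respZ {Pf : Fml p U → (U → Bool) → ZMod p} {c : Fml p U} {y : U → Bool}
    (h : rl Pf c y = 0) : RespZ (fun ψ => Pf ψ y) c := by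
  cases c with
  | var x => exact trivial
  | cst b =>
    simp only [rl, Pi.sub_apply, sub_eq_zero] at h
    simp only [RespZ]
    rw [h]
    unfold indF
    rfl
  | neg a =>
    simp only [rl, Pi.sub_apply, sub_eq_zero] at h
    simp only [RespZ]
    rw [h]
    rfl
  | bin c a b =>
    simp only [rl, Pi.sub_apply, sub_eq_zero] at h
    simp only [RespZ]
    rw [h]
    by_cases hc : c = true
    · rw [if_pos hc, if_pos hc]; rfl
    · rw [if_neg hc, if_neg hc]; rfl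
  | mod i k f =>
    simp only [rl, Pi.sub_apply, sub_eq_zero] at h
    simp only [RespZ]
    rw [h]
    unfold mdA
    simp only [Finset.sum_apply, decide_eq_true_eq]

private lemma rl_meas {Pf : Fml p U → (U → Bool) → ZMod p} {c : Fml p U} {y y' : U → Bool}
    (hc : Pf c y = Pf c y') (hn : ∀ a, c = .neg a → Pf a y = Pf a y')
    (hb : ∀ b a a', c = .bin b a a' → Pf a y = Pf a y' ∧ Pf a' y = Pf a' y')
    (hm : ∀ i k f, c = .mod i k f → ∑ j, Pf (f j) y = ∑ j, Pf (f j) y') :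
    rl Pf c y = rl Pf c y' := by
  cases c with
  | var x => rfl
  | cst b =>
    simp only [rl, Pi.sub_apply]
    rw [hc]
    rfl
  | neg a =>
    simp only [rl, Pi.sub_apply, Pi.one_apply]
    rw [hc, hn a rfl]
  | bin c a b =>
    obtain ⟨h1, h2⟩ := hb c a b rfl
    simp only [rl, Pi.sub_apply]
    rw [hc]
    by_cases hc : c = true
    · rw [if_pos hc]
      simp only [Pi.sub_apply, Pi.add_apply, Pi.mul_apply]
      rw [h1, h2]
    · rw [if_neg hc]
      simp only [Pi.mul_apply]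
      rw [h1, h2]
  | mod i k f =>
    have h1 := hm i k f rfl
    simp only [rl, Pi.sub_apply]
    rw [hc]
    unfold mdA
    simp only [Finset.sum_apply]
    rw [h1]

private lemma rl_deg {Pf : Fml p U → (U → Bool) → ZMod p} {c : Fml p U} {d : ℕ}
    (h : ∀ χ ∈ Fml.subs c, Pf χ ∈ Dg (ZMod p) d) : rl Pf c ∈ Dg (ZMod p) (2 * p * d) := by
  classical
  have hp : 1 ≤ p := (Fact.out : p.Prime).one_lt.le
  have hd1 : d ≤ 2 * p * d := by nlinarith
  have hd2 : d + d ≤ 2 * p * d := by nlinarith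
  have hd3 : (p - 1) * d ≤ 2 * p * d := Nat.mul_le_mul_right _ (by omega)
  cases c with
  | var x => exact Submodule.zero_mem _
  | cst b =>
    refine Submodule.sub_mem _ (Dg_mono hd1 (h _ (self_mem_subs _))) ?_
    exact const_mem_Dg _ _
  | neg a =>
    refine Submodule.sub_mem _ (Dg_mono hd1 (h _ (self_mem_subs _)))
      (Submodule.sub_mem _ (one_mem_Dg _) (Dg_mono hd1 (h _ ?_)))
    exact subs_trans (self_mem_subs a) (by simp only [Fml.subs]; exact mem_insert_of_mem (self_mem_subs a))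
  | bin c a b =>
    have ha : Pf a ∈ Dg (ZMod p) d := h _ (by
      simp only [Fml.subs]
      exact mem_insert_of_mem (mem_union_left _ (self_mem_subs a)))
    have hb : Pf b ∈ Dg (ZMod p) d := h _ (by
      simp only [Fml.subs]
      exact mem_insert_of_mem (mem_union_right _ (self_mem_subs b)))
    refine Submodule.sub_mem _ (Dg_mono hd1 (h _ (self_mem_subs _))) ?_
    by_cases hc : c = true
    · rw [if_pos hc]
      exact Submodule.sub_mem _ (Submodule.add_mem _ (Dg_mono hd1 ha) (Dg_mono hd1 hb))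
        (Dg_mono hd2 (mul_mem_Dg ha hb))
    · rw [if_neg hc]
      exact Dg_mono hd2 (mul_mem_Dg ha hb)
  | mod i k f =>
    refine Submodule.sub_mem _ (Dg_mono hd1 (h _ (self_mem_subs _))) ?_
    apply Dg_mono hd3
    apply mdA_mem_Dg
    apply Submodule.sum_mem
    intro j _
    apply h
    simp only [Fml.subs]
    exact mem_insert_of_mem (mem_biUnion.2 ⟨j, mem_univ _, self_mem_subs _⟩)

theorem sound {V : Submodule (ZMod p) ((U → Bool) → ZMod p)} {D d K : ℕ}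
    {sg : (U → Bool) → (U → Bool)} (hV : ClV V D) (hD : cS p K * d ≤ D)
    (Pf : Fml p U → (U → Bool) → ZMod p) (Pr : Finset (Fml p U)) (a : Fml p U)
    (hinf : Fml.LocInf K Pr a) (hPr : ∀ b ∈ Pr, 1 - Pf b ∈ V)
    (h : ∀ χ, (χ ∈ Fml.subs a ∨ ∃ b ∈ Pr, χ ∈ Fml.subs b) →
      Pf χ ∈ Dg (ZMod p) d ∧ RelV V sg Pf χ ∧ Pf χ * (1 - Pf χ) ∈ V) : 1 - Pf a ∈ V := by
  classical
  have hp : 1 ≤ p := (Fact.out : p.Prime).one_lt.le
  have hd1 : d ≤ 2 * p * d := by nlinarith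
  have hd2 : d + d ≤ 2 * p * d := by nlinarith
  obtain ⟨hPK, C, hCK, hCs, hval⟩ := hinf
  have hN0 : (insert a Pr).card ≤ K + 1 := le_trans (card_insert_le _ _) (by omega)
  obtain ⟨N, G, hNG, hN0N, hCN, hneg, hbin, hNs, hGs, hmeas, hreal⟩ :=
    cells K C (insert a Pr) hCK hN0
  have hsubC : ∀ c ∈ C, ∀ ψ ∈ Fml.subs c, ψ ∈ Fml.subs a ∨ ∃ b ∈ Pr, ψ ∈ Fml.subs b := by
    intro c hc ψ hψ
    rcases hCs c hc with h1 | ⟨b, hb, h1⟩
    · exact Or.inl (subs_trans hψ h1)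
    · exact Or.inr ⟨b, hb, subs_trans hψ h1⟩
  have hNh : ∀ ψ ∈ N, ψ ∈ Fml.subs a ∨ ∃ b ∈ Pr, ψ ∈ Fml.subs b := by
    intro ψ hψ
    rcases hNs ψ hψ with h1 | ⟨c, hc, h1⟩
    · rcases mem_insert.1 h1 with h2 | h2
      · exact Or.inl (h2 ▸ self_mem_subs a)
      · exact Or.inr ⟨ψ, h2, self_mem_subs ψ⟩
    · exact hsubC c hc ψ h1
  have hGh : ∀ q ∈ G, ∀ ψ ∈ q, ψ ∈ Fml.subs a ∨ ∃ b ∈ Pr, ψ ∈ Fml.subs b := by
    intro q hq ψ hψ
    obtain ⟨c, hc, h1⟩ := hGs q hq ψ hψ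
    exact hsubC c hc ψ h1
  have haN : a ∈ N := hN0N (mem_insert_self _ _)
  have hPrN : ∀ b ∈ Pr, b ∈ N := fun b hb => hN0N (mem_insert_of_mem hb)
  let q : ({ψ // ψ ∈ N} ⊕ {g // g ∈ G}) → (U → Bool) → ZMod p :=
    Sum.elim (fun ψ => Pf ψ.1) (fun g => ∑ ψ ∈ g.1, Pf ψ)
  let ρ : ({ψ // ψ ∈ N} ⊕ ({c // c ∈ C} ⊕ {b // b ∈ Pr})) → (U → Bool) → ZMod p :=
    Sum.elim (fun ψ => Pf ψ.1 * (1 - Pf ψ.1))
      (Sum.elim (fun c => rl Pf c.1) (fun b => 1 - Pf b.1))
  have hqN : ∀ y y', (∀ i, q i y = q i y') → ∀ ψ ∈ N, Pf ψ y = Pf ψ y' := by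
    intro y y' hyy ψ hψ
    exact hyy (Sum.inl ⟨ψ, hψ⟩)
  have hqG : ∀ y y', (∀ i, q i y = q i y') → ∀ g ∈ G,
      ∑ ψ ∈ g, Pf ψ y = ∑ ψ ∈ g, Pf ψ y' := by
    intro y y' hyy g hg
    have := hyy (Sum.inr ⟨g, hg⟩)
    simp only [q, Sum.elim_inr, Finset.sum_apply] at this
    exact this
  refine null hV q d (2 * p * d) ?_ ρ ?_ (1 - Pf a) ?_ ?_ ?_ ?_
  · rintro (⟨ψ, hψ⟩ | ⟨g, hg⟩)
    · exact (h ψ (hNh ψ hψ)).1
    · exact Submodule.sum_mem _ fun ψ hψ => (h ψ (hGh g hg ψ hψ)).1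
  · rintro (⟨ψ, hψ⟩ | ⟨c, hc⟩ | ⟨b, hb⟩)
    · have h1 := h ψ (hNh ψ hψ)
      refine ⟨h1.2.2, ?_⟩
      exact Dg_mono hd2 (mul_mem_Dg h1.1 (Submodule.sub_mem _ (one_mem_Dg _) h1.1))
    · have h1 := h c (hsubC c hc c (self_mem_subs c))
      refine ⟨rl_mem h1.2.1, rl_deg ?_⟩
      intro χ hχ
      exact (h χ (hsubC c hc χ hχ)).1
    · refine ⟨hPr b hb, ?_⟩
      exact Submodule.sub_mem _ (one_mem_Dg _)
        (Dg_mono hd1 (h b (Or.inr ⟨b, hb, self_mem_subs b⟩)).1)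
  · rintro (⟨ψ, hψ⟩ | ⟨c, hc⟩ | ⟨b, hb⟩) y y' hyy
    · have h1 := hqN y y' hyy ψ hψ
      simp only [ρ, Sum.elim_inl, Pi.mul_apply, Pi.sub_apply, Pi.one_apply]
      rw [h1]
    · simp only [ρ, Sum.elim_inl, Sum.elim_inr]
      apply rl_meas
      · exact hqN y y' hyy c (hCN hc)
      · intro b hb
        subst hb
        exact hqN y y' hyy b (hneg b hc)
      · intro s b b' hb
        subst hb
        obtain ⟨h1, h2⟩ := hbin s b b' hc
        exact ⟨hqN y y' hyy b h1, hqN y y' hyy b' h2⟩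
      · intro i k f hf
        subst hf
        exact hmeas (fun ψ => Pf ψ y) (fun ψ => Pf ψ y') (hqN y y' hyy) (hqG y y' hyy) i k f hc
    · simp only [ρ, Sum.elim_inr, Pi.sub_apply, Pi.one_apply]
      rw [hqN y y' hyy b (hPrN b hb)]
  · intro y y' hyy
    simp only [Pi.sub_apply, Pi.one_apply]
    rw [hqN y y' hyy a haN]
  · intro y hy
    have h01 : ∀ ψ ∈ N, (fun ψ => Pf ψ y) ψ = 0 ∨ (fun ψ => Pf ψ y) ψ = 1 := by
      intro ψ hψ
      have h1 := hy (Sum.inl ⟨ψ, hψ⟩)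
      simp only [ρ, Sum.elim_inl, Pi.mul_apply, Pi.sub_apply, Pi.one_apply] at h1
      rcases mul_eq_zero.1 h1 with h2 | h2
      · exact Or.inl h2
      · exact Or.inr (sub_eq_zero.1 h2).symm
    have hR : ∀ c ∈ C, RespZ (fun ψ => Pf ψ y) c := by
      intro c hc
      have h1 := hy (Sum.inr (Sum.inl ⟨c, hc⟩))
      simp only [ρ, Sum.elim_inl, Sum.elim_inr] at h1
      exact rl_respZ h1
    obtain ⟨v, hv, hvC⟩ := hreal (fun ψ => Pf ψ y) h01 hR
    have h2 : ∀ b ∈ Pr, v b = true := by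
      intro b hb
      rw [hv b (hPrN b hb)]
      have h1 := hy (Sum.inr (Sum.inr ⟨b, hb⟩))
      simp only [ρ, Sum.elim_inr, Pi.sub_apply, Pi.one_apply] at h1
      exact (sub_eq_zero.1 h1).symm
    have h3 := (hv a haN).1 (hval v hvC h2)
    simp only [Pi.sub_apply, Pi.one_apply]
    rw [h3, sub_self]
  · rw [Fintype.card_sum, Fintype.card_coe, Fintype.card_coe]
    refine le_trans ?_ hD
    unfold cS
    have h1 : (N.card + G.card) * ((p - 1) * d) ≤ NB p K * (p * d) :=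
      Nat.mul_le_mul hNG (Nat.mul_le_mul_right _ (by omega))
    calc 2 * p * d + (N.card + G.card) * ((p - 1) * d) ≤ 2 * p * d + NB p K * (p * d) := by omega
      _ = (2 * p + NB p K * p) * d := by ring

end Pool.Agent.Work.MP_c04246_lc.R
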