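import Pool.Agent.Work.MP_c04246_lc.R.EvB
import Pool.Agent.Work.MP_c04246_lc.R.WC

/-!
MODULE ClEv (size M). Evaluation of the clauses and of the tautology.

Proof of `clause_ev`. `Pf (litF l) - indF (fun y => sg y l.1 == l.2) ∈ V` (`RelV` for `var`, `neg`). By induction on a
list `L` of literals: `Pf (disj (L.map litF)) - indF (fun y => decide (∃ l ∈ L, sg y l.1 = l.2)) ∈ V`: for
`disj (χ :: rest) = bin true χ (disj rest)` use `RelV`, and with `A - i ∈ V`, `B - j ∈ V`, `i`, `j` indicators: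
`A + B - A * B - (i + j - i * j) = (A - i) * (1 - B) + (B - j) * (1 - i)`, in `V` by `ClV`. Degrees: all `Pf` are in
`Dg d`; `i` and `j` depend on at most `L.length ≤ k` variables (`L` is a sublist of the list of the
literals of the clause), so they are in `Dg k ≤ Dg d` (`junta_mem_Dg`, `Cow sg`, `k ≤ d`, `1 ≤ d`); total
degree `2 d ≤ D`. All the formulas `disj (rest)` are subformulas. So
`1 - Pf (clauseF C)` is, modulo `V`, `1 - indF (..)`, the indicator of the falsity of the clause, of degree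
`≤ d ≤ D`, which vanishes whenever `sg y` satisfies the clause: in `V` by `hV3` with `I = {i}`.
Proof of `dnf_ev`. `Pf (neg (clauseF (F i))) ∈ V` by `RelV` and `clause_ev`. By induction on the list:
`Pf (disj L) ∈ V` if `Pf χ ∈ V` for all `χ ∈ L`: `Pf (cst false) ∈ V` (`RelV`), and
`Pf (bin true χ ρ) = Pf χ + Pf ρ - Pf χ * Pf ρ` modulo `V` (`ClV`, degree `2 d ≤ D`).
-/

set_option autoImplicit false

namespace Pool.Agent.Work.MP_c04246_lc.R

open Finset

variable {U : Type} [Fintype U] [DecidableEq U] {p : ℕ} [Fact p.Prime]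

/-- the clauses as finite sets of literals -/
def clF {m k : ℕ} (F : Fin m → Fin k → U × Bool) : Fin m → Finset (U × Bool) :=
  fun i => univ.image (F i)

omit [Fintype U] [DecidableEq U] [Fact p.Prime] in
private lemma disj_cons (χ : Fml p U) (L : List (Fml p U)) :
    Fml.disj (χ :: L) = Fml.bin true χ (Fml.disj L) := rfl

omit [Fintype U] [DecidableEq U] [Fact p.Prime] in
private lemma bin_left {c : Bool} {a b χ : Fml p U} (h : χ ∈ Fml.subs a) :
    χ ∈ Fml.subs (Fml.bin c a b) := by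
  simp only [Fml.subs, mem_insert, mem_union]
  exact Or.inr (Or.inl h)

omit [Fintype U] [DecidableEq U] [Fact p.Prime] in
private lemma bin_right {c : Bool} {a b χ : Fml p U} (h : χ ∈ Fml.subs b) :
    χ ∈ Fml.subs (Fml.bin c a b) := by
  simp only [Fml.subs, mem_insert, mem_union]
  exact Or.inr (Or.inr h)

omit [Fintype U] [DecidableEq U] [Fact p.Prime] in
private lemma mem_disj {L : List (Fml p U)} {ψ χ : Fml p U} (hψ : ψ ∈ L) (h : χ ∈ Fml.subs ψ) :
    χ ∈ Fml.subs (Fml.disj L) := by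
  induction L with
  | nil => simp at hψ
  | cons a L ih =>
    rw [disj_cons]
    rcases List.mem_cons.1 hψ with rfl | h1
    · exact bin_left h
    · exact bin_right (ih h1)

omit [Fintype U] [DecidableEq U] in
private lemma lit_ev {V : Submodule (ZMod p) ((U → Bool) → ZMod p)} {sg : (U → Bool) → (U → Bool)}
    (Pf : Fml p U → (U → Bool) → ZMod p) (l : U × Bool)
    (h : ∀ χ ∈ Fml.subs (Fml.litF l : Fml p U), RelV V sg Pf χ) :
    Pf (Fml.litF l) - indF (fun y => sg y l.1 == l.2) ∈ V := by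
  obtain ⟨x, b⟩ := l
  cases b with
  | true =>
    have h1 := h (Fml.litF (x, true)) (self_mem_subs _)
    have h2 : (Fml.litF (x, true) : Fml p U) = Fml.var x := rfl
    rw [h2] at h1 ⊢
    simp only [RelV] at h1
    simpa using h1
  | false =>
    have h2 : (Fml.litF (x, false) : Fml p U) = Fml.neg (Fml.var x) := rfl
    rw [h2] at h ⊢
    have h3 := h (Fml.neg (Fml.var x)) (self_mem_subs _)
    have h4 := h (Fml.var x) (by simp [Fml.subs])
    simp only [RelV] at h3 h4
    have h5 : Pf (Fml.neg (Fml.var x)) - indF (fun y => sg y (x, false).1 == (x, false).2) =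
        (Pf (Fml.neg (Fml.var x)) - (1 - Pf (Fml.var x))) -
          (Pf (Fml.var x) - indF (fun y => sg y x)) := by
      funext y
      simp only [Pi.sub_apply, Pi.one_apply, indF]
      by_cases hy : sg y x = true
      · rw [if_pos hy, if_neg (by rw [hy]; simp)]
        ring
      · rw [if_neg hy, if_pos (by simpa using hy)]
        ring
    rw [h5]
    exact V.sub_mem h3 h4

private lemma list_ev {V : Submodule (ZMod p) ((U → Bool) → ZMod p)} {D d : ℕ}
    {sg : (U → Bool) → (U → Bool)} (hV : ClV V D) (hco : Cow sg) (hd : 1 ≤ d) (hD : 2 * d ≤ D)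
    (Pf : Fml p U → (U → Bool) → ZMod p) (L : List (U × Bool)) (hL : L.length ≤ d)
    (h : ∀ χ ∈ Fml.subs (Fml.disj (L.map Fml.litF) : Fml p U),
      Pf χ ∈ Dg (ZMod p) d ∧ RelV V sg Pf χ) :
    Pf (Fml.disj (L.map Fml.litF)) - indF (fun y => decide (∃ l ∈ L, sg y l.1 = l.2)) ∈ V ∧
      (indF (fun y => decide (∃ l ∈ L, sg y l.1 = l.2)) : (U → Bool) → ZMod p) ∈
        Dg (ZMod p) d := by
  have hj : ∀ L : List (U × Bool), L.length ≤ d →
      (indF (fun y => decide (∃ l ∈ L, sg y l.1 = l.2)) : (U → Bool) → ZMod p) ∈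
        Dg (ZMod p) d := by
    intro L hL
    refine Dg_mono ?_ (junta_mem_Dg (L.map Prod.fst).toFinset _ ?_)
    · refine (List.toFinset_card_le _).trans ?_
      simpa using hL
    · intro y y' hy
      have h1 : ∀ l ∈ L, sg y l.1 = sg y' l.1 := by
        intro l hl
        apply hco
        apply hy
        rw [List.mem_toFinset, List.mem_map]
        exact ⟨l, hl, rfl⟩
      have h2 : (∃ l ∈ L, sg y l.1 = l.2) ↔ ∃ l ∈ L, sg y' l.1 = l.2 := by
        constructor
        · rintro ⟨l, hl, h3⟩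
          exact ⟨l, hl, by rw [← h1 l hl, h3]⟩
        · rintro ⟨l, hl, h3⟩
          exact ⟨l, hl, by rw [h1 l hl, h3]⟩
      simp only [indF, h2]
  refine ⟨?_, hj L hL⟩
  induction L with
  | nil =>
    have h1 := (h (Fml.cst false) (by simp [Fml.disj, Fml.subs])).2
    simp only [RelV] at h1
    simpa [Fml.disj] using h1
  | cons l L ih =>
    have hL' : L.length ≤ d := by
      simp only [List.length_cons] at hL
      omega
    rw [List.map_cons, disj_cons] at h ⊢
    have ihh := ih hL' fun χ hχ => h χ (bin_right hχ)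
    have hlit := lit_ev Pf l (V := V) (sg := sg) fun χ hχ => (h χ (bin_left hχ)).2
    obtain ⟨-, hbin⟩ := h _ (self_mem_subs _)
    simp only [RelV, if_true] at hbin
    set A := Pf (Fml.litF l) with hA
    set B := Pf (Fml.disj (L.map Fml.litF)) with hB
    set i : (U → Bool) → ZMod p := indF (fun y => sg y l.1 == l.2) with hi
    set j : (U → Bool) → ZMod p := indF (fun y => decide (∃ l ∈ L, sg y l.1 = l.2)) with hjj
    have hAd : A ∈ Dg (ZMod p) d := (h _ (bin_left (self_mem_subs _))).1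
    have hBd : B ∈ Dg (ZMod p) d := (h _ (bin_right (self_mem_subs _))).1
    have hid : i ∈ Dg (ZMod p) d := Dg_mono hd (lit_mem_Dg hco _ _)
    have hjd : j ∈ Dg (ZMod p) d := hj L hL'
    have e1 : (A - i) * (1 - B) ∈ V :=
      hV d d _ _ hlit (Submodule.sub_mem _ hAd hid) (Submodule.sub_mem _ (one_mem_Dg d) hBd)
        (by omega)
    have e2 : (B - j) * (1 - i) ∈ V :=
      hV d d _ _ ihh (Submodule.sub_mem _ hBd hjd) (Submodule.sub_mem _ (one_mem_Dg d) hid)
        (by omega)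
    have e3 : i + j - i * j =
        (indF (fun y => decide (∃ l' ∈ l :: L, sg y l'.1 = l'.2)) : (U → Bool) → ZMod p) := by
      funext y
      simp only [hi, hjj, Pi.sub_apply, Pi.add_apply, Pi.mul_apply, indF, List.mem_cons,
        exists_eq_or_imp, beq_iff_eq, decide_eq_true_eq]
      by_cases h1 : sg y l.1 = l.2 <;> by_cases h2 : ∃ l ∈ L, sg y l.1 = l.2 <;> simp [h1, h2]
    rw [← e3]
    have e4 : Pf (Fml.bin true (Fml.litF l) (Fml.disj (L.map Fml.litF))) - (i + j - i * j) =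
        (Pf (Fml.bin true (Fml.litF l) (Fml.disj (L.map Fml.litF))) - (A + B - A * B)) +
          ((A - i) * (1 - B) + (B - j) * (1 - i)) := by ring
    rw [e4]
    exact V.add_mem hbin (V.add_mem e1 e2)

theorem clause_ev {V : Submodule (ZMod p) ((U → Bool) → ZMod p)} {D d m k B1 : ℕ}
    {sg : (U → Bool) → (U → Bool)} (hV : ClV V D) (hco : Cow sg) (F : Fin m → Fin k → U × Bool)
    (hV3 : ∀ (I : Finset (Fin m)) (f : (U → Bool) → ZMod p), I.card ≤ B1 → f ∈ Dg (ZMod p) D →
      (∀ y, SatAll (clF F) I (sg y) → f y = 0) → f ∈ V) (hB : 1 ≤ B1) (hd : 1 ≤ d) (hk : k ≤ d)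
    (hD : 2 * d ≤ D) (Pf : Fml p U → (U → Bool) → ZMod p) (i : Fin m)
    (h : ∀ χ ∈ Fml.subs (Fml.clauseF (F i)), Pf χ ∈ Dg (ZMod p) d ∧ RelV V sg Pf χ) :
    1 - Pf (Fml.clauseF (F i)) ∈ V := by
  have h0 : (Fml.clauseF (F i) : Fml p U) =
      Fml.disj (((List.finRange k).map (F i)).map Fml.litF) := by
    unfold Fml.clauseF
    rw [List.map_map]
    rfl
  rw [h0] at h ⊢
  obtain ⟨h1, h2⟩ := list_ev hV hco hd hD Pf ((List.finRange k).map (F i)) (by simpa using hk) h
  set ind : (U → Bool) → ZMod p :=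
    indF (fun y => decide (∃ l ∈ (List.finRange k).map (F i), sg y l.1 = l.2)) with hind
  have h3 : 1 - ind ∈ V := by
    apply hV3 {i} _ (by simpa using hB)
    · exact Dg_mono (by omega) (Submodule.sub_mem _ (one_mem_Dg d) h2)
    · intro y hy
      obtain ⟨l, hl, hsat⟩ := hy i (mem_singleton_self i)
      simp only [clF, mem_image, mem_univ, true_and] at hl
      obtain ⟨j, rfl⟩ := hl
      have h4 : ∃ l ∈ (List.finRange k).map (F i), sg y l.1 = l.2 :=
        ⟨F i j, by simp, hsat⟩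
      simp only [hind, Pi.sub_apply, Pi.one_apply, indF]
      rw [if_pos (decide_eq_true h4), sub_self]
  have h4 : 1 - Pf (Fml.disj (((List.finRange k).map (F i)).map Fml.litF)) =
      (1 - ind) - (Pf (Fml.disj (((List.finRange k).map (F i)).map Fml.litF)) - ind) := by ring
  rw [h4]
  exact V.sub_mem h3 h1

omit [Fintype U] [DecidableEq U] in
private lemma disj_ev {V : Submodule (ZMod p) ((U → Bool) → ZMod p)} {D d : ℕ}
    {sg : (U → Bool) → (U → Bool)} (hV : ClV V D) (hD : 2 * d ≤ D)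
    (Pf : Fml p U → (U → Bool) → ZMod p) (L : List (Fml p U))
    (h : ∀ χ ∈ Fml.subs (Fml.disj L), Pf χ ∈ Dg (ZMod p) d ∧ RelV V sg Pf χ)
    (hL : ∀ χ ∈ L, Pf χ ∈ V) : Pf (Fml.disj L) ∈ V := by
  induction L with
  | nil =>
    have h1 := (h (Fml.cst false) (by simp [Fml.disj, Fml.subs])).2
    simp only [RelV] at h1
    have h2 : (indF (fun _ => false) : (U → Bool) → ZMod p) = 0 := by
      funext y
      simp [indF]
    rw [h2, sub_zero] at h1
    simpa [Fml.disj] using h1
  | cons χ L ih =>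
    rw [disj_cons] at h ⊢
    have h1 := ih (fun ψ hψ => h ψ (bin_right hψ)) fun ψ hψ => hL ψ (List.mem_cons_of_mem _ hψ)
    have h2 := hL χ List.mem_cons_self
    obtain ⟨-, hbin⟩ := h _ (self_mem_subs _)
    simp only [RelV, if_true] at hbin
    have h3 : Pf χ * Pf (Fml.disj L) ∈ V :=
      hV d d _ _ h2 (h _ (bin_left (self_mem_subs _))).1
        (h _ (bin_right (self_mem_subs _))).1 (by omega)
    have h4 : Pf (Fml.bin true χ (Fml.disj L)) =
        (Pf (Fml.bin true χ (Fml.disj L)) - (Pf χ + Pf (Fml.disj L) - Pf χ * Pf (Fml.disj L))) +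
          (Pf χ + Pf (Fml.disj L) - Pf χ * Pf (Fml.disj L)) := by ring
    rw [h4]
    exact V.add_mem hbin (V.sub_mem (V.add_mem h2 h1) h3)

theorem dnf_ev {V : Submodule (ZMod p) ((U → Bool) → ZMod p)} {D d m k B1 : ℕ}
    {sg : (U → Bool) → (U → Bool)} (hV : ClV V D) (hco : Cow sg) (F : Fin m → Fin k → U × Bool)
    (hV3 : ∀ (I : Finset (Fin m)) (f : (U → Bool) → ZMod p), I.card ≤ B1 → f ∈ Dg (ZMod p) D →
      (∀ y, SatAll (clF F) I (sg y) → f y = 0) → f ∈ V) (hB : 1 ≤ B1) (hd : 1 ≤ d) (hk : k ≤ d)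
    (hD : 2 * d ≤ D) (Pf : Fml p U → (U → Bool) → ZMod p)
    (h : ∀ χ ∈ Fml.subs (Fml.dnfF F), Pf χ ∈ Dg (ZMod p) d ∧ RelV V sg Pf χ) :
    Pf (Fml.dnfF F) ∈ V := by
  unfold Fml.dnfF at h ⊢
  refine disj_ev hV hD Pf _ h ?_
  intro χ hχ
  have hχ' := hχ
  rw [List.mem_map] at hχ
  obtain ⟨i, -, rfl⟩ := hχ
  have h1 := (h _ (mem_disj hχ' (self_mem_subs _))).2
  simp only [RelV] at h1
  have h2 : 1 - Pf (Fml.clauseF (F i)) ∈ V := by
    refine clause_ev hV hco F hV3 hB hd hk hD Pf i fun ψ hψ => h ψ (mem_disj hχ' ?_)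
    simp only [Fml.subs, mem_insert]
    exact Or.inr hψ
  have h3 : Pf (Fml.neg (Fml.clauseF (F i))) =
      (Pf (Fml.neg (Fml.clauseF (F i))) - (1 - Pf (Fml.clauseF (F i)))) +
        (1 - Pf (Fml.clauseF (F i))) := by ring
  rw [h3]
  exact V.add_mem h1 h2

end Pool.Agent.Work.MP_c04246_lc.R
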