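import Pool.Agent.Work.MP_c04246_lc.R.PCore

/-!
MODULE PFin (size M). The pseudo-ideal of an expanding CNF.

Proof. `a1 = e * D * (k * e + 1)`, so `3 * a1 ≤ r`. Closures exist (`clo` with `a0 = 2 * a1`) for all `I`, `Y` with
`I.card ≤ e * D`, `Y.card ≤ D`: `e * (k * I.card + Y.card) ≤ e * (k * e * D + D) = a1`, and `a1 + 2 * a1 ≤ r`;
`I.card ≤ e * D ≤ a1 ≤ r`. Let `Rop` be as in `exists_Rop` and `V = Dg D ⊓ ker Rop`.
* `V ≤ Dg D`: clear.
* `1 ∉ V`: the pair `(∅, ∅)` is closed (`clsd_empty`), `1 = mon ∅` has only the term `∅`; so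
  `1 - Rop 1 ∈ Zv ∅ = 0`, hence `Rop 1 = 1 ≠ 0`.
* third property: let `f ∈ Dg D` vanish on the assignments satisfying `I`. Apply `split_mon` with
  `W = Vr I`, `A = {y | SatAll cl I y}` (depends only on `Vr I`): `f = ∑ m, F m`. For `m` with `m.card ≤ D` let
  `J ⊇ I` be the closure of `(I, m)`; `F m ∈ Zv I ≤ Zv J`, `F m ∈ Dg D`, terms inside `Vr I ∪ m ⊆ Vr J ∪ m`; so
  `Rop (F m) = 0`. For other `m`, `F m = 0`. So `Rop f = 0`.
* `ClV V D`: let `f ∈ V`, `f ∈ Dg a`, `g ∈ Dg b`, `a + b ≤ D`. `f * g ∈ Dg D` by `mul_mem_Dg`. It remains to see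
  `Rop (f * g) = 0`; by linearity and span induction on `g` (`Rop (f * g)` is linear in `g`) let
  `g = mon u`, `u.card ≤ b`. First, for `t` with `t.card ≤ a`: let `J0` be the closure of `(∅, t)`
  (`J0.card ≤ e * t.card ≤ e * D`), `h = Rop (mon t)`: `mon t - h ∈ Zv J0`, the terms of `h` are inside `Vr J0 ∪ t`,
  `h ∈ Dg t.card`. Let `J ⊇ J0` be the closure of `(J0, t ∪ u)`. `F = (mon t - h) * mon u` is in `Zv J0 ≤ Zv J`
  (pointwise), in `Dg (a + b) ≤ Dg D`, with all terms inside `Vr J ∪ (t ∪ u)` (a product of functions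
  depending only on `Vr J ∪ t ∪ u`, `cf_dep`). So `Rop F = 0`, i.e. `Rop (mon t * mon u) = Rop (Rop (mon t) * mon u)`.
  Now sum over the terms of `f` (`sum_cf`, sizes `≤ a` by `mem_Dg_iff`):
  `Rop (f * mon u) = Rop (Rop f * mon u) = Rop 0 = 0`.
-/

set_option autoImplicit false

namespace Pool.Agent.Work.MP_c04246_lc.R

open Finset

variable {U M : Type} [Fintype U] [DecidableEq U] [DecidableEq M] [Fintype M]

theorem exists_V0 (𝕜 : Type) [Field 𝕜] (cl : M → Finset (U × Bool)) (k r e D : ℕ) (he : 1 ≤ e)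
    (hk : ∀ i, (vr cl i).card ≤ k) (hE : Expn cl r e) (hD : 3 * (e * D * (k * e + 1)) ≤ r) :
    ∃ V : Submodule 𝕜 ((U → Bool) → 𝕜), V ≤ Dg 𝕜 D ∧ ClV V D ∧
      (∀ (I : Finset M) (f : (U → Bool) → 𝕜), I.card ≤ e * D → f ∈ Dg 𝕜 D →
        (∀ y, SatAll cl I y → f y = 0) → f ∈ V) ∧ (1 : (U → Bool) → 𝕜) ∉ V := by
  classical
  obtain ⟨a1, ha1⟩ : ∃ a1, a1 = e * D * (k * e + 1) := ⟨_, rfl⟩
  rw [← ha1] at hD
  have heD : e * D ≤ a1 := by
    rw [ha1]
    exact Nat.le_mul_of_pos_right _ (Nat.succ_pos _)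
  -- closures
  have hclo : ∀ (I : Finset M) (Y : Finset U), I.card ≤ e * D → Y.card ≤ D →
      ∃ J : Finset M, I ⊆ J ∧ J.card ≤ e * (k * I.card + Y.card) ∧ J.card ≤ a1 ∧
        Clsd cl (2 * a1) J Y := by
    intro I Y hI hY
    have h1 : e * (k * I.card + Y.card) ≤ a1 := by
      calc e * (k * I.card + Y.card) ≤ e * (k * (e * D) + D) :=
            Nat.mul_le_mul_left _ (Nat.add_le_add (Nat.mul_le_mul_left _ hI) hY)
        _ = a1 := by rw [ha1]; ring
    obtain ⟨J, h2, h3, h4⟩ := clo (a0 := 2 * a1) hE hk I Y (by omega) (by omega)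
    exact ⟨J, h2, h3, h3.trans h1, h4⟩
  obtain ⟨Rop, hR⟩ := exists_Rop 𝕜 cl a1 D (fun t ht => by
    obtain ⟨J, -, -, h3, h4⟩ := hclo ∅ t (by rw [Finset.card_empty]; exact Nat.zero_le _) ht
    exact ⟨J, h3, h4⟩)
  have hmem : ∀ f, f ∈ Dg 𝕜 D ⊓ LinearMap.ker Rop ↔ f ∈ Dg 𝕜 D ∧ Rop f = 0 := by
    intro f
    rw [Submodule.mem_inf, LinearMap.mem_ker]
  refine ⟨Dg 𝕜 D ⊓ LinearMap.ker Rop, inf_le_left, ?_, ?_, ?_⟩
  · -- closed under multiplication
    intro a b f g hf hfa hg hab
    rw [hmem] at hf ⊢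
    refine ⟨Dg_mono hab (mul_mem_Dg hfa hg), ?_⟩
    have hmon : ∀ u : Finset U, u.card ≤ b → Rop (f * mon 𝕜 u) = 0 := by
      intro u hu
      have hspan : ∀ f' ∈ Dg 𝕜 a, Rop (f' * mon 𝕜 u) = Rop (Rop f' * mon 𝕜 u) := by
        intro f' hf'
        unfold Dg at hf'
        induction hf' using Submodule.span_induction with
        | mem f' hf' =>
          obtain ⟨t, ht, rfl⟩ := hf'
          obtain ⟨J0, -, h2, h3, h4⟩ := hclo ∅ t (by rw [Finset.card_empty]; exact Nat.zero_le _)
            (by omega)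
          have hJ0 : J0.card ≤ e * D := by
            refine h2.trans (Nat.mul_le_mul_left _ ?_)
            rw [Finset.card_empty, mul_zero, zero_add]
            omega
          have htDg : mon 𝕜 t ∈ Dg 𝕜 D := mon_mem_Dg (by omega)
          obtain ⟨h5, h6, -, h7⟩ := hR J0 t h3 h4 (mon 𝕜 t) htDg (fun s hs => by
            rw [cf_mon] at hs
            have h8 : t = s := by
              by_contra h9
              rw [if_neg h9] at hs
              exact hs rfl
            rw [← h8]
            exact Finset.subset_union_right)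
          obtain ⟨J, h8, -, h9, h10⟩ := hclo J0 (t ∪ u) hJ0
            ((Finset.card_union_le t u).trans (by omega))
          have hF0 : (mon 𝕜 t - Rop (mon 𝕜 t)) * mon 𝕜 u ∈ Zv 𝕜 cl J := by
            intro y hy
            rw [Pi.mul_apply, h5 y (fun i hi => hy i (h8 hi)), zero_mul]
          have hFD : (mon 𝕜 t - Rop (mon 𝕜 t)) * mon 𝕜 u ∈ Dg 𝕜 D := by
            refine Dg_mono hab (mul_mem_Dg (Submodule.sub_mem _ (mon_mem_Dg ht) ?_)
              (mon_mem_Dg hu))
            exact h7 a (mon_mem_Dg ht)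
          have hsub0 : Vr cl J0 ∪ t ⊆ Vr cl J ∪ (t ∪ u) :=
            Finset.union_subset_union (Vr_mono h8) Finset.subset_union_left
          have hFW : ∀ s, cf ((mon 𝕜 t - Rop (mon 𝕜 t)) * mon 𝕜 u) s ≠ 0 →
              s ⊆ Vr cl J ∪ (t ∪ u) := by
            rw [← cf_dep]
            intro y y' hyy
            rw [Pi.mul_apply, Pi.mul_apply]
            have e1 : (mon 𝕜 t - Rop (mon 𝕜 t)) y = (mon 𝕜 t - Rop (mon 𝕜 t)) y' := by
              refine (cf_dep (mon 𝕜 t - Rop (mon 𝕜 t)) (Vr cl J ∪ (t ∪ u))).2 ?_ y y' hyy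
              intro s hs
              rw [cf_sub] at hs
              by_cases h11 : cf (mon 𝕜 t) s = 0
              · rw [h11, zero_sub] at hs
                exact (h6 s (neg_ne_zero.1 hs)).trans hsub0
              · rw [cf_mon] at h11
                have h12 : t = s := by
                  by_contra h13
                  rw [if_neg h13] at h11
                  exact h11 rfl
                rw [← h12]
                exact Finset.subset_union_right.trans hsub0
            have e2 : mon 𝕜 u y = mon 𝕜 u y' := by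
              refine (cf_dep (mon 𝕜 u) (Vr cl J ∪ (t ∪ u))).2 ?_ y y' hyy
              intro s hs
              rw [cf_mon] at hs
              have h12 : u = s := by
                by_contra h13
                rw [if_neg h13] at hs
                exact hs rfl
              rw [← h12]
              exact Finset.subset_union_right.trans Finset.subset_union_right
            rw [e1, e2]
          have h11 := (hR J (t ∪ u) h9 h10 _ hFD hFW).2.2.1 hF0
          rw [sub_mul, map_sub, sub_eq_zero] at h11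
          exact h11
        | zero => rw [map_zero]
        | add f f' _ _ h1 h2 => rw [add_mul, map_add, h1, h2, map_add, add_mul, map_add]
        | smul c f _ h1 =>
          rw [smul_mul_assoc, map_smul, h1, map_smul, smul_mul_assoc, map_smul]
      rw [hspan f hfa, hf.2, zero_mul, map_zero]
    unfold Dg at hg
    induction hg using Submodule.span_induction with
    | mem g hg =>
      obtain ⟨u, hu, rfl⟩ := hg
      exact hmon u hu
    | zero => rw [mul_zero, map_zero]
    | add g g' _ _ h1 h2 => rw [mul_add, map_add, h1, h2, add_zero]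
    | smul c g _ h1 => rw [mul_smul_comm, map_smul, h1, smul_zero]
  · -- functions vanishing on a few clauses
    intro I f hI hf h0
    rw [hmem]
    refine ⟨hf, ?_⟩
    obtain ⟨F, hF, hF2⟩ := split_mon f D hf (Vr cl I) {y | SatAll cl I y} (by
      intro y y' hyy hy i hi
      obtain ⟨l, hl, hyl⟩ := hy i hi
      refine ⟨l, hl, ?_⟩
      rw [← hyl]
      symm
      apply hyy
      unfold Vr
      rw [Finset.mem_biUnion]
      exact ⟨i, hi, Finset.mem_image_of_mem Prod.fst hl⟩) h0
    rw [hF, map_sum]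
    refine Finset.sum_eq_zero fun m _ => ?_
    obtain ⟨h1, h2, h3⟩ := hF2 m
    by_cases hm : m.card ≤ D
    · obtain ⟨J, h4, -, h5, h6⟩ := hclo I m hI hm
      refine (hR J m h5 h6 (F m) ?_ ?_).2.2.1 ?_
      · rw [mem_Dg_iff]
        exact fun t ht => (h2 t ht).2
      · exact fun t ht => (h2 t ht).1.trans (Finset.union_subset_union_left (Vr_mono h4))
      · intro y hy
        exact h1 y fun i hi => hy i (h4 hi)
    · rw [h3 (by omega), map_zero]
  · -- not everything
    intro h1
    rw [hmem] at h1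
    have h2 := (hR ∅ ∅ (by rw [Finset.card_empty]; exact Nat.zero_le _)
      (clsd_empty (r := r) (a0 := 2 * a1) hE (by omega)) 1 (one_mem_Dg D) (fun s hs => by
        rw [← mon_empty (U := U), cf_mon] at hs
        have h3 : (∅ : Finset U) = s := by
          by_contra h4
          rw [if_neg h4] at hs
          exact hs rfl
        rw [← h3]
        exact Finset.empty_subset _)).1
    rw [h1.2, sub_zero] at h2
    have h3 := h2 (fun _ => true) (fun i hi => absurd hi (Finset.notMem_empty i))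
    rw [Pi.one_apply] at h3
    exact one_ne_zero h3

end Pool.Agent.Work.MP_c04246_lc.R
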