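import Pool.Agent.Work.MP_c04246_lc.R.RBase

/-!
MODULE WA (size M). The cost bounds masses and numbers of large connectives.

`n` is at least the number of variables, so every scope is at most `n`.
Proofs by induction on `u`.
* `card_medU_le`: `card_biUnion_le`.
* `costU_free`: unfold: for a free counting connective the minimum is the second number.
* `costU_child` / `costU_SbU`: if `(varsU u).card ≤ κ0` then all subterms have scope `≤ κ0` and cost `0`; otherwise
  each argument has cost at most the sum, and at most the maximum.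
* `nbg_le`. gate with scope `s > κ'`: `κ' (1 + ∑ nbg) ≤ min s τ + ∑ costU`. Free mod: cost `≥ n ≥ s > κ'`, `nbg = 1`.
  Not free mod with scope `s > κ' ≥ κ0`: `Free` fails, so the minimum in the cost is the first number;
  as for a gate.
* `nfr_le`: the same (`costU ≥ n` for a free one, sum for the others).
* `sum_mass_le`. Let `s` be the scope of `u` (gate, or mod not free). For `i < M`:
  `massU (kk i) (kk (i+1)) u ≤ (if kk i < s ∧ s ≤ kk (i+1) then s else 0) + ∑ j, massU .. (f j)`, and at most one
  `i` satisfies `kk i < s ≤ kk (i+1)` (compare `X.UF.sum_ind_le` in XMass.lean); if there is one then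
  `s ≤ kk M ≤ τ`. If `s ≤ κ0` all masses vanish (`kk i ≥ kk 0 ≥ κ0 ≥ s`). So the total is at most
  `min s τ + ∑ j, costU (f j)`. Free mod: the masses are `0` or `s`, at most one is `s`, total `≤ s ≤ n ≤ costU`.
-/

set_option autoImplicit false
set_option linter.unusedSectionVars false

namespace Pool.Agent.Work.MP_c04246_lc.R

open Finset

variable {U : Type} [Fintype U] {p : ℕ}

lemma card_medU_le (κ κ' : ℕ) (fr : X.UF p U → Prop) (u : X.UF p U) :
    (medU κ κ' fr u).card ≤ massU κ κ' fr u := by
  classical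
  induction u with
  | lit x b => simp [medU, massU]
  | cst b => simp [medU, massU]
  | gate c k f ih =>
    simp only [medU, massU]
    split_ifs with h1 h2
    · simp
    · exact le_rfl
    · exact card_biUnion_le.trans (sum_le_sum fun j _ => ih j)
  | mod A k f ih =>
    simp only [medU, massU]
    split_ifs with h1 h2 h3
    · simp
    · exact le_rfl
    · simp
    · exact card_biUnion_le.trans (sum_le_sum fun j _ => ih j)

private lemma costU_zero {κ τ n : ℕ} {u : X.UF p U} (h : (varsU u).card ≤ κ) :
    costU κ τ n u = 0 := by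
  cases u with
  | lit x b => simp [costU]
  | cst b => simp [costU]
  | gate c k f => simp only [costU, if_pos h]
  | mod A k f => simp only [costU, if_pos h]

private lemma varsU_gate_sub (c : Bool) (k : ℕ) (f : Fin k → X.UF p U) (j : Fin k) :
    varsU (f j) ⊆ varsU (X.UF.gate c k f) := by
  classical
  intro x hx
  simp only [varsU, mem_biUnion]
  exact ⟨j, mem_univ j, hx⟩

private lemma varsU_mod_sub (A : ZMod p → Bool) (k : ℕ) (f : Fin k → X.UF p U) (j : Fin k) :
    varsU (f j) ⊆ varsU (X.UF.mod A k f) := by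
  classical
  intro x hx
  simp only [varsU, mem_biUnion]
  exact ⟨j, mem_univ j, hx⟩

lemma costU_free {κ0 τ n : ℕ} {A : ZMod p → Bool} {k : ℕ} {f : Fin k → X.UF p U}
    (h : Free κ0 τ n (X.UF.mod A k f)) (j : Fin k) :
    n + costU κ0 τ n (f j) ≤ costU κ0 τ n (X.UF.mod A k f) := by
  simp only [Free] at h
  obtain ⟨h1, h2⟩ := h
  simp only [costU, if_neg (not_le.2 h1), min_eq_right h2]
  have := Finset.le_sup (f := fun j => costU κ0 τ n (f j)) (mem_univ j)
  exact Nat.add_le_add_left this n

lemma le_costU_free {κ0 τ n : ℕ} {m : X.UF p U} (h : Free κ0 τ n m) : n ≤ costU κ0 τ n m := by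
  cases m with
  | lit x b => exact absurd h (by simp [Free])
  | cst b => exact absurd h (by simp [Free])
  | gate c k f => exact absurd h (by simp [Free])
  | mod A k f =>
    simp only [Free] at h
    obtain ⟨h1, h2⟩ := h
    simp only [costU, if_neg (not_le.2 h1), min_eq_right h2]
    exact Nat.le_add_right _ _

lemma costU_SbU {κ0 τ n : ℕ} {m u : X.UF p U} (h : SbU m u) :
    costU κ0 τ n m ≤ costU κ0 τ n u := by
  induction h with
  | refl u => exact le_rfl
  | gate c k f j u h ih =>
    refine ih.trans ?_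
    by_cases h1 : (varsU (X.UF.gate c k f)).card ≤ κ0
    · rw [costU_zero ((card_le_card (varsU_gate_sub c k f j)).trans h1)]
      exact Nat.zero_le _
    · simp only [costU, if_neg h1]
      have := Finset.single_le_sum (f := fun j => costU κ0 τ n (f j))
        (fun _ _ => Nat.zero_le _) (mem_univ j)
      omega
  | mod A k f j u h ih =>
    refine ih.trans ?_
    by_cases h1 : (varsU (X.UF.mod A k f)).card ≤ κ0
    · rw [costU_zero ((card_le_card (varsU_mod_sub A k f j)).trans h1)]
      exact Nat.zero_le _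
    · simp only [costU, if_neg h1]
      have e1 : costU κ0 τ n (f j) ≤ ∑ j, costU κ0 τ n (f j) :=
        Finset.single_le_sum (f := fun j => costU κ0 τ n (f j))
          (fun _ _ => Nat.zero_le _) (mem_univ j)
      have e2 : costU κ0 τ n (f j) ≤ univ.sup fun j => costU κ0 τ n (f j) :=
        Finset.le_sup (f := fun j => costU κ0 τ n (f j)) (mem_univ j)
      apply le_min <;> omega

private lemma costU_gate {κ τ n : ℕ} (c : Bool) (k : ℕ) (f : Fin k → X.UF p U)
    (h : κ < (varsU (X.UF.gate c k f)).card) : costU κ τ n (X.UF.gate c k f) =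
      min (varsU (X.UF.gate c k f)).card τ + ∑ j, costU κ τ n (f j) := by
  simp only [costU, if_neg (not_le.2 h)]

private lemma costU_mod {κ τ n : ℕ} (A : ZMod p → Bool) (k : ℕ) (f : Fin k → X.UF p U)
    (h : κ < (varsU (X.UF.mod A k f)).card) (hf : ¬ Free κ τ n (X.UF.mod A k f)) :
    costU κ τ n (X.UF.mod A k f) =
      min (varsU (X.UF.mod A k f)).card τ + ∑ j, costU κ τ n (f j) := by
  simp only [Free, not_and, not_le] at hf
  have := hf h
  simp only [costU, if_neg (not_le.2 h)]
  exact min_eq_left this.le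

lemma nbg_le {κ0 τ n κ' : ℕ} (hn : Fintype.card U ≤ n) (h0 : κ0 ≤ κ') (hτ : κ' ≤ τ)
    (u : X.UF p U) : κ' * nbg κ' (Free κ0 τ n) u ≤ costU κ0 τ n u := by
  have key : ∀ (k : ℕ) (f : Fin k → X.UF p U) (s : ℕ), κ' < s →
      (∀ j, κ' * nbg κ' (Free κ0 τ n) (f j) ≤ costU κ0 τ n (f j)) →
      κ' * (1 + ∑ j, nbg κ' (Free κ0 τ n) (f j)) ≤ min s τ + ∑ j, costU κ0 τ n (f j) := by
    intro k f s hs ih
    rw [mul_add, mul_one, mul_sum]
    exact Nat.add_le_add (le_min hs.le hτ) (sum_le_sum fun j _ => ih j)
  induction u with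
  | lit x b => simp [nbg]
  | cst b => simp [nbg]
  | gate c k f ih =>
    by_cases h1 : (varsU (X.UF.gate c k f)).card ≤ κ'
    · simp only [nbg, if_pos h1, mul_zero, Nat.zero_le]
    · rw [costU_gate c k f (by omega)]
      simp only [nbg, if_neg h1]
      exact key k f _ (by omega) ih
  | mod A k f ih =>
    by_cases h1 : (varsU (X.UF.mod A k f)).card ≤ κ'
    · simp only [nbg, if_pos h1, mul_zero, Nat.zero_le]
    · by_cases h2 : Free κ0 τ n (X.UF.mod A k f)
      · simp only [nbg, if_neg h1, if_pos h2, mul_one]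
        have e1 := le_costU_free h2
        have e2 : (varsU (X.UF.mod A k f)).card ≤ Fintype.card U := card_le_univ _
        omega
      · rw [costU_mod A k f (by omega) h2]
        simp only [nbg, if_neg h1, if_neg h2]
        exact key k f _ (by omega) ih

lemma nfr_le {κ0 τ n κ' : ℕ} (h0 : κ0 ≤ κ') (u : X.UF p U) :
    n * nfr κ' (Free κ0 τ n) u ≤ costU κ0 τ n u := by
  have key : ∀ (k : ℕ) (f : Fin k → X.UF p U) (s : ℕ),
      (∀ j, n * nfr κ' (Free κ0 τ n) (f j) ≤ costU κ0 τ n (f j)) →
      n * (∑ j, nfr κ' (Free κ0 τ n) (f j)) ≤ min s τ + ∑ j, costU κ0 τ n (f j) := by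
    intro k f s ih
    rw [mul_sum]
    exact (sum_le_sum fun j _ => ih j).trans (Nat.le_add_left _ _)
  induction u with
  | lit x b => simp [nfr]
  | cst b => simp [nfr]
  | gate c k f ih =>
    by_cases h1 : (varsU (X.UF.gate c k f)).card ≤ κ'
    · simp only [nfr, if_pos h1, mul_zero, Nat.zero_le]
    · rw [costU_gate c k f (by omega)]
      simp only [nfr, if_neg h1]
      exact key k f _ ih
  | mod A k f ih =>
    by_cases h1 : (varsU (X.UF.mod A k f)).card ≤ κ'
    · simp only [nfr, if_pos h1, mul_zero, Nat.zero_le]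
    · by_cases h2 : Free κ0 τ n (X.UF.mod A k f)
      · simp only [nfr, if_neg h1, if_pos h2, mul_one]
        exact le_costU_free h2
      · rw [costU_mod A k f (by omega) h2]
        simp only [nfr, if_neg h1, if_neg h2]
        exact key k f _ ih

private lemma sum_ind {kk : ℕ → ℕ} (hkk : StrictMono kk) {M τ : ℕ} (hτ : kk M ≤ τ) (s : ℕ) :
    ∑ i ∈ range M, (if kk i < s ∧ s ≤ kk (i + 1) then s else 0) ≤ min s τ := by
  by_cases h : ∃ i ∈ range M, kk i < s ∧ s ≤ kk (i + 1)
  · obtain ⟨i, hi, h1, h2⟩ := h
    rw [Finset.sum_eq_single i]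
    · rw [if_pos ⟨h1, h2⟩]
      have : kk (i + 1) ≤ kk M := hkk.monotone (by have := mem_range.1 hi; omega)
      exact le_min le_rfl (by omega)
    · intro i' _ hne
      rw [if_neg]
      rintro ⟨h3, h4⟩
      rcases lt_or_gt_of_ne hne with h5 | h5
      · have : kk (i' + 1) ≤ kk i := hkk.monotone h5
        omega
      · have : kk (i + 1) ≤ kk i' := hkk.monotone h5
        omega
    · intro h5
      exact absurd hi h5
  · rw [Finset.sum_eq_zero]
    · exact Nat.zero_le _
    · intro i hi
      rw [if_neg]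
      intro h3
      exact h ⟨i, hi, h3⟩

lemma sum_mass_le {κ0 τ n : ℕ} (hn : Fintype.card U ≤ n) (kk : ℕ → ℕ) (hkk : StrictMono kk)
    (h0 : κ0 ≤ kk 0) (M : ℕ) (hτ : kk M ≤ τ) (u : X.UF p U) :
    ∑ i ∈ range M, massU (kk i) (kk (i + 1)) (Free κ0 τ n) u ≤ costU κ0 τ n u := by
  have hkk0 : ∀ i, κ0 ≤ kk i := fun i => h0.trans (hkk.monotone (Nat.zero_le i))
  have key : ∀ (k : ℕ) (f : Fin k → X.UF p U) (s : ℕ) (m : ℕ → ℕ),
      (∀ j, ∑ i ∈ range M, massU (kk i) (kk (i + 1)) (Free κ0 τ n) (f j) ≤
        costU κ0 τ n (f j)) →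
      (∀ i, m i ≤ (if kk i < s ∧ s ≤ kk (i + 1) then s else 0) +
        ∑ j, massU (kk i) (kk (i + 1)) (Free κ0 τ n) (f j)) →
      ∑ i ∈ range M, m i ≤ min s τ + ∑ j, costU κ0 τ n (f j) := by
    intro k f s m ih hm
    refine (sum_le_sum fun i _ => hm i).trans ?_
    rw [sum_add_distrib, sum_comm]
    exact Nat.add_le_add (sum_ind hkk hτ s) (sum_le_sum fun j _ => ih j)
  induction u with
  | lit x b => simp [massU]
  | cst b => simp [massU]
  | gate c k f ih =>
    by_cases h1 : (varsU (X.UF.gate c k f)).card ≤ κ0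
    · rw [Finset.sum_eq_zero]
      · exact Nat.zero_le _
      · intro i _
        simp only [massU, if_pos (h1.trans (hkk0 i))]
    · rw [costU_gate c k f (by omega)]
      apply key k f _ _ ih
      intro i
      simp only [massU]
      split_ifs with h2 h3 h4 h5 h6 <;> omega
  | mod A k f ih =>
    by_cases h1 : (varsU (X.UF.mod A k f)).card ≤ κ0
    · rw [Finset.sum_eq_zero]
      · exact Nat.zero_le _
      · intro i _
        simp only [massU, if_pos (h1.trans (hkk0 i))]
    · by_cases hf : Free κ0 τ n (X.UF.mod A k f)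
      · have e1 := le_costU_free hf
        have e2 : (varsU (X.UF.mod A k f)).card ≤ Fintype.card U := card_le_univ _
        have e3 : ∑ i ∈ range M, massU (kk i) (kk (i + 1)) (Free κ0 τ n) (X.UF.mod A k f) ≤
            min (varsU (X.UF.mod A k f)).card τ := by
          refine le_trans (sum_le_sum fun i _ => ?_) (sum_ind hkk hτ _)
          simp only [massU, if_pos hf]
          split_ifs with h2 h3 h4 h5 h6 <;> omega
        have e4 := min_le_left (varsU (X.UF.mod A k f)).card τ
        omega
      · rw [costU_mod A k f (by omega) hf]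
        apply key k f _ _ ih
        intro i
        simp only [massU, if_neg hf]
        split_ifs with h2 h3 h4 h5 h6 <;> omega

end Pool.Agent.Work.MP_c04246_lc.R
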