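import Pool.Agent.Work.MP_c04246_lc.R.EvG
import Pool.Agent.Work.MP_c04246_lc.R.WA
import Pool.Agent.Work.MP_c04246_lc.R.WC

/-!
MODULE AllEv (size M). Evaluations of all formulas of a set closed under subformulas.

`dq p C β q = 4 * β * (p * C + p + 1) ^ (q + 1)`.

Proof. Show by induction on `q ≤ C`: for all `ψ ∈ S` with `costU κ0 τ n (toU false ψ) ≤ q * n` there is `P` with
`EvU V0 (dq p C β q) sg (toU false ψ) P`. Let `u = toU false ψ`, and take `κ, H, t, w0` from the hypothesis.
Free subterms of `u`: let `m` be a subterm of `u` with `Free κ0 τ n m`; `m = mod A k f'`, and by `SbU_toU`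
`f' j = toU false (f j)` with `mod i k f ∈ subs ψ`, so `f j ∈ subs (mod i k f) ⊆ subs ψ` and `f j ∈ S`
(`hS`, `subs_trans`, `self_mem_subs`). By `costU_free`, `costU_SbU`:
`n + costU (f' j) ≤ costU m ≤ costU u ≤ q * n`. If `q = 0`: if `k ≥ 1` this is impossible as `n ≥ 1`; in any case
`n ≤ costU m ≤ 0` (`le_costU_free`) is impossible. If `q ≥ 1`: `costU (f' j) ≤ (q-1) * n`, so by the induction
hypothesis there are evaluations `Q j` of `f' j` with degree bound `e = dq (q-1)`, and `ev_mod_free`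
(`EvU.mono_d`; degree bound `p * e`, `E = (p-1) * e`) gives an evaluation of `m` of degree `≤ E` with bound
`p * e`. Put `e = 0`, `E = 0` if `q = 0`.
Let `d = κ + dgb κ H (Free κ0 τ n) E u + p * e`. `d ≤ β + (β + E * C) + p * e ≤ 2 β + (p * C + p) * e`. Then
`main_ev` gives `P` with `EvU V0 (d + (t + H.card)) sg u P` and
`d + (t + H.card) ≤ 4 β + (p C + p) e ≤ (p C + p + 1) e = dq q` if `q ≥ 1` (as `e = dq (q-1) ≥ 4 β`), and
`≤ 4 β ≤ dq 0` if `q = 0`. Its hypothesis `3 p d + (t + H.card) ≤ D`: `≤ (3 p + 1) * dq q ≤ (3 p + 1) * dq C ≤ D`.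
`EvU.mono_d`. At the end take `q = C`.
(The case `β = 0` is excluded by `1 ≤ κ ≤ β`, if `S` is nonempty.)
-/

set_option autoImplicit false

namespace Pool.Agent.Work.MP_c04246_lc.R

open Finset

/-- degree bounds -/
def dq (p C β q : ℕ) : ℕ := 4 * β * (p * C + p + 1) ^ (q + 1)

variable {U M : Type} [Fintype U] [DecidableEq U] {p : ℕ} [Fact p.Prime]

theorem all_ev {cl : M → Finset (U × Bool)} {V0 : Submodule (ZMod p) ((U → Bool) → ZMod p)}
    {D B1 : ℕ} {sg : (U → Bool) → (U → Bool)} (hV : ClV V0 D) (hco : Cow sg)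
    (hV3 : ∀ (I : Finset M) (f : (U → Bool) → ZMod p), I.card ≤ B1 → f ∈ Dg (ZMod p) D →
      (∀ y, SatAll cl I (sg y) → f y = 0) → f ∈ V0)
    (κ0 τ n C β : ℕ) (hn : Fintype.card U ≤ n) (hn1 : 1 ≤ n) (S : Finset (Fml p U))
    (hS : ∀ ψ ∈ S, ∀ χ ∈ Fml.subs ψ, χ ∈ S)
    (hDT : ∀ ψ ∈ S, ∃ (κ : ℕ) (H : Finset U) (t : ℕ) (w0 : U → Bool), 1 ≤ κ ∧ κ ≤ β ∧
      X.DT (GoodA cl B1 sg (gl κ H (Free κ0 τ n) (X.UF.toU false ψ))) ∅ w0 t ∧
      t + H.card ≤ 2 * β ∧
      ∀ E, dgb κ H (Free κ0 τ n) E (X.UF.toU false ψ) ≤ β + E * C)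
    (hD : (3 * p + 1) * dq p C β C ≤ D) :
    ∀ ψ ∈ S, costU κ0 τ n (X.UF.toU false ψ) ≤ C * n →
      ∃ P, EvU V0 (dq p C β C) sg (X.UF.toU false ψ) P := by
  classical
  have hmono : ∀ q q', q ≤ q' → dq p C β q ≤ dq p C β q' := by
    intro q q' h
    unfold dq
    exact Nat.mul_le_mul_left _ (Nat.pow_le_pow_right (by omega) (by omega))
  have hfrS : ∀ ψ ∈ S, ∀ m, SbU m (X.UF.toU false ψ) → Free κ0 τ n m →
      ∃ (A : ZMod p → Bool) (k : ℕ) (f : Fin k → Fml p U), (∀ j, f j ∈ S) ∧
        m = X.UF.mod A k (fun j => X.UF.toU false (f j)) ∧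
        ∀ j, n + costU κ0 τ n (X.UF.toU false (f j)) ≤ costU κ0 τ n (X.UF.toU false ψ) := by
    intro ψ hψ m hm hf
    cases m with
    | lit x b => exact absurd hf (by simp [Free])
    | cst b => exact absurd hf (by simp [Free])
    | gate c k f => exact absurd hf (by simp [Free])
    | mod A k f' =>
      obtain ⟨i, f, hif, rfl⟩ := SbU_toU hm
      refine ⟨A, k, f, ?_, rfl, ?_⟩
      · intro j
        apply hS ψ hψ
        refine subs_trans ?_ hif
        simp only [Fml.subs, mem_insert, mem_biUnion, mem_univ, true_and]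
        exact Or.inr ⟨j, self_mem_subs _⟩
      · intro j
        exact (costU_free hf j).trans (costU_SbU hm)
  have main : ∀ q, q ≤ C → ∀ ψ ∈ S, costU κ0 τ n (X.UF.toU false ψ) ≤ q * n →
      ∃ P, EvU V0 (dq p C β q) sg (X.UF.toU false ψ) P := by
    intro q
    induction q with
    | zero =>
      intro _ ψ hψ hc
      obtain ⟨κ, H, t, w0, hκ1, hκβ, hdt, htH, hdg⟩ := hDT ψ hψ
      have h4 : 4 * β ≤ dq p C β 0 := by
        unfold dq
        exact Nat.le_mul_of_pos_right _ (Nat.pow_pos (by omega))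
      have h5 : (3 * p + 1) * dq p C β 0 ≤ D :=
        (Nat.mul_le_mul_left _ (hmono 0 C (Nat.zero_le _))).trans hD
      have h6 : (3 * p + 1) * (4 * β) ≤ D := (Nat.mul_le_mul_left _ h4).trans h5
      have h7 : 3 * p * (2 * β) + (t + H.card) ≤ D := by
        refine le_trans ?_ h6
        have : (3 * p + 1) * (4 * β) = 3 * p * (4 * β) + 4 * β := by ring
        rw [this]
        refine Nat.add_le_add (Nat.mul_le_mul_left _ (by omega)) (by omega)
      have hfr : ∀ m, SbU m (X.UF.toU false ψ) → Free κ0 τ n m →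
          ∃ P, EvU V0 (2 * β) sg m P ∧ P ∈ Dg (ZMod p) 0 := by
        intro m hm hf
        exfalso
        have h8 := le_costU_free hf
        have h9 := costU_SbU (κ0 := κ0) (τ := τ) (n := n) hm
        omega
      have hE : dgb κ H (Free κ0 τ n) 0 (X.UF.toU false ψ) ≤ 2 * β := by
        have := hdg 0
        omega
      obtain ⟨P, hP⟩ := main_ev hV hco hV3 (E := 0) (d := 2 * β) hκ1 (by omega) H h7
        (Free κ0 τ n) (X.UF.toU false ψ) w0 hdt hfr hE
      exact ⟨P, hP.mono_d (by omega)⟩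
    | succ q ih =>
      intro hq ψ hψ hc
      obtain ⟨κ, H, t, w0, hκ1, hκβ, hdt, htH, hdg⟩ := hDT ψ hψ
      set e := dq p C β q with he
      have h4 : 4 * β ≤ e := by
        rw [he]
        unfold dq
        exact Nat.le_mul_of_pos_right _ (Nat.pow_pos (by omega))
      have hp1 : 1 ≤ p := (Fact.out : p.Prime).one_lt.le
      have hstep : dq p C β (q + 1) = (p * C + p) * e + e := by
        rw [he]
        unfold dq
        rw [pow_succ (p * C + p + 1) (q + 1)]
        ring
      have hdd : 2 * β + (p * C + p) * e + (t + H.card) ≤ dq p C β (q + 1) := by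
        rw [hstep]
        omega
      have h5 : (3 * p + 1) * dq p C β (q + 1) ≤ D :=
        (Nat.mul_le_mul_left _ (hmono _ _ hq)).trans hD
      have h7 : 3 * p * (2 * β + (p * C + p) * e) + (t + H.card) ≤ D := by
        refine le_trans ?_ h5
        have : (3 * p + 1) * dq p C β (q + 1) = 3 * p * dq p C β (q + 1) + dq p C β (q + 1) := by
          ring
        rw [this]
        refine Nat.add_le_add (Nat.mul_le_mul_left _ (by omega)) (by omega)
      have hpe : (p - 1) * e ≤ (p * C + p) * e := Nat.mul_le_mul_right _ (by omega)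
      have hee : e ≤ (p * C + p) * e := by
        have : 1 * e ≤ (p * C + p) * e := Nat.mul_le_mul_right _ (by omega)
        omega
      have hfr : ∀ m, SbU m (X.UF.toU false ψ) → Free κ0 τ n m →
          ∃ P, EvU V0 (2 * β + (p * C + p) * e) sg m P ∧ P ∈ Dg (ZMod p) ((p - 1) * e) := by
        intro m hm hf
        obtain ⟨A, k, f, hfS, rfl, hfc⟩ := hfrS ψ hψ m hm hf
        have h8 : ∀ j, ∃ P, EvU V0 e sg (X.UF.toU false (f j)) P := by
          intro j
          apply ih (by omega) (f j) (hfS j)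
          have h9 := hfc j
          have h10 : (q + 1) * n = q * n + n := by ring
          omega
        choose Q hQ using h8
        exact ev_mod_free A k _ Q (fun j => (hQ j).mono_d (by omega)) e
          (fun j => (hQ j).deg) (by omega)
      have hE : dgb κ H (Free κ0 τ n) ((p - 1) * e) (X.UF.toU false ψ) ≤
          2 * β + (p * C + p) * e := by
        refine (hdg _).trans ?_
        have h9 : (p - 1) * e * C ≤ p * C * e := by
          have : (p - 1) * e * C ≤ p * e * C := by
            apply Nat.mul_le_mul_right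
            apply Nat.mul_le_mul_right
            omega
          refine this.trans (le_of_eq ?_)
          ring
        have h10 : (p * C + p) * e = p * C * e + p * e := by ring
        omega
      obtain ⟨P, hP⟩ := main_ev hV hco hV3 (E := (p - 1) * e)
        (d := 2 * β + (p * C + p) * e) hκ1 (by omega) H h7
        (Free κ0 τ n) (X.UF.toU false ψ) w0 hdt hfr hE
      exact ⟨P, hP.mono_d hdd⟩
  exact main C le_rfl

end Pool.Agent.Work.MP_c04246_lc.R
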