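import Pool.Agent.Work.MP_c04246_lc.R.RBase

/-!
MODULE Balls (size S-M). Balls in the variable graph.

Proofs. `mem_nbr_symm`: the relation in `nbr` is symmetric. `mem_ball_iff` (a point of a ball around `A` is
in a ball around a point of `A`): induction on `n` (`biUnion` of unions). `ball_add`: induction on
`n`. `mem_ball_symm`: induction on `n` using `ball_add` with `1` on either side
(`ball {x} (n+1) = ball (ball {x} 1) n`). `ball_mono`, `ball_le`: `x ∈ nbr x`. `card_ball_le`: induction,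
`card_biUnion_le`. `card_nbr_le`: `nbr x ⊆ insert x (biUnion over the clauses i containing x of vr i)`.
`vr_subset_ball`: if `vr i` meets `ball A n` in `z`, then every `y ∈ vr i` is in `nbr z`.
-/

set_option autoImplicit false

namespace Pool.Agent.Work.MP_c04246_lc.R

open Finset

variable {U M : Type} [DecidableEq U] [DecidableEq M] [Fintype U] [Fintype M]
  {cl : M → Finset (U × Bool)}

lemma mem_nbr_self (x : U) : x ∈ nbr cl x := by
  unfold nbr
  exact mem_insert_self _ _

private lemma bl_nbr {x y : U} : y ∈ nbr cl x ↔ y = x ∨ ∃ i, x ∈ vr cl i ∧ y ∈ vr cl i := by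
  unfold nbr
  rw [mem_insert, mem_filter]
  simp only [mem_univ, true_and]

lemma mem_nbr_symm {x y : U} (h : y ∈ nbr cl x) : x ∈ nbr cl y := by
  rw [bl_nbr] at h ⊢
  rcases h with h | ⟨i, h1, h2⟩
  · exact Or.inl h.symm
  · exact Or.inr ⟨i, h2, h1⟩

lemma mem_nbr_of {i : M} {x y : U} (hx : x ∈ vr cl i) (hy : y ∈ vr cl i) : y ∈ nbr cl x :=
  bl_nbr.2 (Or.inr ⟨i, hx, hy⟩)

private lemma bl_ball_zero (A : Finset U) : ball cl A 0 = A := rfl

private lemma bl_ball_succ (A : Finset U) (n : ℕ) :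
    ball cl A (n + 1) = (ball cl A n).biUnion (nbr cl) := rfl

lemma ball_mono {A B : Finset U} (h : A ⊆ B) (n : ℕ) : ball cl A n ⊆ ball cl B n := by
  induction n with
  | zero => exact h
  | succ n ih =>
    rw [bl_ball_succ, bl_ball_succ]
    exact biUnion_subset_biUnion_of_subset_left _ ih

private lemma bl_ball_le_succ (A : Finset U) (n : ℕ) : ball cl A n ⊆ ball cl A (n + 1) := by
  intro x hx
  rw [bl_ball_succ, mem_biUnion]
  exact ⟨x, hx, mem_nbr_self x⟩

lemma ball_le (A : Finset U) {m n : ℕ} (h : m ≤ n) : ball cl A m ⊆ ball cl A n := by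
  induction h with
  | refl => exact Subset.refl _
  | step _ ih => exact ih.trans (bl_ball_le_succ A _)

lemma subset_ball (A : Finset U) (n : ℕ) : A ⊆ ball cl A n := ball_le A (Nat.zero_le n)

lemma ball_add (A : Finset U) (m n : ℕ) : ball cl (ball cl A m) n = ball cl A (m + n) := by
  induction n with
  | zero => rfl
  | succ n ih => rw [bl_ball_succ, ih, ← bl_ball_succ, Nat.add_assoc]

lemma mem_ball_iff {A : Finset U} {n : ℕ} {x : U} :
    x ∈ ball cl A n ↔ ∃ a ∈ A, x ∈ ball cl {a} n := by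
  induction n generalizing x with
  | zero =>
    constructor
    · intro h
      exact ⟨x, h, mem_singleton_self x⟩
    · rintro ⟨a, ha, h⟩
      rw [bl_ball_zero, mem_singleton] at h
      rw [h]
      exact ha
  | succ n ih =>
    simp only [bl_ball_succ, mem_biUnion]
    constructor
    · rintro ⟨y, hy, hx⟩
      obtain ⟨a, ha, hya⟩ := ih.1 hy
      exact ⟨a, ha, y, hya, hx⟩
    · rintro ⟨a, ha, y, hya, hx⟩
      exact ⟨y, ih.2 ⟨a, ha, hya⟩, hx⟩

lemma mem_ball_symm {x y : U} {n : ℕ} (h : x ∈ ball cl {y} n) : y ∈ ball cl {x} n := by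
  induction n generalizing x with
  | zero =>
    rw [bl_ball_zero, mem_singleton] at h ⊢
    exact h.symm
  | succ n ih =>
    rw [bl_ball_succ, mem_biUnion] at h
    obtain ⟨z, hz, hx⟩ := h
    have h1 := ih hz
    rw [Nat.add_comm, ← ball_add]
    have h2 : ({z} : Finset U) ⊆ ball cl {x} 1 := by
      intro w hw
      rw [mem_singleton] at hw
      subst hw
      rw [show (1 : ℕ) = 0 + 1 from rfl, bl_ball_succ, mem_biUnion]
      exact ⟨x, mem_singleton_self x, mem_nbr_symm hx⟩
    exact ball_mono h2 n h1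

lemma not_disjoint_ball {A B : Finset U} {n : ℕ} (h : ¬ Disjoint (ball cl A n) B) :
    ¬ Disjoint A (ball cl B n) := by
  rw [not_disjoint_iff] at h ⊢
  obtain ⟨x, hx, hB⟩ := h
  obtain ⟨a, ha, hxa⟩ := mem_ball_iff.1 hx
  exact ⟨a, ha, mem_ball_iff.2 ⟨x, hB, mem_ball_symm hxa⟩⟩

lemma card_ball_le {g : ℕ} (hg : ∀ x, (nbr cl x).card ≤ g) (A : Finset U) (n : ℕ) :
    (ball cl A n).card ≤ g ^ n * A.card := by
  induction n with
  | zero => rw [bl_ball_zero, pow_zero, one_mul]
  | succ n ih =>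
    rw [bl_ball_succ]
    refine card_biUnion_le.trans ?_
    refine (sum_le_card_nsmul _ _ g fun x _ => hg x).trans ?_
    rw [smul_eq_mul, pow_succ, mul_right_comm]
    exact Nat.mul_le_mul_right g ih

lemma card_nbr_le {k h : ℕ} (hk : ∀ i, (vr cl i).card ≤ k)
    (hh : ∀ x, (univ.filter fun i => x ∈ vr cl i).card ≤ h) (x : U) :
    (nbr cl x).card ≤ h * k + 1 := by
  have h1 : nbr cl x ⊆ insert x ((univ.filter fun i => x ∈ vr cl i).biUnion (vr cl)) := by
    intro y hy
    rw [bl_nbr] at hy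
    rw [mem_insert]
    rcases hy with hy | ⟨i, h1, h2⟩
    · exact Or.inl hy
    · right
      rw [mem_biUnion]
      exact ⟨i, mem_filter.2 ⟨mem_univ _, h1⟩, h2⟩
  refine (card_le_card h1).trans ((card_insert_le _ _).trans (Nat.add_le_add_right ?_ 1))
  refine card_biUnion_le.trans ?_
  refine (sum_le_card_nsmul _ _ k fun i _ => hk i).trans ?_
  rw [smul_eq_mul]
  exact Nat.mul_le_mul_right k (hh x)

lemma vr_subset_ball {A : Finset U} {n : ℕ} {i : M} (h : ¬ Disjoint (vr cl i) (ball cl A n)) :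
    vr cl i ⊆ ball cl A (n + 1) := by
  rw [not_disjoint_iff] at h
  obtain ⟨z, hz, hb⟩ := h
  intro y hy
  rw [bl_ball_succ, mem_biUnion]
  exact ⟨z, hb, mem_nbr_of hz hy⟩

end Pool.Agent.Work.MP_c04246_lc.R
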