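import Pool.Agent.Work.MP_c04246_lc.R.RBase

/-!
MODULE Bdry (size S-M). Elementary facts about the boundary, satisfying a set of clauses.

Proofs.
* `mem_bd`: unfold; the filtered set has cardinality one iff it is `{i}`
  (`Finset.card_eq_one`).
* `bd_union`: if `x ∈ bd (J ∪ S)` with its unique clause `i`; if `i ∈ J` then `x ∈ bd J`; otherwise `i ∈ S`,
  no clause of `J` contains `x`, so `x ∈ bd S` and `x ∉ Vr J`.
* `bd_union_disj`: for `T`, `T'` without common variables `bd (T ∪ T') = bd T ∪ bd T'` and the two parts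
  are disjoint.
* `peel`: induction on the size of `A`. If `A` is empty take `D = ∅`. Otherwise there is
  `x ∈ bd A \ W`, in exactly one clause `i ∈ A`; there is a literal `(x, b) ∈ cl i`. Apply the induction
  hypothesis to `A.erase i` (the hypothesis on subsets is inherited) with `W ∪ {x}`? Simpler: apply it to
  `A.erase i` with the same `W`, get `D, a`; replace `D` by `insert x D` and `a` by
  `Function.update a x b`. Clauses of `A.erase i` do not contain `x`, so they are still satisfied by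
  variables of `D` different from `x`; clause `i` is satisfied by `x`. `insert x D` is disjoint from `W`.
* `sat_of_expn`: `peel` with `W = ∅`: a nonempty `A' ⊆ J` has `A'.card ≤ r`, so `bd A'` is nonempty.
* `card_Vr_le`: `card_biUnion_le`, `sum_le_card_nsmul`.
-/

set_option autoImplicit false

namespace Pool.Agent.Work.MP_c04246_lc.R

open Finset

variable {U M : Type} [DecidableEq U] [DecidableEq M] {cl : M → Finset (U × Bool)}

lemma mem_bd {S : Finset M} {x : U} :
    x ∈ bd cl S ↔ ∃ i ∈ S, x ∈ vr cl i ∧ ∀ j ∈ S, x ∈ vr cl j → j = i := by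
  unfold bd
  rw [mem_filter, card_eq_one]
  constructor
  · rintro ⟨_, i, hi⟩
    have h1 : i ∈ S.filter fun i => x ∈ vr cl i := by rw [hi]; exact mem_singleton_self i
    rw [mem_filter] at h1
    refine ⟨i, h1.1, h1.2, fun j hj hx => ?_⟩
    have h2 : j ∈ S.filter fun i => x ∈ vr cl i := mem_filter.2 ⟨hj, hx⟩
    rw [hi, mem_singleton] at h2
    exact h2
  · rintro ⟨i, hi, hx, hu⟩
    refine ⟨mem_biUnion.2 ⟨i, hi, hx⟩, i, ?_⟩
    ext j
    rw [mem_filter, mem_singleton]
    constructor
    · rintro ⟨h1, h2⟩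
      exact hu j h1 h2
    · rintro rfl
      exact ⟨hi, hx⟩

lemma bd_subset_Vr (S : Finset M) : bd cl S ⊆ Vr cl S := filter_subset _ _

lemma Vr_union (S T : Finset M) : Vr cl (S ∪ T) = Vr cl S ∪ Vr cl T := by
  unfold Vr
  ext x
  simp only [mem_biUnion, mem_union]
  constructor
  · rintro ⟨i, hi | hi, hx⟩
    · exact Or.inl ⟨i, hi, hx⟩
    · exact Or.inr ⟨i, hi, hx⟩
  · rintro (⟨i, hi, hx⟩ | ⟨i, hi, hx⟩)
    · exact ⟨i, Or.inl hi, hx⟩
    · exact ⟨i, Or.inr hi, hx⟩

lemma Vr_mono {S T : Finset M} (h : S ⊆ T) : Vr cl S ⊆ Vr cl T :=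
  biUnion_subset_biUnion_of_subset_left _ h

lemma bd_union (J S : Finset M) : bd cl (J ∪ S) ⊆ bd cl J ∪ (bd cl S \ Vr cl J) := by
  intro x hx
  rw [mem_bd] at hx
  obtain ⟨i, hi, hxi, hu⟩ := hx
  rw [mem_union]
  by_cases hiJ : ∃ j ∈ J, x ∈ vr cl j
  · obtain ⟨j, hj, hxj⟩ := hiJ
    have e : j = i := hu j (mem_union_left _ hj) hxj
    subst e
    exact Or.inl (mem_bd.2 ⟨j, hj, hxj, fun l hl hxl => hu l (mem_union_left _ hl) hxl⟩)
  · push Not at hiJ
    right
    rw [mem_sdiff]
    have hiS : i ∈ S := by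
      rcases mem_union.1 hi with h | h
      · exact absurd hxi (hiJ i h)
      · exact h
    refine ⟨mem_bd.2 ⟨i, hiS, hxi, fun l hl hxl => hu l (mem_union_right _ hl) hxl⟩, ?_⟩
    unfold Vr
    rw [mem_biUnion]
    rintro ⟨j, hj, hxj⟩
    exact hiJ j hj hxj

lemma bd_union_disj {T T' : Finset M} (h : ∀ i ∈ T, ∀ j ∈ T', Disjoint (vr cl i) (vr cl j)) :
    bd cl (T ∪ T') = bd cl T ∪ bd cl T' ∧ Disjoint (bd cl T) (bd cl T') := by
  have hd : ∀ {x : U} {i j : M}, i ∈ T → j ∈ T' → x ∈ vr cl i → x ∈ vr cl j → False :=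
    fun {x i j} hi hj hx hy => (disjoint_left.1 (h i hi j hj)) hx hy
  constructor
  · ext x
    rw [mem_union, mem_bd, mem_bd, mem_bd]
    constructor
    · rintro ⟨i, hi, hx, hu⟩
      rcases mem_union.1 hi with h1 | h1
      · exact Or.inl ⟨i, h1, hx, fun j hj hxj => hu j (mem_union_left _ hj) hxj⟩
      · exact Or.inr ⟨i, h1, hx, fun j hj hxj => hu j (mem_union_right _ hj) hxj⟩
    · rintro (⟨i, hi, hx, hu⟩ | ⟨i, hi, hx, hu⟩)
      · refine ⟨i, mem_union_left _ hi, hx, fun j hj hxj => ?_⟩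
        rcases mem_union.1 hj with h1 | h1
        · exact hu j h1 hxj
        · exact (hd hi h1 hx hxj).elim
      · refine ⟨i, mem_union_right _ hi, hx, fun j hj hxj => ?_⟩
        rcases mem_union.1 hj with h1 | h1
        · exact (hd h1 hi hxj hx).elim
        · exact hu j h1 hxj
  · rw [disjoint_left]
    intro x hx hy
    rw [mem_bd] at hx hy
    obtain ⟨i, hi, hxi, _⟩ := hx
    obtain ⟨j, hj, hxj, _⟩ := hy
    exact hd hi hj hxi hxj

lemma card_Vr_le {k : ℕ} (hk : ∀ i, (vr cl i).card ≤ k) (S : Finset M) :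
    (Vr cl S).card ≤ k * S.card := by
  unfold Vr
  refine card_biUnion_le.trans ?_
  refine (sum_le_card_nsmul _ _ k fun i _ => hk i).trans ?_
  rw [smul_eq_mul, mul_comm]

lemma peel (W : Finset U) (A : Finset M) (h : ∀ A' ⊆ A, A'.Nonempty → ¬ bd cl A' ⊆ W) :
    ∃ (D : Finset U) (a : U → Bool), Disjoint D W ∧ ∀ i ∈ A, SatBy D a (cl i) := by
  induction A using Finset.strongInduction with
  | H A ih =>
    rcases A.eq_empty_or_nonempty with rfl | hA
    · exact ⟨∅, fun _ => false, disjoint_empty_left _, fun i hi => absurd hi (notMem_empty i)⟩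
    · have h1 := h A (Subset.refl A) hA
      rw [not_subset] at h1
      obtain ⟨x, hx, hxW⟩ := h1
      rw [mem_bd] at hx
      obtain ⟨i, hi, hxi, hu⟩ := hx
      obtain ⟨D, a, hD, hs⟩ := ih (A.erase i) (erase_ssubset hi)
        (fun A' hA' hne => h A' (hA'.trans (erase_subset _ _)) hne)
      unfold vr at hxi
      rw [mem_image] at hxi
      obtain ⟨l, hl, hlx⟩ := hxi
      refine ⟨insert x D, Function.update a x l.2, ?_, ?_⟩
      · rw [disjoint_insert_left]
        exact ⟨hxW, hD⟩
      · intro j hj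
        by_cases hji : j = i
        · subst hji
          refine ⟨l, hl, ?_, ?_⟩
          · rw [hlx]
            exact mem_insert_self _ _
          · rw [hlx, Function.update_self]
        · obtain ⟨l', hl', h2, h3⟩ := hs j (mem_erase.2 ⟨hji, hj⟩)
          refine ⟨l', hl', mem_insert_of_mem h2, ?_⟩
          have hne : l'.1 ≠ x := by
            intro he
            apply hji
            refine hu j hj ?_
            unfold vr
            exact mem_image.2 ⟨l', hl', he⟩
          rw [Function.update_of_ne hne]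
          exact h3

lemma sat_of_expn {r e : ℕ} (hE : Expn cl r e) (J : Finset M) (hJ : J.card ≤ r) :
    ∃ v : U → Bool, SatAll cl J v := by
  obtain ⟨D, a, -, hs⟩ := peel (cl := cl) ∅ J (by
    intro A' hA' hne hsub
    have h1 := hE A' ((card_le_card hA').trans hJ)
    rw [subset_empty] at hsub
    rw [hsub, card_empty, mul_zero, Nat.le_zero, card_eq_zero] at h1
    exact hne.ne_empty h1)
  refine ⟨a, fun i hi => ?_⟩
  obtain ⟨l, hl, -, h3⟩ := hs i hi
  exact ⟨l, hl, h3⟩

end Pool.Agent.Work.MP_c04246_lc.R
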