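import Pool.Agent.Work.MP_c04246_lc.R.Mix

/-!
MODULE ResG (size M). Residual gates, and the deterministic step of the recursion (compare `X.resG`,
`X.DT_step` in XTree.lean).

`Dead cl B1 sg s c`: the junta `s.2` is never `c` after the restriction, for assignments satisfying a few
clauses. `resR`: keep the gates all of whose arguments are dead or meet `Q`; in them drop the dead
arguments and fix the values `u` on `Q` in the others.

Proofs. `resR_length`, `resR_spec` as `X.resG_length`, `X.resG_spec`.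
`DT_stepR`. By `X.DT.of_set` query all of `Q`; let `w` be the answers. Let `u = sg w`. By `X.DT.transplant`
(with the tree for `resR .. u gs`) we get to a leaf: `(H, w0)` with `GoodA` for the residual gates, `w1`
agreeing with `w0` on `H` and with `w` on `Q`; to show: `GoodG g (H ∪ Q) w1` for `g ∈ gs`. If `g` has an argument
`s` constant `g.1` for all `y` (first alternative of `hs`): `Con`. Otherwise its residual `g'` is in
`resR`. Let `y` agree with `w1` on `H ∪ Q`. By `hco`, `sg y x = sg w x = u x` for `x ∈ Q` (as `y x = w x`). So for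
the residual junta `s' = X.resJ Q u s`: `s'.2 (sg y) = s.2 (fun x => if x ∈ Q then u x else sg y x) = s.2 (sg y)`.
`GoodG g'`: if some `s'` is `Con` then `s` is `Con`. If all `s'` are `Nul` then all live `s` are `Nul`, and
the dead ones are `Nul` by definition of `Dead` (same `J`).
-/

set_option autoImplicit false

namespace Pool.Agent.Work.MP_c04246_lc.R

open Finset

variable {U M : Type} [DecidableEq U] [Fintype U]

/-- dead junta (for a family of restrictions) -/
def Dead {T : Type} (cl : M → Finset (U × Bool)) (B1 : ℕ) (sg : (U → T) → (U → Bool) → (U → Bool))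
    (s : X.Jn U Bool) (c : Bool) : Prop :=
  ∃ J : Finset M, J.card ≤ B1 ∧ ∀ lam y, SatAll cl J (sg lam y) → s.2 (sg lam y) ≠ c

open Classical in
/-- residual gates -/
noncomputable def resR {T : Type} (cl : M → Finset (U × Bool)) (B1 : ℕ)
    (sg : (U → T) → (U → Bool) → (U → Bool)) (Q : Finset U) (u : U → Bool)
    (gs : List (Bool × List (X.Jn U Bool))) : List (Bool × List (X.Jn U Bool)) :=
  (gs.filter fun g => decide (∀ s ∈ g.2, ¬ Dead cl B1 sg s g.1 → ¬ Disjoint s.1 Q)).map
    fun g => (g.1, (g.2.filter fun s => decide (¬ Dead cl B1 sg s g.1)).map (X.resJ Q u))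

variable {T : Type} {cl : M → Finset (U × Bool)} {B1 : ℕ} {sg : (U → T) → (U → Bool) → (U → Bool)}

lemma resR_length (Q : Finset U) (u : U → Bool) (gs : List (Bool × List (X.Jn U Bool))) :
    (resR cl B1 sg Q u gs).length ≤ gs.length := by
  unfold resR
  rw [List.length_map]
  exact List.length_filter_le _ _

lemma resR_spec {j : ℕ} (Q : Finset U) (u : U → Bool) (gs : List (Bool × List (X.Jn U Bool)))
    (hl : ∀ g ∈ gs, ∀ s ∈ g.2, s.1.card ≤ j + 1 ∧ X.Dep s.1 s.2) :
    ∀ g ∈ resR cl B1 sg Q u gs, ∀ s ∈ g.2, s.1.card ≤ j ∧ X.Dep s.1 s.2 := by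
  classical
  intro g hg s hs
  unfold resR at hg
  rw [List.mem_map] at hg
  obtain ⟨g0, hg0, rfl⟩ := hg
  rw [List.mem_filter] at hg0
  obtain ⟨hg0, hg1⟩ := hg0
  rw [decide_eq_true_eq] at hg1
  rw [List.mem_map] at hs
  obtain ⟨s0, hs0, rfl⟩ := hs
  rw [List.mem_filter] at hs0
  obtain ⟨hs0, hs1⟩ := hs0
  rw [decide_eq_true_eq] at hs1
  obtain ⟨h1, h2⟩ := hl g0 hg0 s0 hs0
  have h3 := hg1 s0 hs0 hs1
  refine ⟨?_, ?_⟩
  · show (s0.1 \ Q).card ≤ j
    rw [not_disjoint_iff] at h3
    obtain ⟨x, hj1, hj2⟩ := h3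
    have : s0.1 \ Q ⊆ s0.1.erase x := by
      intro e he
      rw [mem_sdiff] at he
      rw [mem_erase]
      exact ⟨by rintro rfl; exact he.2 hj2, he.1⟩
    have h4 := card_le_card this
    rw [card_erase_of_mem hj1] at h4
    omega
  · intro x x' hxx
    apply h2
    intro i hi
    by_cases hiV : i ∈ Q
    · simp [hiV]
    · simp only [hiV, if_false]
      exact hxx i (mem_sdiff.mpr ⟨hi, hiV⟩)

lemma resR_congr (Q : Finset U) (gs : List (Bool × List (X.Jn U Bool))) {u u' : U → Bool}
    (h : ∀ x ∈ Q, u x = u' x) : resR cl B1 sg Q u gs = resR cl B1 sg Q u' gs := by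
  have h1 : X.resJ (T := Bool) Q u = X.resJ Q u' := by
    funext s
    unfold X.resJ
    refine congrArg (fun z => (s.1 \ Q, z)) (funext fun x => congrArg s.2 (funext fun j => ?_))
    by_cases hj : j ∈ Q
    · simp only [hj, if_true]
      exact h j hj
    · simp only [hj, if_false]
  unfold resR
  rw [h1]

lemma DT_stepR (lam : U → T) (hco : ∀ y y' : U → Bool, ∀ x, y x = y' x → sg lam y x = sg lam y' x)
    (Q : Finset U) (gs : List (Bool × List (X.Jn U Bool)))
    (hs : ∀ g ∈ gs, (∃ s ∈ g.2, ∀ y, s.2 (sg lam y) = g.1) ∨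
      ∀ s ∈ g.2, ¬ Dead cl B1 sg s g.1 → ¬ Disjoint s.1 Q) (w0 : U → Bool) {t : ℕ}
    (h : ∀ u : U → Bool, X.DT (GoodA cl B1 (sg lam) (resR cl B1 sg Q u gs)) ∅ w0 t) :
    X.DT (GoodA cl B1 (sg lam) gs) ∅ w0 (t + Q.card) := by
  classical
  apply X.DT.of_set
  intro w hw
  have h1 := h (sg lam w)
  refine X.DT.transplant (P' := GoodA cl B1 (sg lam) gs) Q h1 w ?_ w (fun j hj => by simp at hj)
    (fun j hj => rfl)
  intro H w0 w1 hP hw0 hw1 g hg
  rcases hs g hg with ⟨s, hsg, hsv⟩ | hlive
  · left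
    exact ⟨s, hsg, fun y _ => hsv y⟩
  · set g' : Bool × List (X.Jn U Bool) :=
      (g.1, (g.2.filter fun s => decide (¬ Dead cl B1 sg s g.1)).map (X.resJ Q (sg lam w)))
      with hg'
    have hmem : g' ∈ resR cl B1 sg Q (sg lam w) gs := by
      unfold resR
      rw [List.mem_map]
      refine ⟨g, ?_, rfl⟩
      rw [List.mem_filter]
      exact ⟨hg, by rw [decide_eq_true_eq]; exact hlive⟩
    have hagr : ∀ y, X.Agr (H ∪ Q) w1 y → X.Agr H w0 y := by
      intro y hy j hj
      rw [hy j (mem_union_left _ hj), hw0 j hj]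
    have hval : ∀ (s : X.Jn U Bool) (y : U → Bool), X.Agr (H ∪ Q) w1 y →
        (X.resJ Q (sg lam w) s).2 (sg lam y) = s.2 (sg lam y) := by
      intro s y hy
      show s.2 (fun j => if j ∈ Q then sg lam w j else sg lam y j) = s.2 (sg lam y)
      refine congrArg s.2 (funext fun j => ?_)
      by_cases hj : j ∈ Q
      · rw [if_pos hj]
        apply hco
        rw [hy j (mem_union_right _ hj), hw1 j hj]
      · rw [if_neg hj]
    rcases hP g' hmem with ⟨s', hs', hcon⟩ | hnul
    · rw [hg', List.mem_map] at hs'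
      obtain ⟨s, hs1, rfl⟩ := hs'
      rw [List.mem_filter] at hs1
      left
      refine ⟨s, hs1.1, fun y hy => ?_⟩
      rw [← hval s y hy]
      exact hcon y (hagr y hy)
    · right
      intro s hsg
      by_cases hdead : Dead cl B1 sg s g.1
      · obtain ⟨K, hK, hKv⟩ := hdead
        exact ⟨K, hK, fun y _ hy => hKv lam y hy⟩
      · have hs' : X.resJ Q (sg lam w) s ∈ g'.2 := by
          rw [hg', List.mem_map]
          refine ⟨s, ?_, rfl⟩
          rw [List.mem_filter]
          exact ⟨hsg, by rw [decide_eq_true_eq]; exact hdead⟩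
        obtain ⟨K, hK, hKv⟩ := hnul _ hs'
        refine ⟨K, hK, fun y hy hsat => ?_⟩
        rw [← hval s y hy]
        exact hKv y (hagr y hy) hsat

end Pool.Agent.Work.MP_c04246_lc.R
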