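import Pool.Agent.Work.MP_c04246_lc.R.RevT
import Pool.Agent.Work.MP_c04246_lc.R.ResG

/-!
MODULE ClA (size M). The second kind of bad labels (compare `X.BadS_fiber`, `X.bad2_card` in XClaim.lean).

Proof. For `V : Finset U` with `L ⊆ V`, `V.card ≤ cap`, and for `u : U → Bool`, put
`S V u = {lam | (rev lam its L).1 = V ∧ ¬ DT (.. (sg (ovr L l lam)) .. (resR .. (Q V) u gs)) ∅ w0 t}`.
By `fib` (for this `V`, `Rp lam = ((rev lam its L).1 = V)`, which depends only on the labels in `V` by
`rev_on`; `Bd lam = ¬ DT (GoodA .. (sg (ovr L l lam)) ..)`; the hypothesis of `fib`: by `ovr_ovr`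
`ovr L l (ovr V lam mu) = ovr V (ovr L l lam) mu`, so it is `h V (ovr L l lam) u`):
`(S V u).card * N ≤ #{lam | (rev lam its L).1 = V}`.
The set to be counted is the union of the `S V u` over all `V` with `L ⊆ V` (`rev_mono`), `V.card ≤ cap`, and
over `u` in a set of `2 ^ (Q V).card ≤ 2 ^ (B2 * cap)` representatives (`X.Rep Bool (Q V)`, `X.card_Rep`;
`resR_congr`: only the values on `Q V` matter; the representative of `u` agrees with `u` on `Q V`). Sum over
`V`: the sets `{lam | (rev lam its L).1 = V}` are disjoint.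
-/

set_option autoImplicit false

namespace Pool.Agent.Work.MP_c04246_lc.R

open Finset

variable {U M T : Type} [DecidableEq U] [Fintype U] [Fintype T]

open Classical in
lemma bad2R {cl : M → Finset (U × Bool)} {B1 : ℕ} {sg : (U → T) → (U → Bool) → (U → Bool)}
    {A B0 B2 : ℕ} (Q : Finset U → Finset U) (hQ : ∀ L, (Q L).card ≤ B2 * L.card)
    (gs : List (Bool × List (X.Jn U Bool))) (its : List (List (Finset U × Finset (U → T))))
    (hits : ∀ g ∈ its, ∀ s ∈ g, It A B0 s) (L : Finset U) (l : U → T) (w0 : U → Bool)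
    (t N cap : ℕ)
    (h : ∀ (V : Finset U) (l' : U → T) (u : U → Bool), L ⊆ V → V.card ≤ cap →
      (univ.filter fun mu : U → T => ¬ X.DT (GoodA cl B1 (sg (ovr V l' mu))
        (resR cl B1 sg (Q V) u gs)) ∅ w0 t).card * N ≤ Fintype.card (U → T)) :
    (univ.filter fun lam : U → T => (rev lam its L).1.card ≤ cap ∧ ∃ u : U → Bool,
      ¬ X.DT (GoodA cl B1 (sg (ovr L l lam))
        (resR cl B1 sg (Q (rev lam its L).1) u gs)) ∅ w0 t).card * N ≤
      2 ^ (B2 * cap) * Fintype.card (U → T) := by
  set Bd : Finset U → (U → Bool) → (U → T) → Prop := fun V u lam =>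
    ¬ X.DT (GoodA cl B1 (sg (ovr L l lam)) (resR cl B1 sg (Q V) u gs)) ∅ w0 t with hBd
  have hfib : ∀ V u, L ⊆ V → V.card ≤ cap →
      (univ.filter fun lam : U → T => (rev lam its L).1 = V ∧ Bd V u lam).card * N ≤
        (univ.filter fun lam : U → T => (rev lam its L).1 = V).card := by
    intro V u hLV hV
    convert fib V (fun lam => (rev lam its L).1 = V) (Bd V u) ?_ N ?_
    · intro lam lam' hl
      constructor
      · intro h2
        rw [rev_on its hits L (lam := lam) (lam' := lam') (by rw [h2]; exact hl)]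
        exact h2
      · intro h2
        rw [rev_on its hits L (lam := lam') (lam' := lam)
          (by rw [h2]; exact fun j hj => (hl j hj).symm)]
        exact h2
    · intro lam
      have h1 := h V (ovr L l lam) u hLV hV
      refine le_trans (le_of_eq ?_) h1
      congr 2
      ext mu
      simp only [mem_filter, mem_univ, true_and]
      show ¬ X.DT (GoodA cl B1 (sg (ovr L l (ovr V lam mu))) _) ∅ w0 t ↔ _
      rw [ovr_ovr hLV]
  set S : Finset (Finset U) := univ.filter fun V => L ⊆ V ∧ V.card ≤ cap with hS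
  have hsub : (univ.filter fun lam : U → T => (rev lam its L).1.card ≤ cap ∧ ∃ u : U → Bool,
      ¬ X.DT (GoodA cl B1 (sg (ovr L l lam))
        (resR cl B1 sg (Q (rev lam its L).1) u gs)) ∅ w0 t) ⊆
      S.biUnion fun V => (X.Rep Bool (Q V)).biUnion fun u => univ.filter fun lam : U → T =>
        (rev lam its L).1 = V ∧ Bd V u lam := by
    intro lam hlam
    rw [mem_filter] at hlam
    obtain ⟨_, h1, u, h2⟩ := hlam
    rw [mem_biUnion]
    refine ⟨(rev lam its L).1, by rw [hS, mem_filter]; exact ⟨mem_univ _, rev_mono _ _ _, h1⟩, ?_⟩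
    rw [mem_biUnion]
    refine ⟨fun j => if j ∈ Q (rev lam its L).1 then u j else Classical.arbitrary Bool, ?_, ?_⟩
    · unfold X.Rep
      rw [Fintype.mem_piFinset]
      intro j
      by_cases hj : j ∈ Q (rev lam its L).1
      · simp [hj]
      · simp [hj]
    · rw [mem_filter]
      refine ⟨mem_univ _, rfl, ?_⟩
      show ¬ X.DT (GoodA cl B1 (sg (ovr L l lam)) (resR cl B1 sg (Q (rev lam its L).1)
        (fun j => if j ∈ Q (rev lam its L).1 then u j else Classical.arbitrary Bool) gs)) ∅ w0 t
      rw [resR_congr (Q (rev lam its L).1) gs (u' := u) (fun x hx => by rw [if_pos hx])]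
      exact h2
  have h1 : (univ.filter fun lam : U → T => (rev lam its L).1.card ≤ cap ∧ ∃ u : U → Bool,
      ¬ X.DT (GoodA cl B1 (sg (ovr L l lam))
        (resR cl B1 sg (Q (rev lam its L).1) u gs)) ∅ w0 t).card * N ≤
      ∑ V ∈ S, ∑ u ∈ X.Rep Bool (Q V), (univ.filter fun lam : U → T =>
        (rev lam its L).1 = V ∧ Bd V u lam).card * N := by
    simp_rw [← sum_mul]
    apply Nat.mul_le_mul_right
    refine (card_le_card hsub).trans (card_biUnion_le.trans ?_)
    exact sum_le_sum fun V _ => card_biUnion_le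
  refine h1.trans ?_
  have h2 : ∀ V ∈ S, ∑ u ∈ X.Rep Bool (Q V), (univ.filter fun lam : U → T =>
        (rev lam its L).1 = V ∧ Bd V u lam).card * N ≤
        2 ^ (B2 * cap) * (univ.filter fun lam : U → T => (rev lam its L).1 = V).card := by
    intro V hV
    rw [hS, mem_filter] at hV
    refine (sum_le_card_nsmul _ _ _ fun u _ => hfib V u hV.2.1 hV.2.2).trans ?_
    rw [smul_eq_mul, X.card_Rep, Fintype.card_bool]
    apply Nat.mul_le_mul_right
    exact Nat.pow_le_pow_right (by norm_num) ((hQ V).trans (Nat.mul_le_mul_left _ hV.2.2))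
  refine (sum_le_sum h2).trans ?_
  rw [← mul_sum]
  apply Nat.mul_le_mul_left
  have h3 : Fintype.card (U → T) = ∑ V : Finset U,
      (univ.filter fun lam : U → T => (rev lam its L).1 = V).card := by
    rw [← card_univ]
    exact card_eq_sum_card_fiberwise (fun _ _ => mem_coe.mpr (mem_univ _))
  rw [h3]
  exact sum_le_sum_of_subset (subset_univ _)

end Pool.Agent.Work.MP_c04246_lc.R
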