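import Pool.Agent.Work.MP_c04246_lc.R.ClA

/-!
MODULE Claim (size M-L). Few gates with local arguments are decided by a shallow decision tree
(compare `X.claim` in XClaim.lean).

Proof. Show by induction on `j ≤ κ` the statement for gates all of whose juntas have size `≤ j`
(constant `b j`). We may assume `1 ≤ A` (replace `A` by `A + 1`; `Kil` is monotone in `A`).
`j = 0`, `b = 1`: there are no bad `lam`: `DT.leaf`; each junta is constant (`Dep` of the empty set); a gate
with a junta constant `g.1` has `Con`, otherwise all are `Nul` with `J = ∅`.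
`j → j + 1 ≤ κ`. Let `b'` be the constant for `j`. `c1 = 1 + 6 * A * B0`, `c2 = c1 + B2 * c1 + 2`,
`b = b' * c2 + B2 * c1 + 1`. If `m = 0` then `gs = []` and there is nothing to prove (`DT.leaf`), so let `m ≥ 1`.
For a junta `s` of a gate `g` which is not `Dead` choose `(Rg, E)` by `Kil` (for `Y = s.1`, `c = g.1`).
`its = gs.map (fun g => (g.2.filter (not Dead)).map (the chosen item))`; all items satisfy `It A B0`. Let
`lam' = ovr L l lam`. `rev lam' its L = rev lam its L` by `rev_off`. Let `V = (rev lam its L).1`.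
By `rev_spec` for `lam'`: for each `g ∈ gs` some live `s ∈ g.2` has `lam' ∈ E`, so `s.2 (sg lam' y) = g.1` for all
`y`; or all live `s` have `Rg` meeting `V`, so `s.1` meets `Q V` (`Kil`). So `DT_stepR` applies to `lam'`, `Q V`:
if for all `u` the tree of depth `b' * (c2 * m)` exists for `resR .. (Q V) u gs`, then there is a tree for `gs`
of depth `b' * c2 * m + (Q V).card`, and `(Q V).card ≤ B2 * V.card ≤ B2 * c1 * m` if `V.card ≤ c1 * m`;
total `≤ b * m` (`X.DT.mono`).
bad1 `= {lam | 2 A (2m+1) ≤ (rev lam its L).2}`: by `rev_tail` `#bad1 * 2^(2m+1) ≤ 2^gs.length card Ω`, so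
`#bad1 * 2^(m+1) ≤ card Ω`. If `lam ∉ bad1` then by `rev_card`
`V.card ≤ m + B0 * 2 A (2m+1) ≤ m + 6 A B0 m = c1 * m`.
bad2 `= ` the set of `bad2R` with `cap = c1 * m`, `t = b' * (c2 * m)`, `N = 2 ^ (c2 * m)`; its hypothesis is the
induction hypothesis for `L := V` (`V.card ≤ c1 m ≤ c2 m`), `m := c2 * m`, gates `resR .. u gs`
(`resR_length`, `resR_spec`). So `#bad2 * 2^(c2 m) ≤ 2^(B2 c1 m) card Ω`, and `c2 m ≥ B2 c1 m + m + 1` gives
`#bad2 * 2^(m+1) ≤ card Ω`. The bad set is contained in `bad1 ∪ bad2`, so `#bad * 2^m ≤ card Ω`.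
-/

set_option autoImplicit false

namespace Pool.Agent.Work.MP_c04246_lc.R

open Finset

open Classical in
private theorem Claim_aux (κ A B0 B2 : ℕ) (hA : 1 ≤ A) : ∀ j : ℕ, j ≤ κ → ∃ b : ℕ, 1 ≤ b ∧
    ∀ (U M T : Type) [DecidableEq U] [Fintype U] [Fintype T]
      (cl : M → Finset (U × Bool)) (B1 : ℕ) (sg : (U → T) → (U → Bool) → (U → Bool))
      (Q : Finset U → Finset U), Kil cl sg κ A B0 B1 B2 Q →
      (∀ lam y y' x, y x = y' x → sg lam y x = sg lam y' x) →
      ∀ (m : ℕ) (L : Finset U) (l : U → T) (gs : List (Bool × List (X.Jn U Bool)))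
        (w0 : U → Bool), L.card ≤ m → gs.length ≤ m →
        (∀ g ∈ gs, ∀ s ∈ g.2, s.1.card ≤ j ∧ X.Dep s.1 s.2) →
        (univ.filter fun lam : U → T =>
          ¬ X.DT (GoodA cl B1 (sg (ovr L l lam)) gs) ∅ w0 (b * m)).card * 2 ^ m ≤
            Fintype.card (U → T) := by
  intro j
  induction j with
  | zero =>
    intro _
    refine ⟨1, le_rfl, ?_⟩
    intro U M T _ _ _ cl B1 sg Q hK hco m L l gs w0 hL hgs hl
    have h0 : (univ.filter fun lam : U → T =>
          ¬ X.DT (GoodA cl B1 (sg (ovr L l lam)) gs) ∅ w0 (1 * m)) = ∅ := by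
      rw [filter_eq_empty_iff]
      intro lam _
      rw [not_not]
      apply X.DT.leaf
      intro g hg
      have hc : ∀ s ∈ g.2, ∀ y y' : U → Bool, s.2 y = s.2 y' := by
        intro s hs y y'
        obtain ⟨h1, h2⟩ := hl g hg s hs
        apply h2
        intro x hx
        have : s.1 = ∅ := by rw [← card_eq_zero]; omega
        rw [this] at hx
        simp at hx
      by_cases h : ∃ s ∈ g.2, s.2 (fun _ => true) = g.1
      · obtain ⟨s, hs, hsv⟩ := h
        left
        exact ⟨s, hs, fun y _ => by rw [← hsv]; exact hc s hs _ _⟩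
      · right
        intro s hs
        refine ⟨∅, by simp, fun y _ _ h1 => h ⟨s, hs, ?_⟩⟩
        rw [← h1]
        exact hc s hs _ _
    rw [h0]
    simp
  | succ j ih =>
    intro hj
    obtain ⟨b', hb', hih⟩ := ih (by omega)
    set c1 := 1 + 6 * A * B0 with hc1
    set c2 := c1 + B2 * c1 + 2 with hc2
    refine ⟨b' * c2 + B2 * c1 + 1, by omega, ?_⟩
    intro U M T _ _ _ cl B1 sg Q hK hco m L l gs w0 hL hgs hl
    rcases Nat.eq_zero_or_pos m with hm | hm
    · have hnil : gs = [] := by
        rw [← List.length_eq_zero_iff]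
        omega
      have h0 : (univ.filter fun lam : U → T =>
          ¬ X.DT (GoodA cl B1 (sg (ovr L l lam)) gs) ∅ w0 ((b' * c2 + B2 * c1 + 1) * m)) = ∅ := by
        rw [filter_eq_empty_iff]
        intro lam _
        rw [not_not]
        apply X.DT.leaf
        intro g hg
        rw [hnil] at hg
        simp at hg
      rw [h0]
      simp
    -- the items
    have hch : ∀ (c : Bool) (s : X.Jn U Bool), ∃ it : Finset U × Finset (U → T),
        s.1.card ≤ κ → X.Dep s.1 s.2 → ¬ Dead cl B1 sg s c →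
        It A B0 it ∧ (∀ lam ∈ it.2, ∀ y, s.2 (sg lam y) = c) ∧
          ∀ L, ¬ Disjoint it.1 L → ¬ Disjoint s.1 (Q L) := by
      intro c s
      by_cases h : s.1.card ≤ κ ∧ X.Dep s.1 s.2 ∧ ¬ Dead cl B1 sg s c
      · obtain ⟨h1, h2, h3⟩ := h
        rcases hK.2 s.1 s.2 c h1 h2 with h4 | ⟨Rg, E, h5, h6, h7, h8, h9⟩
        · exact absurd h4 h3
        · exact ⟨(Rg, E), fun _ _ _ => ⟨⟨h5, h6, h7⟩, h8, h9⟩⟩
      · exact ⟨(∅, ∅), fun h1 h2 h3 => absurd ⟨h1, h2, h3⟩ h⟩
    choose itf hitf using hch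
    set its : List (List (Finset U × Finset (U → T))) := gs.map fun g =>
      (g.2.filter fun s => decide (¬ Dead cl B1 sg s g.1)).map (itf g.1) with hits_def
    have hitlen : its.length ≤ m := by
      rw [hits_def, List.length_map]
      exact hgs
    have hits : ∀ g ∈ its, ∀ s ∈ g, It A B0 s := by
      intro g' hg' s' hs'
      rw [hits_def, List.mem_map] at hg'
      obtain ⟨g, hg, rfl⟩ := hg'
      rw [List.mem_map] at hs'
      obtain ⟨s, hs, rfl⟩ := hs'
      rw [List.mem_filter, decide_eq_true_eq] at hs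
      obtain ⟨h1, h2⟩ := hl g hg s hs.1
      exact (hitf g.1 s (h1.trans hj) h2 hs.2).1
    have hoff : ∀ lam : U → T, rev (ovr L l lam) its L = rev lam its L := by
      intro lam
      apply rev_off its hits L
      intro x hx
      unfold ovr
      rw [if_neg hx]
    have hs : ∀ lam : U → T, ∀ g ∈ gs,
        (∃ s ∈ g.2, ∀ y, s.2 (sg (ovr L l lam) y) = g.1) ∨
        ∀ s ∈ g.2, ¬ Dead cl B1 sg s g.1 → ¬ Disjoint s.1 (Q (rev lam its L).1) := by
      intro lam g hg
      have hg' : (g.2.filter fun s => decide (¬ Dead cl B1 sg s g.1)).map (itf g.1) ∈ its := by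
        rw [hits_def, List.mem_map]
        exact ⟨g, hg, rfl⟩
      have h1 := rev_spec (ovr L l lam) its hits L _ hg'
      rw [hoff] at h1
      rcases h1 with ⟨s', hs', h2⟩ | h1
      · left
        rw [List.mem_map] at hs'
        obtain ⟨s, hs, rfl⟩ := hs'
        rw [List.mem_filter, decide_eq_true_eq] at hs
        obtain ⟨h3, h4⟩ := hl g hg s hs.1
        exact ⟨s, hs.1, (hitf g.1 s (h3.trans hj) h4 hs.2).2.1 _ h2⟩
      · right
        intro s hs hlive
        obtain ⟨h3, h4⟩ := hl g hg s hs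
        apply (hitf g.1 s (h3.trans hj) h4 hlive).2.2
        apply h1
        rw [List.mem_map]
        refine ⟨s, ?_, rfl⟩
        rw [List.mem_filter, decide_eq_true_eq]
        exact ⟨hs, hlive⟩
    -- the two kinds of bad labels
    set bad1 := univ.filter fun lam : U → T =>
      2 * A * (2 * m + 1) ≤ (rev lam its L).2 with hbad1
    set bad2 := univ.filter fun lam : U → T => (rev lam its L).1.card ≤ c1 * m ∧
      ∃ u : U → Bool, ¬ X.DT (GoodA cl B1 (sg (ovr L l lam))
        (resR cl B1 sg (Q (rev lam its L).1) u gs)) ∅ w0 (b' * (c2 * m)) with hbad2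
    set Bad := univ.filter fun lam : U → T =>
          ¬ X.DT (GoodA cl B1 (sg (ovr L l lam)) gs) ∅ w0 ((b' * c2 + B2 * c1 + 1) * m) with hBad
    have hsub : Bad ⊆ bad1 ∪ bad2 := by
      intro lam hlam
      rw [hBad, mem_filter] at hlam
      rw [mem_union]
      by_cases h1 : 2 * A * (2 * m + 1) ≤ (rev lam its L).2
      · left; rw [hbad1, mem_filter]; exact ⟨mem_univ _, h1⟩
      · right
        rw [not_le] at h1
        have hcard : (rev lam its L).1.card ≤ c1 * m := by
          have h2 := rev_card lam its hits L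
          calc (rev lam its L).1.card ≤ L.card + B0 * (rev lam its L).2 := h2
            _ ≤ m + B0 * (2 * A * (3 * m)) := by
                apply Nat.add_le_add hL
                apply Nat.mul_le_mul_left
                refine h1.le.trans ?_
                apply Nat.mul_le_mul_left
                omega
            _ = c1 * m := by rw [hc1]; ring
        rw [hbad2, mem_filter]
        refine ⟨mem_univ _, hcard, ?_⟩
        by_contra hno
        push Not at hno
        apply hlam.2
        have h4 := DT_stepR (ovr L l lam) (hco (ovr L l lam)) (Q (rev lam its L).1) gs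
          (hs lam) w0 hno
        apply h4.mono
        have h5 : (Q (rev lam its L).1).card ≤ B2 * (c1 * m) :=
          (hK.1 _).trans (Nat.mul_le_mul_left _ hcard)
        calc b' * (c2 * m) + (Q (rev lam its L).1).card ≤ b' * (c2 * m) + B2 * (c1 * m) :=
              Nat.add_le_add_left h5 _
          _ ≤ b' * (c2 * m) + B2 * (c1 * m) + m := Nat.le_add_right _ _
          _ = (b' * c2 + B2 * c1 + 1) * m := by ring
    have hc_bad1 : bad1.card * 2 ^ (m + 1) ≤ Fintype.card (U → T) := by
      have h2 : bad1.card * 2 ^ (2 * m + 1) ≤ 2 ^ its.length * Fintype.card (U → T) :=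
        rev_tail hA its hits L (2 * m + 1)
      have h3 : 2 ^ its.length * (bad1.card * 2 ^ (m + 1)) ≤
          2 ^ its.length * Fintype.card (U → T) := by
        refine le_trans ?_ h2
        have h4 : 2 ^ its.length * 2 ^ (m + 1) ≤ 2 ^ (2 * m + 1) := by
          rw [← pow_add]; exact Nat.pow_le_pow_right (by norm_num) (by omega)
        calc 2 ^ its.length * (bad1.card * 2 ^ (m + 1))
            = bad1.card * (2 ^ its.length * 2 ^ (m + 1)) := by ring
          _ ≤ bad1.card * 2 ^ (2 * m + 1) := Nat.mul_le_mul_left _ h4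
      exact Nat.le_of_mul_le_mul_left h3 (by positivity)
    have hc_bad2 : bad2.card * 2 ^ (m + 1) ≤ Fintype.card (U → T) := by
      have h1 := bad2R (sg := sg) (cl := cl) (B1 := B1) Q hK.1 gs its hits L l w0
        (b' * (c2 * m)) (2 ^ (c2 * m)) (c1 * m) (by
          intro V l' u hLV hV
          apply hih U M T cl B1 sg Q hK hco (c2 * m) V l' (resR cl B1 sg (Q V) u gs) w0
          · refine hV.trans ?_
            apply Nat.mul_le_mul_right
            omega
          · refine (resR_length _ _ _).trans (hgs.trans ?_)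
            calc m = 1 * m := (one_mul m).symm
              _ ≤ c2 * m := Nat.mul_le_mul_right _ (by omega)
          · exact resR_spec (Q V) u gs hl)
      have h2 : bad2.card * 2 ^ (c2 * m) ≤ 2 ^ (B2 * (c1 * m)) * Fintype.card (U → T) := h1
      have h3 : 2 ^ (B2 * (c1 * m)) * (bad2.card * 2 ^ (m + 1)) ≤
          2 ^ (B2 * (c1 * m)) * Fintype.card (U → T) := by
        refine le_trans ?_ h2
        have h4 : 2 ^ (B2 * (c1 * m)) * 2 ^ (m + 1) ≤ 2 ^ (c2 * m) := by
          rw [← pow_add]
          apply Nat.pow_le_pow_right (by norm_num)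
          have h5 : c2 * m = B2 * (c1 * m) + (c1 * m + 2 * m) := by rw [hc2]; ring
          rw [h5]
          apply Nat.add_le_add_left
          omega
        calc 2 ^ (B2 * (c1 * m)) * (bad2.card * 2 ^ (m + 1))
            = bad2.card * (2 ^ (B2 * (c1 * m)) * 2 ^ (m + 1)) := by ring
          _ ≤ bad2.card * 2 ^ (c2 * m) := Nat.mul_le_mul_left _ h4
      exact Nat.le_of_mul_le_mul_left h3 (by positivity)
    have h5 : Bad.card ≤ bad1.card + bad2.card :=
      (card_le_card hsub).trans (card_union_le _ _)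
    have h6 : 2 * (Bad.card * 2 ^ m) ≤ 2 * Fintype.card (U → T) := by
      calc 2 * (Bad.card * 2 ^ m) = Bad.card * 2 ^ (m + 1) := by rw [pow_succ]; ring
        _ ≤ (bad1.card + bad2.card) * 2 ^ (m + 1) := Nat.mul_le_mul_right _ h5
        _ ≤ _ := by rw [add_mul]; omega
    omega

open Classical in
theorem claimR (κ A B0 B2 : ℕ) : ∃ b : ℕ, 1 ≤ b ∧
    ∀ (U M T : Type) [DecidableEq U] [Fintype U] [Fintype T]
      (cl : M → Finset (U × Bool)) (B1 : ℕ) (sg : (U → T) → (U → Bool) → (U → Bool))
      (Q : Finset U → Finset U), Kil cl sg κ A B0 B1 B2 Q →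
      (∀ lam y y' x, y x = y' x → sg lam y x = sg lam y' x) →
      ∀ (m : ℕ) (L : Finset U) (l : U → T) (gs : List (Bool × List (X.Jn U Bool)))
        (w0 : U → Bool), L.card ≤ m → gs.length ≤ m →
        (∀ g ∈ gs, ∀ s ∈ g.2, s.1.card ≤ κ ∧ X.Dep s.1 s.2) →
        (univ.filter fun lam : U → T =>
          ¬ X.DT (GoodA cl B1 (sg (ovr L l lam)) gs) ∅ w0 (b * m)).card * 2 ^ m ≤
            Fintype.card (U → T) := by
  obtain ⟨b, hb, h⟩ := Claim_aux κ (A + 1) B0 B2 (by omega) κ le_rfl
  refine ⟨b, hb, ?_⟩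
  intro U M T _ _ _ cl B1 sg Q hK hco m L l gs w0 hL hgs hl
  refine h U M T cl B1 sg Q ⟨hK.1, ?_⟩ hco m L l gs w0 hL hgs hl
  intro Y f c hY hD
  rcases hK.2 Y f c hY hD with h4 | ⟨Rg, E, h5, h6, h7, h8, h9⟩
  · exact Or.inl h4
  · exact Or.inr ⟨Rg, E, h5, h6, h7.trans (Nat.mul_le_mul_right _ (Nat.le_succ A)), h8, h9⟩

open Classical in
/-- the case used later -/
theorem claimR' (κ B : ℕ) : ∃ b : ℕ, 1 ≤ b ∧
    ∀ (U M T : Type) [DecidableEq U] [Fintype U] [Fintype T]
      (cl : M → Finset (U × Bool)) (sg : (U → T) → (U → Bool) → (U → Bool))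
      (Q : Finset U → Finset U), Kil cl sg κ B B B B Q →
      (∀ lam y y' x, y x = y' x → sg lam y x = sg lam y' x) →
      ∀ (m : ℕ) (gs : List (Bool × List (X.Jn U Bool))) (w0 : U → Bool), gs.length ≤ m →
        (∀ g ∈ gs, ∀ s ∈ g.2, s.1.card ≤ κ ∧ X.Dep s.1 s.2) →
        (univ.filter fun lam : U → T => ¬ X.DT (GoodA cl B (sg lam) gs) ∅ w0 (b * m)).card * 2 ^ m ≤
            Fintype.card (U → T) := by
  classical
  obtain ⟨b, hb, h⟩ := claimR κ B B B
  refine ⟨b, hb, ?_⟩
  intro U M T _ _ _ cl sg Q hK hco m gs w0 hm hgs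
  by_cases hT : Nonempty (U → T)
  · obtain ⟨l⟩ := hT
    have := h U M T cl B sg Q hK hco m ∅ l gs w0 (by simp) hm hgs
    have e : ∀ lam : U → T, ovr ∅ l lam = lam := by intro lam; funext x; simp [ovr]
    simp only [e] at this
    convert this
  · have : IsEmpty (U → T) := not_nonempty_iff.mp hT
    simp

end Pool.Agent.Work.MP_c04246_lc.R
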