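import Pool.Agent.Work.MP_c04246_lc.R.MonA

/-!
MODULE EvA (size M). Algebra of `tau`, `mdA`, `Vth`.

All functions have values in `ZMod p`, so `s ^ p = s` pointwise (`ZMod.pow_card`) and
`mdA A s = ∑ r, (if A r then 1 else 0) * (1 - (s - r)^(p-1))` pointwise (`ZMod.pow_card_sub_one_eq_one`).

Proofs.
* `mdA_mem_Dg`: this formula, `pow_mem_Dg`, `const_mem_Dg`.
* `mdA_congr_mul`: for each `r`, `(s - r)^(p-1) - (s' - r)^(p-1) = (s - s') * h_r` with
  `h_r = ∑ i < p-1, (s - r)^i (s' - r)^(p-2-i)` (`Commute.mul_geom_sum₂` / `mul_geom_sum`...), which is in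
  `Dg ((p - 2) * a)`. So `(mdA A s - mdA A s') * B` is a combination of the functions `((s - s') * B) * h_r`;
  `(s - s') * B ∈ V`, `∈ Dg (a + b)`, and `a + b + (p - 2) * a ≤ (p - 1) * a + b ≤ D` (`p ≥ 2`).
* `mem_Vth`: by definition. `ClV.th`: if `th * f ∈ V`, `f ∈ Dg a`, `g ∈ Dg b`, `a + b ≤ D - T`, then
  `th * f ∈ Dg (T + a)` and `(th * f) * g ∈ V` because `T + a + b ≤ D` (here `T ≤ D` is used when
  `D - T` is truncated).
* `mem_Vth_of`: `f * th ∈ V` by `ClV`.
* `Vth_agr_empty`: `agr ∅ w = 1`.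
* `tau` facts: unfold, cases on `c`.
-/

set_option autoImplicit false
set_option linter.unusedSectionVars false

namespace Pool.Agent.Work.MP_c04246_lc.R

open Finset

variable {U : Type} [Fintype U] [DecidableEq U] {p : ℕ} [Fact p.Prime]
  {V : Submodule (ZMod p) ((U → Bool) → ZMod p)} {D : ℕ}

private lemma mdA_eq (A : ZMod p → Bool) (s : (U → Bool) → ZMod p) :
    mdA A s = ∑ r : ZMod p, (if A r = true then (1 : ZMod p) else 0) •
      (1 - (s - fun _ => r) ^ (p - 1)) := by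
  have hp : p - 1 ≠ 0 := by
    have := (Fact.out : p.Prime).two_le
    omega
  funext y
  simp only [mdA, Finset.sum_apply, Pi.smul_apply, Pi.sub_apply, Pi.one_apply, Pi.pow_apply,
    smul_eq_mul]
  rw [Finset.sum_eq_single (s y)]
  · rw [sub_self, zero_pow hp, sub_zero, mul_one]
  · intro r _ hr
    rw [ZMod.pow_card_sub_one_eq_one (sub_ne_zero.2 (Ne.symm hr)), sub_self, mul_zero]
  · intro h
    exact absurd (Finset.mem_univ _) h

lemma mdA_mem_Dg (A : ZMod p → Bool) {s : (U → Bool) → ZMod p} {a : ℕ}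
    (hs : s ∈ Dg (ZMod p) a) : mdA A s ∈ Dg (ZMod p) ((p - 1) * a) := by
  rw [mdA_eq]
  apply Submodule.sum_mem
  intro r _
  apply Submodule.smul_mem
  apply Submodule.sub_mem _ (one_mem_Dg _)
  exact pow_mem_Dg (Submodule.sub_mem _ hs (const_mem_Dg r a)) (p - 1)

lemma mdA_congr_mul (hV : ClV V D) (A : ZMod p → Bool) {s s' B : (U → Bool) → ZMod p} {a b : ℕ}
    (hs : s ∈ Dg (ZMod p) a) (hs' : s' ∈ Dg (ZMod p) a) (hB : B ∈ Dg (ZMod p) b)
    (h : (s - s') * B ∈ V) (hD : (p - 1) * a + b ≤ D) : (mdA A s - mdA A s') * B ∈ V := by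
  have hp2 : 2 ≤ p := (Fact.out : p.Prime).two_le
  rw [mdA_eq, mdA_eq, ← Finset.sum_sub_distrib, Finset.sum_mul]
  apply Submodule.sum_mem
  intro r _
  rw [← smul_sub, smul_mul_assoc]
  apply Submodule.smul_mem
  set x : (U → Bool) → ZMod p := s' - fun _ => r with hx
  set y : (U → Bool) → ZMod p := s - fun _ => r with hy
  have hgeom := (Commute.all x y).mul_geom_sum₂ (p - 1)
  have e1 : (1 - y ^ (p - 1) - (1 - x ^ (p - 1))) * B =
      (-((s - s') * B)) * ∑ i ∈ Finset.range (p - 1), x ^ i * y ^ (p - 1 - 1 - i) := by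
    have e2 : 1 - y ^ (p - 1) - (1 - x ^ (p - 1)) = x ^ (p - 1) - y ^ (p - 1) := by ring
    rw [e2, ← hgeom]
    have e3 : x - y = s' - s := by rw [hx, hy]; ring
    rw [e3]
    ring
  rw [e1]
  have hxD : x ∈ Dg (ZMod p) a := Submodule.sub_mem _ hs' (const_mem_Dg r a)
  have hyD : y ∈ Dg (ZMod p) a := Submodule.sub_mem _ hs (const_mem_Dg r a)
  have hsum : ∑ i ∈ Finset.range (p - 1), x ^ i * y ^ (p - 1 - 1 - i) ∈
      Dg (ZMod p) ((p - 2) * a) := by
    apply Submodule.sum_mem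
    intro i hi
    have hi' : i < p - 1 := Finset.mem_range.1 hi
    have h1 := mul_mem_Dg (pow_mem_Dg hxD i) (pow_mem_Dg hyD (p - 1 - 1 - i))
    have e4 : i * a + (p - 1 - 1 - i) * a = (p - 2) * a := by
      rw [← add_mul]
      congr 1
      omega
    rwa [e4] at h1
  apply hV (a + b) ((p - 2) * a) _ _ (Submodule.neg_mem _ h) _ hsum
  · have e5 : (p - 1) * a = a + (p - 2) * a := by
      obtain ⟨q, rfl⟩ : ∃ q, p = q + 2 := ⟨p - 2, by omega⟩
      have : q + 2 - 1 = q + 1 := by omega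
      rw [this, Nat.add_sub_cancel]
      ring
    omega
  · exact Submodule.neg_mem _ (mul_mem_Dg (Submodule.sub_mem _ hs hs') hB)

lemma mdA_congr (hV : ClV V D) (A : ZMod p → Bool) {s s' : (U → Bool) → ZMod p} {a : ℕ}
    (hs : s ∈ Dg (ZMod p) a) (hs' : s' ∈ Dg (ZMod p) a)
    (h : s - s' ∈ V) (hD : (p - 1) * a ≤ D) : mdA A s - mdA A s' ∈ V := by
  have := mdA_congr_mul hV A hs hs' (one_mem_Dg 0) (by rwa [mul_one]) (by simpa using hD)
  rwa [mul_one] at this

lemma mem_Vth {th f : (U → Bool) → ZMod p} : f ∈ Vth V th ↔ th * f ∈ V := Iff.rfl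

lemma ClV.th (hV : ClV V D) {th : (U → Bool) → ZMod p} {T : ℕ} (hth : th ∈ Dg (ZMod p) T)
    (hT : T ≤ D) : ClV (Vth V th) (D - T) := by
  intro a b f g hf hfa hgb hab
  rw [mem_Vth] at hf ⊢
  rw [← mul_assoc]
  exact hV (T + a) b (th * f) g hf (mul_mem_Dg hth hfa) hgb (by omega)

lemma mem_Vth_of (hV : ClV V D) {th f : (U → Bool) → ZMod p} {T a : ℕ}
    (hth : th ∈ Dg (ZMod p) T) (hf : f ∈ V) (hf' : f ∈ Dg (ZMod p) a) (h : a + T ≤ D) :
    f ∈ Vth V th := by
  rw [mem_Vth, mul_comm]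
  exact hV a T f th hf hf' hth h

lemma Vth_agr_empty (w : U → Bool) : Vth V (agr (ZMod p) ∅ w) = V := by
  have h1 : agr (ZMod p) ∅ w = 1 := by
    funext y
    have : X.Agr ∅ w y := by
      intro x hx
      simp at hx
    simp only [agr, if_pos this, Pi.one_apply]
  ext f
  rw [mem_Vth, h1, one_mul]

lemma tau_mem_Dg {c : Bool} {P : (U → Bool) → ZMod p} {d : ℕ} (h : P ∈ Dg (ZMod p) d) :
    tau c P ∈ Dg (ZMod p) d := by
  cases c
  · exact Submodule.sub_mem _ (one_mem_Dg d) h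
  · exact h

lemma tau_mul_one_sub (c : Bool) (P : (U → Bool) → ZMod p) :
    tau c P * (1 - tau c P) = P * (1 - P) := by
  cases c
  · show (1 - P) * (1 - (1 - P)) = _
    ring
  · rfl

lemma tau_not (c : Bool) (P : (U → Bool) → ZMod p) : tau (!c) (1 - P) = tau c P := by
  cases c
  · rfl
  · show 1 - (1 - P) = P
    ring

lemma tau_sub (c : Bool) (P P' : (U → Bool) → ZMod p) (h : P - P' ∈ V) :
    tau c P - tau c P' ∈ V := by
  cases c
  · show (1 - P) - (1 - P') ∈ V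
    have : (1 - P) - (1 - P') = -(P - P') := by ring
    rw [this]
    exact Submodule.neg_mem _ h
  · exact h

end Pool.Agent.Work.MP_c04246_lc.R
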