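import Pool.Agent.Work.MP_c04246_lc.R.EvA

/-!
MODULE EvB (size M). Basic properties of evaluations: monotonicity, idempotence, uniqueness.

`Cow sg`: every coordinate of `sg y` depends only on the same coordinate of `y`.

Proofs. All by induction on the derivation (or on `u`).
* `lit_mem_Dg`: `y ↦ indF (sg y x == b)` depends only on `y x`: `junta_mem_Dg` with `S = {x}`.
* `mono_V`: the functions required to be in `V` have degree at most `(p + 1) * d`: for a literal
  `P - indF ..` in `Dg (max d 1) = Dg d`; gate: `tau Q * (1 - tau P)` and `tau P - ∑ ..` in `Dg (2 d)`,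
  `2 ≤ p + 1`; mod: `P - mdA ..` in `Dg (max d ((p-1) d))`.
* `idem`. Literal, constant: with `v = P - i`, `i ^ 2 = i`: `P (1 - P) = v * (1 - i - P)`; degrees `d + d ≤ D`.
  Gate: write `π = tau c P`, `q j = tau c (Q j)`, `v = π - ∑ q j * G j ∈ V ∩ Dg (2d)`:
  `π (1 - π) = v (1 - π) + ∑ j, (q j (1 - π)) G j`, both in `V` by `ClV` (`3 d ≤ 3 p d ≤ D`); then
  `tau_mul_one_sub`. Mod: `v = P - m`, `m = mdA ..`, `m ^ 2 = m`: `P (1 - P) = v * (1 - m - P)`, degrees
  `(p-1) d` (for `p ≥ 2` at least `d`) plus `(p-1) d`, at most `2 p d ≤ D`.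
* `unique` (induction on `u`, for all `P`, `P'`). Literal, constant: difference of two elements of `V`.
  Gate: with `π, q, G, v` for `P` and `π', q', G', v'` for `P'`:
  `π (1 - π') = v (1 - π') + ∑ j, ((q j - q' j) * (G j * (1 - π')) + (q' j (1 - π')) * G j)`; by the
  induction hypothesis and `tau_sub`, `q j - q' j ∈ V ∩ Dg d`; so `π (1 - π') ∈ V`; symmetrically
  `π' (1 - π) ∈ V`; the difference is `π - π' ∈ V`, hence `P - P' ∈ V`. Mod: `∑ Q j - ∑ Q' j ∈ V`,
  `mdA_congr`.
-/

set_option autoImplicit false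

namespace Pool.Agent.Work.MP_c04246_lc.R

open Finset

variable {U : Type} [Fintype U] [DecidableEq U] {p : ℕ} [Fact p.Prime]
  {V V' : Submodule (ZMod p) ((U → Bool) → ZMod p)} {D d : ℕ} {sg : (U → Bool) → (U → Bool)}

/-- coordinatewise maps -/
def Cow (sg : (U → Bool) → (U → Bool)) : Prop :=
  ∀ (y y' : U → Bool) (x : U), y x = y' x → sg y x = sg y' x

lemma lit_mem_Dg (hco : Cow sg) (x : U) (b : Bool) :
    indF (p := p) (fun y => sg y x == b) ∈ Dg (ZMod p) 1 := by
  have h := junta_mem_Dg (𝕜 := ZMod p) {x} (indF (p := p) (fun y => sg y x == b)) (by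
    intro y y' hy
    have h1 := hco y y' x (hy x (mem_singleton_self x))
    simp only [indF, h1])
  rwa [card_singleton] at h

private lemma eb_cst (b : Bool) (d : ℕ) :
    (indF (fun _ => b) : (U → Bool) → ZMod p) ∈ Dg (ZMod p) d :=
  const_mem_Dg (if b = true then 1 else 0) d

private lemma eb_indF_sq (f : (U → Bool) → Bool) :
    (indF f : (U → Bool) → ZMod p) * indF f = indF f := by
  funext y
  rw [Pi.mul_apply]
  unfold indF
  split_ifs <;> simp

private lemma eb_mdA_sq (A : ZMod p → Bool) (s : (U → Bool) → ZMod p) :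
    mdA A s * mdA A s = mdA A s := by
  funext y
  rw [Pi.mul_apply]
  unfold mdA
  split_ifs <;> simp

private lemma eb_two : 2 ≤ p := (Fact.out : p.Prime).two_le

private lemma eb_one_sub {f : (U → Bool) → ZMod p} {a : ℕ} (h : f ∈ Dg (ZMod p) a) :
    1 - f ∈ Dg (ZMod p) a :=
  (Dg (ZMod p) a).sub_mem (one_mem_Dg a) h

lemma EvU.deg {u : X.UF p U} {P : (U → Bool) → ZMod p} (h : EvU V d sg u P) :
    P ∈ Dg (ZMod p) d := by
  cases h with
  | lit x b P hP _ => exact hP
  | cst b P hP _ => exact hP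
  | gate c k f P Q G hP _ _ _ _ => exact hP
  | mod A k f P Q hP _ _ => exact hP

lemma EvU.mono_d {u : X.UF p U} {P : (U → Bool) → ZMod p} {d' : ℕ} (hd : d ≤ d')
    (h : EvU V d sg u P) : EvU V d' sg u P := by
  induction h with
  | lit x b P hP hv => exact EvU.lit x b P (Dg_mono hd hP) hv
  | cst b P hP hv => exact EvU.cst b P (Dg_mono hd hP) hv
  | gate c k f P Q G hP hQ hG h1 h2 ih =>
    exact EvU.gate c k f P Q G (Dg_mono hd hP) ih (fun j => Dg_mono hd (hG j)) h1 h2
  | mod A k f P Q hP hQ h1 ih => exact EvU.mod A k f P Q (Dg_mono hd hP) ih h1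

lemma EvU.mono_V (hco : Cow sg) (hd : 1 ≤ d)
    (hV : ∀ f ∈ V, f ∈ Dg (ZMod p) ((p + 1) * d) → f ∈ V') {u : X.UF p U}
    {P : (U → Bool) → ZMod p} (h : EvU V d sg u P) : EvU V' d sg u P := by
  have hp := eb_two (p := p)
  have e1 : d ≤ (p + 1) * d := Nat.le_mul_of_pos_left d (by omega)
  have e2 : d + d ≤ (p + 1) * d := by
    calc d + d = 2 * d := by ring
      _ ≤ (p + 1) * d := Nat.mul_le_mul_right d (by omega)
  have e3 : (p - 1) * d ≤ (p + 1) * d := Nat.mul_le_mul_right d (by omega)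
  induction h with
  | lit x b P hP hv =>
    refine EvU.lit x b P hP (hV _ hv (Submodule.sub_mem _ (Dg_mono e1 hP) ?_))
    exact Dg_mono (hd.trans e1) (lit_mem_Dg hco x b)
  | cst b P hP hv =>
    exact EvU.cst b P hP (hV _ hv (Submodule.sub_mem _ (Dg_mono e1 hP) (eb_cst b _)))
  | gate c k f P Q G hP hQ hG h1 h2 ih =>
    refine EvU.gate c k f P Q G hP ih hG (fun j => hV _ (h1 j) ?_) (hV _ h2 ?_)
    · exact Dg_mono e2 (mul_mem_Dg (tau_mem_Dg (EvU.deg (hQ j))) (eb_one_sub (tau_mem_Dg hP)))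
    · refine Submodule.sub_mem _ (Dg_mono e1 (tau_mem_Dg hP)) (Submodule.sum_mem _ fun j _ => ?_)
      exact Dg_mono e2 (mul_mem_Dg (tau_mem_Dg (EvU.deg (hQ j))) (hG j))
  | mod A k f P Q hP hQ h1 ih =>
    refine EvU.mod A k f P Q hP ih (hV _ h1 (Submodule.sub_mem _ (Dg_mono e1 hP) ?_))
    exact Dg_mono e3 (mdA_mem_Dg A (Submodule.sum_mem _ fun j _ => EvU.deg (hQ j)))

lemma EvU.idem (hV : ClV V D) (hco : Cow sg) (hd : 1 ≤ d) (hD : 3 * p * d ≤ D) {u : X.UF p U}
    {P : (U → Bool) → ZMod p} (h : EvU V d sg u P) : P * (1 - P) ∈ V := by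
  have hp := eb_two (p := p)
  have e3 : 3 * p * d = 3 * (p * d) := by ring
  have epd : 2 * d ≤ p * d := Nat.mul_le_mul_right d hp
  have e4 : (p - 1) * d ≤ p * d := Nat.mul_le_mul_right d (by omega)
  have e5 : d ≤ (p - 1) * d := Nat.le_mul_of_pos_left d (by omega)
  cases h with
  | lit x b P hP hv =>
    have hi := Dg_mono hd (lit_mem_Dg (p := p) hco x b)
    have h1 := hV d d _ _ hv (Submodule.sub_mem _ hP hi)
      (Submodule.sub_mem _ (eb_one_sub hi) hP) (by omega)
    have h2 := eb_indF_sq (p := p) (fun y => sg y x == b)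
    have e : P * (1 - P) = (P - indF (fun y => sg y x == b)) *
        (1 - indF (fun y => sg y x == b) - P) := by
      linear_combination -h2
    rw [e]
    exact h1
  | cst b P hP hv =>
    have hi := eb_cst (p := p) (U := U) b d
    have h1 := hV d d _ _ hv (Submodule.sub_mem _ hP hi)
      (Submodule.sub_mem _ (eb_one_sub hi) hP) (by omega)
    have h2 := eb_indF_sq (p := p) (fun _ : U → Bool => b)
    have e : P * (1 - P) = (P - indF (fun _ => b)) * (1 - indF (fun _ => b) - P) := by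
      linear_combination -h2
    rw [e]
    exact h1
  | gate c k f P Q G hP hQ hG h1 h2 =>
    rw [← tau_mul_one_sub c P]
    have hπ := tau_mem_Dg (c := c) hP
    have hv : tau c P - ∑ j, tau c (Q j) * G j ∈ Dg (ZMod p) (d + d) := by
      refine Submodule.sub_mem _ (Dg_mono (by omega) hπ) (Submodule.sum_mem _ fun j _ => ?_)
      exact mul_mem_Dg (tau_mem_Dg (EvU.deg (hQ j))) (hG j)
    have h3 := hV (d + d) d _ _ h2 hv (eb_one_sub hπ) (by omega)
    have h4 : ∀ j, tau c (Q j) * (1 - tau c P) * G j ∈ V := fun j =>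
      hV (d + d) d _ _ (h1 j) (mul_mem_Dg (tau_mem_Dg (EvU.deg (hQ j))) (eb_one_sub hπ)) (hG j)
        (by omega)
    have e : tau c P * (1 - tau c P) = (tau c P - ∑ j, tau c (Q j) * G j) * (1 - tau c P) +
        ∑ j, tau c (Q j) * (1 - tau c P) * G j := by
      have e' : ∑ j, tau c (Q j) * (1 - tau c P) * G j =
          (∑ j, tau c (Q j) * G j) * (1 - tau c P) := by
        rw [Finset.sum_mul]
        exact Finset.sum_congr rfl fun j _ => by ring
      rw [e']
      ring
    rw [e]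
    exact V.add_mem h3 (V.sum_mem fun j _ => h4 j)
  | mod A k f P Q hP hQ hv =>
    have hm : mdA A (∑ j, Q j) ∈ Dg (ZMod p) ((p - 1) * d) :=
      mdA_mem_Dg A (Submodule.sum_mem _ fun j _ => EvU.deg (hQ j))
    have hP' := Dg_mono e5 hP
    have h1 := hV ((p - 1) * d) ((p - 1) * d) _ _ hv (Submodule.sub_mem _ hP' hm)
      (Submodule.sub_mem _ (eb_one_sub hm) hP') (by omega)
    have h2 := eb_mdA_sq A (∑ j, Q j)
    have e : P * (1 - P) = (P - mdA A (∑ j, Q j)) * (1 - mdA A (∑ j, Q j) - P) := by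
      linear_combination -h2
    rw [e]
    exact h1

private lemma eb_half (hV : ClV V D) (hD : 3 * d ≤ D) {c : Bool} {k : ℕ}
    {P P' : (U → Bool) → ZMod p} {Q Q' G : Fin k → (U → Bool) → ZMod p}
    (hP : P ∈ Dg (ZMod p) d) (hP' : P' ∈ Dg (ZMod p) d) (hQ : ∀ j, Q j ∈ Dg (ZMod p) d)
    (hQ' : ∀ j, Q' j ∈ Dg (ZMod p) d) (hG : ∀ j, G j ∈ Dg (ZMod p) d)
    (hqq : ∀ j, Q j - Q' j ∈ V) (h1 : ∀ j, tau c (Q' j) * (1 - tau c P') ∈ V)
    (h2 : tau c P - ∑ j, tau c (Q j) * G j ∈ V) : tau c P * (1 - tau c P') ∈ V := by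
  have hπ := tau_mem_Dg (c := c) hP
  have hπ' := eb_one_sub (tau_mem_Dg (c := c) hP')
  have hq := fun j => tau_mem_Dg (c := c) (hQ j)
  have hq' := fun j => tau_mem_Dg (c := c) (hQ' j)
  have hv : tau c P - ∑ j, tau c (Q j) * G j ∈ Dg (ZMod p) (d + d) :=
    Submodule.sub_mem _ (Dg_mono (by omega) hπ)
      (Submodule.sum_mem _ fun j _ => mul_mem_Dg (hq j) (hG j))
  have h3 := hV (d + d) d _ _ h2 hv hπ' (by omega)
  have h4 : ∀ j, (tau c (Q j) - tau c (Q' j)) * (G j * (1 - tau c P')) ∈ V := fun j =>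
    hV d (d + d) _ _ (tau_sub c _ _ (hqq j)) (Submodule.sub_mem _ (hq j) (hq' j))
      (mul_mem_Dg (hG j) hπ') (by omega)
  have h5 : ∀ j, tau c (Q' j) * (1 - tau c P') * G j ∈ V := fun j =>
    hV (d + d) d _ _ (h1 j) (mul_mem_Dg (hq' j) hπ') (hG j) (by omega)
  have e : tau c P * (1 - tau c P') = (tau c P - ∑ j, tau c (Q j) * G j) * (1 - tau c P') +
      ∑ j, ((tau c (Q j) - tau c (Q' j)) * (G j * (1 - tau c P')) +
        tau c (Q' j) * (1 - tau c P') * G j) := by
    have e' : ∑ j, ((tau c (Q j) - tau c (Q' j)) * (G j * (1 - tau c P')) +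
        tau c (Q' j) * (1 - tau c P') * G j) =
        (∑ j, tau c (Q j) * G j) * (1 - tau c P') := by
      rw [Finset.sum_mul]
      exact Finset.sum_congr rfl fun j _ => by ring
    rw [e']
    ring
  rw [e]
  exact V.add_mem h3 (V.sum_mem fun j _ => V.add_mem (h4 j) (h5 j))

private lemma eb_tau_inv {c : Bool} {P P' : (U → Bool) → ZMod p}
    (h : tau c P - tau c P' ∈ V) : P - P' ∈ V := by
  unfold tau at h
  split_ifs at h with hc
  · exact h
  · have h1 := V.neg_mem h
    have e : P - P' = -(1 - P - (1 - P')) := by ring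
    rw [e]
    exact h1

lemma EvU.unique (hV : ClV V D) (hco : Cow sg) (hd : 1 ≤ d) (hD : 3 * p * d ≤ D) {u : X.UF p U}
    {P P' : (U → Bool) → ZMod p} (h : EvU V d sg u P) (h' : EvU V d sg u P') : P - P' ∈ V := by
  have hp := eb_two (p := p)
  have e3 : 3 * p * d = 3 * (p * d) := by ring
  have epd : 2 * d ≤ p * d := Nat.mul_le_mul_right d hp
  have e4 : (p - 1) * d ≤ p * d := Nat.mul_le_mul_right d (by omega)
  induction u generalizing P P' with
  | lit x b =>
    cases h with
    | lit _ _ _ hP hv =>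
      cases h' with
      | lit _ _ _ hP' hv' =>
        have h1 := V.sub_mem hv hv'
        rwa [sub_sub_sub_cancel_right] at h1
  | cst b =>
    cases h with
    | cst _ _ hP hv =>
      cases h' with
      | cst _ _ hP' hv' =>
        have h1 := V.sub_mem hv hv'
        rwa [sub_sub_sub_cancel_right] at h1
  | gate c k f ih =>
    cases h with
    | gate _ _ _ _ Q G hP hQ hG h1 h2 =>
      cases h' with
      | gate _ _ _ _ Q' G' hP' hQ' hG' h1' h2' =>
        have a1 := eb_half hV (by omega) hP hP' (fun j => EvU.deg (hQ j))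
          (fun j => EvU.deg (hQ' j)) hG (fun j => ih j (hQ j) (hQ' j)) h1' h2
        have a2 := eb_half hV (by omega) hP' hP (fun j => EvU.deg (hQ' j))
          (fun j => EvU.deg (hQ j)) hG' (fun j => ih j (hQ' j) (hQ j)) h1 h2'
        refine eb_tau_inv (c := c) ?_
        have e : tau c P - tau c P' =
            tau c P * (1 - tau c P') - tau c P' * (1 - tau c P) := by ring
        rw [e]
        exact V.sub_mem a1 a2
  | mod A k f ih =>
    cases h with
    | mod _ _ _ _ Q hP hQ hv =>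
      cases h' with
      | mod _ _ _ _ Q' hP' hQ' hv' =>
        have h1 : mdA A (∑ j, Q j) - mdA A (∑ j, Q' j) ∈ V := by
          refine mdA_congr hV A (Submodule.sum_mem _ fun j _ => EvU.deg (hQ j))
            (Submodule.sum_mem _ fun j _ => EvU.deg (hQ' j)) ?_ (by omega : (p - 1) * d ≤ D)
          rw [← Finset.sum_sub_distrib]
          exact V.sum_mem fun j _ => ih j (hQ j) (hQ' j)
        have h2 := V.add_mem (V.sub_mem hv hv') h1
        have e : P - P' = P - mdA A (∑ j, Q j) - (P' - mdA A (∑ j, Q' j)) +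
            (mdA A (∑ j, Q j) - mdA A (∑ j, Q' j)) := by ring
        rw [e]
        exact h2

end Pool.Agent.Work.MP_c04246_lc.R
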