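import Pool.Agent.Work.MP_c04246_lc.R.EvB

/-!
MODULE EvC (size M). Evaluations and the connectives of `Fml`: all relations at the outermost connective.

* `toU_not`: `X.UF.toU (!s) a = dualU (X.UF.toU s a)`: induction on `a` (for `bin`:
  `dualU (gateL c l) = gateL (!c) (l.map dualU)`, and
  `argsOf (!c) (dualU u) = (argsOf c u).map dualU`; `xor c (!s) = !(xor c s)`).
* `EvU.dual`: induction; gate: the same `G`, and `tau (!c) (1 - Q) = tau c Q` (`tau_not`); mod: the children
  are the same, `mdA (!A) s = 1 - mdA A s`. (For literals `indF (sg y x == !b) = 1 - indF (sg y x == b)`.)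
* `EvU.bin`. Let `π, πu, πv` be `tau c` of `P, Pu, Pv`. Sublemma: let `Q, G` be the data of the gate for `P`, with
  index set `Fin (argsOf c u ++ argsOf c v).length`; for the indices `j` of the part `argsOf c u`:
  (i) `tau c (Q j) * (1 - πu) ∈ V`; (ii) `πu * (1 - π) ∈ V`. If `u = gate c k f`, `argsOf c u = List.ofFn f`:
  take the data `Qu, Gu` of `u`; `Q j - Qu j ∈ V` by uniqueness, so
  `tau (Q j) (1 - πu) = (tau (Q j) - tau (Qu j)) (1 - πu) + tau (Qu j) (1 - πu)`, and
  `πu (1 - π) = vu (1 - π) + ∑ j, ((tau (Qu j) - tau (Q j)) (Gu j (1 - π)) + (tau (Q j) (1 - π)) Gu j)`.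
  If `u` is not a gate of kind `c`, `argsOf c u = [u]`, `Q j - Pu ∈ V` by uniqueness, and (i) is
  `(tau (Q j) - πu)(1 - πu) + πu (1 - πu)` (idempotence), (ii) is
  `(πu - tau (Q j)) (1 - π) + tau (Q j) (1 - π)`. The same for `v`. Now
  `π (1 - πu) (1 - πv) = v0 (1 - πu)(1 - πv) + ∑ j, tau (Q j) (1 - πu) (1 - πv) G j ∈ V` (total degree `4 d`,
  `4 d ≤ 3 p d`), and `π - (πu + πv - πu πv) = π (1 - πu)(1 - πv) - πu (1 - π) - πv (1 - π) + πu (1 - π) πv`.
* `rel_of_ev`: cases on `χ`. `bin c a b`: `toU false (bin c a b) = gateL c (argsOf c (toU false a) ++ ..)`; for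
  `c = true` it is the relation of `EvU.bin`; for `c = false`:
  `1 - P - ((1 - Pa) + (1 - Pb) - (1 - Pa)(1 - Pb)) = -(P - Pa * Pb)`. `neg a`: `toU false (neg a) = toU true a`,
  `toU_not`, `EvU.dual`, `EvU.unique`. `mod`: `EvU.unique` for the arguments and `mdA_congr`
  (the function `fun r => xor (decide (r = i)) false` is `fun r => decide (r = i)`).
  The second part is `EvU.idem`.
-/

set_option autoImplicit false

namespace Pool.Agent.Work.MP_c04246_lc.R

open Finset

variable {U : Type} [Fintype U] [DecidableEq U] {p : ℕ} [Fact p.Prime]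
  {V : Submodule (ZMod p) ((U → Bool) → ZMod p)} {D d : ℕ} {sg : (U → Bool) → (U → Bool)}

/-- dual formula -/
def dualU : X.UF p U → X.UF p U
  | .lit x b => .lit x (!b)
  | .cst b => .cst (!b)
  | .gate c k f => .gate (!c) k fun j => dualU (f j)
  | .mod A k f => .mod (fun r => !(A r)) k f

private lemma ec_gateL_eq (c : Bool) {l : List (X.UF p U)} {k : ℕ} {f : Fin k → X.UF p U}
    (h : l.length = k) (hf : ∀ i : Fin l.length, l.get i = f (Fin.cast h i)) :
    X.UF.gateL c l = X.UF.gate c k f := by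
  subst h
  unfold X.UF.gateL
  congr 1
  funext i
  exact hf i

private lemma ec_dual_gateL (c : Bool) (l : List (X.UF p U)) :
    dualU (X.UF.gateL c l) = X.UF.gateL (!c) (l.map dualU) := by
  symm
  have h1 : dualU (X.UF.gateL c l) = X.UF.gate (!c) l.length fun j => dualU (l.get j) := rfl
  rw [h1]
  refine ec_gateL_eq (!c) (List.length_map _) fun i => ?_
  simp

private lemma ec_args_dual (c : Bool) (u : X.UF p U) :
    X.UF.argsOf (!c) (dualU u) = (X.UF.argsOf c u).map dualU := by
  cases u with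
  | lit x b => rfl
  | cst b => rfl
  | gate c' k f =>
    simp only [dualU, X.UF.argsOf]
    by_cases h : c' = c
    · subst h
      rw [if_pos rfl, if_pos rfl, List.map_ofFn]
      rfl
    · rw [if_neg h, if_neg (fun h' => h (by simpa using h'))]
      rfl
  | mod A k f => rfl

lemma toU_not (s : Bool) (a : Fml p U) : X.UF.toU (!s) a = dualU (X.UF.toU s a) := by
  induction a generalizing s with
  | var x => rfl
  | cst b => cases b <;> cases s <;> rfl
  | neg a ih => exact ih (!s)
  | bin c a b iha ihb =>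
    have h1 : xor c (!s) = !(xor c s) := by cases c <;> cases s <;> rfl
    simp only [X.UF.toU]
    rw [h1, iha s, ihb s, ec_args_dual, ec_args_dual, ec_dual_gateL, List.map_append]
  | mod i k f ih =>
    simp only [X.UF.toU, dualU]
    congr 1
    funext r
    cases decide (r = i) <;> cases s <;> rfl

lemma EvU.dual {u : X.UF p U} {P : (U → Bool) → ZMod p} (h : EvU V d sg u P) :
    EvU V d sg (dualU u) (1 - P) := by
  have hsub : ∀ {Q : (U → Bool) → ZMod p}, Q ∈ Dg (ZMod p) d → 1 - Q ∈ Dg (ZMod p) d :=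
    fun h => Submodule.sub_mem _ (one_mem_Dg d) h
  induction h with
  | lit x b P hP hv =>
    refine EvU.lit x (!b) _ (hsub hP) ?_
    have e : 1 - P - indF (fun y => sg y x == !b) = -(P - indF (fun y => sg y x == b)) := by
      have h1 : (indF (fun y => sg y x == !b) : (U → Bool) → ZMod p) =
          1 - indF (fun y => sg y x == b) := by
        funext y
        rw [Pi.sub_apply, Pi.one_apply]
        simp only [indF]
        rcases Bool.eq_false_or_eq_true (sg y x) with hs | hs <;> cases b <;> simp [hs]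
      rw [h1]
      ring
    rw [e]
    exact V.neg_mem hv
  | cst b P hP hv =>
    refine EvU.cst (!b) _ (hsub hP) ?_
    have e : 1 - P - indF (fun _ => !b) = -(P - indF (fun _ => b)) := by
      have h1 : (indF (fun _ => !b) : (U → Bool) → ZMod p) = 1 - indF (fun _ => b) := by
        funext y
        rw [Pi.sub_apply, Pi.one_apply]
        simp only [indF]
        cases b <;> simp
      rw [h1]
      ring
    rw [e]
    exact V.neg_mem hv
  | gate c k f P Q G hP hQ hG h1 h2 ih =>
    refine EvU.gate (!c) k _ _ (fun j => 1 - Q j) G (hsub hP) ih hG (fun j => ?_) ?_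
    · rw [tau_not, tau_not]
      exact h1 j
    · rw [tau_not]
      have e : ∑ j, tau (!c) (1 - Q j) * G j = ∑ j, tau c (Q j) * G j :=
        Finset.sum_congr rfl fun j _ => by rw [tau_not]
      rw [e]
      exact h2
  | mod A k f P Q hP hQ h1 ih =>
    refine EvU.mod (fun r => !(A r)) k f _ Q (hsub hP) hQ ?_
    have e : 1 - P - mdA (fun r => !(A r)) (∑ j, Q j) = -(P - mdA A (∑ j, Q j)) := by
      have h3 : mdA (fun r => !(A r)) (∑ j, Q j) = 1 - mdA A (∑ j, Q j) := by
        funext y
        rw [Pi.sub_apply, Pi.one_apply]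
        simp only [mdA]
        generalize (∑ j, Q j) y = r
        rcases Bool.eq_false_or_eq_true (A r) with hs | hs <;> simp [hs]
      rw [h3]
      ring
    rw [e]
    exact V.neg_mem h1

private lemma ec_two : 2 ≤ p := (Fact.out : p.Prime).two_le

private lemma ec_one_sub {f : (U → Bool) → ZMod p} {a : ℕ} (h : f ∈ Dg (ZMod p) a) :
    1 - f ∈ Dg (ZMod p) a :=
  (Dg (ZMod p) a).sub_mem (one_mem_Dg a) h

private lemma ec_args_cases (c : Bool) (u : X.UF p U) :
    X.UF.argsOf c u = [u] ∨ ∃ (k : ℕ) (f : Fin k → X.UF p U), u = X.UF.gate c k f ∧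
      X.UF.argsOf c u = List.ofFn f := by
  cases u with
  | lit x b => exact Or.inl rfl
  | cst b => exact Or.inl rfl
  | gate c' k f =>
    by_cases h : c' = c
    · subst h
      refine Or.inr ⟨k, f, rfl, ?_⟩
      simp [X.UF.argsOf]
    · refine Or.inl ?_
      simp only [X.UF.argsOf]
      rw [if_neg h]
  | mod A k f => exact Or.inl rfl

private lemma ec_one (hV : ClV V D) (hco : Cow sg) (hd : 1 ≤ d) (hD : 3 * p * d ≤ D) {c : Bool}
    {u w : X.UF p U} {Pu Qw : (U → Bool) → ZMod p} (hu : EvU V d sg u Pu)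
    (hw : EvU V d sg w Qw) (hmem : w ∈ X.UF.argsOf c u) : tau c Qw * (1 - tau c Pu) ∈ V := by
  have hp := ec_two (p := p)
  have e3 : 3 * p * d = 3 * (p * d) := by ring
  have epd : 2 * d ≤ p * d := Nat.mul_le_mul_right d hp
  rcases ec_args_cases c u with h | ⟨k, f, h, h'⟩
  · rw [h, List.mem_singleton] at hmem
    subst hmem
    have h1 := tau_sub c _ _ (EvU.unique hV hco hd hD hw hu)
    have h2 := hV d d _ _ h1 (Submodule.sub_mem _ (tau_mem_Dg hw.deg) (tau_mem_Dg hu.deg))
      (ec_one_sub (tau_mem_Dg (c := c) hu.deg)) (by omega)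
    have h3 := EvU.idem hV hco hd hD hu
    rw [← tau_mul_one_sub c] at h3
    have e : tau c Qw * (1 - tau c Pu) =
        (tau c Qw - tau c Pu) * (1 - tau c Pu) + tau c Pu * (1 - tau c Pu) := by ring
    rw [e]
    exact V.add_mem h2 h3
  · rw [h', List.mem_ofFn] at hmem
    obtain ⟨j, rfl⟩ := hmem
    subst h
    cases hu with
    | gate _ _ _ _ Q G hP hQ hG h1 h2 =>
      have a1 := tau_sub c _ _ (EvU.unique hV hco hd hD hw (hQ j))
      have a2 := hV d d _ _ a1 (Submodule.sub_mem _ (tau_mem_Dg hw.deg) (tau_mem_Dg (hQ j).deg))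
        (ec_one_sub (tau_mem_Dg (c := c) hP)) (by omega)
      have e : tau c Qw * (1 - tau c Pu) =
          (tau c Qw - tau c (Q j)) * (1 - tau c Pu) + tau c (Q j) * (1 - tau c Pu) := by ring
      rw [e]
      exact V.add_mem a2 (h1 j)

private lemma ec_two' (hV : ClV V D) (hco : Cow sg) (hd : 1 ≤ d) (hD : 3 * p * d ≤ D) {c : Bool}
    {u : X.UF p U} {Pu P : (U → Bool) → ZMod p} (hu : EvU V d sg u Pu) (hP : P ∈ Dg (ZMod p) d)
    (h : ∀ w ∈ X.UF.argsOf c u, ∃ Qw, EvU V d sg w Qw ∧ tau c Qw * (1 - tau c P) ∈ V) :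
    tau c Pu * (1 - tau c P) ∈ V := by
  have hp := ec_two (p := p)
  have e3 : 3 * p * d = 3 * (p * d) := by ring
  have epd : 2 * d ≤ p * d := Nat.mul_le_mul_right d hp
  have hπ := ec_one_sub (tau_mem_Dg (c := c) hP)
  rcases ec_args_cases c u with h0 | ⟨k, f, h0, h'⟩
  · obtain ⟨Qw, hw, hwV⟩ := h u (by rw [h0]; exact List.mem_singleton_self u)
    have h1 := tau_sub c _ _ (EvU.unique hV hco hd hD hu hw)
    have h2 := hV d d _ _ h1 (Submodule.sub_mem _ (tau_mem_Dg hu.deg) (tau_mem_Dg hw.deg))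
      hπ (by omega)
    have e : tau c Pu * (1 - tau c P) =
        (tau c Pu - tau c Qw) * (1 - tau c P) + tau c Qw * (1 - tau c P) := by ring
    rw [e]
    exact V.add_mem h2 hwV
  · have h1 : ∀ j, ∃ Qw, EvU V d sg (f j) Qw ∧ tau c Qw * (1 - tau c P) ∈ V := fun j =>
      h (f j) (by rw [h', List.mem_ofFn]; exact ⟨j, rfl⟩)
    choose Q' hQ' hQV' using h1
    subst h0
    cases hu with
    | gate _ _ _ _ Q G hPu hQ hG b1 b2 =>
      have hv : tau c Pu - ∑ j, tau c (Q j) * G j ∈ Dg (ZMod p) (d + d) :=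
        Submodule.sub_mem _ (Dg_mono (by omega) (tau_mem_Dg hPu))
          (Submodule.sum_mem _ fun j _ => mul_mem_Dg (tau_mem_Dg (hQ j).deg) (hG j))
      have a1 := hV (d + d) d _ _ b2 hv hπ (by omega)
      have a2 : ∀ j, (tau c (Q j) - tau c (Q' j)) * (G j * (1 - tau c P)) ∈ V := fun j =>
        hV d (d + d) _ _ (tau_sub c _ _ (EvU.unique hV hco hd hD (hQ j) (hQ' j)))
          (Submodule.sub_mem _ (tau_mem_Dg (hQ j).deg) (tau_mem_Dg (hQ' j).deg))
          (mul_mem_Dg (hG j) hπ) (by omega)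
      have a3 : ∀ j, tau c (Q' j) * (1 - tau c P) * G j ∈ V := fun j =>
        hV (d + d) d _ _ (hQV' j) (mul_mem_Dg (tau_mem_Dg (hQ' j).deg) hπ) (hG j) (by omega)
      have e : tau c Pu * (1 - tau c P) = (tau c Pu - ∑ j, tau c (Q j) * G j) * (1 - tau c P) +
          ∑ j, ((tau c (Q j) - tau c (Q' j)) * (G j * (1 - tau c P)) +
            tau c (Q' j) * (1 - tau c P) * G j) := by
        have e' : ∑ j, ((tau c (Q j) - tau c (Q' j)) * (G j * (1 - tau c P)) +
            tau c (Q' j) * (1 - tau c P) * G j) =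
            (∑ j, tau c (Q j) * G j) * (1 - tau c P) := by
          rw [Finset.sum_mul]
          exact Finset.sum_congr rfl fun j _ => by ring
        rw [e']
        ring
      rw [e]
      exact V.add_mem a1 (V.sum_mem fun j _ => V.add_mem (a2 j) (a3 j))

lemma EvU.bin (hV : ClV V D) (hco : Cow sg) (hd : 1 ≤ d) (hD : 3 * p * d ≤ D) (c : Bool)
    {u v : X.UF p U} {P Pu Pv : (U → Bool) → ZMod p}
    (h : EvU V d sg (X.UF.gateL c (X.UF.argsOf c u ++ X.UF.argsOf c v)) P)
    (hu : EvU V d sg u Pu) (hv : EvU V d sg v Pv) :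
    tau c P - (tau c Pu + tau c Pv - tau c Pu * tau c Pv) ∈ V := by
  have hp := ec_two (p := p)
  have e3 : 3 * p * d = 3 * (p * d) := by ring
  have epd : 2 * d ≤ p * d := Nat.mul_le_mul_right d hp
  obtain ⟨l, hl⟩ : ∃ l, l = X.UF.argsOf c u ++ X.UF.argsOf c v := ⟨_, rfl⟩
  rw [← hl] at h
  have hu1 := ec_one_sub (tau_mem_Dg (c := c) hu.deg)
  have hv1 := ec_one_sub (tau_mem_Dg (c := c) hv.deg)
  unfold X.UF.gateL at h
  cases h with
  | gate _ _ _ _ Q G hP hQ hG h1 h2 =>
    have hmem : ∀ w ∈ l, ∃ Qw, EvU V d sg w Qw ∧ tau c Qw * (1 - tau c P) ∈ V := by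
      intro w hw
      obtain ⟨j, hj⟩ := List.get_of_mem hw
      exact ⟨Q j, by rw [← hj]; exact hQ j, h1 j⟩
    have hA := ec_two' hV hco hd hD hu hP (fun w hw => hmem w (by
      rw [hl]
      exact List.mem_append_left _ hw))
    have hB := ec_two' hV hco hd hD hv hP (fun w hw => hmem w (by
      rw [hl]
      exact List.mem_append_right _ hw))
    have hC : ∀ j, tau c (Q j) * (1 - tau c Pu) * ((1 - tau c Pv) * G j) ∈ V := by
      intro j
      have hj : l.get j ∈ l := List.get_mem l j
      have hj' : l.get j ∈ X.UF.argsOf c u ++ X.UF.argsOf c v := hl ▸ hj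
      rcases List.mem_append.1 hj' with hj2 | hj2
      · have a1 := ec_one hV hco hd hD hu (hQ j) hj2
        exact hV (d + d) (d + d) _ _ a1 (mul_mem_Dg (tau_mem_Dg (hQ j).deg) hu1)
          (mul_mem_Dg hv1 (hG j)) (by omega)
      · have a1 := ec_one hV hco hd hD hv (hQ j) hj2
        have a2 := hV (d + d) (d + d) _ _ a1 (mul_mem_Dg (tau_mem_Dg (hQ j).deg) hv1)
          (mul_mem_Dg hu1 (hG j)) (by omega)
        have e : tau c (Q j) * (1 - tau c Pu) * ((1 - tau c Pv) * G j) =
            tau c (Q j) * (1 - tau c Pv) * ((1 - tau c Pu) * G j) := by ring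
        rw [e]
        exact a2
    have hvd : tau c P - ∑ j, tau c (Q j) * G j ∈ Dg (ZMod p) (d + d) :=
      Submodule.sub_mem _ (Dg_mono (by omega) (tau_mem_Dg hP))
        (Submodule.sum_mem _ fun j _ => mul_mem_Dg (tau_mem_Dg (hQ j).deg) (hG j))
    have hE := hV (d + d) (d + d) _ _ h2 hvd (mul_mem_Dg hu1 hv1) (by omega)
    have hF : tau c P * ((1 - tau c Pu) * (1 - tau c Pv)) ∈ V := by
      have e : tau c P * ((1 - tau c Pu) * (1 - tau c Pv)) =
          (tau c P - ∑ j, tau c (Q j) * G j) * ((1 - tau c Pu) * (1 - tau c Pv)) +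
            ∑ j, tau c (Q j) * (1 - tau c Pu) * ((1 - tau c Pv) * G j) := by
        have e' : ∑ j, tau c (Q j) * (1 - tau c Pu) * ((1 - tau c Pv) * G j) =
            (∑ j, tau c (Q j) * G j) * ((1 - tau c Pu) * (1 - tau c Pv)) := by
          rw [Finset.sum_mul]
          exact Finset.sum_congr rfl fun j _ => by ring
        rw [e']
        ring
      rw [e]
      exact V.add_mem hE (V.sum_mem fun j _ => hC j)
    have hπ := ec_one_sub (tau_mem_Dg (c := c) hP)
    have hG2 := hV (d + d) d _ _ hA (mul_mem_Dg (tau_mem_Dg hu.deg) hπ)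
      (tau_mem_Dg (c := c) hv.deg) (by omega)
    have e : tau c P - (tau c Pu + tau c Pv - tau c Pu * tau c Pv) =
        tau c P * ((1 - tau c Pu) * (1 - tau c Pv)) - tau c Pu * (1 - tau c P) -
          tau c Pv * (1 - tau c P) + tau c Pu * (1 - tau c P) * tau c Pv := by ring
    rw [e]
    exact V.add_mem (V.sub_mem (V.sub_mem hF hA) hB) hG2

private lemma ec_self (χ : Fml p U) : χ ∈ Fml.subs χ := by
  cases χ <;> simp [Fml.subs]

theorem rel_of_ev (hV : ClV V D) (hco : Cow sg) (hd : 1 ≤ d) (hD : 3 * p * d ≤ D)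
    (Pf : Fml p U → (U → Bool) → ZMod p) (χ : Fml p U)
    (h : ∀ ψ ∈ Fml.subs χ, EvU V d sg (X.UF.toU false ψ) (Pf ψ)) :
    RelV V sg Pf χ ∧ Pf χ * (1 - Pf χ) ∈ V := by
  classical
  have hp := ec_two (p := p)
  have e3 : 3 * p * d = 3 * (p * d) := by ring
  have e4 : (p - 1) * d ≤ p * d := Nat.mul_le_mul_right d (by omega)
  refine ⟨?_, EvU.idem hV hco hd hD (h χ (ec_self χ))⟩
  have h0 := h χ (ec_self χ)
  cases χ with
  | var x =>
    simp only [RelV]
    simp only [X.UF.toU] at h0
    cases h0 with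
    | lit _ _ _ hP hv =>
      have e : (fun y => sg y x == !false) = fun y => sg y x := by
        funext y
        cases sg y x <;> rfl
      rwa [e] at hv
  | cst b =>
    simp only [RelV]
    simp only [X.UF.toU, Bool.xor_false] at h0
    cases h0 with
    | cst _ _ hP hv => exact hv
  | neg a =>
    simp only [RelV]
    have ha := h a (by
      simp only [Fml.subs]
      exact mem_insert_of_mem (ec_self a))
    simp only [X.UF.toU] at h0
    have h1 : X.UF.toU (!false) a = dualU (X.UF.toU false a) := toU_not false a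
    rw [h1] at h0
    exact EvU.unique hV hco hd hD h0 (EvU.dual ha)
  | bin c a b =>
    simp only [RelV]
    have ha := h a (by
      simp only [Fml.subs]
      exact mem_insert_of_mem (mem_union_left _ (ec_self a)))
    have hb := h b (by
      simp only [Fml.subs]
      exact mem_insert_of_mem (mem_union_right _ (ec_self b)))
    simp only [X.UF.toU, Bool.xor_false] at h0
    have h1 := EvU.bin hV hco hd hD c h0 ha hb
    cases c with
    | true =>
      rw [if_pos rfl]
      exact h1
    | false =>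
      rw [if_neg (by decide)]
      have h2 := V.neg_mem h1
      have e : Pf (Fml.bin false a b) - Pf a * Pf b =
          -(tau false (Pf (Fml.bin false a b)) - (tau false (Pf a) + tau false (Pf b) -
            tau false (Pf a) * tau false (Pf b))) := by
        have e5 : ∀ P : (U → Bool) → ZMod p, tau false P = 1 - P := fun P => by
          unfold tau
          rw [if_neg (by decide)]
        rw [e5, e5, e5]
        ring
      rw [e]
      exact h2
  | mod i k f =>
    simp only [RelV]
    simp only [X.UF.toU, Bool.xor_false] at h0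
    have hf : ∀ j, EvU V d sg (X.UF.toU false (f j)) (Pf (f j)) := fun j => h (f j) (by
      simp only [Fml.subs]
      exact mem_insert_of_mem (mem_biUnion.2 ⟨j, mem_univ j, ec_self (f j)⟩))
    cases h0 with
    | mod _ _ _ _ Q hP hQ hv =>
      have h1 : mdA (fun r => decide (r = i)) (∑ j, Q j) -
          mdA (fun r => decide (r = i)) (∑ j, Pf (f j)) ∈ V := by
        refine mdA_congr hV _ (Submodule.sum_mem _ fun j _ => (hQ j).deg)
          (Submodule.sum_mem _ fun j _ => (hf j).deg) ?_ (by omega : (p - 1) * d ≤ D)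
        rw [← Finset.sum_sub_distrib]
        exact V.sum_mem fun j _ => EvU.unique hV hco hd hD (hQ j) (hf j)
      have h2 := V.add_mem hv h1
      rwa [sub_add_sub_cancel] at h2

end Pool.Agent.Work.MP_c04246_lc.R
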