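import Pool.Agent.Work.MP_c04246_lc.R.EvB

/-!
MODULE EvD (size M). Exact evaluations, decision trees.

* `ev_exact`: induction on `u`; all functions are juntas on `S`, so in `Dg S.card ≤ Dg d`. Literal: the
  function `P - indF (sg y x == b)` vanishes at all `y` with `sg y x = sg' y x`. Gate: `Q j` the exact functions
  of the arguments, `G j = indF (fun y => all i < j have ev (sg' y) (f i) ≠ c)`; then
  `tau c (Q j) * (1 - tau c P) = 0` and `tau c P = ∑ j, tau c (Q j) * G j` exactly (the first argument with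
  value `c`). Mod: `P = mdA A (∑ Q j)` exactly. For an argument `f j` of `u` the hypothesis `hV` is inherited
  since `varsU (f j) ⊆ varsU u`.
* `ev_query`: induction on `u`; both derivations (for `b = true`, `b = false`) use the same constructor. Put
  `P y = P' (y x) y` etc. If `R b` are functions with `R b ∈ Vth V (agr (insert x H) (update w x b))` and
  `R y = R' (y x) y`, then `agr H w * R = ∑ b, [y x = b] agr H w * R b`, and `[y x = b] * agr H w` is
  `agr (insert x H) (update w x b)` if `x ∉ H` or `w x = b`, and `0` otherwise. All relations are of this form: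
  e.g. `(tau c (Q j) * (1 - tau c P)) y = (tau c (Q' (y x) j) * (1 - tau c (P' (y x)))) y`, and
  `mdA A (∑ Q j) y = mdA A (∑ Q' (y x) j) y`. Degrees: `query_mem_Dg`.
* `ev_dt`: induction on the tree: `EvU.mono_d` at a leaf, `ev_query` at a query.
* `dt_card`: generalize: a tree of depth `t` started at `(H, w)` has all leaves `(H', w')` with
  `H'.card ≤ H.card + t`.
* `dt_addR`: (compare `X.DT_add` in XLine.lean) the property `GoodA` is inherited by smaller subcubes
  (`Con` and `Nul` are statements about all `y` in the subcube). `X.DT.of_set`, `X.DT.transplant`.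
-/

set_option autoImplicit false

namespace Pool.Agent.Work.MP_c04246_lc.R

open Finset

variable {U : Type} [Fintype U] [DecidableEq U] {p : ℕ} [Fact p.Prime]
  {V : Submodule (ZMod p) ((U → Bool) → ZMod p)} {D d : ℕ} {sg : (U → Bool) → (U → Bool)}

private lemma ed_ev_congr (u : X.UF p U) (v v' : U → Bool) (h : ∀ x ∈ varsU u, v x = v' x) :
    X.UF.ev v u = X.UF.ev v' u := by
  induction u with
  | lit x b =>
    have h1 := h x (by simp [varsU])
    simp only [X.UF.ev, h1]
  | cst b => rfl
  | gate c k f ih =>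
    have h1 : ∀ j, X.UF.ev v (f j) = X.UF.ev v' (f j) := fun j => ih j fun x hx =>
      h x (by
        simp only [varsU, mem_biUnion]
        exact ⟨j, mem_univ j, hx⟩)
    simp only [X.UF.ev, h1]
  | mod A k f ih =>
    have h1 : ∀ j, X.UF.ev v (f j) = X.UF.ev v' (f j) := fun j => ih j fun x hx =>
      h x (by
        simp only [varsU, mem_biUnion]
        exact ⟨j, mem_univ j, hx⟩)
    simp only [X.UF.ev, h1]

private lemma ed_tau_ind (c : Bool) (g : (U → Bool) → Bool) (y : U → Bool) :
    tau c (indF g : (U → Bool) → ZMod p) y = if g y = c then 1 else 0 := by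
  cases c <;> cases hg : g y <;> simp [tau, indF, hg]

open Classical in
private lemma ed_first {k : ℕ} (q : Fin k → Prop) :
    ∑ j, (if q j then (1 : ZMod p) else 0) * (if ∀ i < j, ¬ q i then 1 else 0) =
      if ∃ j, q j then 1 else 0 := by
  by_cases h : ∃ j, q j
  · obtain ⟨j0, hj0, hmin⟩ : ∃ j0, q j0 ∧ ∀ i < j0, ¬ q i := by
      have hne : (univ.filter q).Nonempty := by
        obtain ⟨j, hj⟩ := h
        exact ⟨j, mem_filter.2 ⟨mem_univ _, hj⟩⟩
      refine ⟨(univ.filter q).min' hne, (mem_filter.1 (min'_mem _ hne)).2, fun i hi hq => ?_⟩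
      exact absurd (min'_le _ i (mem_filter.2 ⟨mem_univ _, hq⟩)) (not_le.2 hi)
    rw [if_pos h, Finset.sum_eq_single j0]
    · rw [if_pos hj0, if_pos hmin, mul_one]
    · intro j _ hj
      by_cases hq : q j
      · have h1 : ¬ ∀ i < j, ¬ q i := by
          intro h2
          rcases lt_trichotomy j j0 with h3 | h3 | h3
          · exact hmin j h3 hq
          · exact hj h3
          · exact h2 j0 h3 hj0
        rw [if_neg h1, mul_zero]
      · rw [if_neg hq, zero_mul]
    · intro h1
      exact absurd (mem_univ _) h1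
  · rw [if_neg h]
    refine Finset.sum_eq_zero fun j _ => ?_
    rw [if_neg (fun hq => h ⟨j, hq⟩), zero_mul]

theorem ev_exact (u : X.UF p U) (sg' : (U → Bool) → (U → Bool)) (S : Finset U) (hS : S.card ≤ d)
    (hdep : ∀ x ∈ varsU u, ∀ y y' : U → Bool, (∀ z ∈ S, y z = y' z) → sg' y x = sg' y' x)
    (hV : ∀ f : (U → Bool) → ZMod p, (∀ y, (∀ x ∈ varsU u, sg y x = sg' y x) → f y = 0) → f ∈ V) :
    EvU V d sg u (indF fun y => X.UF.ev (sg' y) u) := by
  classical
  have hjun : ∀ (v : X.UF p U), (∀ x ∈ varsU v, x ∈ varsU u) →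
      (indF fun y => X.UF.ev (sg' y) v : (U → Bool) → ZMod p) ∈ Dg (ZMod p) d := by
    intro v hv
    refine Dg_mono hS (junta_mem_Dg S _ fun y y' hy => ?_)
    have h1 := ed_ev_congr v (sg' y) (sg' y') fun x hx => hdep x (hv x hx) y y' hy
    simp only [indF, h1]
  induction u with
  | lit x b =>
    refine EvU.lit x b _ (hjun _ fun x hx => hx) (hV _ fun y hy => ?_)
    have h1 := hy x (by simp [varsU])
    simp [indF, X.UF.ev, h1]
  | cst b =>
    refine EvU.cst b _ (hjun _ fun x hx => hx) (hV _ fun y hy => ?_)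
    simp [indF, X.UF.ev]
  | gate c k f ih =>
    have hsub : ∀ j, ∀ x ∈ varsU (f j), x ∈ varsU (X.UF.gate c k f) := fun j x hx => by
      simp only [varsU, mem_biUnion]
      exact ⟨j, mem_univ j, hx⟩
    refine EvU.gate c k f _ (fun j => indF fun y => X.UF.ev (sg' y) (f j))
      (fun j => indF fun y => decide (∀ i < j, ¬ X.UF.ev (sg' y) (f i) = c))
      (hjun _ fun x hx => hx) (fun j => ?_) (fun j => ?_) (fun j => hV _ fun y hy => ?_)
      (hV _ fun y hy => ?_)
    · exact ih j (fun x hx => hdep x (hsub j x hx))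
        (fun g hg => hV g fun y hy => hg y fun x hx => hy x (hsub j x hx))
        (fun v hv => hjun v fun x hx => hsub j x (hv x hx))
    · refine Dg_mono hS (junta_mem_Dg S _ fun y y' hy => ?_)
      have h1 : ∀ i, X.UF.ev (sg' y) (f i) = X.UF.ev (sg' y') (f i) := fun i =>
        ed_ev_congr (f i) (sg' y) (sg' y') fun x hx => hdep x (hsub i x hx) y y' hy
      simp only [indF, h1]
    · rw [Pi.mul_apply, Pi.sub_apply, Pi.one_apply, ed_tau_ind, ed_tau_ind]
      by_cases h1 : X.UF.ev (sg' y) (f j) = c
      · have h2 : X.UF.ev (sg' y) (X.UF.gate c k f) = c := by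
          simp only [X.UF.ev]
          rw [if_pos ⟨j, h1⟩]
        rw [if_pos h2, sub_self, mul_zero]
      · rw [if_neg h1, zero_mul]
    · rw [Pi.sub_apply, Finset.sum_apply, ed_tau_ind]
      have h1 : ∀ j, (tau c (indF fun y => X.UF.ev (sg' y) (f j)) *
          indF fun y => decide (∀ i < j, ¬ X.UF.ev (sg' y) (f i) = c) :
            (U → Bool) → ZMod p) y =
          (if X.UF.ev (sg' y) (f j) = c then (1 : ZMod p) else 0) *
            (if ∀ i < j, ¬ X.UF.ev (sg' y) (f i) = c then 1 else 0) := by
        intro j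
        rw [Pi.mul_apply, ed_tau_ind]
        congr 1
        simp only [indF, decide_eq_true_eq]
      have h5 : ∑ j, (if X.UF.ev (sg' y) (f j) = c then (1 : ZMod p) else 0) *
          (if ∀ i < j, ¬ X.UF.ev (sg' y) (f i) = c then 1 else 0) =
          if ∃ j, X.UF.ev (sg' y) (f j) = c then 1 else 0 := by
        convert ed_first (p := p) (fun j => X.UF.ev (sg' y) (f j) = c)
      rw [Finset.sum_congr rfl fun j _ => h1 j, h5]
      have h2 : (X.UF.ev (sg' y) (X.UF.gate c k f) = c) ↔ ∃ j, X.UF.ev (sg' y) (f j) = c := by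
        simp only [X.UF.ev]
        by_cases h3 : ∃ j, X.UF.ev (sg' y) (f j) = c
        · simp [h3]
        · simp [h3]
      by_cases h3 : ∃ j, X.UF.ev (sg' y) (f j) = c
      · rw [if_pos (h2.2 h3), if_pos h3, sub_self]
      · rw [if_neg (fun h => h3 (h2.1 h)), if_neg h3, sub_self]
  | mod A k f ih =>
    have hsub : ∀ j, ∀ x ∈ varsU (f j), x ∈ varsU (X.UF.mod A k f) := fun j x hx => by
      simp only [varsU, mem_biUnion]
      exact ⟨j, mem_univ j, hx⟩
    refine EvU.mod A k f _ (fun j => indF fun y => X.UF.ev (sg' y) (f j))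
      (hjun _ fun x hx => hx) (fun j => ?_) (hV _ fun y hy => ?_)
    · exact ih j (fun x hx => hdep x (hsub j x hx))
        (fun g hg => hV g fun y hy => hg y fun x hx => hy x (hsub j x hx))
        (fun v hv => hjun v fun x hx => hsub j x (hv x hx))
    · rw [Pi.sub_apply]
      simp only [indF, mdA, X.UF.ev, Finset.sum_apply]
      exact sub_self _

private lemma ed_split {H : Finset U} {w : U → Bool} {x : U}
    (R : Bool → (U → Bool) → ZMod p)
    (h : ∀ b, R b ∈ Vth V (agr (ZMod p) (insert x H) (Function.update w x b))) :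
    (fun y => R (y x) y) ∈ Vth V (agr (ZMod p) H w) := by
  classical
  rw [mem_Vth]
  have e : agr (ZMod p) H w * (fun y => R (y x) y) = ∑ b : Bool,
      (fun y => (if y x = b then agr (ZMod p) H w y else 0) * R b y) := by
    funext y
    rw [Pi.mul_apply, Finset.sum_apply, Finset.sum_eq_single (y x)]
    · rw [if_pos rfl]
    · intro b _ hb
      rw [if_neg hb.symm, zero_mul]
    · intro h1
      exact absurd (mem_univ _) h1
  rw [e]
  refine V.sum_mem fun b _ => ?_
  by_cases hxb : x ∈ H → w x = b
  · have e2 : (fun y => (if y x = b then agr (ZMod p) H w y else 0) * R b y) =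
        agr (ZMod p) (insert x H) (Function.update w x b) * R b := by
      funext y
      rw [Pi.mul_apply]
      congr 1
      have h1 : X.Agr (insert x H) (Function.update w x b) y ↔ y x = b ∧ X.Agr H w y := by
        constructor
        · intro h2
          refine ⟨?_, fun j hj => ?_⟩
          · rw [h2 x (mem_insert_self x H), Function.update_self]
          · rw [h2 j (mem_insert_of_mem hj)]
            by_cases hjx : j = x
            · subst hjx
              rw [Function.update_self, hxb hj]
            · rw [Function.update_of_ne hjx]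
        · rintro ⟨h2, h3⟩ j hj
          by_cases hjx : j = x
          · subst hjx
            rw [Function.update_self, h2]
          · rw [Function.update_of_ne hjx]
            exact h3 j ((mem_insert.1 hj).resolve_left hjx)
      by_cases h2 : y x = b
      · rw [if_pos h2]
        unfold agr
        by_cases h3 : X.Agr H w y
        · rw [if_pos h3, if_pos (h1.2 ⟨h2, h3⟩)]
        · rw [if_neg h3, if_neg (fun h4 => h3 (h1.1 h4).2)]
      · rw [if_neg h2]
        unfold agr
        rw [if_neg (fun h4 => h2 (h1.1 h4).1)]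
    rw [e2]
    exact mem_Vth.1 (h b)
  · push Not at hxb
    have e2 : (fun y => (if y x = b then agr (ZMod p) H w y else 0) * R b y) = 0 := by
      funext y
      by_cases h2 : y x = b
      · have h3 : ¬ X.Agr H w y := fun h4 => hxb.2 ((h4 x hxb.1).symm.trans h2)
        unfold agr
        rw [if_neg h3]
        simp
      · rw [if_neg h2, zero_mul]
        rfl
    rw [e2]
    exact V.zero_mem

private lemma ed_tau_comb (c : Bool) (x : U) (R : Bool → (U → Bool) → ZMod p) (y : U → Bool) :
    tau c (fun y => R (y x) y) y = tau c (R (y x)) y := by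
  cases c <;> rfl

lemma ev_query (u : X.UF p U) (H : Finset U) (w : U → Bool) (x : U)
    (P : Bool → (U → Bool) → ZMod p)
    (h : ∀ b, EvU (Vth V (agr (ZMod p) (insert x H) (Function.update w x b))) d sg u (P b)) :
    EvU (Vth V (agr (ZMod p) H w)) (d + 1) sg u (fun y => P (y x) y) := by
  induction u generalizing P with
  | lit z b =>
    have hP : ∀ b', P b' ∈ Dg (ZMod p) d := fun b' => (h b').deg
    have hv : ∀ b', P b' - indF (fun y => sg y z == b) ∈
        Vth V (agr (ZMod p) (insert x H) (Function.update w x b')) := fun b' => by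
      cases h b' with
      | lit _ _ _ _ hv => exact hv
    exact EvU.lit z b _ (query_mem_Dg x P hP) (ed_split _ hv)
  | cst b =>
    have hP : ∀ b', P b' ∈ Dg (ZMod p) d := fun b' => (h b').deg
    have hv : ∀ b', P b' - indF (fun _ => b) ∈
        Vth V (agr (ZMod p) (insert x H) (Function.update w x b')) := fun b' => by
      cases h b' with
      | cst _ _ _ hv => exact hv
    exact EvU.cst b _ (query_mem_Dg x P hP) (ed_split _ hv)
  | gate c k f ih =>
    have hP : ∀ b', P b' ∈ Dg (ZMod p) d := fun b' => (h b').deg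
    have hg : ∀ b', ∃ Q G : Fin k → (U → Bool) → ZMod p,
        (∀ j, EvU (Vth V (agr (ZMod p) (insert x H) (Function.update w x b'))) d sg (f j) (Q j)) ∧
        (∀ j, G j ∈ Dg (ZMod p) d) ∧
        (∀ j, tau c (Q j) * (1 - tau c (P b')) ∈
          Vth V (agr (ZMod p) (insert x H) (Function.update w x b'))) ∧
        tau c (P b') - ∑ j, tau c (Q j) * G j ∈
          Vth V (agr (ZMod p) (insert x H) (Function.update w x b')) := fun b' => by
      cases h b' with
      | gate _ _ _ _ Q G _ hQ hG h1 h2 => exact ⟨Q, G, hQ, hG, h1, h2⟩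
    choose Q G hQ hG h1 h2 using hg
    refine EvU.gate c k f _ (fun j y => Q (y x) j y) (fun j y => G (y x) j y)
      (query_mem_Dg x P hP) (fun j => ih j (fun b => Q b j) fun b => hQ b j)
      (fun j => query_mem_Dg x (fun b => G b j) fun b => hG b j) (fun j => ?_) ?_
    · have e : (tau c fun y => Q (y x) j y) * (1 - tau c fun y => P (y x) y) =
          fun y => (tau c (Q (y x) j) * (1 - tau c (P (y x)))) y := by
        funext y
        rw [Pi.mul_apply, Pi.mul_apply, Pi.sub_apply, Pi.sub_apply,
          ed_tau_comb c x (fun b => Q b j), ed_tau_comb c x P]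
      rw [e]
      exact ed_split (fun b => tau c (Q b j) * (1 - tau c (P b))) fun b => h1 b j
    · have e : (tau c fun y => P (y x) y) - ∑ j, (tau c fun y => Q (y x) j y) *
          (fun y => G (y x) j y) =
          fun y => (tau c (P (y x)) - ∑ j, tau c (Q (y x) j) * G (y x) j) y := by
        funext y
        rw [Pi.sub_apply, Pi.sub_apply, Finset.sum_apply, Finset.sum_apply, ed_tau_comb c x P]
        congr 1
        refine Finset.sum_congr rfl fun j _ => ?_
        rw [Pi.mul_apply, Pi.mul_apply, ed_tau_comb c x (fun b => Q b j)]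
      rw [e]
      exact ed_split (fun b => tau c (P b) - ∑ j, tau c (Q b j) * G b j) h2
  | mod A k f ih =>
    have hP : ∀ b', P b' ∈ Dg (ZMod p) d := fun b' => (h b').deg
    have hg : ∀ b', ∃ Q : Fin k → (U → Bool) → ZMod p,
        (∀ j, EvU (Vth V (agr (ZMod p) (insert x H) (Function.update w x b'))) d sg (f j) (Q j)) ∧
        P b' - mdA A (∑ j, Q j) ∈
          Vth V (agr (ZMod p) (insert x H) (Function.update w x b')) := fun b' => by
      cases h b' with
      | mod _ _ _ _ Q _ hQ h1 => exact ⟨Q, hQ, h1⟩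
    choose Q hQ h1 using hg
    refine EvU.mod A k f _ (fun j y => Q (y x) j y)
      (query_mem_Dg x P hP) (fun j => ih j (fun b => Q b j) fun b => hQ b j) ?_
    have e : (fun y => P (y x) y) - mdA A (∑ j, fun y => Q (y x) j y) =
        fun y => (P (y x) - mdA A (∑ j, Q (y x) j)) y := by
      funext y
      rw [Pi.sub_apply, Pi.sub_apply]
      simp only [mdA, Finset.sum_apply]
    rw [e]
    exact ed_split (fun b => P b - mdA A (∑ j, Q b j)) h1

theorem ev_dt (u : X.UF p U) {Pr : Finset U → (U → Bool) → Prop} {d1 : ℕ} {H : Finset U}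
    {w : U → Bool} {t : ℕ} (h : X.DT Pr H w t)
    (hP : ∀ H' w', Pr H' w' → ∃ P, EvU (Vth V (agr (ZMod p) H' w')) d sg u P ∧
      P ∈ Dg (ZMod p) d1) :
    ∃ P, EvU (Vth V (agr (ZMod p) H w)) (d + t) sg u P ∧ P ∈ Dg (ZMod p) (d1 + t) := by
  induction h with
  | leaf H w t hPr =>
    obtain ⟨P, hP1, hP2⟩ := hP H w hPr
    exact ⟨P, EvU.mono_d (Nat.le_add_right d t) hP1, Dg_mono (Nat.le_add_right d1 t) hP2⟩
  | query H w t j _ ih =>
    choose P hP1 hP2 using ih
    exact ⟨fun y => P (y j) y, ev_query u H w j P hP1, query_mem_Dg j P hP2⟩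

lemma dt_card {Pr : Finset U → (U → Bool) → Prop} {w : U → Bool} {t : ℕ} (h : X.DT Pr ∅ w t) :
    X.DT (fun H' w' => Pr H' w' ∧ H'.card ≤ t) ∅ w t := by
  have key : ∀ (H : Finset U) (w : U → Bool) (t : ℕ), X.DT Pr H w t →
      X.DT (fun H' w' => Pr H' w' ∧ H'.card ≤ H.card + t) H w t := by
    intro H w t h
    induction h with
    | leaf H w t hPr => exact X.DT.leaf H w t ⟨hPr, Nat.le_add_right _ _⟩
    | query H w t j _ ih =>
      refine X.DT.query H w t j fun v => (ih v).imp fun H' w' h' => ⟨h'.1, ?_⟩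
      have h1 := card_insert_le j H
      have h2 := h'.2
      omega
  have h1 := key ∅ w t h
  rwa [card_empty, zero_add] at h1

lemma dt_addR {M : Type} {cl : M → Finset (U × Bool)} {B1 : ℕ}
    {gs : List (Bool × List (X.Jn U Bool))} (H : Finset U) {w0 : U → Bool} {t : ℕ}
    (h : X.DT (GoodA cl B1 sg gs) ∅ w0 t) :
    X.DT (fun H' w' => GoodA cl B1 sg gs H' w' ∧ H ⊆ H') ∅ w0 (t + H.card) := by
  refine X.DT.of_set H ∅ w0 fun w' hw' => ?_
  have key : ∀ (H1 : Finset U) (wa w1 : U → Bool), GoodA cl B1 sg gs H1 wa → X.Agr H1 wa w1 →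
      X.Agr H w' w1 → GoodA cl B1 sg gs (H1 ∪ H) w1 ∧ H ⊆ H1 ∪ H := by
    intro H1 wa w1 hP ha _
    refine ⟨fun g hg => ?_, subset_union_right⟩
    have hsub : ∀ y, X.Agr (H1 ∪ H) w1 y → X.Agr H1 wa y := fun y hy j hj => by
      rw [hy j (mem_union_left _ hj), ha j hj]
    rcases hP g hg with ⟨s, hs, hc⟩ | hn
    · exact Or.inl ⟨s, hs, fun y hy => hc y (hsub y hy)⟩
    · refine Or.inr fun s hs => ?_
      obtain ⟨J, hJ, hJn⟩ := hn s hs
      exact ⟨J, hJ, fun y hy => hJn y (hsub y hy)⟩
  exact X.DT.transplant H h w' key w' hw' (fun j _ => rfl)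

end Pool.Agent.Work.MP_c04246_lc.R
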