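import Pool.Agent.Work.MP_c04246_lc.R.EvB

/-!
MODULE EvE (size M). Constructing evaluations of gates.

* `ev_gate_const`: `Q = P`, `G j = 1` if `j = j0`, else `0`; `tau c (indF (fun _ => c)) = 1`.
* `ev_gate_prod`: let `π j = tau c (P j)`, and let `P'` be the function with
  `tau c P' = 1 - ∏ j ∈ Bg, (1 - π j)`. `G j = ∏ i ∈ Bg with i < j, (1 - π i)` for `j ∈ Bg`, `0` otherwise;
  `tau c P' = ∑ j, π j * G j` exactly (`Finset.prod_one_sub_ordered`). For `j ∈ Bg`,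
  `π j * ∏ i ∈ Bg, (1 - π i) = (π j * (1 - π j)) * ∏ i ∈ Bg \ {j}, (1 - π i)` is in `V` by `EvU.idem`,
  `tau_mul_one_sub`, `ClV` (degrees `2 d + d ≤ 3 p d`); for `j ∉ Bg`, `π j ∈ V ∩ Dg d` times an element of `Dg d`.
* `ev_mod_free`: `Q = P`, difference `0`.
* `ev_mod_sum`: for `T ⊆ Bg` let `B T = (∏ j ∈ T, P j) * ∏ j ∈ Bg \ T, (1 - P j)`, so
  `∑ T ∈ Bg.powerset, B T = 1` (`Finset.prod_add`), `B T ∈ Dg (∑ j ∈ Bg, n j)`. Let `s0 = ∑ j ∉ Bg, P j ∈ Dg κ`,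
  `P' = ∑ T, B T * mdA A (s0 + T.card) ∈ Dg ((p-1) κ + ∑ n j)`. Then
  `P' - mdA A (∑ j, P j) = ∑ T, (mdA A (s0 + T.card) - mdA A (∑ j, P j)) * B T`, and each term is in `V` by
  `mdA_congr_mul` with `a = b = d` (`(p-1) d + d ≤ 3 p d`): `(s0 + T.card - ∑ j, P j) * B T =`
  `∑ j ∈ T, (1 - P j) * B T - ∑ j ∈ Bg \ T, P j * B T`; each summand contains a factor `P j (1 - P j) ∈ V`
  (`EvU.idem`) times an element of `Dg d`.
-/

set_option autoImplicit false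

namespace Pool.Agent.Work.MP_c04246_lc.R

open Finset

variable {U : Type} [Fintype U] [DecidableEq U] {p : ℕ} [Fact p.Prime]
  {V : Submodule (ZMod p) ((U → Bool) → ZMod p)} {D d : ℕ} {sg : (U → Bool) → (U → Bool)}

private lemma ee_tau_one (c : Bool) :
    tau c (indF (fun _ => c) : (U → Bool) → ZMod p) = 1 := by
  funext y
  cases c <;> simp [tau, indF]

private lemma ee_tau_tau (c : Bool) (P : (U → Bool) → ZMod p) : tau c (tau c P) = P := by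
  cases c <;> simp [tau]

private lemma ee_one_sub {f : (U → Bool) → ZMod p} {a : ℕ} (h : f ∈ Dg (ZMod p) a) :
    1 - f ∈ Dg (ZMod p) a :=
  (Dg (ZMod p) a).sub_mem (one_mem_Dg a) h

private lemma ee_two : 2 ≤ p := (Fact.out : p.Prime).two_le

lemma ev_gate_const (c : Bool) (k : ℕ) (f : Fin k → X.UF p U) (P : Fin k → (U → Bool) → ZMod p)
    (hP : ∀ j, EvU V d sg (f j) (P j)) (j0 : Fin k) (h : tau c (P j0) = 1) :
    EvU V d sg (X.UF.gate c k f) (indF fun _ => c) ∧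
      (indF (fun _ => c) : (U → Bool) → ZMod p) ∈ Dg (ZMod p) 0 := by
  have h0 : ∀ a, (indF (fun _ => c) : (U → Bool) → ZMod p) ∈ Dg (ZMod p) a :=
    fun a => const_mem_Dg (if c = true then 1 else 0) a
  refine ⟨EvU.gate c k f _ P (fun j => if j = j0 then 1 else 0) (h0 d) hP ?_ ?_ ?_, h0 0⟩
  · intro j
    split_ifs
    · exact one_mem_Dg d
    · exact Submodule.zero_mem _
  · intro j
    rw [ee_tau_one, sub_self, mul_zero]
    exact V.zero_mem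
  · have e : ∑ j, tau c (P j) * (if j = j0 then 1 else 0) = 1 := by
      rw [Finset.sum_eq_single j0]
      · rw [if_pos rfl, mul_one, h]
      · intro j _ hj
        rw [if_neg hj, mul_zero]
      · intro hj
        exact absurd (mem_univ j0) hj
    rw [ee_tau_one, e, sub_self]
    exact V.zero_mem

lemma ev_gate_prod (hV : ClV V D) (hco : Cow sg) (hd : 1 ≤ d) (hD : 3 * p * d ≤ D) (c : Bool)
    (k : ℕ) (f : Fin k → X.UF p U) (P : Fin k → (U → Bool) → ZMod p)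
    (hP : ∀ j, EvU V d sg (f j) (P j)) (n : Fin k → ℕ) (Bg : Finset (Fin k))
    (hn : ∀ j ∈ Bg, P j ∈ Dg (ZMod p) (n j)) (hs : ∑ j ∈ Bg, n j ≤ d)
    (hz : ∀ j, j ∉ Bg → tau c (P j) ∈ V) :
    ∃ P', EvU V d sg (X.UF.gate c k f) P' ∧ P' ∈ Dg (ZMod p) (∑ j ∈ Bg, n j) := by
  have hp := ee_two (p := p)
  have e3 : 3 * p * d = 3 * (p * d) := by ring
  have epd : 2 * d ≤ p * d := Nat.mul_le_mul_right d hp
  have hdeg : ∀ S : Finset (Fin k), S ⊆ Bg →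
      ∏ j ∈ S, (1 - tau c (P j)) ∈ Dg (ZMod p) (∑ j ∈ S, n j) := fun S hS =>
    prod_mem_Dg S n _ fun j hj => ee_one_sub (tau_mem_Dg (hn j (hS hj)))
  have hle : ∀ S : Finset (Fin k), S ⊆ Bg → ∑ j ∈ S, n j ≤ d := fun S hS =>
    (Finset.sum_le_sum_of_subset hS).trans hs
  have hdd : ∀ S : Finset (Fin k), S ⊆ Bg →
      ∏ j ∈ S, (1 - tau c (P j)) ∈ Dg (ZMod p) d := fun S hS => Dg_mono (hle S hS) (hdeg S hS)
  have hP' : tau c (1 - ∏ j ∈ Bg, (1 - tau c (P j))) ∈ Dg (ZMod p) (∑ j ∈ Bg, n j) :=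
    tau_mem_Dg (ee_one_sub (hdeg Bg (Finset.Subset.refl _)))
  refine ⟨_, EvU.gate c k f (tau c (1 - ∏ j ∈ Bg, (1 - tau c (P j)))) P
    (fun j => if j ∈ Bg then ∏ i ∈ Bg with i < j, (1 - tau c (P i)) else 0)
    (Dg_mono hs hP') hP ?_ ?_ ?_, hP'⟩
  · intro j
    split_ifs
    · exact hdd _ (Finset.filter_subset _ _)
    · exact Submodule.zero_mem _
  · intro j
    rw [ee_tau_tau, sub_sub_cancel]
    by_cases hj : j ∈ Bg
    · rw [← Finset.mul_prod_erase Bg _ hj, ← mul_assoc, tau_mul_one_sub]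
      exact hV (d + d) d _ _ (EvU.idem hV hco hd hD (hP j))
        (mul_mem_Dg (EvU.deg (hP j)) (ee_one_sub (EvU.deg (hP j))))
        (hdd _ (Finset.erase_subset _ _)) (by omega)
    · exact hV d d _ _ (hz j hj) (tau_mem_Dg (EvU.deg (hP j))) (hdd _ (Finset.Subset.refl _))
        (by omega)
  · have e : ∑ j, tau c (P j) * (if j ∈ Bg then ∏ i ∈ Bg with i < j, (1 - tau c (P i)) else 0) =
        ∑ j ∈ Bg, tau c (P j) * ∏ i ∈ Bg with i < j, (1 - tau c (P i)) := by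
      rw [← Finset.sum_subset (Finset.subset_univ Bg)]
      · exact Finset.sum_congr rfl fun j hj => by rw [if_pos hj]
      · intro j _ hj
        rw [if_neg hj, mul_zero]
    rw [ee_tau_tau, e, Finset.prod_one_sub_ordered, sub_sub_cancel, sub_self]
    exact V.zero_mem

lemma ev_mod_free (A : ZMod p → Bool) (k : ℕ) (f : Fin k → X.UF p U)
    (P : Fin k → (U → Bool) → ZMod p) (hP : ∀ j, EvU V d sg (f j) (P j)) (E : ℕ)
    (hE : ∀ j, P j ∈ Dg (ZMod p) E) (hd : (p - 1) * E ≤ d) :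
    ∃ P', EvU V d sg (X.UF.mod A k f) P' ∧ P' ∈ Dg (ZMod p) ((p - 1) * E) := by
  have h1 : mdA A (∑ j, P j) ∈ Dg (ZMod p) ((p - 1) * E) :=
    mdA_mem_Dg A (Submodule.sum_mem _ fun j _ => hE j)
  refine ⟨_, EvU.mod A k f _ P (Dg_mono hd h1) hP ?_, h1⟩
  rw [sub_self]
  exact V.zero_mem

private lemma ee_cell (hV : ClV V D) (hco : Cow sg) (hd : 1 ≤ d) (hD : 3 * p * d ≤ D) {k : ℕ}
    {f : Fin k → X.UF p U} {P : Fin k → (U → Bool) → ZMod p}
    (hP : ∀ j, EvU V d sg (f j) (P j)) {n : Fin k → ℕ} {Bg T : Finset (Fin k)}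
    (hn : ∀ j ∈ Bg, P j ∈ Dg (ZMod p) (n j)) (hs : ∑ j ∈ Bg, n j ≤ d) (hT : T ⊆ Bg) :
    (∏ j ∈ T, P j) * ∏ j ∈ Bg \ T, (1 - P j) ∈ Dg (ZMod p) (∑ j ∈ Bg, n j) ∧
    ((∑ j, if j ∈ Bg then 0 else P j) + (T.card : (U → Bool) → ZMod p) - ∑ j, P j) *
      ((∏ j ∈ T, P j) * ∏ j ∈ Bg \ T, (1 - P j)) ∈ V := by
  have hp := ee_two (p := p)
  have e3 : 3 * p * d = 3 * (p * d) := by ring
  have epd : 2 * d ≤ p * d := Nat.mul_le_mul_right d hp
  have d1 : ∀ S : Finset (Fin k), S ⊆ Bg → ∏ j ∈ S, P j ∈ Dg (ZMod p) (∑ j ∈ S, n j) :=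
    fun S hS => prod_mem_Dg S n _ fun j hj => hn j (hS hj)
  have d2 : ∀ S : Finset (Fin k), S ⊆ Bg →
      ∏ j ∈ S, (1 - P j) ∈ Dg (ZMod p) (∑ j ∈ S, n j) :=
    fun S hS => prod_mem_Dg S n _ fun j hj => ee_one_sub (hn j (hS hj))
  have hsum : ∑ j ∈ Bg \ T, n j + ∑ j ∈ T, n j = ∑ j ∈ Bg, n j := Finset.sum_sdiff hT
  have hidem : ∀ j, P j * (1 - P j) ∈ V ∧ P j * (1 - P j) ∈ Dg (ZMod p) (d + d) := fun j =>
    ⟨EvU.idem hV hco hd hD (hP j),
      mul_mem_Dg (EvU.deg (hP j)) (ee_one_sub (EvU.deg (hP j)))⟩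
  refine ⟨?_, ?_⟩
  · have h1 := mul_mem_Dg (d1 T hT) (d2 (Bg \ T) Finset.sdiff_subset)
    exact Dg_mono (by omega) h1
  · have hA : ∀ j ∈ T, (1 - P j) * ((∏ j ∈ T, P j) * ∏ j ∈ Bg \ T, (1 - P j)) ∈ V := by
      intro j hj
      have e : (1 - P j) * ((∏ j ∈ T, P j) * ∏ j ∈ Bg \ T, (1 - P j)) =
          (P j * (1 - P j)) * ((∏ i ∈ T.erase j, P i) * ∏ j ∈ Bg \ T, (1 - P j)) := by
        rw [← Finset.mul_prod_erase T _ hj]
        ring
      rw [e]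
      have h1 : ∑ i ∈ T.erase j, n i ≤ ∑ i ∈ T, n i :=
        Finset.sum_le_sum_of_subset (Finset.erase_subset _ _)
      refine hV (d + d) d _ _ (hidem j).1 (hidem j).2 (Dg_mono ?_ (mul_mem_Dg
        (d1 _ ((Finset.erase_subset _ _).trans hT)) (d2 (Bg \ T) Finset.sdiff_subset))) (by omega)
      omega
    have hB : ∀ j ∈ Bg \ T, P j * ((∏ j ∈ T, P j) * ∏ j ∈ Bg \ T, (1 - P j)) ∈ V := by
      intro j hj
      have e : P j * ((∏ j ∈ T, P j) * ∏ j ∈ Bg \ T, (1 - P j)) =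
          (P j * (1 - P j)) * ((∏ i ∈ T, P i) * ∏ i ∈ (Bg \ T).erase j, (1 - P i)) := by
        rw [← Finset.mul_prod_erase (Bg \ T) _ hj]
        ring
      rw [e]
      have h1 : ∑ i ∈ (Bg \ T).erase j, n i ≤ ∑ i ∈ Bg \ T, n i :=
        Finset.sum_le_sum_of_subset (Finset.erase_subset _ _)
      refine hV (d + d) d _ _ (hidem j).1 (hidem j).2 (Dg_mono ?_ (mul_mem_Dg (d1 T hT)
        (d2 _ ((Finset.erase_subset _ _).trans Finset.sdiff_subset)))) (by omega)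
      omega
    have e1 : ∑ j, P j = (∑ j, if j ∈ Bg then 0 else P j) + ∑ j ∈ Bg, P j := by
      have h1 : ∑ j ∈ Bg, P j = ∑ j, if j ∈ Bg then P j else 0 := by
        rw [Finset.sum_ite_mem, Finset.univ_inter]
      rw [h1, ← Finset.sum_add_distrib]
      refine Finset.sum_congr rfl fun j _ => ?_
      split_ifs
      · rw [zero_add]
      · rw [add_zero]
    have e2 : ∑ j ∈ Bg, P j = ∑ j ∈ Bg \ T, P j + ∑ j ∈ T, P j := (Finset.sum_sdiff hT).symm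
    have e3 : (T.card : (U → Bool) → ZMod p) = ∑ j ∈ T, 1 := by
      rw [Finset.sum_const, nsmul_eq_mul, mul_one]
    have e : ((∑ j, if j ∈ Bg then 0 else P j) + (T.card : (U → Bool) → ZMod p) - ∑ j, P j) *
        ((∏ j ∈ T, P j) * ∏ j ∈ Bg \ T, (1 - P j)) =
        ∑ j ∈ T, (1 - P j) * ((∏ j ∈ T, P j) * ∏ j ∈ Bg \ T, (1 - P j)) -
          ∑ j ∈ Bg \ T, P j * ((∏ j ∈ T, P j) * ∏ j ∈ Bg \ T, (1 - P j)) := by
      rw [← Finset.sum_mul, ← Finset.sum_mul, Finset.sum_sub_distrib, e1, e2, e3]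
      ring
    rw [e]
    exact V.sub_mem (V.sum_mem hA) (V.sum_mem hB)

lemma ev_mod_sum (hV : ClV V D) (hco : Cow sg) (hd : 1 ≤ d) (hD : 3 * p * d ≤ D)
    (A : ZMod p → Bool) (k : ℕ) (f : Fin k → X.UF p U) (P : Fin k → (U → Bool) → ZMod p)
    (hP : ∀ j, EvU V d sg (f j) (P j)) (n : Fin k → ℕ) (Bg : Finset (Fin k)) (κ : ℕ)
    (hn : ∀ j ∈ Bg, P j ∈ Dg (ZMod p) (n j)) (hz : ∀ j, j ∉ Bg → P j ∈ Dg (ZMod p) κ)
    (hs : p * κ + ∑ j ∈ Bg, n j ≤ d) :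
    ∃ P', EvU V d sg (X.UF.mod A k f) P' ∧ P' ∈ Dg (ZMod p) (p * κ + ∑ j ∈ Bg, n j) := by
  have hp := ee_two (p := p)
  have e3 : 3 * p * d = 3 * (p * d) := by ring
  have epd : 2 * d ≤ p * d := Nat.mul_le_mul_right d hp
  have epd1 : (p - 1) * d + d = p * d := by
    calc (p - 1) * d + d = (p - 1 + 1) * d := by ring
      _ = p * d := by rw [Nat.sub_add_cancel (by omega)]
  have eκ : (p - 1) * κ ≤ p * κ := Nat.mul_le_mul_right κ (by omega)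
  have eκ1 : κ ≤ p * κ := Nat.le_mul_of_pos_left κ (by omega)
  have hcell := fun T (hT : T ⊆ Bg) => ee_cell hV hco hd hD hP hn (by omega) hT
  have hs0 : ∀ T : Finset (Fin k), (∑ j, if j ∈ Bg then 0 else P j) +
      (T.card : (U → Bool) → ZMod p) ∈ Dg (ZMod p) κ := fun T => by
    refine Submodule.add_mem _ (Submodule.sum_mem _ fun j _ => ?_) ?_
    · split_ifs with hj
      · exact Submodule.zero_mem _
      · exact hz j hj
    · exact const_mem_Dg (T.card : ZMod p) κ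
  have hsum : ∑ T ∈ Bg.powerset, (∏ j ∈ T, P j) * ∏ j ∈ Bg \ T, (1 - P j) = 1 := by
    rw [← Finset.prod_add]
    exact Finset.prod_eq_one fun j _ => by ring
  have hP' : ∑ T ∈ Bg.powerset, ((∏ j ∈ T, P j) * ∏ j ∈ Bg \ T, (1 - P j)) *
      mdA A ((∑ j, if j ∈ Bg then 0 else P j) + (T.card : (U → Bool) → ZMod p)) ∈
      Dg (ZMod p) (p * κ + ∑ j ∈ Bg, n j) := by
    refine Submodule.sum_mem _ fun T hT => ?_
    have h1 := mul_mem_Dg (hcell T (Finset.mem_powerset.1 hT)).1 (mdA_mem_Dg A (hs0 T))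
    exact Dg_mono (by omega) h1
  refine ⟨_, EvU.mod A k f _ P (Dg_mono hs hP') hP ?_, hP'⟩
  have e : ∑ T ∈ Bg.powerset, ((∏ j ∈ T, P j) * ∏ j ∈ Bg \ T, (1 - P j)) *
      mdA A ((∑ j, if j ∈ Bg then 0 else P j) + (T.card : (U → Bool) → ZMod p)) -
      mdA A (∑ j, P j) = ∑ T ∈ Bg.powerset,
        (mdA A ((∑ j, if j ∈ Bg then 0 else P j) + (T.card : (U → Bool) → ZMod p)) -
          mdA A (∑ j, P j)) * ((∏ j ∈ T, P j) * ∏ j ∈ Bg \ T, (1 - P j)) := by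
    have h1 : mdA A (∑ j, P j) = mdA A (∑ j, P j) *
        ∑ T ∈ Bg.powerset, (∏ j ∈ T, P j) * ∏ j ∈ Bg \ T, (1 - P j) := by
      rw [hsum, mul_one]
    conv_lhs => rw [h1, Finset.mul_sum, ← Finset.sum_sub_distrib]
    exact Finset.sum_congr rfl fun T _ => by ring
  rw [e]
  refine V.sum_mem fun T hT => ?_
  have hc := hcell T (Finset.mem_powerset.1 hT)
  exact mdA_congr_mul hV A (Dg_mono (by omega) (hs0 T))
    (Submodule.sum_mem _ fun j _ => EvU.deg (hP j)) (Dg_mono (by omega) hc.1) hc.2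
    (by omega : (p - 1) * d + d ≤ D)

end Pool.Agent.Work.MP_c04246_lc.R
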