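import Pool.Agent.Work.MP_c04246_lc.R.EvD
import Pool.Agent.Work.MP_c04246_lc.R.EvE

/-!
MODULE EvF (size M-L). Evaluation at a good leaf of the decision tree.

Proof: induction on `u`. Let `θ = agr H' w' ∈ Dg T` (`agr_mem_Dg`), `V = Vth V0 θ`, so `ClV V (D - T)`
(`ClV.th`, `T ≤ D`), `3 p d ≤ D - T`. Let `sg' y = sg (ovr H' w' y)`.
(exact) if `Sml κ H v` for a subterm `v`: `P v = indF (fun y => ev (sg' y) v)`, `EvU V d sg v (P v)` by
`ev_exact` with `S = varsU v \ H'` (`S.card ≤ κ ≤ d`: if `(varsU v).card ≤ κ` clear; if `varsU v ⊆ H ⊆ H'` it is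
empty); dependence: for `x ∈ varsU v`, `sg' y x` depends (by `Cow`) on `ovr H' w' y x`, which is `w' x` if
`x ∈ H'`, and `y x` otherwise; `hV`: if `f` vanishes at all `y` with `sg y = sg' y` on `varsU v`, then
`θ * f = 0 ∈ V0` (if `Agr H' w' y` then `ovr H' w' y = y`, so `sg' y = sg y`). `P v ∈ Dg κ` by `junta_mem_Dg`.
`lit`, `cst`: always `Sml` (`1 ≤ κ`).
(gate c k f, not Sml) children: for `Sml` children use the exact evaluation `P j`; for the others (set `Bg`)
the induction hypothesis (the list `gl κ H fr (f j)` is part of the list of `u`; `dgb (f j) ≤ dgb u ≤ d`).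
The first gate in `gl` of `u` is `(c, small arguments)`. If it has an argument `(varsU (f j), ev · (f j))` which
is `Con`: `ev (sg y) (f j) = c` for all `y` with `Agr H' w' y`, so `ev (sg' y) (f j) = c` for all `y` and
`tau c (P j) = 1`: `ev_gate_const`. Otherwise all small arguments are `Nul`. For a medium argument
(`varsU (f j) ⊆ H`) `ev (sg' y) (f j)` does not depend on `y`: if it is `c` for some such `j`, again
`ev_gate_const`; so assume that it is not `c`, `tau c (P j) = 0 ∈ V`. For a small argument: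
`θ * tau c (P j) ∈ V0` by `hV3` (degree `≤ T + κ ≤ D`; if `SatAll cl J (sg y)` and `Agr H' w' y` then
`ev (sg' y) (f j) = ev (sg y) (f j) ≠ c`). So `tau c (P j) ∈ V` for all `j ∉ Bg` and `ev_gate_prod` applies with
`n j = dgb κ H fr E (f j)`; `∑ j ∈ Bg, n j ≤ ∑ j, dgb .. = dgb u ≤ d`.
(mod A k f, not Sml, free): `hfr`, and `EvU.mono_V` from `V0` to `V` (`mem_Vth_of`:
`(p + 1) d + T ≤ D`), `EvU` has degree bound `d`.
(mod A k f, not Sml, not free): children as before, `ev_mod_sum` with `n j = dgb (f j)`,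
`p * κ + ∑ j ∈ Bg, n j ≤ dgb u ≤ d`.
-/

set_option autoImplicit false

namespace Pool.Agent.Work.MP_c04246_lc.R

open Finset

variable {U M : Type} [Fintype U] [DecidableEq U] {p : ℕ} [Fact p.Prime]

private lemma ef_ev_congr (u : X.UF p U) (v v' : U → Bool) (h : ∀ x ∈ varsU u, v x = v' x) :
    X.UF.ev v u = X.UF.ev v' u := by
  induction u with
  | lit x b =>
    have h1 := h x (by simp [varsU])
    simp only [X.UF.ev, h1]
  | cst b => rfl
  | gate c k f ih =>
    have h1 : ∀ j, X.UF.ev v (f j) = X.UF.ev v' (f j) := fun j => ih j fun x hx =>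
      h x (by
        simp only [varsU, mem_biUnion]
        exact ⟨j, mem_univ j, hx⟩)
    simp only [X.UF.ev, h1]
  | mod A k f ih =>
    have h1 : ∀ j, X.UF.ev v (f j) = X.UF.ev v' (f j) := fun j => ih j fun x hx =>
      h x (by
        simp only [varsU, mem_biUnion]
        exact ⟨j, mem_univ j, hx⟩)
    simp only [X.UF.ev, h1]

private lemma ef_tau_ind (c : Bool) (g : (U → Bool) → Bool) (y : U → Bool) :
    tau c (indF g : (U → Bool) → ZMod p) y = if g y = c then 1 else 0 := by
  cases c <;> cases hg : g y <;> simp [tau, indF, hg]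

private lemma ef_agr (H' : Finset U) (w' y : U → Bool) : X.Agr H' w' (ovr H' w' y) := by
  intro j hj
  simp only [ovr]
  rw [if_pos hj]

private lemma ef_ovr {H' : Finset U} {w' y : U → Bool} (h : X.Agr H' w' y) :
    ovr H' w' y = y := by
  funext x
  simp only [ovr]
  split_ifs with hx
  · exact (h x hx).symm
  · rfl

private lemma ef_exact {V0 : Submodule (ZMod p) ((U → Bool) → ZMod p)} {d κ : ℕ}
    {sg : (U → Bool) → (U → Bool)} (hco : Cow sg) (hκd : κ ≤ d) {H H' : Finset U}
    {w' : U → Bool} (hH : H ⊆ H') (v : X.UF p U) (hv : Sml κ H v) :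
    EvU (Vth V0 (agr (ZMod p) H' w')) d sg v
        (indF fun y => X.UF.ev (sg (ovr H' w' y)) v) ∧
      (indF fun y => X.UF.ev (sg (ovr H' w' y)) v : (U → Bool) → ZMod p) ∈ Dg (ZMod p) κ := by
  have hcard : (varsU v \ H').card ≤ κ := by
    rcases hv with hv | hv
    · exact (card_le_card sdiff_subset).trans hv
    · rw [sdiff_eq_empty_iff_subset.2 (hv.trans hH), card_empty]
      exact Nat.zero_le _
  have hdep : ∀ x ∈ varsU v, ∀ y y' : U → Bool, (∀ z ∈ varsU v \ H', y z = y' z) →
      sg (ovr H' w' y) x = sg (ovr H' w' y') x := by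
    intro x hx y y' hy
    refine hco _ _ x ?_
    simp only [ovr]
    by_cases hxH : x ∈ H'
    · rw [if_pos hxH, if_pos hxH]
    · rw [if_neg hxH, if_neg hxH]
      exact hy x (mem_sdiff.2 ⟨hx, hxH⟩)
  refine ⟨ev_exact v (fun y => sg (ovr H' w' y)) (varsU v \ H') (hcard.trans hκd) hdep ?_, ?_⟩
  · intro f hf
    rw [mem_Vth]
    have e : agr (ZMod p) H' w' * f = 0 := by
      funext y
      rw [Pi.mul_apply]
      by_cases hy : X.Agr H' w' y
      · rw [hf y fun x _ => by rw [ef_ovr hy], mul_zero]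
        rfl
      · unfold agr
        rw [if_neg hy, zero_mul]
        rfl
    rw [e]
    exact V0.zero_mem
  · refine Dg_mono hcard (junta_mem_Dg _ _ fun y y' hy => ?_)
    have h1 := ef_ev_congr v (sg (ovr H' w' y)) (sg (ovr H' w' y')) fun x hx =>
      hdep x hx y y' hy
    simp only [indF, h1]

theorem leaf_ev {cl : M → Finset (U × Bool)} {V0 : Submodule (ZMod p) ((U → Bool) → ZMod p)}
    {D d B1 κ T E : ℕ} {sg : (U → Bool) → (U → Bool)} (hV : ClV V0 D) (hco : Cow sg)
    (hV3 : ∀ (I : Finset M) (f : (U → Bool) → ZMod p), I.card ≤ B1 → f ∈ Dg (ZMod p) D →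
      (∀ y, SatAll cl I (sg y) → f y = 0) → f ∈ V0)
    (hκ : 1 ≤ κ) (hκd : κ ≤ d) (hD : 3 * p * d + T ≤ D) (H H' : Finset U) (w' : U → Bool)
    (hH : H ⊆ H') (hT : H'.card ≤ T) (fr : X.UF p U → Prop) (u : X.UF p U)
    (hg : GoodA cl B1 sg (gl κ H fr u) H' w')
    (hfr : ∀ m, SbU m u → fr m → ∃ P, EvU V0 d sg m P ∧ P ∈ Dg (ZMod p) E)
    (hE : dgb κ H fr E u ≤ d) :
    ∃ P, EvU (Vth V0 (agr (ZMod p) H' w')) d sg u P ∧ (Sml κ H u → P ∈ Dg (ZMod p) κ) ∧
      (¬ Sml κ H u → P ∈ Dg (ZMod p) (dgb κ H fr E u)) := by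
  classical
  have hp : 2 ≤ p := (Fact.out : p.Prime).two_le
  have hd : 1 ≤ d := hκ.trans hκd
  have hθ : agr (ZMod p) H' w' ∈ Dg (ZMod p) T := Dg_mono hT (agr_mem_Dg H' w')
  have hTD : T ≤ D := by omega
  have hVT : ClV (Vth V0 (agr (ZMod p) H' w')) (D - T) := ClV.th hV hθ hTD
  have hD' : 3 * p * d ≤ D - T := by omega
  have e3 : 3 * p * d = 3 * (p * d) := by ring
  have epd : 2 * d ≤ p * d := Nat.mul_le_mul_right d hp
  have hex := fun (v : X.UF p U) (hv : Sml κ H v) =>
    ef_exact (V0 := V0) (w' := w') hco hκd hH v hv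
  induction u with
  | lit x b =>
    have hs : Sml κ H (X.UF.lit x b : X.UF p U) := Or.inl (by
      simp only [varsU, card_singleton]
      exact hκ)
    exact ⟨_, (hex _ hs).1, fun _ => (hex _ hs).2, fun h => absurd hs h⟩
  | cst b =>
    have hs : Sml κ H (X.UF.cst b : X.UF p U) := Or.inl (by
      simp only [varsU, card_empty]
      exact Nat.zero_le _)
    exact ⟨_, (hex _ hs).1, fun _ => (hex _ hs).2, fun h => absurd hs h⟩
  | gate c k f ih =>
    by_cases hs : Sml κ H (X.UF.gate c k f)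
    · exact ⟨_, (hex _ hs).1, fun _ => (hex _ hs).2, fun h => absurd hs h⟩
    have hgl : gl κ H fr (X.UF.gate c k f) =
        (c, ((List.finRange k).filter fun j => decide ((varsU (f j)).card ≤ κ)).map
          fun j => (varsU (f j), fun z => X.UF.ev z (f j))) ::
          (List.ofFn fun j => gl κ H fr (f j)).flatten := by
      rw [gl, if_neg hs]
    have hdg : dgb κ H fr E (X.UF.gate c k f) = ∑ j, dgb κ H fr E (f j) := by
      rw [dgb, if_neg hs]
    rw [hgl] at hg
    rw [hdg] at hE
    have hdj : ∀ j, dgb κ H fr E (f j) ≤ ∑ j, dgb κ H fr E (f j) := fun j =>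
      Finset.single_le_sum (f := fun j => dgb κ H fr E (f j)) (fun _ _ => Nat.zero_le _)
        (mem_univ j)
    have hch : ∀ j, ∃ P, EvU (Vth V0 (agr (ZMod p) H' w')) d sg (f j) P ∧
        (Sml κ H (f j) → P = indF fun y => X.UF.ev (sg (ovr H' w' y)) (f j)) ∧
        (¬ Sml κ H (f j) → P ∈ Dg (ZMod p) (dgb κ H fr E (f j))) := by
      intro j
      by_cases hj : Sml κ H (f j)
      · exact ⟨_, (hex _ hj).1, fun _ => rfl, fun h => absurd hj h⟩
      · obtain ⟨P, h1, -, h3⟩ := ih j (fun g hgj => hg g (List.mem_cons_of_mem _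
          (List.mem_flatten.2 ⟨_, (List.mem_ofFn).2 ⟨j, rfl⟩, hgj⟩)))
          (fun m hm hfm => hfr m (SbU.gate c k f j m hm) hfm) ((hdj j).trans hE)
        exact ⟨P, h1, fun h => absurd h hj, h3⟩
    choose P hP hPs hPn using hch
    by_cases hc : ∃ j, tau c (P j) = 1
    · obtain ⟨j0, hj0⟩ := hc
      obtain ⟨h1, h2⟩ := ev_gate_const c k f P hP j0 hj0
      exact ⟨_, h1, fun _ => Dg_mono (Nat.zero_le _) h2, fun _ => Dg_mono (Nat.zero_le _) h2⟩
    have hz : ∀ j, j ∉ univ.filter (fun j => ¬ Sml κ H (f j)) →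
        tau c (P j) ∈ Vth V0 (agr (ZMod p) H' w') := by
      intro j hj
      have hjs : Sml κ H (f j) := by
        by_contra h
        exact hj (mem_filter.2 ⟨mem_univ _, h⟩)
      have hPj := hPs j hjs
      rcases hjs with hjc | hjH
      · have hgg := hg _ (List.mem_cons_self)
        rcases hgg with ⟨s, hs1, hs2⟩ | hn
        · exfalso
          rw [List.mem_map] at hs1
          obtain ⟨i, hi, rfl⟩ := hs1
          rw [List.mem_filter] at hi
          have hic : (varsU (f i)).card ≤ κ := of_decide_eq_true hi.2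
          apply hc
          refine ⟨i, ?_⟩
          rw [hPs i (Or.inl hic)]
          funext y
          rw [ef_tau_ind]
          have h1 : X.UF.ev (sg (ovr H' w' y)) (f i) = c := hs2 _ (ef_agr H' w' y)
          rw [if_pos h1]
          rfl
        · obtain ⟨J, hJ, hJn⟩ := hn (varsU (f j), fun z => X.UF.ev z (f j)) (by
            rw [List.mem_map]
            refine ⟨j, ?_, rfl⟩
            rw [List.mem_filter]
            exact ⟨List.mem_finRange j, decide_eq_true hjc⟩)
          rw [mem_Vth]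
          have hdeg : tau c (P j) ∈ Dg (ZMod p) κ := by
            rw [hPj]
            exact tau_mem_Dg (hex _ (Or.inl hjc)).2
          refine hV3 J _ hJ (Dg_mono (by omega) (mul_mem_Dg hθ hdeg)) fun y hy => ?_
          rw [Pi.mul_apply]
          by_cases hya : X.Agr H' w' y
          · have h1 : X.UF.ev (sg (ovr H' w' y)) (f j) ≠ c := by
              rw [ef_ovr hya]
              exact hJn y hya hy
            rw [hPj, ef_tau_ind, if_neg h1, mul_zero]
          · unfold agr
            rw [if_neg hya, zero_mul]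
      · have hconst : ∀ y, X.UF.ev (sg (ovr H' w' y)) (f j) =
            X.UF.ev (sg (ovr H' w' w')) (f j) := by
          intro y
          refine ef_ev_congr (f j) _ _ fun x hx => hco _ _ x ?_
          simp only [ovr]
          rw [if_pos (hH (hjH hx)), if_pos (hH (hjH hx))]
        have h0 : tau c (P j) = 0 := by
          by_cases h1 : X.UF.ev (sg (ovr H' w' w')) (f j) = c
          · exfalso
            apply hc
            refine ⟨j, ?_⟩
            rw [hPj]
            funext y
            rw [ef_tau_ind, if_pos ((hconst y).trans h1)]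
            rfl
          · rw [hPj]
            funext y
            rw [ef_tau_ind, if_neg (fun h2 => h1 ((hconst y).symm.trans h2))]
            rfl
        rw [h0]
        exact Submodule.zero_mem _
    have hsum : ∑ j ∈ univ.filter (fun j => ¬ Sml κ H (f j)), dgb κ H fr E (f j) ≤
        ∑ j, dgb κ H fr E (f j) := Finset.sum_le_sum_of_subset (filter_subset _ _)
    obtain ⟨P', h1, h2⟩ := ev_gate_prod hVT hco hd hD' c k f P hP
      (fun j => dgb κ H fr E (f j)) (univ.filter (fun j => ¬ Sml κ H (f j)))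
      (fun j hj => hPn j (mem_filter.1 hj).2) (hsum.trans hE) hz
    refine ⟨P', h1, fun h => absurd h hs, fun _ => ?_⟩
    rw [hdg]
    exact Dg_mono hsum h2
  | mod A k f ih =>
    by_cases hs : Sml κ H (X.UF.mod A k f)
    · exact ⟨_, (hex _ hs).1, fun _ => (hex _ hs).2, fun h => absurd hs h⟩
    by_cases hf : fr (X.UF.mod A k f)
    · obtain ⟨P, h1, h2⟩ := hfr _ (SbU.refl _) hf
      have e4 : (p + 1) * d = p * d + d := by ring
      refine ⟨P, EvU.mono_V hco hd (fun g hg1 hg2 => ?_) h1, fun h => absurd h hs, fun _ => ?_⟩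
      · exact mem_Vth_of hV hθ hg1 hg2 (by omega)
      · rw [dgb, if_neg hs, if_pos hf]
        exact h2
    have hgl : gl κ H fr (X.UF.mod A k f) = (List.ofFn fun j => gl κ H fr (f j)).flatten := by
      rw [gl, if_neg (not_or.2 ⟨hs, hf⟩)]
    have hdg : dgb κ H fr E (X.UF.mod A k f) = p * κ + ∑ j, dgb κ H fr E (f j) := by
      rw [dgb, if_neg hs, if_neg hf]
    rw [hgl] at hg
    rw [hdg] at hE
    have hdj : ∀ j, dgb κ H fr E (f j) ≤ ∑ j, dgb κ H fr E (f j) := fun j =>
      Finset.single_le_sum (f := fun j => dgb κ H fr E (f j)) (fun _ _ => Nat.zero_le _)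
        (mem_univ j)
    have hch : ∀ j, ∃ P, EvU (Vth V0 (agr (ZMod p) H' w')) d sg (f j) P ∧
        (Sml κ H (f j) → P ∈ Dg (ZMod p) κ) ∧
        (¬ Sml κ H (f j) → P ∈ Dg (ZMod p) (dgb κ H fr E (f j))) := by
      intro j
      have h4 := hdj j
      exact ih j (fun g hgj => hg g (List.mem_flatten.2 ⟨_, (List.mem_ofFn).2 ⟨j, rfl⟩, hgj⟩))
        (fun m hm hfm => hfr m (SbU.mod A k f j m hm) hfm) (by omega)
    choose P hP hPs hPn using hch
    have hsum : ∑ j ∈ univ.filter (fun j => ¬ Sml κ H (f j)), dgb κ H fr E (f j) ≤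
        ∑ j, dgb κ H fr E (f j) := Finset.sum_le_sum_of_subset (filter_subset _ _)
    obtain ⟨P', h1, h2⟩ := ev_mod_sum hVT hco hd hD' A k f P hP
      (fun j => dgb κ H fr E (f j)) (univ.filter (fun j => ¬ Sml κ H (f j))) κ
      (fun j hj => hPn j (mem_filter.1 hj).2)
      (fun j hj => hPs j (by
        by_contra h
        exact hj (mem_filter.2 ⟨mem_univ _, h⟩))) (by omega)
    refine ⟨P', h1, fun h => absurd h hs, fun _ => ?_⟩
    rw [hdg]
    exact Dg_mono (by omega) h2

end Pool.Agent.Work.MP_c04246_lc.R
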