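import Pool.Agent.Work.MP_c04246_lc.R.EvF

/-!
MODULE EvG (size S). From the decision tree to an evaluation.

Proof. `dt_addR` and `dt_card` give a tree of depth `T = t + H.card` whose leaves `(H', w')` satisfy `GoodA`,
`H ⊆ H'`, `H'.card ≤ T`. `leaf_ev` at every leaf gives `P` with `EvU (Vth V0 (agr H' w')) d sg u P` (its
degree is at most `d` by `EvU.deg`). `ev_dt` (from `(∅, w0)`) and `Vth_agr_empty`.
-/

set_option autoImplicit false

namespace Pool.Agent.Work.MP_c04246_lc.R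

open Finset

variable {U M : Type} [Fintype U] [DecidableEq U] {p : ℕ} [Fact p.Prime]

theorem main_ev {cl : M → Finset (U × Bool)} {V0 : Submodule (ZMod p) ((U → Bool) → ZMod p)}
    {D d B1 κ E t : ℕ} {sg : (U → Bool) → (U → Bool)} (hV : ClV V0 D) (hco : Cow sg)
    (hV3 : ∀ (I : Finset M) (f : (U → Bool) → ZMod p), I.card ≤ B1 → f ∈ Dg (ZMod p) D →
      (∀ y, SatAll cl I (sg y) → f y = 0) → f ∈ V0)
    (hκ : 1 ≤ κ) (hκd : κ ≤ d) (H : Finset U) (hD : 3 * p * d + (t + H.card) ≤ D)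
    (fr : X.UF p U → Prop) (u : X.UF p U) (w0 : U → Bool)
    (hg : X.DT (GoodA cl B1 sg (gl κ H fr u)) ∅ w0 t)
    (hfr : ∀ m, SbU m u → fr m → ∃ P, EvU V0 d sg m P ∧ P ∈ Dg (ZMod p) E)
    (hE : dgb κ H fr E u ≤ d) :
    ∃ P, EvU V0 (d + (t + H.card)) sg u P := by
  have h1 := dt_card (dt_addR H hg)
  obtain ⟨P, hP, -⟩ := ev_dt (V := V0) (d := d) (sg := sg) u (d1 := d) h1
    (fun H' w' hPr => by
      obtain ⟨P, hP, -, -⟩ := leaf_ev hV hco hV3 hκ hκd hD H H' w' hPr.1.2 hPr.2 fr u hPr.1.1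
        hfr hE
      exact ⟨P, hP, hP.deg⟩)
  rw [Vth_agr_empty] at hP
  exact ⟨P, hP⟩

end Pool.Agent.Work.MP_c04246_lc.R
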