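import Mathlib

/-!
MODULE Nums (size M). Choice of the constants (arithmetic only, Mathlib only).

Proof. `M = 2 * C * ρ * (c1 + 1) + 1`; `kk 0 = κ + 1`,
`kk (i+1) = kk i + 1 + C * ρ * (c1 + 1) * (b (kk i) + 2 * p * kk i)`. Given `r ≥ r0`, `n ≤ ρ r`: `β = r / (c1 + 1)`,
`m i = β / b (kk i)`. Then `c1 * β ≤ r`, and `(c1 + 1) * (β + 1) > r`.
* `M * x ≤ C * n ≤ C ρ r` implies `x ≤ β`: otherwise `x ≥ β + 1`,
  `M * x ≥ (2 C ρ (c1+1) + 1) (β + 1) > 2 C ρ r`-ish `≥ C ρ r`, contradiction.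
* `b (kk i) * m i ≤ β`, and `b (kk i) * (m i + 1) > β`, so `b (kk i) * (m i + 1) ≥ β + 1` and
  `(c1 + 1) * b (kk i) * (m i + 1) > r`.
* `kk (i+1) * x ≤ C * n ≤ C ρ r` implies `x ≤ m i`: otherwise `x ≥ m i + 1` and
  `kk (i+1) * x ≥ (1 + C ρ (c1+1) b (kk i)) (m i + 1) > C ρ r`. It also implies `p * kk i * x ≤ β`: otherwise
  `C ρ (c1+1) * (2 p kk i x) ≥ 2 C ρ (c1 + 1)(β + 1) ≥ 2 C ρ r`, and
  `kk (i+1) * x ≥ x + 2 C ρ r`, `x ≥ 1`, contradiction.
* `r ≤ a * m i`: `m i + 1 > r / ((c1+1) b (kk i))`; with `a = 2 (c1 + 1) * ∑ i < M, b (kk i)` (`+ 1`) and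
  `r ≥ r0` so large that `m i ≥ 1`: `r < (c1+1) b (kk i) (m i + 1) ≤ 2 (c1+1) b (kk i) m i ≤ a * m i`.
* `r0`: large enough that `β ≥` all of the finitely many numbers `c0`, `1`, `B (kk i)`, `kk i`, `b (kk i)` (`i < M`), and
  `r ≥ thr (kk i)` for `i < M`. (`β ≥ y` as soon as `r ≥ (c1 + 1) * y`.)
-/

set_option autoImplicit false

namespace Pool.Agent.Work.MP_c04246_lc.R

/-- The recursively defined sequence of the module `Nums`. -/
private def numsKK (p K κ : ℕ) (b : ℕ → ℕ) : ℕ → ℕ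
  | 0 => κ + 1
  | i + 1 => numsKK p K κ b i + 1 + K * (b (numsKK p K κ b i) + 2 * p * numsKK p K κ b i)

theorem nums (p C ρ c0 c1 κ : ℕ) (b B thr : ℕ → ℕ) (hb : ∀ i, 1 ≤ b i) :
    ∃ (M : ℕ) (kk : ℕ → ℕ) (a r0 : ℕ), 1 ≤ M ∧ StrictMono kk ∧ κ ≤ kk 0 ∧ 1 ≤ kk 0 ∧ 1 ≤ a ∧
      ∀ r n : ℕ, r0 ≤ r → n ≤ ρ * r → ∃ (β : ℕ) (m : ℕ → ℕ), c1 * β ≤ r ∧ 1 ≤ β ∧ c0 ≤ β ∧
        (∀ x, M * x ≤ C * n → x ≤ β) ∧
        ∀ i < M, thr (kk i) ≤ r ∧ B (kk i) ≤ β ∧ kk i ≤ β ∧ b (kk i) * m i ≤ β ∧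
          (∀ x, kk (i + 1) * x ≤ C * n → x ≤ m i ∧ p * kk i * x ≤ β) ∧ r ≤ a * m i := by
  obtain ⟨K, hK⟩ : ∃ K, K = C * ρ * (c1 + 1) := ⟨_, rfl⟩
  obtain ⟨M, hM⟩ : ∃ M, M = 2 * K + 1 := ⟨_, rfl⟩
  obtain ⟨kk, hkk⟩ : ∃ kk, kk = numsKK p K κ b := ⟨_, rfl⟩
  have hkk0 : kk 0 = κ + 1 := by rw [hkk]; rfl
  have hkks : ∀ i, kk (i + 1) = kk i + 1 + K * (b (kk i) + 2 * p * kk i) := by
    intro i
    rw [hkk]
    rfl
  obtain ⟨S, hS⟩ : ∃ S, S = ∑ i ∈ Finset.range M, b (kk i) := ⟨_, rfl⟩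
  obtain ⟨T, hT⟩ : ∃ T, T = ∑ i ∈ Finset.range M, (B (kk i) + kk i + b (kk i)) := ⟨_, rfl⟩
  obtain ⟨U, hU⟩ : ∃ U, U = ∑ i ∈ Finset.range M, thr (kk i) := ⟨_, rfl⟩
  refine ⟨M, kk, 2 * (c1 + 1) * S + 1, (c1 + 1) * (c0 + 1 + T) + U, by omega, ?_, by omega,
    by omega, by omega, ?_⟩
  · refine strictMono_nat_of_lt_succ fun i => ?_
    rw [hkks i]
    have := Nat.zero_le (K * (b (kk i) + 2 * p * kk i))
    omega
  · intro r n hr hn
    have hc : 0 < c1 + 1 := by omega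
    obtain ⟨β, hβ⟩ : ∃ β, β = r / (c1 + 1) := ⟨_, rfl⟩
    have hβ1 : (c1 + 1) * β ≤ r := by rw [hβ]; exact Nat.mul_div_le r (c1 + 1)
    have hβ2 : r < (c1 + 1) * (β + 1) := by
      rw [hβ]; exact Nat.lt_mul_div_succ r hc
    have hβ3 : c0 + 1 + T ≤ β := by
      rw [hβ, Nat.le_div_iff_mul_le hc]
      calc (c0 + 1 + T) * (c1 + 1) = (c1 + 1) * (c0 + 1 + T) := by ring
        _ ≤ (c1 + 1) * (c0 + 1 + T) + U := Nat.le_add_right _ _
        _ ≤ r := hr
    have hCn : C * n ≤ K * (β + 1) := by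
      calc C * n ≤ C * (ρ * r) := Nat.mul_le_mul_left _ hn
        _ ≤ C * (ρ * ((c1 + 1) * (β + 1))) :=
          Nat.mul_le_mul_left _ (Nat.mul_le_mul_left _ hβ2.le)
        _ = K * (β + 1) := by rw [hK]; ring
    refine ⟨β, fun i => β / b (kk i), ?_, by omega, by omega, ?_, ?_⟩
    · calc c1 * β ≤ (c1 + 1) * β := Nat.mul_le_mul_right _ (by omega)
        _ ≤ r := hβ1
    · intro x hx
      by_contra hlt
      have hx1 : β + 1 ≤ x := by omega
      have h1 : M * (β + 1) ≤ K * (β + 1) :=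
        ((Nat.mul_le_mul_left M hx1).trans hx).trans hCn
      have h2 : M ≤ K := Nat.le_of_mul_le_mul_right h1 (by omega)
      omega
    · intro i hi
      have hi' : i ∈ Finset.range M := Finset.mem_range.2 hi
      have hTi : B (kk i) + kk i + b (kk i) ≤ T := by
        rw [hT]
        exact Finset.single_le_sum (f := fun i => B (kk i) + kk i + b (kk i))
          (fun _ _ => Nat.zero_le _) hi'
      have hUi : thr (kk i) ≤ U := by
        rw [hU]
        exact Finset.single_le_sum (f := fun i => thr (kk i)) (fun _ _ => Nat.zero_le _) hi'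
      have hSi : b (kk i) ≤ S := by
        rw [hS]
        exact Finset.single_le_sum (f := fun i => b (kk i)) (fun _ _ => Nat.zero_le _) hi'
      have hbi := hb (kk i)
      obtain ⟨m, hm⟩ : ∃ m, m = β / b (kk i) := ⟨_, rfl⟩
      have hm1 : b (kk i) * m ≤ β := by rw [hm]; exact Nat.mul_div_le _ _
      have hm2 : β < b (kk i) * (m + 1) := by
        rw [hm]; exact Nat.lt_mul_div_succ β (by omega)
      have hm3 : 1 ≤ m := by
        rw [hm, Nat.le_div_iff_mul_le (by omega)]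
        omega
      refine ⟨by omega, by omega, by omega, ?_, ?_, ?_⟩
      · show b (kk i) * (β / b (kk i)) ≤ β
        rw [← hm]; exact hm1
      · intro x hx
        show x ≤ β / b (kk i) ∧ p * kk i * x ≤ β
        rw [← hm]
        have hx' : kk (i + 1) * x ≤ K * (β + 1) := hx.trans hCn
        rw [hkks i] at hx'
        constructor
        · by_contra hlt
          have hx1 : m + 1 ≤ x := by omega
          have h1 : (kk i + 1 + K * (b (kk i) + 2 * p * kk i)) * (m + 1) ≤ K * (β + 1) :=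
            (Nat.mul_le_mul_left _ hx1).trans hx'
          have h2 : K * (β + 1) ≤ K * (b (kk i) * (m + 1)) := Nat.mul_le_mul_left _ hm2
          have h3 : (kk i + 1 + K * (b (kk i) + 2 * p * kk i)) * (m + 1) =
              (m + 1) + K * (b (kk i) * (m + 1)) + (kk i * (m + 1) +
                K * (2 * p * kk i) * (m + 1)) := by ring
          omega
        · by_contra hlt
          have hx1 : β + 1 ≤ p * kk i * x := by omega
          have hx2 : 1 ≤ x := by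
            rcases Nat.eq_zero_or_pos x with h | h
            · subst h; simp at hx1
            · exact h
          have h1 : K * (β + 1) ≤ K * (p * kk i * x) := Nat.mul_le_mul_left _ hx1
          have h3 : (kk i + 1 + K * (b (kk i) + 2 * p * kk i)) * x =
              x + K * (p * kk i * x) + (K * (p * kk i * x) + kk i * x + K * b (kk i) * x) := by
            ring
          omega
      · show r ≤ (2 * (c1 + 1) * S + 1) * (β / b (kk i))
        rw [← hm]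
        have h1 : (c1 + 1) * (β + 1) ≤ (c1 + 1) * (b (kk i) * (m + 1)) :=
          Nat.mul_le_mul_left _ hm2
        have h2 : (c1 + 1) * (b (kk i) * (m + 1)) ≤ (c1 + 1) * (S * (2 * m)) :=
          Nat.mul_le_mul_left _ (Nat.mul_le_mul hSi (by omega))
        have h3 : (2 * (c1 + 1) * S + 1) * m = (c1 + 1) * (S * (2 * m)) + m := by ring
        omega

end Pool.Agent.Work.MP_c04246_lc.R
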