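import Pool.Agent.Work.MP_c04246_lc.R.PFin

/-!
MODULE PRes (size S-M). The pseudo-ideal after a restriction.

Proof. Let `M' = {i : M // ¬ SatBy dm vl (cl i)}` (classical decidability) and
`cl' i = (cl i.1).filter (fun l => l.1 ∉ dm)`. Then `vr cl' i = vr cl i.1 \ dm`, of size `≤ k`. For a finset
`S` of `M'` with image `S1 = S.map` (or `S.image Subtype.val`) in `M`: same cardinality, and
`bd cl' S = bd cl S1 \ dm` (a variable outside `dm` is in `vr cl' i` iff it is in `vr cl i.1`). So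
`Expn cl' r e` follows from `ExpnR cl dm vl r e`. Apply `exists_V0` to `cl'`.
Third property: let `I : Finset M`, `I' = ` the elements of `M'` whose value is in `I`
(`I.subtype`), `I'.card ≤ I.card`. If `y` satisfies the clauses `cl' i`, `i ∈ I'`, then `ovr dm vl y` satisfies `cl i`
for all `i ∈ I`: if `SatBy dm vl (cl i)` clear; otherwise `i` gives an element of `I'`, so there is a literal
`l ∈ cl i`, `l.1 ∉ dm`, `y l.1 = l.2`. So `f y = 0` for all such `y`.
-/

set_option autoImplicit false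

namespace Pool.Agent.Work.MP_c04246_lc.R

open Finset

variable {U M : Type} [Fintype U] [DecidableEq U] [DecidableEq M] [Fintype M]

theorem exists_V (𝕜 : Type) [Field 𝕜] (cl : M → Finset (U × Bool)) (k r e D : ℕ) (he : 1 ≤ e)
    (hk : ∀ i, (vr cl i).card ≤ k) (dm : Finset U) (vl : U → Bool) (hE : ExpnR cl dm vl r e)
    (hD : 3 * (e * D * (k * e + 1)) ≤ r) :
    ∃ V : Submodule 𝕜 ((U → Bool) → 𝕜), V ≤ Dg 𝕜 D ∧ ClV V D ∧
      (∀ (I : Finset M) (f : (U → Bool) → 𝕜), I.card ≤ e * D → f ∈ Dg 𝕜 D →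
        (∀ y, SatAll cl I (ovr dm vl y) → f y = 0) → f ∈ V) ∧ (1 : (U → Bool) → 𝕜) ∉ V := by
  classical
  let cl' : {i : M // ¬ SatBy dm vl (cl i)} → Finset (U × Bool) :=
    fun i => (cl i.1).filter fun l => l.1 ∉ dm
  have hvr : ∀ i, vr cl' i = vr cl i.1 \ dm := by
    intro i
    ext x
    show x ∈ ((cl i.1).filter fun l => l.1 ∉ dm).image Prod.fst ↔ x ∈ (cl i.1).image Prod.fst \ dm
    rw [Finset.mem_sdiff, Finset.mem_image, Finset.mem_image]
    constructor
    · rintro ⟨l, hl, rfl⟩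
      rw [Finset.mem_filter] at hl
      exact ⟨⟨l, hl.1, rfl⟩, hl.2⟩
    · rintro ⟨⟨l, hl, rfl⟩, hx⟩
      exact ⟨l, Finset.mem_filter.2 ⟨hl, hx⟩, rfl⟩
  have hk' : ∀ i, (vr cl' i).card ≤ k := by
    intro i
    rw [hvr]
    exact (Finset.card_le_card Finset.sdiff_subset).trans (hk i.1)
  have hE' : Expn cl' r e := by
    intro S hS
    have hcard : (S.image Subtype.val).card = S.card :=
      Finset.card_image_of_injective S Subtype.val_injective
    have hbd : bd cl' S = bd cl (S.image Subtype.val) \ dm := by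
      ext x
      rw [Finset.mem_sdiff, mem_bd, mem_bd]
      constructor
      · rintro ⟨i, hi, hx, h1⟩
        rw [hvr, Finset.mem_sdiff] at hx
        refine ⟨⟨i.1, Finset.mem_image_of_mem _ hi, hx.1, ?_⟩, hx.2⟩
        intro j hj hxj
        obtain ⟨j', hj', rfl⟩ := Finset.mem_image.1 hj
        rw [h1 j' hj' (by rw [hvr, Finset.mem_sdiff]; exact ⟨hxj, hx.2⟩)]
      · rintro ⟨⟨i, hi, hx, h1⟩, hxd⟩
        obtain ⟨i', hi', rfl⟩ := Finset.mem_image.1 hi
        refine ⟨i', hi', by rw [hvr, Finset.mem_sdiff]; exact ⟨hx, hxd⟩, ?_⟩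
        intro j hj hxj
        rw [hvr, Finset.mem_sdiff] at hxj
        exact Subtype.ext (h1 j.1 (Finset.mem_image_of_mem _ hj) hxj.1)
    have h2 := hE (S.image Subtype.val) (by rw [hcard]; exact hS) (by
      intro i hi
      obtain ⟨i', -, rfl⟩ := Finset.mem_image.1 hi
      exact i'.2)
    rw [hcard] at h2
    rw [hbd]
    exact h2
  obtain ⟨V, h1, h2, h3, h4⟩ := exists_V0 𝕜 cl' k r e D he hk' hE' hD
  refine ⟨V, h1, h2, ?_, h4⟩
  intro I f hI hf h0
  refine h3 (I.subtype fun i => ¬ SatBy dm vl (cl i)) f ?_ hf ?_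
  · refine le_trans ?_ hI
    rw [Finset.card_subtype]
    exact Finset.card_filter_le _ _
  · intro y hy
    apply h0
    intro i hi
    by_cases hs : SatBy dm vl (cl i)
    · obtain ⟨l, hl, hld, hvl⟩ := hs
      refine ⟨l, hl, ?_⟩
      unfold ovr
      rw [if_pos hld]
      exact hvl
    · obtain ⟨l, hl, hyl⟩ := hy ⟨i, hs⟩ (Finset.mem_subtype.2 hi)
      have hl' : l ∈ (cl i).filter fun l => l.1 ∉ dm := hl
      rw [Finset.mem_filter] at hl'
      refine ⟨l, hl'.1, ?_⟩
      unfold ovr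
      rw [if_neg hl'.2]
      exact hyl

end Pool.Agent.Work.MP_c04246_lc.R
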