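import Pool.Agent.Work.MP_c04246_lc.R.Bdry
import Pool.Agent.Work.MP_c04246_lc.R.ClEv

/-!
MODULE RBd (size S). Neighbourhood versus boundary.

Proof of `two_Vr_le`. Count pairs `(x, i)`, `i ∈ S`, `x ∈ vr i`: their number is at most `k * S.card`, and at
least `(bd S).card + 2 * ((Vr S).card - (bd S).card)`, because every `x ∈ Vr S` outside `bd S` is in at least two
clauses.
`not_expn`: there is `S` with `S.card ≤ r` and `2 * (bd S).card < S.card`. So `S` is nonempty and
`4 (Vr S).card ≤ 2 (bd S).card + 2 k S.card < (2 k + 1) * S.card`.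
`card_vr_clF`: `card_image_le` twice. `Vr_clF`: `Vr (clF F) S ⊆ N` iff `(F i j).1 ∈ N` for all `i ∈ S` and all `j`.
-/

set_option autoImplicit false

namespace Pool.Agent.Work.MP_c04246_lc.R

open Finset

variable {U M : Type} [DecidableEq U] [DecidableEq M] {cl : M → Finset (U × Bool)}

lemma two_Vr_le {k : ℕ} (hk : ∀ i, (vr cl i).card ≤ k) (S : Finset M) :
    2 * (Vr cl S).card ≤ (bd cl S).card + k * S.card := by
  classical
  have h1 : ∑ x ∈ Vr cl S, (S.filter fun i => x ∈ vr cl i).card ≤ k * S.card := by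
    have h2 : ∑ x ∈ Vr cl S, (S.filter fun i => x ∈ vr cl i).card =
        ∑ i ∈ S, ((Vr cl S).filter fun x => x ∈ vr cl i).card := by
      simp only [Finset.card_filter]
      exact Finset.sum_comm
    rw [h2]
    calc ∑ i ∈ S, ((Vr cl S).filter fun x => x ∈ vr cl i).card ≤ ∑ i ∈ S, k :=
          Finset.sum_le_sum fun i _ => le_trans (Finset.card_le_card (by
            intro x hx
            exact (Finset.mem_filter.1 hx).2)) (hk i)
      _ = k * S.card := by rw [Finset.sum_const, smul_eq_mul, mul_comm]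
  have h3 : ∀ x ∈ Vr cl S, 2 ≤ (if x ∈ bd cl S then 1 else 0) +
      (S.filter fun i => x ∈ vr cl i).card := by
    intro x hx
    have h4 : 1 ≤ (S.filter fun i => x ∈ vr cl i).card := by
      obtain ⟨i, hi, hxi⟩ := Finset.mem_biUnion.1 hx
      exact Finset.card_pos.2 ⟨i, Finset.mem_filter.2 ⟨hi, hxi⟩⟩
    by_cases h5 : x ∈ bd cl S
    · rw [if_pos h5]
      omega
    · have h6 : (S.filter fun i => x ∈ vr cl i).card ≠ 1 := by
        intro h6
        exact h5 (Finset.mem_filter.2 ⟨hx, h6⟩)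
      rw [if_neg h5]
      omega
  have h7 := Finset.sum_le_sum h3
  rw [Finset.sum_add_distrib, Finset.sum_const, smul_eq_mul, ← Finset.card_filter] at h7
  have h8 : ((Vr cl S).filter fun x => x ∈ bd cl S).card ≤ (bd cl S).card :=
    Finset.card_le_card fun x hx => (Finset.mem_filter.1 hx).2
  omega

lemma not_expn {k r : ℕ} (hk : ∀ i, (vr cl i).card ≤ k) (h : ¬ Expn cl r 2) :
    ∃ S : Finset M, S.Nonempty ∧ S.card ≤ r ∧ 4 * (Vr cl S).card < (2 * k + 1) * S.card := by
  unfold Expn at h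
  push Not at h
  obtain ⟨S, h1, h2⟩ := h
  refine ⟨S, ?_, h1, ?_⟩
  · rw [Finset.nonempty_iff_ne_empty]
    rintro rfl
    simp at h2
  · have h3 := two_Vr_le hk S
    have h4 : (2 * k + 1) * S.card = 2 * (k * S.card) + S.card := by ring
    omega

lemma card_vr_clF {m k : ℕ} (F : Fin m → Fin k → U × Bool) (i : Fin m) :
    (vr (clF F) i).card ≤ k := by
  refine (Finset.card_image_le.trans Finset.card_image_le).trans ?_
  simp

lemma Vr_clF {m k : ℕ} (F : Fin m → Fin k → U × Bool) (S : Finset (Fin m)) (N : Finset U) :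
    Vr (clF F) S ⊆ N ↔ ∀ i ∈ S, ∀ j, (F i j).1 ∈ N := by
  unfold Vr vr clF
  rw [Finset.biUnion_subset]
  constructor
  · intro h i hi j
    exact h i hi (Finset.mem_image_of_mem _ (Finset.mem_image_of_mem _ (Finset.mem_univ j)))
  · intro h i hi x hx
    obtain ⟨y, hy, rfl⟩ := Finset.mem_image.1 hx
    obtain ⟨j, -, rfl⟩ := Finset.mem_image.1 hy
    exact h i hi j

end Pool.Agent.Work.MP_c04246_lc.R
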