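import Pool.Agent.Work.MP_c04246_lc.R.RBase

/-!
MODULE WB (size S-M). Number of gates and degree bound in terms of `nbg`, `nfr`.

Proofs by induction on `u` (compare `length_gl`, `gl_spec`, `DB_le` in XMass.lean). Key point: if a node
`v` (gate or mod) is not `Sml κ H` and `medU κ κ' fr v ⊆ H`, then `κ' < (varsU v).card`: otherwise
`κ < (varsU v).card ≤ κ'`, so `medU κ κ' fr v = varsU v ⊆ H` and `v` is `Sml`. Then
`medU κ κ' fr (f j) ⊆ medU κ κ' fr v ⊆ H` for the arguments (unless `v` is a free mod, where nothing is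
needed). `Dep_varsU`: `ev z u` depends only on the variables in `varsU u` (as `Dep_colsU`).
-/

set_option autoImplicit false

namespace Pool.Agent.Work.MP_c04246_lc.R

open Finset

variable {U : Type} {p : ℕ}

lemma Dep_varsU [DecidableEq U] (u : X.UF p U) :
    X.Dep (J := U) (T := Bool) (varsU u) (fun z => X.UF.ev z u) := by
  induction u with
  | lit x b =>
    intro y y' h
    simp only [X.UF.ev]
    rw [h x (by simp [varsU])]
  | cst b => intro y y' _; rfl
  | gate c k f ih =>
    intro y y' h
    simp only [X.UF.ev]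
    have : ∀ j, X.UF.ev y (f j) = X.UF.ev y' (f j) := fun j =>
      ih j y y' fun i hi => h i (by simp only [varsU, mem_biUnion]; exact ⟨j, mem_univ j, hi⟩)
    simp only [this]
  | mod A k f ih =>
    intro y y' h
    simp only [X.UF.ev]
    have : ∀ j, X.UF.ev y (f j) = X.UF.ev y' (f j) := fun j =>
      ih j y y' fun i hi => h i (by simp only [varsU, mem_biUnion]; exact ⟨j, mem_univ j, hi⟩)
    simp only [this]

lemma gl_spec [DecidableEq U] (κ : ℕ) (H : Finset U) (fr : X.UF p U → Prop) (u : X.UF p U) :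
    ∀ g ∈ gl κ H fr u, ∀ s ∈ g.2, s.1.card ≤ κ ∧ X.Dep s.1 s.2 := by
  induction u with
  | lit x b => intro g hg; simp [gl] at hg
  | cst b => intro g hg; simp [gl] at hg
  | gate c k f ih =>
    intro g hg
    simp only [gl] at hg
    split_ifs at hg with h1
    · simp at hg
    · rw [List.mem_cons] at hg
      rcases hg with rfl | hg
      · intro z hz
        simp only [List.mem_map, List.mem_filter, List.mem_finRange, true_and,
          decide_eq_true_eq] at hz
        obtain ⟨j, hj, rfl⟩ := hz
        exact ⟨hj, Dep_varsU _⟩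
      · rw [List.mem_flatten] at hg
        obtain ⟨l, hl, hgl⟩ := hg
        rw [List.mem_ofFn] at hl
        obtain ⟨j, rfl⟩ := hl
        exact ih j g hgl
  | mod A k f ih =>
    intro g hg
    simp only [gl] at hg
    split_ifs at hg with h1
    · simp at hg
    · rw [List.mem_flatten] at hg
      obtain ⟨l, hl, hgl⟩ := hg
      rw [List.mem_ofFn] at hl
      obtain ⟨j, rfl⟩ := hl
      exact ih j g hgl

private lemma key_gate {κ κ' : ℕ} (fr : X.UF p U → Prop) (c : Bool) (k : ℕ)
    (f : Fin k → X.UF p U) (H : Finset U) (hH : medU κ κ' fr (X.UF.gate c k f) ⊆ H)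
    (hs : ¬ Sml κ H (X.UF.gate c k f)) :
    κ' < (varsU (X.UF.gate c k f)).card ∧ ∀ j, medU κ κ' fr (f j) ⊆ H := by
  classical
  simp only [Sml, not_or] at hs
  obtain ⟨h1, h2⟩ := hs
  simp only [medU] at hH
  rw [if_neg h1] at hH
  by_cases h3 : (varsU (X.UF.gate c k f)).card ≤ κ'
  · rw [if_pos h3] at hH
    exact absurd hH h2
  · rw [if_neg h3] at hH
    refine ⟨by omega, fun j x hx => hH ?_⟩
    simp only [mem_biUnion, mem_univ, true_and]
    exact ⟨j, hx⟩

private lemma key_mod {κ κ' : ℕ} (fr : X.UF p U → Prop) (A : ZMod p → Bool) (k : ℕ)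
    (f : Fin k → X.UF p U) (H : Finset U) (hH : medU κ κ' fr (X.UF.mod A k f) ⊆ H)
    (hs : ¬ Sml κ H (X.UF.mod A k f)) :
    κ' < (varsU (X.UF.mod A k f)).card ∧
      (¬ fr (X.UF.mod A k f) → ∀ j, medU κ κ' fr (f j) ⊆ H) := by
  classical
  simp only [Sml, not_or] at hs
  obtain ⟨h1, h2⟩ := hs
  simp only [medU] at hH
  rw [if_neg h1] at hH
  by_cases h3 : (varsU (X.UF.mod A k f)).card ≤ κ'
  · rw [if_pos h3] at hH
    exact absurd hH h2
  · rw [if_neg h3] at hH
    refine ⟨by omega, fun h4 j x hx => ?_⟩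
    rw [if_neg h4] at hH
    apply hH
    simp only [mem_biUnion, mem_univ, true_and]
    exact ⟨j, hx⟩

lemma length_gl_le {κ κ' : ℕ} (fr : X.UF p U → Prop) (u : X.UF p U) (H : Finset U)
    (hH : medU κ κ' fr u ⊆ H) : (gl κ H fr u).length ≤ nbg κ' fr u := by
  induction u with
  | lit x b => simp [gl]
  | cst b => simp [gl]
  | gate c k f ih =>
    by_cases hs : Sml κ H (X.UF.gate c k f)
    · simp only [gl]
      rw [if_pos hs]
      simp
    · obtain ⟨h1, h2⟩ := key_gate fr c k f H hH hs
      simp only [gl, nbg]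
      rw [if_neg hs, if_neg (by omega)]
      rw [List.length_cons, List.length_flatten, List.map_ofFn, List.sum_ofFn, add_comm]
      apply Nat.add_le_add_left
      exact sum_le_sum fun j _ => ih j (h2 j)
  | mod A k f ih =>
    by_cases hs : Sml κ H (X.UF.mod A k f)
    · simp only [gl]
      rw [if_pos (Or.inl hs)]
      simp
    · obtain ⟨h1, h2⟩ := key_mod fr A k f H hH hs
      by_cases hf : fr (X.UF.mod A k f)
      · simp only [gl]
        rw [if_pos (Or.inr hf)]
        simp
      · simp only [gl, nbg]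
        rw [if_neg (by rintro (h | h); exacts [hs h, hf h]), if_neg (by omega), if_neg hf]
        rw [List.length_flatten, List.map_ofFn, List.sum_ofFn]
        have := sum_le_sum fun j (_ : j ∈ univ) => ih j (h2 hf j)
        simp only [Function.comp]
        omega

lemma dgb_le {κ κ' E : ℕ} (fr : X.UF p U → Prop) (u : X.UF p U) (H : Finset U)
    (hH : medU κ κ' fr u ⊆ H) :
    dgb κ H fr E u ≤ p * κ * nbg κ' fr u + E * nfr κ' fr u := by
  induction u with
  | lit x b => simp [dgb]
  | cst b => simp [dgb]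
  | gate c k f ih =>
    by_cases hs : Sml κ H (X.UF.gate c k f)
    · simp only [dgb]
      rw [if_pos hs]
      exact Nat.zero_le _
    · obtain ⟨h1, h2⟩ := key_gate fr c k f H hH hs
      simp only [dgb, nbg, nfr]
      rw [if_neg hs, if_neg (by omega), if_neg (by omega)]
      refine (sum_le_sum fun j _ => ih j (h2 j)).trans ?_
      rw [sum_add_distrib, ← mul_sum, ← mul_sum, Nat.mul_add]
      omega
  | mod A k f ih =>
    by_cases hs : Sml κ H (X.UF.mod A k f)
    · simp only [dgb]
      rw [if_pos hs]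
      exact Nat.zero_le _
    · obtain ⟨h1, h2⟩ := key_mod fr A k f H hH hs
      by_cases hf : fr (X.UF.mod A k f)
      · simp only [dgb, nbg, nfr]
        rw [if_neg hs, if_pos hf, if_neg (by omega), if_pos hf, if_neg (by omega), if_pos hf]
        omega
      · simp only [dgb, nbg, nfr]
        rw [if_neg hs, if_neg hf, if_neg (by omega), if_neg hf, if_neg (by omega), if_neg hf]
        have h3 := sum_le_sum fun j (_ : j ∈ (univ : Finset (Fin k))) => ih j (h2 hf j)
        rw [sum_add_distrib, ← mul_sum, ← mul_sum] at h3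
        rw [Nat.mul_add]
        omega

end Pool.Agent.Work.MP_c04246_lc.R
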