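import Pool.Agent.Work.MP_c04246_lc.R.World
import Pool.Agent.Work.MP_c04246_lc.R.PRes
import Pool.Agent.Work.MP_c04246_lc.R.Claim
import Pool.Agent.Work.MP_c04246_lc.R.AllEv
import Pool.Agent.Work.MP_c04246_lc.R.WB
import Pool.Agent.Work.MP_c04246_lc.R.Sound
import Pool.Agent.Work.MP_c04246_lc.R.ClEv
import Pool.Agent.Work.MP_c04246_lc.R.RBd
import Pool.Agent.Work.MP_c04246_lc.R.Nums

/-!
MODULE Fin1 (size M-L). For every small set of cheap formulas closed under subformulas there is a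
pseudo-ideal with evaluations of all of them.

Proof. Constants: `B`, `thr` from `world k e ρ`; `e' = 4 * e`; `b κ'` from `claimR' κ' (B κ')`; `C`; let
`G = 4 * (p * C + p + 1) ^ (C + 1)`, so `dq p C β C = G * β`; `c2 = (3 * p + 1 + cS p K) * G` and
`D = c2 * β`; `c1 = 2 * (3 * (e' * c2 * (k * e' + 1))) + 2`, so that `c1 * β ≤ r` implies
`3 * (e' * D * (k * e' + 1)) ≤ r / 2`. `c0 = k + 1`. Take `M, kk, a, r0` from `nums p C ρ c0 c1 κ b B thr`;
`τ = kk M`, and let `a, r0` be these (`r0 ≥ 1`).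
Given `n, m, F, r, S`: `world` for `cl = clF F` (`card_vr_clF`; `Fintype.card (Fin m) = m ≤ ρ r`) gives `dm`, `vl`; put
`sg lam = ovr (dm lam) (vl lam)`, it satisfies `Cow`. `nums` gives `β`, `m'` (call it `mm`).
For `ψ ∈ S` let `u = toU false ψ`; `costU u ≤ cost ψ ≤ C n` (`costU_toU`). By `sum_mass_le`
(`Fintype.card (Fin n) = n`) some `i < M` has `M * massU (kk i) (kk (i+1)) (Free κ τ n) u ≤ C n`
(otherwise the sum would exceed `costU u`; `M ≥ 1`). Let `H = medU (kk i) (kk (i+1)) (Free κ τ n) u`,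
`H.card ≤ massU .. ≤ β`. By `nbg_le` (`kk (i+1) ≤ kk M = τ`, `κ ≤ kk (i+1)`): `kk (i+1) * nbg .. u ≤ C n`, so
`nbg ≤ mm i` and `p * kk i * nbg ≤ β`. `n * nfr ≤ C n`, so `nfr ≤ C`. The list `gs = gl (kk i) H (Free ..) u` has
length `≤ nbg ≤ mm i` (`length_gl_le`), `gl_spec`, and `dgb (kk i) H (Free ..) E u ≤ β + E * C` (`dgb_le`).
Bad set: `{lam | ¬ DT (GoodA cl (B (kk i)) (sg lam) gs) ∅ w0 (b (kk i) * mm i)}` (`w0` any), of size
`≤ card Ω / 2^(mm i)` by `claimR'` (`Kil` from `world`, `thr (kk i) ≤ r`). As `S.card ^ a < 2 ^ r ≤ 2 ^ (a * mm i)`,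
`S.card < 2 ^ (mm i)`, for every `i < M`. So the union of the bad sets over `ψ ∈ S` is not everything (if
`S = ∅` any `lam`; otherwise `S.card * (card Ω / 2^x) < card Ω` with `x = min`): precisely
`∑ ψ ∈ S, (bad ψ).card < card Ω` because `S.card * (bad ψ).card < 2^(mm i) * (bad ψ).card ≤ card Ω` for each `ψ` with
nonempty bad set. Fix `lam` outside.
`exists_V` for `𝕜 = ZMod p`, `cl`, `dm lam`, `vl lam`, `r / 2`, `e'`, `D` gives `V` with
`V3` for `I.card ≤ e' * D =: B1`; `B (kk i) ≤ β ≤ B1`, so `GoodA cl (B (kk i)) ..` implies `GoodA cl B1 ..`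
(`Nul` is monotone in the bound), `X.DT.imp`. `all_ev` with `t = b (kk i) * mm i ≤ β`,
`t + H.card ≤ 2 β`, gives the evaluations with `d = dq p C β C`; `(3 p + 1) * d ≤ D`, `cS p K * d ≤ D`.
`k ≤ c0 ≤ β ≤ d`, `1 ≤ β`.
-/

set_option autoImplicit false

namespace Pool.Agent.Work.MP_c04246_lc.R

open Finset

private lemma fin1_pick {U : Type} [Fintype U] [DecidableEq U] {p : ℕ} {κ τ n C M : ℕ}
    (hn : Fintype.card U ≤ n) (hn1 : 1 ≤ n) (kk : ℕ → ℕ) (hkk : StrictMono kk) (h0 : κ ≤ kk 0)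
    (hM : 1 ≤ M) (hτ : kk M ≤ τ) {β : ℕ} {mm : ℕ → ℕ}
    (hβM : ∀ x, M * x ≤ C * n → x ≤ β)
    (hβi : ∀ i < M, ∀ x, kk (i + 1) * x ≤ C * n → x ≤ mm i ∧ p * kk i * x ≤ β)
    (u : X.UF p U) (hu : costU κ τ n u ≤ C * n) :
    ∃ (i : ℕ) (H : Finset U), i < M ∧ H.card ≤ β ∧
      (gl (kk i) H (Free κ τ n) u).length ≤ mm i ∧
      ∀ E, dgb (kk i) H (Free κ τ n) E u ≤ β + E * C := by
  have hex : ∃ i < M, M * massU (kk i) (kk (i + 1)) (Free κ τ n) u ≤ C * n := by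
    by_contra hcon
    push Not at hcon
    have h1 := sum_mass_le hn kk hkk h0 M hτ u
    have h2 : ∑ i ∈ range M, C * n <
        ∑ i ∈ range M, M * massU (kk i) (kk (i + 1)) (Free κ τ n) u := by
      apply Finset.sum_lt_sum_of_nonempty
      · exact ⟨0, mem_range.2 (by omega)⟩
      · intro i hi
        exact hcon i (mem_range.1 hi)
    rw [sum_const, card_range, smul_eq_mul, ← mul_sum] at h2
    have h3 : M * ∑ i ∈ range M, massU (kk i) (kk (i + 1)) (Free κ τ n) u ≤ M * (C * n) :=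
      Nat.mul_le_mul_left M (h1.trans hu)
    omega
  obtain ⟨i, hi, hmass⟩ := hex
  have hle : ∀ j, kk 0 ≤ kk j := fun j => hkk.monotone (Nat.zero_le j)
  have hκ1 : κ ≤ kk (i + 1) := h0.trans (hle _)
  have hτ1 : kk (i + 1) ≤ τ := (hkk.monotone (by omega : i + 1 ≤ M)).trans hτ
  have hnb := (nbg_le hn hκ1 hτ1 u).trans hu
  obtain ⟨hn1', hn2'⟩ := hβi i hi _ hnb
  have hfr : nfr (kk (i + 1)) (Free κ τ n) u ≤ C := by
    have h1 := (nfr_le (n := n) (τ := τ) hκ1 u).trans hu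
    rw [mul_comm C n] at h1
    exact Nat.le_of_mul_le_mul_left h1 hn1
  refine ⟨i, medU (kk i) (kk (i + 1)) (Free κ τ n) u, hi,
    (card_medU_le _ _ _ u).trans (hβM _ hmass),
    (length_gl_le _ u _ (Finset.Subset.refl _)).trans hn1', fun E => ?_⟩
  exact (dgb_le _ u _ (Finset.Subset.refl _)).trans
    (Nat.add_le_add hn2' (Nat.mul_le_mul_left E hfr))

open Classical in
private lemma fin1_union {Ω I : Type} [Fintype Ω] [Nonempty Ω] (S : Finset I)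
    (bad : I → Finset Ω) (h : ∀ i ∈ S, (bad i).card * (S.card + 1) ≤ Fintype.card Ω) :
    ∃ x, ∀ i ∈ S, x ∉ bad i := by
  by_contra hcon
  push Not at hcon
  have h1 : (univ : Finset Ω) ⊆ S.biUnion bad := by
    intro x _
    obtain ⟨i, hi, hx⟩ := hcon x
    exact mem_biUnion.2 ⟨i, hi, hx⟩
  have h2 : Fintype.card Ω ≤ ∑ i ∈ S, (bad i).card := by
    rw [← card_univ]
    exact (card_le_card h1).trans card_biUnion_le
  have h3 : (∑ i ∈ S, (bad i).card) * (S.card + 1) ≤ S.card * Fintype.card Ω := by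
    rw [sum_mul, ← smul_eq_mul, ← sum_const]
    exact sum_le_sum h
  have h4 : 0 < Fintype.card Ω := Fintype.card_pos
  have h5 : Fintype.card Ω * (S.card + 1) ≤ S.card * Fintype.card Ω :=
    (Nat.mul_le_mul_right _ h2).trans h3
  nlinarith

private lemma fin1_mono {U M : Type} [DecidableEq U] {cl : M → Finset (U × Bool)} {B B1 : ℕ}
    (hB : B ≤ B1) {sg : (U → Bool) → (U → Bool)} {gs : List (Bool × List (X.Jn U Bool))}
    {H : Finset U} {w : U → Bool} (h : GoodA cl B sg gs H w) : GoodA cl B1 sg gs H w := by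
  intro g hg
  rcases h g hg with h1 | h1
  · exact Or.inl h1
  · refine Or.inr fun s hs => ?_
    obtain ⟨J, hJ, h2⟩ := h1 s hs
    exact ⟨J, hJ.trans hB, h2⟩

theorem pseudo (k e ρ : ℕ) (he : 1 ≤ e) (p : ℕ) [Fact p.Prime] (K κ C : ℕ) :
    ∃ τ a r0 : ℕ, 1 ≤ a ∧ ∀ (n m : ℕ) (F : Fin m → Fin k → Fin n × Bool) (r : ℕ), r0 ≤ r →
      1 ≤ n → n ≤ ρ * r → m ≤ ρ * r → Expn (clF F) r e →
      ∀ S : Finset (Fml p (Fin n)), (∀ ψ ∈ S, ∀ χ ∈ Fml.subs ψ, χ ∈ S) →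
        (∀ ψ ∈ S, Fml.cost κ τ n none ψ ≤ C * n) → S.card ^ a < 2 ^ r →
        ∃ (V : Submodule (ZMod p) ((Fin n → Bool) → ZMod p)) (D d B1 : ℕ)
          (sg : (Fin n → Bool) → (Fin n → Bool)), ClV V D ∧ Cow sg ∧
          (1 : (Fin n → Bool) → ZMod p) ∉ V ∧
          (∀ (I : Finset (Fin m)) (f : (Fin n → Bool) → ZMod p), I.card ≤ B1 →
            f ∈ Dg (ZMod p) D → (∀ y, SatAll (clF F) I (sg y) → f y = 0) → f ∈ V) ∧
          1 ≤ d ∧ k ≤ d ∧ 1 ≤ B1 ∧ 3 * p * d ≤ D ∧ cS p K * d ≤ D ∧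
          ∀ ψ ∈ S, ∃ P, EvU V d sg (X.UF.toU false ψ) P := by
  classical
  obtain ⟨B, thr, hworld⟩ := world k e ρ he
  choose b hb1 hb using fun κ' => claimR' κ' (B κ')
  obtain ⟨G, hG⟩ : ∃ G, G = 4 * (p * C + p + 1) ^ (C + 1) := ⟨_, rfl⟩
  obtain ⟨c2, hc2⟩ : ∃ c2, c2 = (3 * p + 1 + cS p K) * G := ⟨_, rfl⟩
  obtain ⟨c1, hc1⟩ : ∃ c1, c1 = 2 * (3 * (4 * e * c2 * (k * (4 * e) + 1))) + 2 := ⟨_, rfl⟩
  obtain ⟨M, kk, a, r0, hM1, hmono, hκ0, hkk0, ha1, hnums⟩ :=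
    nums p C ρ (k + 1) c1 κ b B thr hb1
  refine ⟨kk M, a, r0, ha1, ?_⟩
  intro n m F r hr hn1 hn hm hE S hS hcost hcard
  obtain ⟨dm, vl, hER, hKil⟩ := hworld (Fin n) (Fin m) (clF F) r (card_vr_clF F) hE
    (by rw [Fintype.card_fin]; exact hm)
  obtain ⟨β, mm, hβr, hβ1, hβc0, hβM, hβi⟩ := hnums r n hr hn
  have hnn : Fintype.card (Fin n) ≤ n := by rw [Fintype.card_fin]
  have hG1 : 1 ≤ G := by
    rw [hG]
    have : 0 < (p * C + p + 1) ^ (C + 1) := Nat.pow_pos (by omega)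
    omega
  have hdq : dq p C β C = G * β := by
    rw [dq, hG]
    ring
  have hβG : β ≤ G * β := Nat.le_mul_of_pos_left β hG1
  -- the choice of the level
  have hpick : ∀ ψ ∈ S, ∃ (i : ℕ) (H : Finset (Fin n)), i < M ∧ H.card ≤ β ∧
      (gl (kk i) H (Free κ (kk M) n) (X.UF.toU false ψ)).length ≤ mm i ∧
      ∀ E, dgb (kk i) H (Free κ (kk M) n) E (X.UF.toU false ψ) ≤ β + E * C := by
    intro ψ hψ
    exact fin1_pick hnn hn1 kk hmono hκ0 hM1 le_rfl hβM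
      (fun i hi => (hβi i hi).2.2.2.2.1) _ ((costU_toU _ _ _ _ _).trans (hcost ψ hψ))
  choose! fi fH hfi hfH hflen hfdg using hpick
  -- the good label
  obtain ⟨w0, hw0⟩ : ∃ w0 : Fin n → Bool, w0 = fun _ => false := ⟨_, rfl⟩
  obtain ⟨bad, hbad⟩ : ∃ bad : Fml p (Fin n) → Finset (Fin n → Bool × Bool),
      bad = fun ψ => univ.filter fun lam => ¬ X.DT (GoodA (clF F) (B (kk (fi ψ)))
        (ovr (dm lam) (vl lam)) (gl (kk (fi ψ)) (fH ψ) (Free κ (kk M) n) (X.UF.toU false ψ)))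
          ∅ w0 (b (kk (fi ψ)) * mm (fi ψ)) := ⟨_, rfl⟩
  obtain ⟨lam, hlam⟩ := fin1_union S bad (by
    intro ψ hψ
    obtain ⟨h1, h2, h3, h4, h5, h6⟩ := hβi _ (hfi ψ hψ)
    obtain ⟨Q, hQ⟩ := hKil (kk (fi ψ)) h1
    have h7 := hb (kk (fi ψ)) (Fin n) (Fin m) (Bool × Bool) (clF F)
      (fun lam => ovr (dm lam) (vl lam)) Q hQ (by
        intro lam y y' x hxy
        show (if x ∈ dm lam then vl lam x else y x) = if x ∈ dm lam then vl lam x else y' x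
        rw [hxy]) (mm (fi ψ)) _ w0 (hflen ψ hψ) (gl_spec _ _ _ _)
    have h8 : S.card + 1 ≤ 2 ^ mm (fi ψ) := by
      have h9 : S.card ^ a < (2 ^ mm (fi ψ)) ^ a := by
        refine lt_of_lt_of_le hcard ?_
        rw [← pow_mul]
        refine Nat.pow_le_pow_right (by norm_num) ?_
        rw [mul_comm]
        exact h6
      exact lt_of_pow_lt_pow_left₀ a (Nat.zero_le _) h9
    refine (Nat.mul_le_mul_left _ h8).trans ?_
    rw [hbad]
    convert h7)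
  have hDT : ∀ ψ ∈ S, X.DT (GoodA (clF F) (B (kk (fi ψ)))
        (ovr (dm lam) (vl lam)) (gl (kk (fi ψ)) (fH ψ) (Free κ (kk M) n) (X.UF.toU false ψ)))
          ∅ w0 (b (kk (fi ψ)) * mm (fi ψ)) := by
    intro ψ hψ
    have h1 := hlam ψ hψ
    rw [hbad] at h1
    by_contra h2
    exact h1 (mem_filter.2 ⟨mem_univ _, h2⟩)
  -- the ideal
  have hX : 3 * (4 * e * (c2 * β) * (k * (4 * e) + 1)) ≤ r / 2 := by
    rw [Nat.le_div_iff_mul_le (by norm_num)]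
    refine le_trans ?_ hβr
    rw [hc1]
    have : 3 * (4 * e * (c2 * β) * (k * (4 * e) + 1)) * 2 =
      2 * (3 * (4 * e * c2 * (k * (4 * e) + 1))) * β := by ring
    rw [this]
    exact Nat.mul_le_mul_right _ (Nat.le_add_right _ _)
  obtain ⟨V, -, hV, hV3, hV1⟩ := exists_V (ZMod p) (clF F) k (r / 2) (4 * e) (c2 * β)
    (by omega) (card_vr_clF F) (dm lam) (vl lam) (hER lam) hX
  have hco : Cow (ovr (dm lam) (vl lam)) := by
    intro y y' x hxy
    show (if x ∈ dm lam then vl lam x else y x) = if x ∈ dm lam then vl lam x else y' x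
    rw [hxy]
  have hDd : (3 * p + 1) * dq p C β C ≤ c2 * β := by
    rw [hdq, hc2, ← mul_assoc]
    exact Nat.mul_le_mul_right _ (Nat.mul_le_mul_right _ (Nat.le_add_right _ _))
  have hcSd : cS p K * dq p C β C ≤ c2 * β := by
    rw [hdq, hc2, ← mul_assoc]
    exact Nat.mul_le_mul_right _ (Nat.mul_le_mul_right _ (Nat.le_add_left _ _))
  have hd1 : 1 ≤ dq p C β C := by
    rw [hdq]
    omega
  have hβD : β ≤ 4 * e * (c2 * β) := by
    have h1 : dq p C β C ≤ c2 * β :=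
      le_trans (Nat.le_mul_of_pos_left _ (by omega)) hDd
    rw [hdq] at h1
    have h2 : c2 * β ≤ 4 * e * (c2 * β) := Nat.le_mul_of_pos_left _ (by omega)
    omega
  refine ⟨V, c2 * β, dq p C β C, 4 * e * (c2 * β), ovr (dm lam) (vl lam), hV, hco, hV1, hV3,
    hd1, ?_, hβ1.trans hβD, ?_, hcSd, ?_⟩
  · rw [hdq]
    omega
  · refine le_trans (Nat.mul_le_mul_right _ ?_) hDd
    omega
  · intro ψ hψ
    refine all_ev hV hco hV3 κ (kk M) n C β hnn hn1 S hS ?_ hDd ψ hψ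
      ((costU_toU _ _ _ _ _).trans (hcost ψ hψ))
    intro χ hχ
    obtain ⟨h1, h2, h3, h4, h5, h6⟩ := hβi _ (hfi χ hχ)
    refine ⟨kk (fi χ), fH χ, b (kk (fi χ)) * mm (fi χ), w0,
      hkk0.trans (hmono.monotone (Nat.zero_le _)), h3,
      (hDT χ hχ).imp fun H w hH => fin1_mono (h2.trans hβD) hH, ?_, hfdg χ hχ⟩
    have := hfH χ hχ
    omega

end Pool.Agent.Work.MP_c04246_lc.R
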