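import Pool.Agent.Work.MP_c04246_lc.R.RBase

/-!
MODULE WD (size S-M). Formulas of bounded depth and linear size have linear cost.

Proof. `card_vars_le`: `(vars χ).card ≤ size χ`, induction. Then by induction on `χ`:
for `ρ = none` and for `ρ = some none`: `cost none χ ≤ dpt ρ χ * size χ`; and for every `c`:
`cost (some c) χ ≤ dpt (some (some c)) χ * size χ`.
`neg a`: all costs are `cost none a ≤ dpt (some none) a * size a`, and `dpt ρ (neg a) ≥ dpt (some none) a`
for every `ρ`. `bin c a b`: if the cost is not `0`: below kind `some c` the cost is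
`cost (some c) a + cost (some c) b ≤ m * (size a + size b)` with
`m = max (dpt (some (some c)) a) (dpt (some (some c)) b)`, the value of `dpt (some (some c)) (bin c a b)`;
otherwise add `min scope τ ≤ size`, while `dpt` is `1 + m`. `mod`: the cost is at most
`scope + ∑ cost none (f j) ≤ size + sup * ∑ size (f j) ≤ (1 + sup) * size`.
-/

set_option autoImplicit false

namespace Pool.Agent.Work.MP_c04246_lc.R

open Finset

variable {U : Type} {p : ℕ}

lemma card_vars_le (χ : Fml p U) : (Fml.vars χ).card ≤ Fml.size χ := by
  classical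
  induction χ with
  | var x => simp [Fml.vars, Fml.size]
  | cst b => simp [Fml.vars, Fml.size]
  | neg a ih =>
    simp only [Fml.vars, Fml.size]
    omega
  | bin c a b iha ihb =>
    simp only [Fml.vars, Fml.size]
    refine (card_union_le _ _).trans ?_
    omega
  | mod i k f ih =>
    simp only [Fml.vars, Fml.size]
    refine card_biUnion_le.trans ?_
    exact (Finset.sum_le_sum fun j _ => ih j).trans (Nat.le_succ _)

private lemma cost_aux (κ τ n : ℕ) (χ : Fml p U) :
    Fml.cost κ τ n none χ ≤ Fml.dpt none χ * Fml.size χ ∧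
    Fml.cost κ τ n none χ ≤ Fml.dpt (some none) χ * Fml.size χ ∧
    (∀ c, Fml.cost κ τ n none χ ≤ (1 + Fml.dpt (some (some c)) χ) * Fml.size χ) ∧
    ∀ c, Fml.cost κ τ n (some c) χ ≤ Fml.dpt (some (some c)) χ * Fml.size χ := by
  induction χ with
  | var x => simp [Fml.cost]
  | cst b => simp [Fml.cost]
  | neg a ih =>
    obtain ⟨-, h2, -, -⟩ := ih
    simp only [Fml.cost, Fml.dpt, Fml.size]
    have key : ∀ t, Fml.dpt (some none) a ≤ t →
        Fml.cost κ τ n none a ≤ t * (Fml.size a + 1) := fun t ht =>
      h2.trans (Nat.mul_le_mul ht (Nat.le_succ _))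
    refine ⟨key _ ?_, key _ ?_, fun c => key _ ?_, fun c => key _ ?_⟩ <;> omega
  | bin c a b iha ihb =>
    obtain ⟨-, -, -, a4⟩ := iha
    obtain ⟨-, -, -, b4⟩ := ihb
    have hv : (Fml.vars (Fml.bin c a b)).card ≤ Fml.size (Fml.bin c a b) := card_vars_le _
    set s := Fml.size (Fml.bin c a b) with hs
    have hs' : s = Fml.size a + Fml.size b + 1 := rfl
    set m := max (Fml.dpt (some (some c)) a) (Fml.dpt (some (some c)) b) with hm
    have h1 : Fml.cost κ τ n (some c) a + Fml.cost κ τ n (some c) b ≤ m * s := by
      have e1 : Fml.cost κ τ n (some c) a ≤ m * Fml.size a :=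
        (a4 c).trans (Nat.mul_le_mul_right _ (le_max_left _ _))
      have e2 : Fml.cost κ τ n (some c) b ≤ m * Fml.size b :=
        (b4 c).trans (Nat.mul_le_mul_right _ (le_max_right _ _))
      rw [hs', Nat.mul_add, Nat.mul_add]
      omega
    have h2 : min (Fml.vars (Fml.bin c a b)).card τ ≤ s := (min_le_left _ _).trans hv
    have h3 : min (Fml.vars (Fml.bin c a b)).card τ +
        (Fml.cost κ τ n (some c) a + Fml.cost κ τ n (some c) b) ≤ (1 + m) * s := by
      rw [Nat.add_mul, Nat.one_mul]
      omega
    have hn : ∀ r, (r ≠ some c) → Fml.cost κ τ n r (Fml.bin c a b) ≤ (1 + m) * s := by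
      intro r hr
      simp only [Fml.cost]
      split_ifs
      · exact Nat.zero_le _
      · exact h3
    refine ⟨?_, ?_, ?_, ?_⟩
    · have := hn none (by simp)
      simpa [Fml.dpt] using this
    · have := hn none (by simp)
      simpa [Fml.dpt] using this
    · intro c'
      refine (hn none (by simp)).trans (Nat.mul_le_mul_right _ ?_)
      simp only [Fml.dpt]
      omega
    · intro c'
      by_cases hc : c' = c
      · subst hc
        simp only [Fml.cost, Fml.dpt, if_true, zero_add]
        split_ifs
        · exact Nat.zero_le _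
        · exact h1
      · have := hn (some c') (by simpa using hc)
        have hc2 : ¬ (some (some c') = some (some c)) := by simpa using hc
        simpa [Fml.dpt, hc2, hc] using this
  | mod i k f ih =>
    have hv : (Fml.vars (Fml.mod i k f)).card ≤ Fml.size (Fml.mod i k f) := card_vars_le _
    set s := Fml.size (Fml.mod i k f) with hs
    have hs' : s = (∑ j, Fml.size (f j)) + 1 := rfl
    set m := Finset.univ.sup fun j => Fml.dpt none (f j) with hm
    have h1 : ∑ j, Fml.cost κ τ n none (f j) ≤ m * s := by
      have e1 : ∑ j, Fml.cost κ τ n none (f j) ≤ ∑ j, m * Fml.size (f j) := by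
        refine Finset.sum_le_sum fun j _ => (ih j).1.trans (Nat.mul_le_mul_right _ ?_)
        exact Finset.le_sup (f := fun j => Fml.dpt none (f j)) (Finset.mem_univ j)
      rw [← Finset.mul_sum] at e1
      refine e1.trans (Nat.mul_le_mul_left _ ?_)
      omega
    have h2 : min (Fml.vars (Fml.mod i k f)).card τ ≤ s := (min_le_left _ _).trans hv
    have h3 : min (Fml.vars (Fml.mod i k f)).card τ + ∑ j, Fml.cost κ τ n none (f j) ≤
        (1 + m) * s := by
      rw [Nat.add_mul, Nat.one_mul]
      omega
    have hn : ∀ r, Fml.cost κ τ n r (Fml.mod i k f) ≤ (1 + m) * s := by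
      intro r
      have e : Fml.cost κ τ n r (Fml.mod i k f) ≤
          min (Fml.vars (Fml.mod i k f)).card τ + ∑ j, Fml.cost κ τ n none (f j) := by
        cases r <;>
        · simp only [Fml.cost]
          split_ifs
          · exact Nat.zero_le _
          · exact min_le_left _ _
      exact e.trans h3
    refine ⟨?_, ?_, ?_, ?_⟩
    · simpa [Fml.dpt] using hn none
    · simpa [Fml.dpt] using hn none
    · intro c
      refine (hn none).trans (Nat.mul_le_mul_right _ ?_)
      simp only [Fml.dpt]
      omega
    · intro c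
      simpa [Fml.dpt] using hn (some c)

lemma cost_le_depth (κ τ n : ℕ) (χ : Fml p U) :
    Fml.cost κ τ n none χ ≤ Fml.depth χ * Fml.size χ := (cost_aux κ τ n χ).1

end Pool.Agent.Work.MP_c04246_lc.R
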