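import Pool.Agent.Work.MP_c04246_lc.R.Fin1
import Pool.Agent.Work.MP_c04246_lc.R.EvC
import Pool.Agent.Work.MP_c04246_lc.R.WD

/-!
MODULE Fin2 (size M). Lower bound for all expanding CNFs.

Proof. Constants `τ, a, r0` from `pseudo k e ρ he p K κ C`. Suppose `2 ^ r > (size)^a` where
`size = (pi.map size).sum`. Let `S = pi.toFinset.biUnion subs` (classical `DecidableEq`); closed under
subformulas (`subs_trans`); `S.card ≤ size` (`card_subs_le`, sum over the finset `≤` sum over the list);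
cost of the members `≤ C n` (`cost_subs`). `pseudo` gives `V, D, d, B1, sg`. Let `Pf ψ` be a chosen evaluation
for `ψ ∈ S` (and `0` otherwise). `rel_of_ev` gives for `ψ ∈ S`: `RelV V sg Pf ψ`, `Pf ψ * (1 - Pf ψ) ∈ V`;
`Pf ψ ∈ Dg d` by `EvU.deg`. By strong induction on the index `i`, `1 - Pf (pi.get i) ∈ V`: if the line is
`clauseF (F j)` use `clause_ev` (`2 d ≤ 3 p d ≤ D`); otherwise `sound`. If `cst false ∈ pi`:
`Pf (cst false) ∈ V` (`RelV`), so `1 ∈ V`. If `dnfF F ∈ pi`: `Pf (dnfF F) ∈ V` by `dnf_ev`, so `1 ∈ V`.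
Contradiction.
-/

set_option autoImplicit false

namespace Pool.Agent.Work.MP_c04246_lc.R

open Finset

private lemma fin2_card {U : Type} [DecidableEq U] {p : ℕ} [DecidableEq (Fml p U)]
    (pi : List (Fml p U)) : (pi.toFinset.biUnion Fml.subs).card ≤ (pi.map Fml.size).sum := by
  induction pi with
  | nil => simp
  | cons b pi ih =>
    rw [List.toFinset_cons, biUnion_insert, List.map_cons, List.sum_cons]
    exact (card_union_le _ _).trans (Nat.add_le_add (card_subs_le b) ih)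

theorem main_exp (k e ρ : ℕ) (he : 1 ≤ e) (p : ℕ) [Fact p.Prime] (K κ C : ℕ) :
    ∃ τ a r0 : ℕ, ∀ (n m : ℕ) (F : Fin m → Fin k → Fin n × Bool) (r : ℕ), r0 ≤ r →
      1 ≤ n → n ≤ ρ * r → m ≤ ρ * r → Expn (clF F) r e →
      ∀ pi : List (Fml p (Fin n)), Fml.IsDer K (Set.range fun i => Fml.clauseF (F i)) pi →
        (Fml.dnfF F ∈ pi ∨ Fml.cst false ∈ pi) →
        (∀ b ∈ pi, Fml.cost κ τ n none b ≤ C * n) →
        2 ^ r ≤ (pi.map Fml.size).sum ^ a := by
  classical
  obtain ⟨τ, a, r0, ha1, h⟩ := pseudo k e ρ he p K κ C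
  refine ⟨τ, a, r0, ?_⟩
  intro n m F r hr hn1 hn hm hE pi hpi hend hcost
  by_contra hlt
  rw [not_le] at hlt
  obtain ⟨S, hSd⟩ : ∃ S : Finset (Fml p (Fin n)), S = pi.toFinset.biUnion Fml.subs := ⟨_, rfl⟩
  have hmem : ∀ {ψ}, ψ ∈ S ↔ ∃ b ∈ pi, ψ ∈ Fml.subs b := by
    intro ψ
    rw [hSd, mem_biUnion]
    simp only [List.mem_toFinset]
  obtain ⟨V, D, d, B1, sg, hV, hco, h1V, hV3, hd1, hkd, hB1, h3pd, hcS, hev⟩ :=
    h n m F r hr hn1 hn hm hE S
      (by
        intro ψ hψ χ hχ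
        obtain ⟨b, hb, hψb⟩ := hmem.1 hψ
        exact hmem.2 ⟨b, hb, subs_trans hχ hψb⟩)
      (by
        intro ψ hψ
        obtain ⟨b, hb, hψb⟩ := hmem.1 hψ
        exact (cost_subs κ τ n hψb).trans (hcost b hb))
      (lt_of_le_of_lt (Nat.pow_le_pow_left (by rw [hSd]; exact fin2_card pi) a) hlt)
  choose! Pf hPf using hev
  have hp2 := (Fact.out : p.Prime).two_le
  have h2d : 2 * d ≤ D := by
    refine le_trans (Nat.mul_le_mul_right d ?_) h3pd
    omega
  have key : ∀ b ∈ pi, ∀ χ ∈ Fml.subs b,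
      Pf χ ∈ Dg (ZMod p) d ∧ RelV V sg Pf χ ∧ Pf χ * (1 - Pf χ) ∈ V := by
    intro b hb χ hχ
    have h1 := rel_of_ev hV hco hd1 h3pd Pf χ
      (fun ψ hψ => hPf ψ (hmem.2 ⟨b, hb, subs_trans hψ hχ⟩))
    exact ⟨(hPf χ (hmem.2 ⟨b, hb, hχ⟩)).deg, h1.1, h1.2⟩
  have hline : ∀ N : ℕ, ∀ i : Fin pi.length, i.val = N → 1 - Pf (pi.get i) ∈ V := by
    intro N
    induction N using Nat.strong_induction_on with
    | _ N ih =>
      intro i hi
      rcases hpi i with h1 | ⟨P, hP, hinf⟩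
      · obtain ⟨i', hi'⟩ := h1
        have hi'' : Fml.clauseF (F i') = pi.get i := hi'
        rw [← hi'']
        refine clause_ev hV hco F hV3 hB1 hd1 hkd h2d Pf i' fun χ hχ => ?_
        have h2 := key (pi.get i) (List.get_mem pi i) χ (by rw [← hi'']; exact hχ)
        exact ⟨h2.1, h2.2.1⟩
      · refine sound (sg := sg) hV hcS Pf P (pi.get i) hinf ?_ ?_
        · intro b hb
          obtain ⟨j, hj, rfl⟩ := hP b hb
          exact ih j.val (by rw [← hi]; exact hj) j rfl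
        · rintro χ (hχ | ⟨b, hb, hχ⟩)
          · exact key _ (List.get_mem pi i) χ hχ
          · obtain ⟨j, hj, rfl⟩ := hP b hb
            exact key _ (List.get_mem pi j) χ hχ
  have hall : ∀ b ∈ pi, 1 - Pf b ∈ V := by
    intro b hb
    obtain ⟨i, rfl⟩ := List.mem_iff_get.1 hb
    exact hline _ i rfl
  apply h1V
  rcases hend with h1 | h1
  · have h2 : Pf (Fml.dnfF F) ∈ V := by
      refine dnf_ev hV hco F hV3 hB1 hd1 hkd h2d Pf fun χ hχ => ?_
      have h3 := key _ h1 χ hχ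
      exact ⟨h3.1, h3.2.1⟩
    have h3 := V.add_mem (hall _ h1) h2
    rwa [sub_add_cancel] at h3
  · have h2 : Pf (Fml.cst false) ∈ V := by
      have h3 := (key _ h1 _ (self_mem_subs _)).2.1
      have h4 : Pf (Fml.cst false) - indF (fun _ => false) ∈ V := h3
      have h5 : (indF (fun _ => false) : (Fin n → Bool) → ZMod p) = 0 := by
        funext y
        simp [indF]
      rwa [h5, sub_zero] at h4
    have h3 := V.add_mem (hall _ h1) h2
    rwa [sub_add_cancel] at h3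

end Pool.Agent.Work.MP_c04246_lc.R
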