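import Pool.Agent.Work.MP_c04246_lc.R.Bdry
import Pool.Agent.Work.MP_c04246_lc.R.Balls

/-!
MODULE Grow (size S-M). Growth in a connected set of clauses.

Proof of `grow`. Put `T t = tch cl S (ball cl A t)` (increasing in `t`, `ball_le`). If `T t ≠ S` and `T t` is
nonempty, then by connectedness there are `i ∈ T t`, `j ∈ S`, `j ∉ T t` sharing a variable `y`; `vr i` meets
`ball A t` so `vr i ⊆ ball A (t+1)` (`vr_subset_ball`), hence `y ∈ vr j ∩ ball A (t+1)` and `j ∈ T (t+1)`.
So `(T (t+1)).card ≥ (T t).card + 1` as long as `T t ≠ S`; induction on `t` (start: `T 0` is nonempty).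
`grow_all`: by `grow` with `t = S.card - 1`, `T t = S` (a subset of the same size), so every `vr i` with
`i ∈ S` meets `ball A (S.card - 1)` and is inside `ball A S.card`.
-/

set_option autoImplicit false

namespace Pool.Agent.Work.MP_c04246_lc.R

open Finset

variable {U M : Type} [DecidableEq U] [DecidableEq M] [Fintype U] [Fintype M]
  {cl : M → Finset (U × Bool)}

private lemma gr_mem {S : Finset M} {A : Finset U} {i : M} :
    i ∈ tch cl S A ↔ i ∈ S ∧ ¬ Disjoint (vr cl i) A := by
  unfold tch
  rw [mem_filter]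

private lemma gr_mono {S : Finset M} {A B : Finset U} (h : A ⊆ B) : tch cl S A ⊆ tch cl S B := by
  intro i hi
  rw [gr_mem] at hi ⊢
  exact ⟨hi.1, fun hd => hi.2 (disjoint_of_subset_right h hd)⟩

lemma grow {S : Finset M} (hS : Cnn cl S) (A : Finset U) (h : (tch cl S A).Nonempty) (t : ℕ) :
    min S.card (t + 1) ≤ (tch cl S (ball cl A t)).card := by
  induction t with
  | zero =>
    refine (min_le_right _ _).trans ?_
    exact card_pos.2 h
  | succ t ih =>
    have hsub : tch cl S (ball cl A t) ⊆ tch cl S (ball cl A (t + 1)) :=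
      gr_mono (ball_le A (Nat.le_succ t))
    by_cases hT : tch cl S (ball cl A t) = S
    · refine (min_le_left _ _).trans ?_
      rw [hT] at hsub
      exact card_le_card hsub
    · have hne : (tch cl S (ball cl A t)).Nonempty := h.mono (gr_mono (subset_ball A t))
      have h1 : ∃ i ∈ tch cl S (ball cl A t), ∃ j ∈ S, ¬ Disjoint (vr cl i) (vr cl j) ∧
          j ∉ tch cl S (ball cl A t) := by
        by_contra hc
        push Not at hc
        exact hT (hS _ (filter_subset _ _) hne fun i hi j hj hd => hc i hi j hj hd)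
      obtain ⟨i, hi, j, hj, hd, hjT⟩ := h1
      rw [not_disjoint_iff] at hd
      obtain ⟨y, hyi, hyj⟩ := hd
      have h2 : vr cl i ⊆ ball cl A (t + 1) := vr_subset_ball (gr_mem.1 hi).2
      have h3 : j ∈ tch cl S (ball cl A (t + 1)) :=
        gr_mem.2 ⟨hj, not_disjoint_iff.2 ⟨y, hyj, h2 hyi⟩⟩
      have h4 : (tch cl S (ball cl A t)).card < (tch cl S (ball cl A (t + 1))).card := by
        apply card_lt_card
        rw [ssubset_iff_of_subset hsub]
        exact ⟨j, h3, hjT⟩
      omega

lemma grow_all {S : Finset M} (hS : Cnn cl S) (A : Finset U) (h : (tch cl S A).Nonempty) :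
    Vr cl S ⊆ ball cl A S.card := by
  have hpos : 0 < S.card := by
    obtain ⟨i, hi⟩ := h
    exact card_pos.2 ⟨i, (gr_mem.1 hi).1⟩
  have h1 := grow hS A h (S.card - 1)
  have h2 : tch cl S (ball cl A (S.card - 1)) = S := by
    have h3 : tch cl S (ball cl A (S.card - 1)) ⊆ S := filter_subset _ _
    apply eq_of_subset_of_card_le h3
    omega
  intro x hx
  unfold Vr at hx
  rw [mem_biUnion] at hx
  obtain ⟨i, hi, hxi⟩ := hx
  rw [← h2, gr_mem] at hi
  have h3 := vr_subset_ball hi.2 hxi
  rwa [Nat.sub_add_cancel hpos] at h3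

end Pool.Agent.Work.MP_c04246_lc.R
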