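import Pool.Agent.Work.MP_c04246_lc.R.LClo

/-!
MODULE Kill (size M). Every small junta is dead or can be killed by a local event.

Proof. Let `J` be given by `lclo` for `Y`, `Z = Vr J ∪ Y`. `J.card ≤ 2 e Y.card ≤ 2 e κ`,
`Z.card ≤ k * J.card + Y.card ≤ κ * (1 + 2 * e * k)`. If no `z` satisfying the clauses of `J` has `f z = c` we are
in the first case. Otherwise fix such a `z`, `Rg = ball Z (rad e Z.card)`,
`E = {lam | (∀ x ∈ Z, lam x = (true, z x)) ∧ ∀ x ∈ Rg, x ∉ Z → (lam x).1 = false}`.
* `E` depends only on the labels in `Rg ⊇ Z`.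
* `Rg ⊆ ball Y (R)`, `R = rad e (κ * (1 + 2 * e * k)) + 2 * e * κ + 1`: `Z ⊆ ball Y (2 e κ + 1)` by `lclo`
  (2) and `ball_le`, then `ball_add`; `rad` is monotone. `Rg.card ≤ g ^ R * κ` by `card_ball_le`.
* size of `E`: for every `x ∈ Rg` at least one of the 4 labels is allowed, for `x ∉ Rg` all are, so
  `4 ^ Rg.card * E.card ≥ card (U → Bool × Bool)` (`Fintype.piFinset`, as in `X.card_killed`;
  `1 ≤ 4`, so the exponent may be increased to `g ^ R * κ`).
* let `lam ∈ E`. `Iso Z`: clear. `Good Z`: let `S` be connected, `S.card ≤ s0 e Z.card`, no clause of `S`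
  satisfied on `Z` by `x ↦ (lam x).2`. A clause `i ∈ S ∩ J` would be satisfied: `z` satisfies some literal `l` of
  it, `l.1 ∈ vr i ⊆ Z`, `(lam l.1).2 = z l.1 = l.2`. So `S` is disjoint from `J`, and `lclo` (1) gives
  `S.card ≤ 2 e |bd S \ (Vr J ∪ Y)|`; size condition: `S.card + 2 e Y.card ≤ s0 e Z.card + 2 e κ ≤ r` by `hr`
  and monotonicity of `s0` in the second argument. So `Z ⊆ domL`, with values `z` on `Z ⊇ Y`; hence
  `ovr (domL ..) (valL lam) y` agrees with `z` on `Y` and `f` of it is `f z = c`.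
-/

set_option autoImplicit false
set_option linter.unusedSectionVars false

namespace Pool.Agent.Work.MP_c04246_lc.R

open Finset

variable {U M : Type} [DecidableEq U] [DecidableEq M] [Fintype U] [Fintype M]
  {cl : M → Finset (U × Bool)}

/-- radius in which everything happens -/
def kR (e k κ : ℕ) : ℕ := rad e (κ * (1 + 2 * e * k)) + 2 * e * κ + 1

private lemma s0_mono (e : ℕ) {z z' : ℕ} (h : z ≤ z') : s0 e z ≤ s0 e z' := by
  unfold s0
  exact Nat.mul_le_mul (Nat.mul_le_mul_left _ h) (Nat.pow_le_pow_right (by norm_num) h)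

private lemma rad_mono (e : ℕ) {z z' : ℕ} (h : z ≤ z') : rad e z ≤ rad e z' := by
  unfold rad
  have := s0_mono e h
  omega

theorem kill {r e k g κ : ℕ} (hE : Expn cl r e) (he : 1 ≤ e) (hk : ∀ i, (vr cl i).card ≤ k)
    (hg : ∀ x, (nbr cl x).card ≤ g) (hr : s0 e (κ * (1 + 2 * e * k)) + 2 * e * κ ≤ r)
    (Y : Finset U) (hY : Y.card ≤ κ) (f : (U → Bool) → Bool) (hf : X.Dep Y f) (c : Bool) :
    (∃ J : Finset M, J.card ≤ 2 * e * κ ∧ ∀ z, SatAll cl J z → f z ≠ c) ∨
    ∃ (Rg : Finset U) (E : Finset (U → Bool × Bool)), Rg.card ≤ g ^ kR e k κ * κ ∧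
      (∀ lam lam' : U → Bool × Bool, (∀ x ∈ Rg, lam x = lam' x) → lam ∈ E → lam' ∈ E) ∧
      Fintype.card (U → Bool × Bool) ≤ 4 ^ (g ^ kR e k κ * κ) * E.card ∧
      (∀ lam ∈ E, ∀ y, f (ovr (domL cl e lam) (valL lam) y) = c) ∧
      Rg ⊆ ball cl Y (kR e k κ) := by
  classical
  obtain ⟨J, hJ1, hJr, hJ2, hJ3⟩ := lclo hE he Y
  set Z := Vr cl J ∪ Y with hZ
  have hJκ : J.card ≤ 2 * e * κ := hJ1.trans (Nat.mul_le_mul_left _ hY)
  have hZc : Z.card ≤ κ * (1 + 2 * e * k) := by
    have h1 : Z.card ≤ (Vr cl J).card + Y.card := card_union_le _ _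
    have h2 := card_Vr_le hk J
    have h3 : k * J.card ≤ k * (2 * e * κ) := Nat.mul_le_mul_left _ hJκ
    calc Z.card ≤ k * (2 * e * κ) + κ := by omega
      _ = κ * (1 + 2 * e * k) := by ring
  by_cases hd : ∃ z, SatAll cl J z ∧ f z = c
  swap
  · left
    exact ⟨J, hJκ, fun z hz h => hd ⟨z, hz, h⟩⟩
  right
  obtain ⟨z, hz, hfz⟩ := hd
  set Rg := ball cl Z (rad e Z.card) with hRg
  have hZRg : Z ⊆ Rg := subset_ball Z _
  let al : U → Finset (Bool × Bool) := fun x => if x ∈ Z then {(true, z x)} else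
    if x ∈ Rg then univ.filter (fun l : Bool × Bool => l.1 = false) else univ
  have hRgY : Rg ⊆ ball cl Y (kR e k κ) := by
    have h1 : Z ⊆ ball cl Y (2 * e * κ + 1) := by
      rw [hZ]
      apply union_subset
      · refine hJ3.trans (ball_le Y ?_)
        have := Nat.mul_le_mul_left (2 * e) hY
        omega
      · exact subset_ball Y _
    have h2 := ball_mono (cl := cl) h1 (rad e Z.card)
    rw [ball_add] at h2
    refine h2.trans (ball_le Y ?_)
    have := rad_mono e hZc
    unfold kR
    omega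
  have hRgc : Rg.card ≤ g ^ kR e k κ * κ := by
    refine (card_le_card hRgY).trans ((card_ball_le hg Y _).trans ?_)
    exact Nat.mul_le_mul_left _ hY
  refine ⟨Rg, Fintype.piFinset al, hRgc, ?_, ?_, ?_, hRgY⟩
  · intro lam lam' hag hlam
    rw [Fintype.mem_piFinset] at hlam ⊢
    intro x
    have h1 := hlam x
    simp only [al] at h1 ⊢
    by_cases hxR : x ∈ Rg
    · rw [← hag x hxR]; exact h1
    · rw [if_neg (fun h => hxR (hZRg h)), if_neg hxR]
      exact mem_univ _
  · have h1 : Fintype.card (U → Bool × Bool) = ∏ _x : U, 4 := by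
      rw [Fintype.card_fun]
      simp [Fintype.card_prod]
    have h2 : (4 : ℕ) ^ Rg.card = ∏ x : U, (if x ∈ Rg then 4 else 1) := by
      rw [prod_ite, prod_const_one, mul_one, prod_const]
      congr 2
      ext x; simp
    have h3 : Fintype.card (U → Bool × Bool) ≤ 4 ^ Rg.card * (Fintype.piFinset al).card := by
      rw [h1, h2, Fintype.card_piFinset, ← prod_mul_distrib]
      apply prod_le_prod' 
      intro x _
      simp only [al]
      by_cases hxR : x ∈ Rg
      · rw [if_pos hxR]
        by_cases hxZ : x ∈ Z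
        · rw [if_pos hxZ, card_singleton]; norm_num
        · rw [if_neg hxZ, if_pos hxR]
          have : 1 ≤ (univ.filter (fun l : Bool × Bool => l.1 = false)).card := by decide
          omega
      · rw [if_neg hxR, if_neg (fun h => hxR (hZRg h)), if_neg hxR]
        decide
    refine h3.trans (Nat.mul_le_mul_right _ ?_)
    exact Nat.pow_le_pow_right (by norm_num) hRgc
  · intro lam hlam y
    rw [Fintype.mem_piFinset] at hlam
    have hlZ : ∀ x ∈ Z, lam x = (true, z x) := by
      intro x hx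
      have h1 := hlam x
      simp only [al, if_pos hx, mem_singleton] at h1
      exact h1
    have hiso : Iso cl e lam Z := by
      refine ⟨fun x hx => by rw [hlZ x hx], ?_⟩
      intro x hx hxZ
      have h1 := hlam x
      simp only [al, if_neg hxZ] at h1
      rw [if_pos hx, mem_filter] at h1
      exact h1.2
    have hgood : Good cl e lam Z := by
      intro S _ hSc hsat
      have hdis : Disjoint S J := by
        rw [disjoint_left]
        intro i hiS hiJ
        obtain ⟨l, hl, hl2⟩ := hz i hiJ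
        apply hsat i hiS
        have hlZ' : l.1 ∈ Z := by
          rw [hZ, mem_union]
          left
          unfold Vr
          rw [mem_biUnion]
          exact ⟨i, hiJ, mem_image_of_mem _ hl⟩
        refine ⟨l, hl, hlZ', ?_⟩
        show (lam l.1).2 = l.2
        rw [hlZ _ hlZ']
        exact hl2
      have h1 := hJ2 S hdis (by
        have h2 := s0_mono e hZc
        have h3 := Nat.mul_le_mul_left (2 * e) hY
        omega)
      exact h1
    rw [← hfz]
    apply hf
    intro x hx
    have hxZ : x ∈ Z := by rw [hZ]; exact mem_union_right _ hx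
    have hxd : x ∈ domL cl e lam := by
      unfold domL
      rw [mem_filter]
      exact ⟨mem_univ _, Z, hxZ, hiso, hgood⟩
    unfold ovr valL
    rw [if_pos hxd, hlZ x hxZ]

end Pool.Agent.Work.MP_c04246_lc.R
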