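import Pool.Agent.Work.MP_c04246_lc.R.Bdry
import Pool.Agent.Work.MP_c04246_lc.R.Balls

/-!
MODULE LClo (size M). Linear closure of a set `Y` of variables.

Proof. Let `F J = 2 * e * (bd J \ Y).card - J.card` (an integer) and let `J` minimize `F` among all `J` with
`J.card ≤ r` (`Finset.exists_min_image`).
(size) `F J ≤ F ∅ = 0`, so `2 e |bd J \ Y| ≤ |J|`; `|J| ≤ e |bd J| ≤ e |Y| + e |bd J \ Y|`, so
`2|J| ≤ 2 e |Y| + |J|`, i.e. `|J| ≤ 2 e |Y|`.
(1) `S` disjoint from `J`, `|S| + 2 e |Y| ≤ r`: `(J ∪ S).card = J.card + S.card ≤ r`. By `bd_union`,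
`bd (J ∪ S) \ Y ⊆ (bd J \ Y) ∪ (bd S \ (Vr J ∪ Y))`, so
`F J ≤ F (J ∪ S) ≤ F J + 2 e |bd S \ (Vr J ∪ Y)| - |S|`.
(2) put `J_t = tch J (ball Y t)`, increasing in `t`. Claim `J_T = J` for `T = J.card`. Otherwise, since the
cardinalities of `J_0 ⊆ J_1 ⊆ ... ⊆ J_T` are less than `J.card = T` there is `t < T` with `J_t = J_{t+1}`
(otherwise they increase strictly and `|J_T| ≥ T`). Let `A = J \ J_t`, nonempty. No clause of `A` shares a
variable with a clause `i` of `J_t` (`vr i ⊆ ball Y (t+1)` by `vr_subset_ball`, so such a clause would be in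
`J_{t+1} = J_t`), and the clauses of `A` do not meet `ball Y t`, in particular not `Y`. By
`bd_union_disj`, `bd J \ Y` is the disjoint union of `bd J_t \ Y` and `bd A`, so
`F J = F J_t + 2 e |bd A| - |A| > F J_t`, because `1 ≤ |A| ≤ e |bd A|`; contradiction to minimality.
So every clause of `J` meets `ball Y J.card` and `Vr J ⊆ ball Y (J.card + 1) ⊆ ball Y (2 e |Y| + 1)`.
-/

set_option autoImplicit false
set_option linter.unusedSectionVars false

namespace Pool.Agent.Work.MP_c04246_lc.R

open Finset

variable {U M : Type} [DecidableEq U] [DecidableEq M] [Fintype U] [Fintype M]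
  {cl : M → Finset (U × Bool)}

private def FF (cl : M → Finset (U × Bool)) (e : ℕ) (Y : Finset U) (J : Finset M) : ℤ :=
  2 * e * ((bd cl J \ Y).card : ℤ) - (J.card : ℤ)

private lemma mem_tch' {S : Finset M} {A : Finset U} {i : M} :
    i ∈ tch cl S A ↔ i ∈ S ∧ ¬ Disjoint (vr cl i) A := by
  unfold tch; rw [mem_filter]

theorem lclo {r e : ℕ} (hE : Expn cl r e) (he : 1 ≤ e) (Y : Finset U) :
    ∃ J : Finset M, J.card ≤ 2 * e * Y.card ∧ J.card ≤ r ∧
      (∀ S : Finset M, Disjoint S J → S.card + 2 * e * Y.card ≤ r →
        S.card ≤ 2 * e * (bd cl S \ (Vr cl J ∪ Y)).card) ∧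
      Vr cl J ⊆ ball cl Y (2 * e * Y.card + 1) := by
  classical
  obtain ⟨J, hJmem, hJmin⟩ := Finset.exists_min_image
    ((univ : Finset (Finset M)).filter fun J => J.card ≤ r) (FF cl e Y) ⟨∅, by simp⟩
  rw [mem_filter] at hJmem
  have hJr : J.card ≤ r := hJmem.2
  have hmin : ∀ J' : Finset M, J'.card ≤ r → FF cl e Y J ≤ FF cl e Y J' := fun J' h =>
    hJmin J' (by simp [h])
  -- size
  have h0 : FF cl e Y J ≤ 0 := by
    have h1 := hmin ∅ (by simp)
    have h2 : FF cl e Y (∅ : Finset M) = 0 := by
      unfold FF
      have : bd cl (∅ : Finset M) = ∅ := by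
        rw [eq_empty_iff_forall_notMem]
        intro x hx
        rw [mem_bd] at hx
        obtain ⟨i, hi, _⟩ := hx
        simp at hi
      rw [this]
      simp
    rw [h2] at h1
    exact h1
  have hcard : ∀ S : Finset M, (bd cl S).card ≤ Y.card + (bd cl S \ Y).card := by
    intro S
    have h1 : bd cl S ⊆ Y ∪ (bd cl S \ Y) := by
      intro x hx
      rw [mem_union, mem_sdiff]
      by_cases hxY : x ∈ Y
      · left; exact hxY
      · right; exact ⟨hx, hxY⟩
    exact (card_le_card h1).trans (card_union_le _ _)
  have hsize : J.card ≤ 2 * e * Y.card := by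
    have h1 := hE J hJr
    have h2 := hcard J
    have h3 : e * (bd cl J).card ≤ e * (Y.card + (bd cl J \ Y).card) := Nat.mul_le_mul_left _ h2
    have h4 : 2 * e * (bd cl J \ Y).card ≤ J.card := by
      have : (2 * e * ((bd cl J \ Y).card : ℤ)) ≤ J.card := by
        unfold FF at h0; linarith
      exact_mod_cast this
    nlinarith
  refine ⟨J, hsize, hJr, ?_, ?_⟩
  · intro S hS hSr
    have h1 : (J ∪ S).card = J.card + S.card := card_union_of_disjoint hS.symm
    have h2 := hmin (J ∪ S) (by rw [h1]; omega)
    have h3 : bd cl (J ∪ S) \ Y ⊆ (bd cl J \ Y) ∪ (bd cl S \ (Vr cl J ∪ Y)) := by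
      intro x hx
      rw [mem_sdiff] at hx
      have h4 := bd_union J S hx.1
      rw [mem_union] at h4 ⊢
      rcases h4 with h4 | h4
      · left; rw [mem_sdiff]; exact ⟨h4, hx.2⟩
      · right
        rw [mem_sdiff] at h4 ⊢
        refine ⟨h4.1, ?_⟩
        rw [mem_union]
        rintro (h5 | h5)
        · exact h4.2 h5
        · exact hx.2 h5
    have h4 : (bd cl (J ∪ S) \ Y).card ≤ (bd cl J \ Y).card + (bd cl S \ (Vr cl J ∪ Y)).card :=
      (card_le_card h3).trans (card_union_le _ _)
    unfold FF at h2
    rw [h1] at h2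
    have h5 : (S.card : ℤ) ≤ 2 * e * ((bd cl S \ (Vr cl J ∪ Y)).card : ℤ) := by
      have h6 : (2 * e * ((bd cl (J ∪ S) \ Y).card : ℤ)) ≤
          2 * e * (((bd cl J \ Y).card : ℤ) + ((bd cl S \ (Vr cl J ∪ Y)).card : ℤ)) := by
        apply mul_le_mul_of_nonneg_left
        · exact_mod_cast h4
        · positivity
      push_cast at h2
      nlinarith
    exact_mod_cast h5
  · -- locality
    set Jt : ℕ → Finset M := fun t => tch cl J (ball cl Y t) with hJt
    have hmono : ∀ s t, s ≤ t → Jt s ⊆ Jt t := by
      intro s t hst i hi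
      rw [hJt, mem_tch'] at hi
      show i ∈ tch cl J (ball cl Y t)
      rw [mem_tch']
      exact ⟨hi.1, fun h => hi.2 (h.mono_right (ball_le Y hst))⟩
    have hsub : ∀ t, Jt t ⊆ J := fun t i hi => by
      rw [hJt, mem_tch'] at hi; exact hi.1
    have key : Jt J.card = J := by
      by_contra hne
      have hlt : ∀ t, t ≤ J.card → (Jt t).card < J.card := by
        intro t ht
        have h1 : Jt t ⊂ J := by
          refine ⟨hsub t, fun h => hne ?_⟩
          exact Subset.antisymm (hsub _) (h.trans (hmono t _ ht))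
        exact card_lt_card h1
      have hex : ∃ t, t < J.card ∧ (Jt t).card = (Jt (t + 1)).card := by
        by_contra hcon
        push Not at hcon
        have h1 : ∀ t, t ≤ J.card → t ≤ (Jt t).card := by
          intro t
          induction t with
          | zero => intro _; exact Nat.zero_le _
          | succ t ih =>
            intro ht
            have h2 := ih (by omega)
            have h3 := hcon t (by omega)
            have h4 := card_le_card (hmono t (t + 1) (by omega))
            omega
        have h2 := h1 J.card le_rfl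
        have h3 := hlt J.card le_rfl
        omega
      obtain ⟨t, ht, htc⟩ := hex
      have heq : Jt t = Jt (t + 1) := eq_of_subset_of_card_le (hmono t (t + 1) (by omega)) (by omega)
      set A := J \ Jt t with hA
      have hAne : A.Nonempty := by
        rw [hA, sdiff_nonempty]
        intro h
        have := card_le_card h
        have := hlt t (by omega)
        omega
      have hdisj : ∀ i ∈ Jt t, ∀ j ∈ A, Disjoint (vr cl i) (vr cl j) := by
        intro i hi j hj
        rw [disjoint_left]
        intro x hxi hxj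
        rw [hA, mem_sdiff] at hj
        apply hj.2
        rw [heq]
        show j ∈ tch cl J (ball cl Y (t + 1))
        rw [mem_tch']
        refine ⟨hj.1, ?_⟩
        rw [hJt, mem_tch'] at hi
        have h1 := vr_subset_ball hi.2 hxi
        exact fun h => disjoint_left.mp h hxj h1
      have hAY : ∀ j ∈ A, Disjoint (vr cl j) Y := by
        intro j hj
        rw [hA, mem_sdiff] at hj
        by_contra hcon
        apply hj.2
        show j ∈ tch cl J (ball cl Y t)
        rw [mem_tch']
        exact ⟨hj.1, fun h => hcon (h.mono_right (subset_ball Y t))⟩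
      have hJeq : J = Jt t ∪ A := by
        rw [hA, union_sdiff_of_subset (hsub t)]
      obtain ⟨h1, h2⟩ := bd_union_disj hdisj
      rw [← hJeq] at h1
      have h3 : (bd cl J \ Y).card = (bd cl (Jt t) \ Y).card + (bd cl A).card := by
        rw [h1, union_sdiff_distrib]
        have h4 : bd cl A \ Y = bd cl A := by
          rw [Finset.sdiff_eq_self_iff_disjoint, disjoint_left]
          intro x hxA hxY
          have h5 := bd_subset_Vr A hxA
          unfold Vr at h5
          rw [mem_biUnion] at h5
          obtain ⟨j, hj, hxj⟩ := h5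
          exact disjoint_left.mp (hAY j hj) hxj hxY
        rw [h4, card_union_of_disjoint]
        exact h2.mono_left sdiff_subset
      have hAsub : A ⊆ J := sdiff_subset
      have h4 := hE A ((card_le_card hAsub).trans hJr)
      have h5 := hmin (Jt t) ((card_le_card (hsub t)).trans hJr)
      have h6 : J.card = (Jt t).card + A.card := by
        conv_lhs => rw [hJeq]
        exact card_union_of_disjoint disjoint_sdiff
      unfold FF at h5
      rw [h3, h6] at h5
      push_cast at h5
      have h7 : (A.card : ℤ) ≤ e * ((bd cl A).card : ℤ) := by exact_mod_cast h4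
      have h8 : (1 : ℤ) ≤ A.card := by exact_mod_cast hAne.card_pos
      nlinarith
    intro x hx
    unfold Vr at hx
    rw [mem_biUnion] at hx
    obtain ⟨i, hi, hxi⟩ := hx
    rw [← key] at hi
    change i ∈ tch cl J (ball cl Y J.card) at hi
    rw [mem_tch'] at hi
    exact ball_le Y (by omega) (vr_subset_ball hi.2 hxi)

end Pool.Agent.Work.MP_c04246_lc.R
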