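import Pool.Agent.Work.MP_c04246_lc.R.RBase

/-!
MODULE Mix (size S). Independence of the labels on `V` and off `V`.

Proof of `mix`. The map `(lam, mu) ↦ (ovr V lam mu, ovr V mu lam)` is an involution of
`(U → T) × (U → T)`, so `∑ lam, ∑ mu, F (ovr V lam mu) = ∑ lam, ∑ mu, F lam` (compare `X.sum_mul_indep`
in XReveal.lean).
Proof of `fib`. With `F lam = if Rp lam ∧ Bd lam then 1 else 0` in `mix`:
`card Ω * #{Rp ∧ Bd} = ∑ lam, #{mu | Rp (ovr V lam mu) ∧ Bd (ovr V lam mu)}`; `Rp (ovr V lam mu) ↔ Rp lam` by `hR`
(they agree on `V`), so the sum is at most `∑ (lam with Rp lam) #{mu | Bd (ovr V lam mu)}`. Multiply by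
`N` and use `h`: at most `#{Rp} * card Ω`. Cancel `card Ω > 0` (if `card Ω = 0` everything is empty).
`ovr_ovr`: `L ⊆ V`: `ovr L l (ovr V lam mu) = ovr V (ovr L l lam) mu`.
-/

set_option autoImplicit false

namespace Pool.Agent.Work.MP_c04246_lc.R

open Finset

variable {U T : Type} [DecidableEq U] [Fintype U] [Fintype T]

lemma ovr_ovr {L V : Finset U} (h : L ⊆ V) (l lam mu : U → T) :
    ovr L l (ovr V lam mu) = ovr V (ovr L l lam) mu := by
  funext x
  unfold ovr
  by_cases h1 : x ∈ L
  · rw [if_pos h1, if_pos (h h1), if_pos h1]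
  · rw [if_neg h1, if_neg h1]

private def mx (V : Finset U) : ((U → T) × (U → T)) ≃ ((U → T) × (U → T)) where
  toFun q := (ovr V q.1 q.2, ovr V q.2 q.1)
  invFun q := (ovr V q.1 q.2, ovr V q.2 q.1)
  left_inv q := by
    refine Prod.ext ?_ ?_
    · funext x
      change (if x ∈ V then (if x ∈ V then q.1 x else q.2 x) else
        (if x ∈ V then q.2 x else q.1 x)) = q.1 x
      split <;> rfl
    · funext x
      change (if x ∈ V then (if x ∈ V then q.2 x else q.1 x) else
        (if x ∈ V then q.1 x else q.2 x)) = q.2 x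
      split <;> rfl
  right_inv q := by
    refine Prod.ext ?_ ?_
    · funext x
      change (if x ∈ V then (if x ∈ V then q.1 x else q.2 x) else
        (if x ∈ V then q.2 x else q.1 x)) = q.1 x
      split <;> rfl
    · funext x
      change (if x ∈ V then (if x ∈ V then q.2 x else q.1 x) else
        (if x ∈ V then q.1 x else q.2 x)) = q.2 x
      split <;> rfl

lemma mix (V : Finset U) (F : (U → T) → ℕ) :
    Fintype.card (U → T) * ∑ lam, F lam = ∑ lam : U → T, ∑ mu : U → T, F (ovr V lam mu) := by
  have h1 : ∑ q : (U → T) × (U → T), F q.1 = ∑ q : (U → T) × (U → T), F (ovr V q.1 q.2) :=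
    (Equiv.sum_comp (mx V) (fun q : (U → T) × (U → T) => F q.1)).symm
  rw [Fintype.sum_prod_type, Fintype.sum_prod_type] at h1
  rw [← h1, mul_sum]
  refine sum_congr rfl fun lam _ => ?_
  change _ = ∑ _mu : U → T, F lam
  rw [sum_const, card_univ, smul_eq_mul]

open Classical in
lemma fib (V : Finset U) (Rp Bd : (U → T) → Prop)
    (hR : ∀ lam lam' : U → T, (∀ x ∈ V, lam x = lam' x) → (Rp lam ↔ Rp lam')) (N : ℕ)
    (h : ∀ lam, (univ.filter fun mu : U → T => Bd (ovr V lam mu)).card * N ≤
      Fintype.card (U → T)) :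
    (univ.filter fun lam : U → T => Rp lam ∧ Bd lam).card * N ≤
      (univ.filter fun lam : U → T => Rp lam).card := by
  rcases Nat.eq_zero_or_pos (Fintype.card (U → T)) with h0 | h0
  · have : IsEmpty (U → T) := Fintype.card_eq_zero_iff.1 h0
    rw [univ_eq_empty, filter_empty, card_empty, zero_mul]
    exact Nat.zero_le _
  · have h1 := mix V (fun lam : U → T => if Rp lam ∧ Bd lam then 1 else 0)
    rw [← card_filter] at h1
    have h2 : ∀ lam : U → T, (∑ mu : U → T, if Rp (ovr V lam mu) ∧ Bd (ovr V lam mu) then 1 else 0)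
        * N ≤ if Rp lam then Fintype.card (U → T) else 0 := by
      intro lam
      have he : ∀ mu : U → T, Rp (ovr V lam mu) ↔ Rp lam := by
        intro mu
        apply hR
        intro x hx
        unfold ovr
        rw [if_pos hx]
      by_cases hr : Rp lam
      · rw [if_pos hr, ← card_filter]
        refine le_trans (Nat.mul_le_mul_right N (card_le_card ?_)) (h lam)
        intro mu hmu
        rw [mem_filter] at hmu ⊢
        exact ⟨hmu.1, hmu.2.2⟩
      · rw [if_neg hr]
        have : (∑ mu : U → T, if Rp (ovr V lam mu) ∧ Bd (ovr V lam mu) then 1 else 0) = 0 := by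
          apply sum_eq_zero
          intro mu _
          rw [if_neg]
          rw [he mu]
          exact fun hc => hr hc.1
        rw [this, zero_mul]
    have h3 : Fintype.card (U → T) * (univ.filter fun lam : U → T => Rp lam ∧ Bd lam).card * N ≤
        Fintype.card (U → T) * (univ.filter fun lam : U → T => Rp lam).card := by
      rw [h1, sum_mul]
      refine (sum_le_sum fun lam _ => h2 lam).trans ?_
      rw [← sum_filter, sum_const, smul_eq_mul, mul_comm]
    rw [mul_assoc] at h3
    exact Nat.le_of_mul_le_mul_left h3 h0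

end Pool.Agent.Work.MP_c04246_lc.R
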