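import Pool.Agent.Work.MP_c04246_lc.R.RBase

/-!
MODULE MonA (size M). Basic facts about `mon` and `Dg` (functions of degree at most `d`).

Proofs.
* `mon_mul`: pointwise, `(∀ x ∈ s, y x) ∧ (∀ x ∈ t, y x) ↔ ∀ x ∈ s ∪ t, y x`.
* `Dg_mono`: `Submodule.span_mono`. `const_mem_Dg`: `fun _ => c = c • mon ∅`.
* `mul_mem_Dg`: `Submodule.span_induction` in both variables (or `Submodule.mul_mem_mul` and
  `Submodule.span_mul_span`): `mon s * mon t = mon (s ∪ t)`, `card (s ∪ t) ≤ card s + card t`.
* `prod_mem_Dg`: Finset induction.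
* `var_mem_Dg`: the function `y ↦ if y x then 1 else 0` is `mon {x}`, `y ↦ if y x then 0 else 1` is
  `1 - mon {x}`.
* `agr_mem_Dg`: `agr H w` is the product over `x ∈ H` of `y ↦ if y x = w x then 1 else 0`, each of
  degree at most 1.
* `junta_mem_Dg`: `f` depends only on the variables in `S`. Sum over all subsets `A ⊆ S` (the true
  variables): `f = ∑ A ∈ S.powerset, f (fun x => decide (x ∈ A)) • agr S (fun x => decide (x ∈ A))`
  (for a given `y` exactly the term `A = S.filter (y x = true)` survives).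
* `query_mem_Dg`: `P (y x) y = [y x] * P true y + [¬ y x] * P false y`.
* `sub_mem_Dg` etc. are the submodule axioms, not needed here.
* `ovr_mem_Dg`: substitution of constants for some variables does not increase the degree: by
  span induction, `mon t ∘ ovr D a` is `0` or `mon (t \ D)`.
-/

set_option autoImplicit false

namespace Pool.Agent.Work.MP_c04246_lc.R

open Finset

variable {U : Type} [Fintype U] [DecidableEq U] {𝕜 : Type} [Field 𝕜]

private lemma mon_one' {t : Finset U} {y : U → Bool} (h : ∀ x ∈ t, y x = true) :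
    mon 𝕜 t y = 1 := by
  unfold mon
  rw [if_pos h]

private lemma mon_zero' {t : Finset U} {y : U → Bool} (h : ¬ ∀ x ∈ t, y x = true) :
    mon 𝕜 t y = 0 := by
  unfold mon
  rw [if_neg h]

lemma mon_empty : mon 𝕜 (∅ : Finset U) = 1 := by
  funext y
  rw [mon_one' (fun x hx => absurd hx (Finset.notMem_empty x))]
  rfl

lemma mon_mul (s t : Finset U) : mon 𝕜 s * mon 𝕜 t = mon 𝕜 (s ∪ t) := by
  funext y
  rw [Pi.mul_apply]
  by_cases h1 : ∀ x ∈ s, y x = true
  · by_cases h2 : ∀ x ∈ t, y x = true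
    · rw [mon_one' h1, mon_one' h2, mon_one', one_mul]
      intro x hx
      rcases Finset.mem_union.1 hx with h | h
      · exact h1 x h
      · exact h2 x h
    · rw [mon_zero' h2, mul_zero, mon_zero']
      exact fun h => h2 fun x hx => h x (Finset.mem_union_right _ hx)
  · rw [mon_zero' h1, zero_mul, mon_zero']
    exact fun h => h1 fun x hx => h x (Finset.mem_union_left _ hx)

lemma mon_mem_Dg {t : Finset U} {d : ℕ} (h : t.card ≤ d) : mon 𝕜 t ∈ Dg 𝕜 d :=
  Submodule.subset_span ⟨t, h, rfl⟩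

lemma Dg_mono {a b : ℕ} (h : a ≤ b) : (Dg 𝕜 a : Submodule 𝕜 ((U → Bool) → 𝕜)) ≤ Dg 𝕜 b := by
  refine Submodule.span_mono ?_
  rintro f ⟨t, ht, rfl⟩
  exact ⟨t, ht.trans h, rfl⟩

lemma const_mem_Dg (c : 𝕜) (d : ℕ) : (fun _ => c : (U → Bool) → 𝕜) ∈ Dg 𝕜 d := by
  have h1 : (fun _ => c : (U → Bool) → 𝕜) = c • mon 𝕜 (∅ : Finset U) := by
    funext y
    rw [Pi.smul_apply, mon_empty, Pi.one_apply, smul_eq_mul, mul_one]
  rw [h1]
  exact Submodule.smul_mem _ _ (mon_mem_Dg (by rw [Finset.card_empty]; exact Nat.zero_le _))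

lemma one_mem_Dg (d : ℕ) : (1 : (U → Bool) → 𝕜) ∈ Dg 𝕜 d := const_mem_Dg 1 d

lemma mul_mem_Dg {a b : ℕ} {f g : (U → Bool) → 𝕜} (hf : f ∈ Dg 𝕜 a) (hg : g ∈ Dg 𝕜 b) :
    f * g ∈ Dg 𝕜 (a + b) := by
  unfold Dg at hf
  induction hf using Submodule.span_induction with
  | mem f hf =>
    obtain ⟨s, hs, rfl⟩ := hf
    unfold Dg at hg
    induction hg using Submodule.span_induction with
    | mem g hg =>
      obtain ⟨t, ht, rfl⟩ := hg
      rw [mon_mul]
      exact mon_mem_Dg ((Finset.card_union_le s t).trans (add_le_add hs ht))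
    | zero => rw [mul_zero]; exact Submodule.zero_mem _
    | add g g' _ _ h1 h2 => rw [mul_add]; exact Submodule.add_mem _ h1 h2
    | smul c g _ h1 => rw [mul_smul_comm]; exact Submodule.smul_mem _ _ h1
  | zero => rw [zero_mul]; exact Submodule.zero_mem _
  | add f f' _ _ h1 h2 => rw [add_mul]; exact Submodule.add_mem _ h1 h2
  | smul c f _ h1 => rw [smul_mul_assoc]; exact Submodule.smul_mem _ _ h1

lemma prod_mem_Dg {I : Type} (s : Finset I) (d : I → ℕ) (f : I → (U → Bool) → 𝕜)
    (h : ∀ i ∈ s, f i ∈ Dg 𝕜 (d i)) : ∏ i ∈ s, f i ∈ Dg 𝕜 (∑ i ∈ s, d i) := by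
  classical
  induction s using Finset.induction_on with
  | empty => rw [Finset.prod_empty]; exact one_mem_Dg _
  | insert i s hi ih =>
    rw [Finset.prod_insert hi, Finset.sum_insert hi]
    exact mul_mem_Dg (h i (Finset.mem_insert_self i s))
      (ih fun j hj => h j (Finset.mem_insert_of_mem hj))

lemma pow_mem_Dg {a : ℕ} {f : (U → Bool) → 𝕜} (hf : f ∈ Dg 𝕜 a) (n : ℕ) :
    f ^ n ∈ Dg 𝕜 (n * a) := by
  induction n with
  | zero => rw [pow_zero]; exact one_mem_Dg _
  | succ n ih =>
    rw [pow_succ, Nat.succ_mul]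
    exact mul_mem_Dg ih hf

lemma var_mem_Dg (x : U) (b : Bool) :
    (fun y => if y x = b then 1 else 0 : (U → Bool) → 𝕜) ∈ Dg 𝕜 1 := by
  have h1 : (fun y => if y x = true then 1 else 0 : (U → Bool) → 𝕜) = mon 𝕜 {x} := by
    funext y
    by_cases h : y x = true
    · rw [if_pos h, mon_one']
      intro z hz
      rw [Finset.mem_singleton.1 hz]
      exact h
    · rw [if_neg h, mon_zero']
      exact fun h' => h (h' x (Finset.mem_singleton_self x))
  cases b
  · have h2 : (fun y => if y x = false then 1 else 0 : (U → Bool) → 𝕜) = 1 - mon 𝕜 {x} := by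
      rw [← h1]
      funext y
      rw [Pi.sub_apply, Pi.one_apply]
      cases y x <;> simp
    rw [h2]
    exact Submodule.sub_mem _ (one_mem_Dg _) (mon_mem_Dg (by simp))
  · rw [h1]
    exact mon_mem_Dg (by simp)

lemma agr_mem_Dg (H : Finset U) (w : U → Bool) : agr 𝕜 H w ∈ Dg 𝕜 H.card := by
  have h1 : agr 𝕜 H w = ∏ x ∈ H, (fun y => if y x = w x then 1 else 0 : (U → Bool) → 𝕜) := by
    funext y
    rw [Finset.prod_apply]
    unfold agr
    by_cases h : X.Agr H w y
    · rw [if_pos h]
      symm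
      exact Finset.prod_eq_one fun x hx => if_pos (h x hx)
    · rw [if_neg h]
      symm
      unfold X.Agr at h
      push Not at h
      obtain ⟨x, hx, hne⟩ := h
      exact Finset.prod_eq_zero hx (if_neg hne)
  rw [h1]
  have h2 := prod_mem_Dg (𝕜 := 𝕜) H (fun _ => 1) (fun x => (fun y => if y x = w x then 1 else 0))
    fun x _ => var_mem_Dg x (w x)
  rwa [Finset.sum_const, smul_eq_mul, mul_one] at h2

lemma junta_mem_Dg (S : Finset U) (f : (U → Bool) → 𝕜)
    (h : ∀ y y' : U → Bool, (∀ x ∈ S, y x = y' x) → f y = f y') : f ∈ Dg 𝕜 S.card := by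
  have h1 : f = ∑ A ∈ S.powerset, f (fun x => decide (x ∈ A)) •
      agr 𝕜 S (fun x => decide (x ∈ A)) := by
    funext y
    rw [Finset.sum_apply, Finset.sum_eq_single (S.filter fun x => y x = true)]
    · rw [Pi.smul_apply, smul_eq_mul]
      unfold agr
      rw [if_pos, mul_one]
      · apply h
        intro x hx
        rw [Bool.eq_iff_iff]
        simp [hx]
      · intro x hx
        rw [Bool.eq_iff_iff]
        simp [hx]
    · intro A hA hne
      rw [Pi.smul_apply, smul_eq_mul]
      unfold agr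
      rw [if_neg, mul_zero]
      intro h2
      apply hne
      ext x
      rw [Finset.mem_filter]
      constructor
      · intro hx
        have hxS := Finset.mem_powerset.1 hA hx
        refine ⟨hxS, ?_⟩
        rw [h2 x hxS]
        exact decide_eq_true hx
      · rintro ⟨hxS, hx⟩
        rw [h2 x hxS] at hx
        exact of_decide_eq_true hx
    · intro hn
      exact absurd (Finset.mem_powerset.2 (Finset.filter_subset _ _)) hn
  rw [h1]
  exact Submodule.sum_mem _ fun A _ => Submodule.smul_mem _ _ (agr_mem_Dg S _)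

lemma query_mem_Dg (x : U) {d : ℕ} (P : Bool → (U → Bool) → 𝕜) (h : ∀ b, P b ∈ Dg 𝕜 d) :
    (fun y => P (y x) y) ∈ Dg 𝕜 (d + 1) := by
  have h1 : (fun y => P (y x) y) =
      (fun y => if y x = true then 1 else 0 : (U → Bool) → 𝕜) * P true +
        (fun y => if y x = false then 1 else 0 : (U → Bool) → 𝕜) * P false := by
    funext y
    rw [Pi.add_apply, Pi.mul_apply, Pi.mul_apply]
    cases hy : y x <;> simp
  rw [h1, add_comm d 1]
  exact Submodule.add_mem _ (mul_mem_Dg (var_mem_Dg x true) (h true))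
    (mul_mem_Dg (var_mem_Dg x false) (h false))

lemma ovr_mem_Dg {d : ℕ} {f : (U → Bool) → 𝕜} (hf : f ∈ Dg 𝕜 d) (D : Finset U) (a : U → Bool) :
    (fun y => f (ovr D a y)) ∈ Dg 𝕜 d := by
  unfold Dg at hf
  induction hf using Submodule.span_induction with
  | mem f hf =>
    obtain ⟨t, ht, rfl⟩ := hf
    by_cases h1 : ∀ x ∈ t, x ∈ D → a x = true
    · have h2 : (fun y => mon 𝕜 t (ovr D a y)) = mon 𝕜 (t \ D) := by
        funext y
        by_cases h3 : ∀ x ∈ t \ D, y x = true
        · rw [mon_one' h3, mon_one']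
          intro x hx
          unfold ovr
          by_cases h4 : x ∈ D
          · rw [if_pos h4]; exact h1 x hx h4
          · rw [if_neg h4]; exact h3 x (Finset.mem_sdiff.2 ⟨hx, h4⟩)
        · rw [mon_zero' h3, mon_zero']
          intro h5
          apply h3
          intro x hx
          have h6 := h5 x (Finset.mem_sdiff.1 hx).1
          unfold ovr at h6
          rwa [if_neg (Finset.mem_sdiff.1 hx).2] at h6
      rw [h2]
      exact mon_mem_Dg ((Finset.card_le_card Finset.sdiff_subset).trans ht)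
    · push Not at h1
      obtain ⟨x, hx, hxD, hax⟩ := h1
      have h2 : (fun y => mon 𝕜 t (ovr D a y)) = 0 := by
        funext y
        rw [mon_zero', Pi.zero_apply]
        intro h3
        have h4 := h3 x hx
        unfold ovr at h4
        rw [if_pos hxD] at h4
        exact hax h4
      rw [h2]
      exact Submodule.zero_mem _
  | zero => exact Submodule.zero_mem _
  | add f f' _ _ h1 h2 => exact Submodule.add_mem _ h1 h2
  | smul c f _ h1 => exact Submodule.smul_mem _ _ h1

end Pool.Agent.Work.MP_c04246_lc.R
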