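import Pool.Agent.Work.MP_c04246_lc.R.MonA

/-!
MODULE MonB (size M). Coefficients of a function on the cube in the basis `mon t`.

Proofs. `cf f t` is the Moebius inversion of `f` on the indicator points. For a finset `u` write
`f[u]` for the value at the point `fun x => decide (x ∈ u)`; every point `y` is of this form with
`u = univ.filter (y x = true)`, and `mon t [u] = 1` if `t ⊆ u`, else `0`.
* `cf_add`, `cf_smul`: linear in `f` (`mul_add`, `sum_add_distrib`, ...).
* `sum_cf`: at the point of `u` the right side is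
  `∑ t ⊆ u, ∑ s ⊆ t, (-1)^|t \ s| f[s] = ∑ s ⊆ u, f[s] ∑ (t between s and u) (-1)^|t \ s|`, and the inner sum is
  `0` unless `s = u` (`Finset.sum_powerset_neg_one_pow_card`), where it is `1`.
* `cf_mon`: `cf (mon s) t = ∑ (v, s ⊆ v ⊆ t) (-1)^|t \ v|` which is `1` if `s = t` and `0` otherwise.
  (An alternative for both: the matrix `[t ⊆ u]` is unitriangular.)
* `cf_sum_smul`: from linearity and `cf_mon`.
* `mem_Dg_iff`: (→) span induction with `cf_add`, `cf_smul`, `cf_mon`; (←) `sum_cf`,
  `Submodule.sum_mem`.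
* `cf_dep`: (→) if `t` is not inside `W`, pick `x ∈ t \ W` and pair `s` with `insert x s` (`s` without
  `x`) in the sum defining `cf f t`: the values of `f` agree and the signs are opposite
  (`Finset.sum_involution` or `Finset.powerset_insert`). (←) `sum_cf`, every `mon t` with `t ⊆ W`
  depends only on `W`.
* `eq_zero_of_cf`: `sum_cf`.
-/

set_option autoImplicit false

namespace Pool.Agent.Work.MP_c04246_lc.R

open Finset

variable {U : Type} [Fintype U] [DecidableEq U] {𝕜 : Type} [Field 𝕜]

/-- coefficient of `mon t` -/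
def cf (f : (U → Bool) → 𝕜) (t : Finset U) : 𝕜 :=
  ∑ s ∈ t.powerset, (-1) ^ (t \ s).card * f (fun x => decide (x ∈ s))

lemma cf_add (f g : (U → Bool) → 𝕜) (t : Finset U) : cf (f + g) t = cf f t + cf g t := by
  unfold cf
  rw [← Finset.sum_add_distrib]
  exact Finset.sum_congr rfl fun s _ => by rw [Pi.add_apply, mul_add]

lemma cf_smul (c : 𝕜) (f : (U → Bool) → 𝕜) (t : Finset U) : cf (c • f) t = c * cf f t := by
  unfold cf
  rw [Finset.mul_sum]
  exact Finset.sum_congr rfl fun s _ => by rw [Pi.smul_apply, smul_eq_mul]; ring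

lemma cf_sub (f g : (U → Bool) → 𝕜) (t : Finset U) : cf (f - g) t = cf f t - cf g t := by
  unfold cf
  rw [← Finset.sum_sub_distrib]
  exact Finset.sum_congr rfl fun s _ => by rw [Pi.sub_apply, mul_sub]

lemma cf_zero (t : Finset U) : cf (0 : (U → Bool) → 𝕜) t = 0 := by
  unfold cf
  exact Finset.sum_eq_zero fun s _ => by rw [Pi.zero_apply, mul_zero]

private lemma cf_sum {I : Type} (T : Finset I) (F : I → (U → Bool) → 𝕜) (t : Finset U) :
    cf (∑ i ∈ T, F i) t = ∑ i ∈ T, cf (F i) t := by
  classical
  induction T using Finset.induction_on with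
  | empty => rw [Finset.sum_empty, Finset.sum_empty, cf_zero]
  | insert i T hi ih => rw [Finset.sum_insert hi, Finset.sum_insert hi, cf_add, ih]

private lemma altsum (x : Finset U) :
    ∑ w ∈ x.powerset, (-1 : 𝕜) ^ (x \ w).card = if x = ∅ then 1 else 0 := by
  have h1 := Finset.prod_add (fun _ : U => (1 : 𝕜)) (fun _ => (-1 : 𝕜)) x
  simp only [Finset.prod_const, one_pow, one_mul, add_neg_cancel] at h1
  rw [← h1]
  by_cases hx : x = ∅
  · rw [if_pos hx, hx, Finset.card_empty, pow_zero]
  · rw [if_neg hx, zero_pow]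
    rw [Ne, Finset.card_eq_zero]
    exact hx

private lemma altsum' (x : Finset U) :
    ∑ w ∈ x.powerset, (-1 : 𝕜) ^ w.card = if x = ∅ then 1 else 0 := by
  have h1 := Finset.prod_add (fun _ : U => (-1 : 𝕜)) (fun _ => (1 : 𝕜)) x
  simp only [Finset.prod_const, one_pow, mul_one, neg_add_cancel] at h1
  rw [← h1]
  by_cases hx : x = ∅
  · rw [if_pos hx, hx, Finset.card_empty, pow_zero]
  · rw [if_neg hx, zero_pow]
    rw [Ne, Finset.card_eq_zero]
    exact hx

private lemma sum_between {s u : Finset U} (h : s ⊆ u) (F : Finset U → 𝕜) :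
    ∑ t ∈ u.powerset.filter (fun t => s ⊆ t), F t = ∑ w ∈ (u \ s).powerset, F (s ∪ w) := by
  symm
  refine Finset.sum_nbij' (fun w => s ∪ w) (fun t => t \ s) ?_ ?_ ?_ ?_ ?_
  · intro w hw
    rw [Finset.mem_filter, Finset.mem_powerset]
    exact ⟨Finset.union_subset h ((Finset.mem_powerset.1 hw).trans Finset.sdiff_subset),
      Finset.subset_union_left⟩
  · intro t ht
    rw [Finset.mem_filter, Finset.mem_powerset] at ht
    rw [Finset.mem_powerset]
    exact Finset.sdiff_subset_sdiff ht.1 subset_rfl
  · intro w hw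
    rw [Finset.mem_powerset] at hw
    show (s ∪ w) \ s = w
    rw [Finset.union_sdiff_left]
    exact Finset.sdiff_eq_self_of_disjoint (Finset.disjoint_of_subset_left hw
      Finset.sdiff_disjoint)
  · intro t ht
    rw [Finset.mem_filter] at ht
    exact Finset.union_sdiff_of_subset ht.2
  · intro w _
    rfl

/-- sum over the sets between `s` and `u`, sign of the lower part -/
private lemma between_low (s u : Finset U) :
    ∑ t ∈ u.powerset.filter (fun t => s ⊆ t), (-1 : 𝕜) ^ (t \ s).card =
      if s = u then 1 else 0 := by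
  by_cases h : s ⊆ u
  · rw [sum_between h]
    have h1 : ∀ w ∈ (u \ s).powerset, (-1 : 𝕜) ^ ((s ∪ w) \ s).card = (-1) ^ w.card := by
      intro w hw
      rw [Finset.mem_powerset] at hw
      rw [Finset.union_sdiff_left, Finset.sdiff_eq_self_of_disjoint
        (Finset.disjoint_of_subset_left hw Finset.sdiff_disjoint)]
    rw [Finset.sum_congr rfl h1, altsum']
    by_cases hsu : s = u
    · rw [if_pos hsu, if_pos (by rw [hsu, Finset.sdiff_self])]
    · rw [if_neg hsu, if_neg]
      rw [Finset.sdiff_eq_empty_iff_subset]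
      exact fun h' => hsu (h.antisymm h')
  · rw [if_neg (fun h' : s = u => h (h' ▸ subset_rfl)), Finset.filter_false_of_mem, Finset.sum_empty]
    intro t ht hst
    exact h (hst.trans (Finset.mem_powerset.1 ht))

/-- sum over the sets between `s` and `u`, sign of the upper part -/
private lemma between_up (s u : Finset U) :
    ∑ t ∈ u.powerset.filter (fun t => s ⊆ t), (-1 : 𝕜) ^ (u \ t).card =
      if s = u then 1 else 0 := by
  by_cases h : s ⊆ u
  · rw [sum_between h]
    have h1 : ∀ w ∈ (u \ s).powerset, (-1 : 𝕜) ^ (u \ (s ∪ w)).card =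
        (-1) ^ ((u \ s) \ w).card := by
      intro w _
      rw [Finset.sdiff_sdiff_left']
      congr 2
      ext x
      simp only [Finset.mem_sdiff, Finset.mem_union, Finset.mem_inter]
      tauto
    rw [Finset.sum_congr rfl h1, altsum]
    by_cases hsu : s = u
    · rw [if_pos hsu, if_pos (by rw [hsu, Finset.sdiff_self])]
    · rw [if_neg hsu, if_neg]
      rw [Finset.sdiff_eq_empty_iff_subset]
      exact fun h' => hsu (h.antisymm h')
  · rw [if_neg (fun h' : s = u => h (h' ▸ subset_rfl)), Finset.filter_false_of_mem, Finset.sum_empty]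
    intro t ht hst
    exact h (hst.trans (Finset.mem_powerset.1 ht))

private lemma mon_pt (t u : Finset U) :
    mon 𝕜 t (fun x => decide (x ∈ u)) = if t ⊆ u then 1 else 0 := by
  unfold mon
  by_cases h : t ⊆ u
  · rw [if_pos h, if_pos]
    intro x hx
    exact decide_eq_true (h hx)
  · rw [if_neg h, if_neg]
    intro h'
    exact h fun x hx => of_decide_eq_true (h' x hx)

lemma sum_cf (f : (U → Bool) → 𝕜) : f = ∑ t : Finset U, cf f t • mon 𝕜 t := by
  funext y
  obtain ⟨u, rfl⟩ : ∃ u : Finset U, y = fun x => decide (x ∈ u) :=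
    ⟨univ.filter fun x => y x = true, by funext x; simp⟩
  rw [Finset.sum_apply]
  have h1 : ∀ t : Finset U, (cf f t • mon 𝕜 t) (fun x => decide (x ∈ u)) =
      if t ⊆ u then cf f t else 0 := by
    intro t
    rw [Pi.smul_apply, smul_eq_mul, mon_pt]
    split_ifs <;> simp
  rw [Finset.sum_congr rfl fun t _ => h1 t, ← Finset.sum_filter]
  have h2 : (univ.filter fun t : Finset U => t ⊆ u) = u.powerset := by
    ext t
    simp
  rw [h2]
  unfold cf
  have h3 : ∑ t ∈ u.powerset, ∑ s ∈ t.powerset, (-1 : 𝕜) ^ (t \ s).card *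
      f (fun x => decide (x ∈ s)) = ∑ s ∈ u.powerset,
        ∑ t ∈ u.powerset.filter (fun t => s ⊆ t), (-1 : 𝕜) ^ (t \ s).card *
      f (fun x => decide (x ∈ s)) := by
    apply Finset.sum_comm'
    intro t s
    simp only [Finset.mem_powerset, Finset.mem_filter]
    constructor
    · rintro ⟨h4, h5⟩
      exact ⟨⟨h4, h5⟩, h5.trans h4⟩
    · rintro ⟨⟨h4, h5⟩, _⟩
      exact ⟨h4, h5⟩
  rw [h3]
  have h4 : ∀ s ∈ u.powerset, ∑ t ∈ u.powerset.filter (fun t => s ⊆ t), (-1 : 𝕜) ^ (t \ s).card *
      f (fun x => decide (x ∈ s)) = if s = u then f (fun x => decide (x ∈ u)) else 0 := by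
    intro s _
    rw [← Finset.sum_mul, between_low]
    by_cases h : s = u
    · rw [if_pos h, if_pos h, one_mul, h]
    · rw [if_neg h, if_neg h, zero_mul]
  rw [Finset.sum_congr rfl h4, Finset.sum_ite_eq', if_pos (Finset.mem_powerset.2 subset_rfl)]

lemma cf_mon (s t : Finset U) : cf (mon 𝕜 s) t = if s = t then 1 else 0 := by
  rw [← between_up (𝕜 := 𝕜) s t, Finset.sum_filter]
  unfold cf
  refine Finset.sum_congr rfl fun v _ => ?_
  rw [mon_pt]
  split_ifs <;> simp

lemma cf_sum_smul (T : Finset (Finset U)) (c : Finset U → 𝕜) (t : Finset U) :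
    cf (∑ s ∈ T, c s • mon 𝕜 s) t = if t ∈ T then c t else 0 := by
  rw [cf_sum]
  have h1 : ∀ s ∈ T, cf (c s • mon 𝕜 s) t = if s = t then c t else 0 := by
    intro s _
    rw [cf_smul, cf_mon]
    by_cases h : s = t
    · rw [if_pos h, if_pos h, mul_one, h]
    · rw [if_neg h, if_neg h, mul_zero]
  rw [Finset.sum_congr rfl h1, Finset.sum_ite_eq']

lemma mem_Dg_iff (f : (U → Bool) → 𝕜) (d : ℕ) :
    f ∈ Dg 𝕜 d ↔ ∀ t : Finset U, cf f t ≠ 0 → t.card ≤ d := by
  constructor
  · intro hf
    unfold Dg at hf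
    induction hf using Submodule.span_induction with
    | mem f hf =>
      obtain ⟨s, hs, rfl⟩ := hf
      intro t ht
      rw [cf_mon] at ht
      have h1 : s = t := by
        by_contra h
        rw [if_neg h] at ht
        exact ht rfl
      rw [← h1]
      exact hs
    | zero => intro t ht; exact absurd (cf_zero t) ht
    | add f g _ _ h1 h2 =>
      intro t ht
      rw [cf_add] at ht
      by_cases h3 : cf f t = 0
      · rw [h3, zero_add] at ht
        exact h2 t ht
      · exact h1 t h3
    | smul c f _ h1 =>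
      intro t ht
      rw [cf_smul] at ht
      exact h1 t (right_ne_zero_of_mul ht)
  · intro h
    rw [sum_cf f]
    refine Submodule.sum_mem _ fun t _ => ?_
    by_cases h1 : cf f t = 0
    · rw [h1, zero_smul]
      exact Submodule.zero_mem _
    · exact Submodule.smul_mem _ _ (mon_mem_Dg (h t h1))

lemma cf_dep (f : (U → Bool) → 𝕜) (W : Finset U) :
    (∀ y y' : U → Bool, (∀ x ∈ W, y x = y' x) → f y = f y') ↔
      ∀ t : Finset U, cf f t ≠ 0 → t ⊆ W := by
  constructor
  · intro h t ht
    by_contra hcon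
    obtain ⟨x, hxt, hxW⟩ := Finset.not_subset.1 hcon
    apply ht
    obtain ⟨t', hxt', rfl⟩ : ∃ t', x ∉ t' ∧ t = insert x t' :=
      ⟨t.erase x, Finset.notMem_erase x t, (Finset.insert_erase hxt).symm⟩
    unfold cf
    rw [Finset.sum_powerset_insert hxt', ← Finset.sum_add_distrib]
    refine Finset.sum_eq_zero fun s hs => ?_
    rw [Finset.mem_powerset] at hs
    have hxs : x ∉ s := fun h' => hxt' (hs h')
    have h1 : f (fun z => decide (z ∈ s)) = f (fun z => decide (z ∈ insert x s)) := by
      apply h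
      intro z hz
      have hzx : z ≠ x := fun h' => hxW (h' ▸ hz)
      simp [Finset.mem_insert, hzx]
    have h2 : (insert x t' \ s).card = (t' \ s).card + 1 := by
      rw [Finset.insert_sdiff_of_notMem _ hxs, Finset.card_insert_of_notMem]
      exact fun h' => hxt' (Finset.mem_sdiff.1 h').1
    have h3 : (insert x t' \ insert x s).card = (t' \ s).card := by
      congr 1
      ext z
      simp only [Finset.mem_sdiff, Finset.mem_insert]
      constructor
      · rintro ⟨h4 | h4, h5⟩
        · exact absurd (Or.inl h4) h5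
        · exact ⟨h4, fun h6 => h5 (Or.inr h6)⟩
      · rintro ⟨h4, h5⟩
        refine ⟨Or.inr h4, ?_⟩
        rintro (h6 | h6)
        · exact hxt' (h6 ▸ h4)
        · exact h5 h6
    rw [← h1, h2, h3, pow_succ]
    ring
  · intro h y y' hyy
    rw [sum_cf f, Finset.sum_apply, Finset.sum_apply]
    refine Finset.sum_congr rfl fun t _ => ?_
    rw [Pi.smul_apply, Pi.smul_apply]
    by_cases h1 : cf f t = 0
    · rw [h1, zero_smul, zero_smul]
    · have h2 := h t h1
      congr 1
      unfold mon
      have h3 : (∀ x ∈ t, y x = true) ↔ ∀ x ∈ t, y' x = true := by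
        constructor
        · intro h4 x hx
          rw [← hyy x (h2 hx)]
          exact h4 x hx
        · intro h4 x hx
          rw [hyy x (h2 hx)]
          exact h4 x hx
      by_cases h4 : ∀ x ∈ t, y x = true
      · rw [if_pos h4, if_pos (h3.1 h4)]
      · rw [if_neg h4, if_neg (fun h5 => h4 (h3.2 h5))]

lemma eq_zero_of_cf (f : (U → Bool) → 𝕜) (h : ∀ t : Finset U, cf f t = 0) : f = 0 := by
  rw [sum_cf f]
  exact Finset.sum_eq_zero fun t _ => by rw [h t, zero_smul]

end Pool.Agent.Work.MP_c04246_lc.R
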