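import Pool.Agent.Work.MP_c04246_lc.R.MonB

/-!
MODULE MonC (size M). Coefficients after substituting constants, splitting off a monomial, leading
terms.

Proofs. Let `f' = fun y => f (ovr D a y)`. By `sum_cf`, `f' = ∑ t, cf f t • (mon t ∘ ovr D a)` and
`mon t ∘ ovr D a` is `mon (t \ D)` if `a x = true` for all `x ∈ t ∩ D`, and `0` otherwise. Taking
coefficients (`cf_sum_smul` or linearity and `cf_mon`):
 `cf f' t = ∑ (s with s \ D = t and a = true on s ∩ D) cf f s`.
* `cf_ovr_ne`: some `s` in this sum has `cf f s ≠ 0`; `t = s \ D`.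
* `cf_ovr_eq`: all terms with `s ≠ t` vanish since `t ⊂ s` (`s \ D = t`, so `t ⊆ s`), and `s = t` occurs,
  because `t` is disjoint from `D`.
* `IsLT.ovr`: let `t` be the leading term of `f`, disjoint from `D`. For `s` with `cf f' s ≠ 0` take
  `s' ⊇ s` with `cf f s' ≠ 0`: either `s = s'`, `o s ≤ o t`; or `s.card < s'.card`, so `o s < o s' ≤ o t`.
  `cf f' t = cf f t` by `cf_ovr_eq`: a strict superset `s` of `t` has larger cardinality so
  `o s > o t`, hence `cf f s = 0`.
* `exists_ord`: `o t = t.card * N + idx t` with `N = Fintype.card (Finset U)` and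
  `idx = Fintype.equivFin`.
* `exists_LT`: `f ≠ 0` has some nonzero coefficient (`eq_zero_of_cf`); maximize `o` over the support
  (`Finset.exists_max_image`).
* `split_mon`: `f` of degree `≤ D` vanishing on a set `A` of points that depends only on the
  variables in `W` (`hA`). Write `f = ∑ m (finset disjoint from W) mon m * h_m`,
  `h_m = ∑ s ⊆ W, cf f (s ∪ m) • mon s`. Each `h_m` vanishes on `A`: by strong induction on `m`
  (on `m.card`): let `y ∈ A`, let `y'` agree with `y` on `W`, be true on `m` and false elsewhere;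
  `y' ∈ A`, `0 = f y' = ∑ (m' ⊆ m) h_{m'} y' = h_m y'` by induction, and `h_m y = h_m y'` since `h_m`
  depends on `W` only. Statement returned: `f = ∑ m ∈ (univ \ W).powerset, F m`, with
  `F m = mon m * h_m` vanishing on `A`, with all terms inside `W ∪ m`, of size at most `D`; and
  `F m = 0` unless `m.card ≤ D`.
-/

set_option autoImplicit false

namespace Pool.Agent.Work.MP_c04246_lc.R

open Finset

variable {U : Type} [Fintype U] [DecidableEq U] {𝕜 : Type} [Field 𝕜]

/-- `t` is the leading term of `f` for the order `o` -/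
def IsLT (o : Finset U → ℕ) (f : (U → Bool) → 𝕜) (t : Finset U) : Prop :=
  cf f t ≠ 0 ∧ ∀ s, cf f s ≠ 0 → o s ≤ o t

/-- admissible orders of the terms: by size first -/
def Ord (o : Finset U → ℕ) : Prop :=
  Function.Injective o ∧ ∀ s t : Finset U, s.card < t.card → o s < o t

variable (U) in
lemma exists_ord : ∃ o : Finset U → ℕ, Ord o := by
  have hN : ∀ t : Finset U, (Fintype.equivFin (Finset U) t : ℕ) < Fintype.card (Finset U) :=
    fun t => (Fintype.equivFin (Finset U) t).2
  refine ⟨fun t => (Fintype.equivFin (Finset U) t : ℕ) + Fintype.card (Finset U) * t.card, ?_, ?_⟩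
  · intro s t hst
    simp only at hst
    have h1 := congrArg (fun n => n % Fintype.card (Finset U)) hst
    simp only [Nat.add_mul_mod_self_left, Nat.mod_eq_of_lt (hN s), Nat.mod_eq_of_lt (hN t)] at h1
    exact (Fintype.equivFin (Finset U)).injective (Fin.ext h1)
  · intro s t hst
    simp only
    calc (Fintype.equivFin (Finset U) s : ℕ) + Fintype.card (Finset U) * s.card
        < Fintype.card (Finset U) + Fintype.card (Finset U) * s.card :=
          Nat.add_lt_add_right (hN s) _
      _ = Fintype.card (Finset U) * (s.card + 1) := by ring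
      _ ≤ Fintype.card (Finset U) * t.card := Nat.mul_le_mul_left _ hst
      _ ≤ (Fintype.equivFin (Finset U) t : ℕ) + Fintype.card (Finset U) * t.card :=
          Nat.le_add_left _ _

lemma exists_LT (o : Finset U → ℕ) {f : (U → Bool) → 𝕜} (hf : f ≠ 0) : ∃ t, IsLT o f t := by
  classical
  have h1 : (univ.filter fun t : Finset U => cf f t ≠ 0).Nonempty := by
    by_contra h
    rw [Finset.not_nonempty_iff_eq_empty, Finset.filter_eq_empty_iff] at h
    apply hf
    apply eq_zero_of_cf
    intro t
    by_contra h2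
    exact h (Finset.mem_univ t) h2
  obtain ⟨t, ht, hmax⟩ := Finset.exists_max_image _ o h1
  refine ⟨t, (Finset.mem_filter.1 ht).2, fun s hs => hmax s ?_⟩
  rw [Finset.mem_filter]
  exact ⟨Finset.mem_univ s, hs⟩

private lemma cf_sum {I : Type} (T : Finset I) (F : I → (U → Bool) → 𝕜) (t : Finset U) :
    cf (∑ i ∈ T, F i) t = ∑ i ∈ T, cf (F i) t := by
  classical
  induction T using Finset.induction_on with
  | empty => rw [Finset.sum_empty, Finset.sum_empty, cf_zero]
  | insert i T hi ih => rw [Finset.sum_insert hi, Finset.sum_insert hi, cf_add, ih]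

private lemma mon_ovr (s D : Finset U) (a : U → Bool) :
    (fun y => mon 𝕜 s (ovr D a y)) =
      if (∀ x ∈ s, x ∈ D → a x = true) then mon 𝕜 (s \ D) else 0 := by
  by_cases h1 : ∀ x ∈ s, x ∈ D → a x = true
  · rw [if_pos h1]
    funext y
    unfold mon
    by_cases h3 : ∀ x ∈ s \ D, y x = true
    · rw [if_pos h3, if_pos]
      intro x hx
      unfold ovr
      by_cases h4 : x ∈ D
      · rw [if_pos h4]; exact h1 x hx h4
      · rw [if_neg h4]; exact h3 x (Finset.mem_sdiff.2 ⟨hx, h4⟩)
    · rw [if_neg h3, if_neg]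
      intro h5
      apply h3
      intro x hx
      have h6 := h5 x (Finset.mem_sdiff.1 hx).1
      unfold ovr at h6
      rwa [if_neg (Finset.mem_sdiff.1 hx).2] at h6
  · rw [if_neg h1]
    push Not at h1
    obtain ⟨x, hx, hxD, hax⟩ := h1
    funext y
    unfold mon
    rw [if_neg, Pi.zero_apply]
    intro h3
    have h4 := h3 x hx
    unfold ovr at h4
    rw [if_pos hxD] at h4
    exact hax h4

private lemma cf_ovr (f : (U → Bool) → 𝕜) (D : Finset U) (a : U → Bool) (t : Finset U) :
    cf (fun y => f (ovr D a y)) t =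
      ∑ s : Finset U, if (s \ D = t ∧ ∀ x ∈ s, x ∈ D → a x = true) then cf f s else 0 := by
  have h1 : (fun y => f (ovr D a y)) =
      ∑ s : Finset U, cf f s • (fun y => mon 𝕜 s (ovr D a y)) := by
    funext y
    rw [Finset.sum_apply]
    conv_lhs => rw [sum_cf f, Finset.sum_apply]
    rfl
  rw [h1, cf_sum]
  refine Finset.sum_congr rfl fun s _ => ?_
  rw [cf_smul, mon_ovr]
  by_cases h2 : ∀ x ∈ s, x ∈ D → a x = true
  · rw [if_pos h2, cf_mon]
    by_cases h3 : s \ D = t
    · rw [if_pos h3, if_pos ⟨h3, h2⟩, mul_one]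
    · rw [if_neg h3, if_neg (fun h => h3 h.1), mul_zero]
  · rw [if_neg h2, cf_zero, mul_zero, if_neg (fun h => h2 h.2)]

lemma cf_ovr_ne (f : (U → Bool) → 𝕜) (D : Finset U) (a : U → Bool) (t : Finset U)
    (h : cf (fun y => f (ovr D a y)) t ≠ 0) :
    Disjoint t D ∧ ∃ s, t ⊆ s ∧ cf f s ≠ 0 := by
  rw [cf_ovr] at h
  obtain ⟨s, -, hs⟩ := Finset.exists_ne_zero_of_sum_ne_zero h
  have h1 : s \ D = t ∧ ∀ x ∈ s, x ∈ D → a x = true := by
    by_contra h2
    rw [if_neg h2] at hs
    exact hs rfl
  rw [if_pos h1] at hs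
  refine ⟨?_, s, ?_, hs⟩
  · rw [← h1.1]; exact Finset.sdiff_disjoint
  · rw [← h1.1]; exact Finset.sdiff_subset

lemma cf_ovr_eq (f : (U → Bool) → 𝕜) (D : Finset U) (a : U → Bool) (t : Finset U)
    (ht : Disjoint t D) (h : ∀ s, t ⊂ s → cf f s = 0) :
    cf (fun y => f (ovr D a y)) t = cf f t := by
  rw [cf_ovr, Finset.sum_eq_single t]
  · rw [if_pos]
    refine ⟨Finset.sdiff_eq_self_of_disjoint ht, fun x hx hxD => ?_⟩
    exact absurd hxD (Finset.disjoint_left.1 ht hx)
  · intro s _ hst
    by_cases h1 : s \ D = t ∧ ∀ x ∈ s, x ∈ D → a x = true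
    · rw [if_pos h1]
      apply h
      have h2 : t ⊆ s := by rw [← h1.1]; exact Finset.sdiff_subset
      exact Finset.ssubset_iff_subset_ne.2 ⟨h2, Ne.symm hst⟩
    · rw [if_neg h1]
  · intro h1
    exact absurd (Finset.mem_univ t) h1

lemma IsLT.ovr {o : Finset U → ℕ} (ho : Ord o) {f : (U → Bool) → 𝕜} {t : Finset U}
    (hf : IsLT o f t) (D : Finset U) (a : U → Bool) (ht : Disjoint t D) :
    IsLT o (fun y => f (ovr D a y)) t := by
  refine ⟨?_, ?_⟩
  · rw [cf_ovr_eq f D a t ht]
    · exact hf.1
    · intro s hs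
      by_contra h1
      have h2 := hf.2 s h1
      have h3 := ho.2 t s (Finset.card_lt_card hs)
      omega
  · intro s hs
    obtain ⟨-, s', hss, hs'⟩ := cf_ovr_ne f D a s hs
    have h1 := hf.2 s' hs'
    rcases eq_or_ne s s' with rfl | hne
    · exact h1
    · have h2 := ho.2 s s' (Finset.card_lt_card (Finset.ssubset_iff_subset_ne.2 ⟨hss, hne⟩))
      omega

lemma split_mon (f : (U → Bool) → 𝕜) (D : ℕ) (hf : f ∈ Dg 𝕜 D) (W : Finset U)
    (A : Set (U → Bool)) (hA : ∀ y y' : U → Bool, (∀ x ∈ W, y x = y' x) → y ∈ A → y' ∈ A)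
    (h0 : ∀ y ∈ A, f y = 0) :
    ∃ F : Finset U → (U → Bool) → 𝕜, f = ∑ m : Finset U, F m ∧
      ∀ m, (∀ y ∈ A, F m y = 0) ∧ (∀ t, cf (F m) t ≠ 0 → t ⊆ W ∪ m ∧ t.card ≤ D) ∧
        (D < m.card → F m = 0) := by
  classical
  have hfD := (mem_Dg_iff f D).1 hf
  -- the parts
  let h : Finset U → (U → Bool) → 𝕜 := fun m => ∑ s ∈ W.powerset, cf f (s ∪ m) • mon 𝕜 s
  let F : Finset U → (U → Bool) → 𝕜 := fun m =>
    if Disjoint m W then ∑ s ∈ W.powerset, cf f (s ∪ m) • mon 𝕜 (s ∪ m) else 0
  have hFmul : ∀ m, Disjoint m W → F m = mon 𝕜 m * h m := by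
    intro m hm
    show (if Disjoint m W then _ else _) = mon 𝕜 m * ∑ s ∈ W.powerset, cf f (s ∪ m) • mon 𝕜 s
    rw [if_pos hm, Finset.mul_sum]
    refine Finset.sum_congr rfl fun s _ => ?_
    rw [mul_smul_comm, mon_mul, Finset.union_comm m s]
  have hFsum : f = ∑ m : Finset U, F m := by
    conv_lhs => rw [sum_cf f]
    have h1 : ∑ m : Finset U, F m = ∑ m ∈ univ.filter (fun m => Disjoint m W),
        ∑ s ∈ W.powerset, cf f (s ∪ m) • mon 𝕜 (s ∪ m) := by
      rw [Finset.sum_filter]
    rw [h1, Finset.sum_sigma']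
    refine Finset.sum_nbij' (fun t => ⟨t \ W, t ∩ W⟩) (fun p => p.2 ∪ p.1) ?_ ?_ ?_ ?_ ?_
    · intro t _
      rw [Finset.mem_sigma]
      refine ⟨Finset.mem_filter.2 ⟨Finset.mem_univ _, Finset.sdiff_disjoint⟩,
        Finset.mem_powerset.2 Finset.inter_subset_right⟩
    · intro p _
      exact Finset.mem_univ _
    · intro t _
      show t ∩ W ∪ t \ W = t
      rw [Finset.union_comm]
      exact Finset.sdiff_union_inter t W
    · rintro ⟨m, s⟩ hp
      rw [Finset.mem_sigma, Finset.mem_filter, Finset.mem_powerset] at hp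
      obtain ⟨⟨-, hm⟩, hs⟩ := hp
      simp only at hm hs
      have e1 : (s ∪ m) \ W = m := by
        rw [Finset.union_sdiff_distrib, Finset.sdiff_eq_empty_iff_subset.2 hs,
          Finset.empty_union, Finset.sdiff_eq_self_of_disjoint hm]
      have e2 : (s ∪ m) ∩ W = s := by
        rw [Finset.union_inter_distrib_right, Finset.inter_eq_left.2 hs,
          Finset.disjoint_iff_inter_eq_empty.1 hm, Finset.union_empty]
      show (⟨(s ∪ m) \ W, (s ∪ m) ∩ W⟩ : Σ _ : Finset U, Finset U) = ⟨m, s⟩
      rw [e1, e2]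
    · intro t _
      show _ = cf f (t ∩ W ∪ t \ W) • mon 𝕜 (t ∩ W ∪ t \ W)
      have e1 : t ∩ W ∪ t \ W = t := by
        rw [Finset.union_comm]
        exact Finset.sdiff_union_inter t W
      rw [e1]
  have hmonW : ∀ (m : Finset U) (y y' : U → Bool), (∀ x ∈ W, y x = y' x) → h m y = h m y' := by
    intro m y y' hyy
    show (∑ s ∈ W.powerset, cf f (s ∪ m) • mon 𝕜 s) y =
      (∑ s ∈ W.powerset, cf f (s ∪ m) • mon 𝕜 s) y'
    rw [Finset.sum_apply, Finset.sum_apply]
    refine Finset.sum_congr rfl fun s hs => ?_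
    rw [Pi.smul_apply, Pi.smul_apply]
    congr 1
    rw [Finset.mem_powerset] at hs
    unfold mon
    have h3 : (∀ x ∈ s, y x = true) ↔ ∀ x ∈ s, y' x = true := by
      constructor
      · intro h4 x hx
        rw [← hyy x (hs hx)]
        exact h4 x hx
      · intro h4 x hx
        rw [hyy x (hs hx)]
        exact h4 x hx
    by_cases h4 : ∀ x ∈ s, y x = true
    · rw [if_pos h4, if_pos (h3.1 h4)]
    · rw [if_neg h4, if_neg (fun h5 => h4 (h3.2 h5))]
  have hvan : ∀ m : Finset U, Disjoint m W → ∀ y ∈ A, h m y = 0 := by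
    intro m
    induction m using Finset.strongInduction with
    | H m ih =>
      intro hm y hy
      have hyW : ∀ x ∈ W, y x = (fun x => if x ∈ W then y x else decide (x ∈ m)) x := by
        intro x hx
        simp only [if_pos hx]
      have hy' := hA y _ hyW hy
      rw [hmonW m y _ hyW]
      have h1 := h0 _ hy'
      rw [hFsum, Finset.sum_apply, Finset.sum_eq_single m] at h1
      · rw [hFmul m hm, Pi.mul_apply] at h1
        have h2 : mon 𝕜 m (fun x => if x ∈ W then y x else decide (x ∈ m)) = 1 := by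
          unfold mon
          rw [if_pos]
          intro x hx
          simp only [if_neg (Finset.disjoint_left.1 hm hx)]
          exact decide_eq_true hx
        rwa [h2, one_mul] at h1
      · intro m' _ hne
        by_cases hm' : Disjoint m' W
        · rw [hFmul m' hm', Pi.mul_apply]
          by_cases hsub : m' ⊆ m
          · rw [ih m' (Finset.ssubset_iff_subset_ne.2 ⟨hsub, hne⟩) hm' _ hy', mul_zero]
          · obtain ⟨x, hx, hxm⟩ := Finset.not_subset.1 hsub
            have h2 : mon 𝕜 m' (fun x => if x ∈ W then y x else decide (x ∈ m)) = 0 := by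
              unfold mon
              rw [if_neg]
              intro h3
              have h4 := h3 x hx
              simp only [if_neg (Finset.disjoint_left.1 hm' hx)] at h4
              exact hxm (of_decide_eq_true h4)
            rw [h2, zero_mul]
        · show (if Disjoint m' W then _ else (0 : (U → Bool) → 𝕜)) _ = 0
          rw [if_neg hm']
          rfl
      · intro h2
        exact absurd (Finset.mem_univ m) h2
  refine ⟨F, hFsum, fun m => ⟨?_, ?_, ?_⟩⟩
  · intro y hy
    by_cases hm : Disjoint m W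
    · rw [hFmul m hm, Pi.mul_apply, hvan m hm y hy, mul_zero]
    · show (if Disjoint m W then _ else (0 : (U → Bool) → 𝕜)) _ = 0
      rw [if_neg hm]
      rfl
  · intro t ht
    by_cases hm : Disjoint m W
    · have e1 : F m = ∑ s ∈ W.powerset, cf f (s ∪ m) • mon 𝕜 (s ∪ m) := if_pos hm
      rw [e1, cf_sum] at ht
      obtain ⟨s, hs, hs0⟩ := Finset.exists_ne_zero_of_sum_ne_zero ht
      rw [cf_smul, cf_mon] at hs0
      have h2 : s ∪ m = t := by
        by_contra h3
        rw [if_neg h3, mul_zero] at hs0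
        exact hs0 rfl
      rw [if_pos h2, mul_one, h2] at hs0
      refine ⟨?_, hfD t hs0⟩
      rw [← h2]
      exact Finset.union_subset_union_left (Finset.mem_powerset.1 hs)
    · have e1 : F m = 0 := if_neg hm
      rw [e1, cf_zero] at ht
      exact absurd rfl ht
  · intro hDm
    by_cases hm : Disjoint m W
    · have e1 : F m = ∑ s ∈ W.powerset, cf f (s ∪ m) • mon 𝕜 (s ∪ m) := if_pos hm
      rw [e1]
      refine Finset.sum_eq_zero fun s _ => ?_
      have h2 : cf f (s ∪ m) = 0 := by
        by_contra h3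
        have h4 := hfD _ h3
        have h5 : m.card ≤ (s ∪ m).card := Finset.card_le_card Finset.subset_union_right
        omega
      rw [h2, zero_smul]
    · exact if_neg hm

end Pool.Agent.Work.MP_c04246_lc.R
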