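import Pool.Agent.Work.MP_c04246_lc.R.Bdry

/-!
MODULE PClo (size S-M). Closure of a set of clauses and variables.

`Clsd cl a0 J Y`: no nonempty set `A` of at most `a0` clauses outside `J` has its boundary inside
`Vr J ∪ Y`.

Proof of `clo`. Consider the sets `J ⊇ I` with `J.card ≤ r` and `bd J ⊆ Vr I ∪ Y`; `I` is one of them
(`bd_subset_Vr`). Take one of maximal cardinality (`Finset.exists_max_image`). By expansion
`J.card ≤ e * (bd J).card ≤ e * (k * I.card + Y.card)` (`card_Vr_le`). If `A ≠ ∅` is disjoint from `J` with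
`A.card ≤ a0` and `bd A ⊆ Vr J ∪ Y`, then `J ∪ A` is again such a set, larger: its size is at most
`e * (k * I.card + Y.card) + a0 ≤ r`, and by `bd_union` an element of `bd (J ∪ A)` is in `bd J`, or in
`bd A \ Vr J ⊆ Y`. Contradiction.
`clsd_empty`: a nonempty `A` with `A.card ≤ a0 ≤ r` has nonempty boundary.
-/

set_option autoImplicit false

namespace Pool.Agent.Work.MP_c04246_lc.R

open Finset

variable {U M : Type} [DecidableEq U] [DecidableEq M] [Fintype M] {cl : M → Finset (U × Bool)}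

/-- closed pair of a set of clauses and a set of variables -/
def Clsd (cl : M → Finset (U × Bool)) (a0 : ℕ) (J : Finset M) (Y : Finset U) : Prop :=
  ∀ A : Finset M, Disjoint A J → A.Nonempty → A.card ≤ a0 → ¬ bd cl A ⊆ Vr cl J ∪ Y

lemma clo {r e k a0 : ℕ} (hE : Expn cl r e) (hk : ∀ i, (vr cl i).card ≤ k) (I : Finset M)
    (Y : Finset U) (hI : I.card ≤ r) (h : e * (k * I.card + Y.card) + a0 ≤ r) :
    ∃ J : Finset M, I ⊆ J ∧ J.card ≤ e * (k * I.card + Y.card) ∧ Clsd cl a0 J Y := by
  classical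
  have hI0 : I ∈ (univ.filter fun J : Finset M => I ⊆ J ∧ J.card ≤ r ∧
      bd cl J ⊆ Vr cl I ∪ Y) :=
    mem_filter.2 ⟨mem_univ _, Subset.refl _, hI, (bd_subset_Vr I).trans subset_union_left⟩
  obtain ⟨J, hJ, hmax⟩ := exists_max_image _ (fun J : Finset M => J.card) ⟨I, hI0⟩
  obtain ⟨-, hIJ, hJr, hbd⟩ := mem_filter.1 hJ
  have hJc : J.card ≤ e * (k * I.card + Y.card) := by
    refine (hE J hJr).trans (Nat.mul_le_mul_left _ ?_)
    refine (card_le_card hbd).trans ((card_union_le _ _).trans ?_)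
    exact Nat.add_le_add_right (card_Vr_le hk I) _
  refine ⟨J, hIJ, hJc, ?_⟩
  intro A hdis hA hAc hbA
  have hmem : J ∪ A ∈ (univ.filter fun J : Finset M => I ⊆ J ∧ J.card ≤ r ∧
      bd cl J ⊆ Vr cl I ∪ Y) := by
    refine mem_filter.2 ⟨mem_univ _, hIJ.trans subset_union_left, ?_, ?_⟩
    · refine (card_union_le _ _).trans ?_
      omega
    · intro x hx
      rcases mem_union.1 (bd_union J A hx) with h1 | h1
      · exact hbd h1
      · obtain ⟨h2, h3⟩ := mem_sdiff.1 h1
        rcases mem_union.1 (hbA h2) with h4 | h4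
        · exact absurd h4 h3
        · exact mem_union_right _ h4
  have h1 := hmax _ hmem
  have h2 : (J ∪ A).card = J.card + A.card := card_union_of_disjoint hdis.symm
  have h3 : 0 < A.card := card_pos.2 hA
  change (J ∪ A).card ≤ J.card at h1
  omega

lemma clsd_empty {r e a0 : ℕ} (hE : Expn cl r e) (h : a0 ≤ r) :
    Clsd cl a0 (∅ : Finset M) ∅ := by
  intro A _ hA hAc hbA
  have h1 := hE A (hAc.trans h)
  have h2 : bd cl A = ∅ := by
    apply subset_empty.1
    refine hbA.trans ?_
    simp [Vr]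
  rw [h2, card_empty, mul_zero] at h1
  have h3 : 0 < A.card := card_pos.2 hA
  omega

end Pool.Agent.Work.MP_c04246_lc.R
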