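import Pool.Agent.Work.MP_c04246_lc.R.MonC

/-!
MODULE PNf (size S-M). Existence of normal forms (linear algebra, no CNF here).

`Z` is a subspace, `Rd` a set of terms such that every term `t ⊆ W` in `Rd` is the leading term of some
`g ∈ Z` with all terms inside `W`. Then every `f` with all terms inside `W` is `h` modulo `Z`, where
all terms of `h` are inside `W` and not in `Rd`, and the degree of `h` is at most that of `f`.

Proof. Strong induction on a number `N` with `o t < N` for all terms `t` of `f` (i.e. for all `N` and all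
`f` such that all terms `t` of `f` satisfy `o t < N`; conclusion includes: all terms `s` of `h` satisfy
`o s < N` and the degree statement). If `f = 0`, `h = 0`. Otherwise let `t` be its leading term
(`exists_LT`), `c = cf f t`; `t ⊆ W`.
Case `t ∉ Rd`: `f - c • mon t` has all terms below `t` (`o` is injective, `cf_mon`), inside `W`, apply
the induction hypothesis, get `h'`, and take `h = h' + c • mon t` (`t` is not a term of `h'`).
Case `t ∈ Rd`: take `g`, and apply the induction hypothesis to `f - (c / cf g t) • g`: all terms are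
inside `W` and below `t`.
Degree: `f ∈ Dg d`, all terms of `f` have size `≤ d` (`mem_Dg_iff`); the terms `s` of `g` satisfy
`o s ≤ o t`, hence `s.card ≤ t.card ≤ d` (`Ord`: a larger set has larger `o`), so
`f - (c / cf g t) • g ∈ Dg d`.
-/

set_option autoImplicit false

namespace Pool.Agent.Work.MP_c04246_lc.R

open Finset

variable {U : Type} [Fintype U] [DecidableEq U] {𝕜 : Type} [Field 𝕜]

lemma nf_exists {o : Finset U → ℕ} (ho : Ord o) (W : Finset U)
    (Z : Submodule 𝕜 ((U → Bool) → 𝕜)) (Rd : Finset U → Prop)
    (hR : ∀ t ⊆ W, Rd t → ∃ g ∈ Z, IsLT o g t ∧ ∀ s, cf g s ≠ 0 → s ⊆ W)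
    (f : (U → Bool) → 𝕜) (hf : ∀ t, cf f t ≠ 0 → t ⊆ W) :
    ∃ h : (U → Bool) → 𝕜, f - h ∈ Z ∧ (∀ t, cf h t ≠ 0 → t ⊆ W ∧ ¬ Rd t) ∧
      ∀ d, f ∈ Dg 𝕜 d → h ∈ Dg 𝕜 d := by
  classical
  have key : ∀ N : ℕ, ∀ f : (U → Bool) → 𝕜, (∀ t, cf f t ≠ 0 → t ⊆ W) →
      (∀ t, cf f t ≠ 0 → o t < N) →
      ∃ h : (U → Bool) → 𝕜, f - h ∈ Z ∧ (∀ t, cf h t ≠ 0 → t ⊆ W ∧ ¬ Rd t) ∧
        (∀ t, cf h t ≠ 0 → o t < N) ∧ ∀ d, f ∈ Dg 𝕜 d → h ∈ Dg 𝕜 d := by
    intro N
    induction N with
    | zero =>
      intro f _ h2
      have hf0 : f = 0 := eq_zero_of_cf f fun t => by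
        by_contra h3
        exact absurd (h2 t h3) (Nat.not_lt_zero _)
      refine ⟨0, ?_, ?_, ?_, ?_⟩
      · rw [hf0, sub_zero]; exact Z.zero_mem
      · intro t ht; exact absurd (cf_zero t) ht
      · intro t ht; exact absurd (cf_zero t) ht
      · intro d _; exact Submodule.zero_mem _
    | succ N ih =>
      intro f h1 h2
      by_cases hf0 : f = 0
      · refine ⟨0, ?_, ?_, ?_, ?_⟩
        · rw [hf0, sub_zero]; exact Z.zero_mem
        · intro t ht; exact absurd (cf_zero t) ht
        · intro t ht; exact absurd (cf_zero t) ht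
        · intro d _; exact Submodule.zero_mem _
      obtain ⟨t, ht⟩ := exists_LT o hf0
      have htW := h1 t ht.1
      have htN := h2 t ht.1
      by_cases hRt : Rd t
      · obtain ⟨g, hgZ, hg, hgW⟩ := hR t htW hRt
        have hsub : ∀ s, cf (f - (cf f t / cf g t) • g) s ≠ 0 →
            (cf f s ≠ 0 ∨ cf g s ≠ 0) ∧ s ≠ t := by
          intro s hs
          rw [cf_sub, cf_smul] at hs
          constructor
          · by_contra h3
            push Not at h3
            rw [h3.1, h3.2, mul_zero, sub_zero] at hs
            exact hs rfl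
          · rintro rfl
            rw [div_mul_cancel₀ _ hg.1, sub_self] at hs
            exact hs rfl
        have hos : ∀ s, cf (f - (cf f t / cf g t) • g) s ≠ 0 → o s < o t := by
          intro s hs
          obtain ⟨h3, h4⟩ := hsub s hs
          have h5 : o s ≤ o t := by
            rcases h3 with h3 | h3
            · exact ht.2 s h3
            · exact hg.2 s h3
          exact lt_of_le_of_ne h5 fun h6 => h4 (ho.1 h6)
        obtain ⟨h, ha, hb, hc, hd⟩ := ih (f - (cf f t / cf g t) • g)
          (by
            intro s hs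
            rcases (hsub s hs).1 with h3 | h3
            · exact h1 s h3
            · exact hgW s h3)
          (by
            intro s hs
            have := hos s hs
            omega)
        refine ⟨h, ?_, hb, fun s hs => Nat.lt_succ_of_lt (hc s hs), ?_⟩
        · have e : f - h = (f - (cf f t / cf g t) • g - h) + (cf f t / cf g t) • g := by abel
          rw [e]
          exact Z.add_mem ha (Z.smul_mem _ hgZ)
        · intro d hfd
          apply hd
          refine Submodule.sub_mem _ hfd (Submodule.smul_mem _ _ ?_)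
          rw [mem_Dg_iff] at hfd ⊢
          intro s hs
          have h5 := hg.2 s hs
          have h6 := hfd t ht.1
          by_contra h7
          have h8 := ho.2 t s (by omega)
          omega
      · have hsub : ∀ s, cf (f - cf f t • mon 𝕜 t) s ≠ 0 → cf f s ≠ 0 ∧ s ≠ t := by
          intro s hs
          rw [cf_sub, cf_smul, cf_mon] at hs
          by_cases h3 : t = s
          · rw [if_pos h3, mul_one, h3, sub_self] at hs
            exact absurd rfl hs
          · rw [if_neg h3, mul_zero, sub_zero] at hs
            exact ⟨hs, Ne.symm h3⟩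
        have hos : ∀ s, cf (f - cf f t • mon 𝕜 t) s ≠ 0 → o s < o t := by
          intro s hs
          obtain ⟨h3, h4⟩ := hsub s hs
          exact lt_of_le_of_ne (ht.2 s h3) fun h6 => h4 (ho.1 h6)
        obtain ⟨h, ha, hb, hc, hd⟩ := ih (f - cf f t • mon 𝕜 t)
          (fun s hs => h1 s (hsub s hs).1)
          (by
            intro s hs
            have := hos s hs
            omega)
        refine ⟨h + cf f t • mon 𝕜 t, ?_, ?_, ?_, ?_⟩
        · have e : f - (h + cf f t • mon 𝕜 t) = f - cf f t • mon 𝕜 t - h := by abel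
          rw [e]
          exact ha
        · intro s hs
          rw [cf_add, cf_smul, cf_mon] at hs
          by_cases h3 : t = s
          · rw [← h3]; exact ⟨htW, hRt⟩
          · rw [if_neg h3, mul_zero, add_zero] at hs
            exact hb s hs
        · intro s hs
          rw [cf_add, cf_smul, cf_mon] at hs
          by_cases h3 : t = s
          · rw [← h3]; exact htN
          · rw [if_neg h3, mul_zero, add_zero] at hs
            exact Nat.lt_succ_of_lt (hc s hs)
        · intro d hfd
          have h4 : cf f t • mon 𝕜 t ∈ Dg 𝕜 d :=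
            Submodule.smul_mem _ _ (mon_mem_Dg ((mem_Dg_iff f d).1 hfd t ht.1))
          exact Submodule.add_mem _ (hd d (Submodule.sub_mem _ hfd h4)) h4
  obtain ⟨h, ha, hb, -, hd⟩ := key (univ.sup o + 1) f hf
    (fun t _ => Nat.lt_succ_of_le (Finset.le_sup (Finset.mem_univ t)))
  exact ⟨h, ha, hb, hd⟩

end Pool.Agent.Work.MP_c04246_lc.R
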