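import Pool.Agent.Work.MP_c04246_lc.R.PIrr
import Pool.Agent.Work.MP_c04246_lc.R.PNf

/-!
MODULE PCore (size M). The reduction operator.

Statement: there is a linear operator `Rop` such that for every closed pair `(J, Y)` with `J.card ≤ a1` and
every `f` of degree `≤ D` with all terms inside `Vr J ∪ Y`: `f - Rop f ∈ Zv cl J`, all terms of `Rop f` are
inside `Vr J ∪ Y`, `Rop f` is zero if `f ∈ Zv cl J`, and `Rop` does not increase the degree.

Proof. Fix an order `o` (`exists_ord`), `Rd = Red 𝕜 cl o (2 * a1)`.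
(uniqueness) if `h`, `h'` have only terms not in `Rd`, `f - h ∈ Zv I`, `f - h' ∈ Zv I'` and
`I.card ≤ a1`, `I'.card ≤ a1`, then `h = h'`: otherwise `h - h' ∈ Zv (I ∪ I')` is nonzero and its leading term
(`exists_LT`) is in `Rd` (witness `I ∪ I'`), but it is a term of `h` or of `h'`.
(existence) for `t` with `t.card ≤ D` let `J_t` be closed for `t` with `J_t.card ≤ a1` (hypothesis `hcl`),
and let `nf t` be the function given by `nf_exists` for `W = Vr J_t ∪ t`, `Z = Zv J_t`, `f = mon t` (`irr`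
gives the hypothesis `hR`; the only term of `mon t` is `t`). For `t.card > D` put `nf t = 0`.
`Rop f = ∑ t, cf f t • nf t`, linear by `cf_add`, `cf_smul`.
(main) let `(J, Y)` be closed, `J.card ≤ a1`, `W = Vr J ∪ Y`. For `t ⊆ W`, `t.card ≤ D`: `nf_exists` for `(J, W)` and
`mon t` gives `h` with `mon t - h ∈ Zv J`, terms inside `W`, not in `Rd`; by uniqueness `h = nf t`. So
`mon t - nf t ∈ Zv J` with terms of `nf t` inside `W`, `nf t ∈ Dg t.card`. Sum over the terms `t` of `f`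
(`sum_cf`; they have size `≤ D` by `mem_Dg_iff` and are inside `W`): `f - Rop f ∈ Zv J`, terms of `Rop f`
inside `W`, not in `Rd`; degree: `f ∈ Dg d` implies every term `t` has size `≤ d`, so `nf t ∈ Dg d`.
If `f ∈ Zv J` then `Rop f ∈ Zv J`; if `Rop f ≠ 0` its leading term is in `Rd` (witness `J`), but it is a term of
`Rop f`, contradiction.
-/

set_option autoImplicit false

namespace Pool.Agent.Work.MP_c04246_lc.R

open Finset

variable {U M : Type} [Fintype U] [DecidableEq U] [DecidableEq M] [Fintype M] {𝕜 : Type} [Field 𝕜]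

private lemma cf_sum {I : Type} (T : Finset I) (F : I → (U → Bool) → 𝕜) (t : Finset U) :
    cf (∑ i ∈ T, F i) t = ∑ i ∈ T, cf (F i) t := by
  classical
  induction T using Finset.induction_on with
  | empty => rw [Finset.sum_empty, Finset.sum_empty, cf_zero]
  | insert i T hi ih => rw [Finset.sum_insert hi, Finset.sum_insert hi, cf_add, ih]

private lemma uniq {cl : M → Finset (U × Bool)} {o : Finset U → ℕ} {a1 : ℕ}
    {f h h' : (U → Bool) → 𝕜} {I I' : Finset M} (hI : I.card ≤ a1) (hI' : I'.card ≤ a1)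
    (h1 : f - h ∈ Zv 𝕜 cl I) (h1' : f - h' ∈ Zv 𝕜 cl I')
    (h2 : ∀ t, cf h t ≠ 0 → ¬ Red 𝕜 cl o (2 * a1) t)
    (h2' : ∀ t, cf h' t ≠ 0 → ¬ Red 𝕜 cl o (2 * a1) t) : h = h' := by
  by_contra hne
  obtain ⟨t, ht⟩ := exists_LT o (sub_ne_zero.2 hne)
  have hred : Red 𝕜 cl o (2 * a1) t := by
    refine ⟨I ∪ I', ?_, h - h', ?_, ht⟩
    · have := Finset.card_union_le I I'
      omega
    · have e : h - h' = (f - h') - (f - h) := by abel
      rw [e]
      exact Submodule.sub_mem _ (Zv_mono Finset.subset_union_right h1')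
        (Zv_mono Finset.subset_union_left h1)
  have h3 := ht.1
  rw [cf_sub] at h3
  by_cases h4 : cf h t = 0
  · rw [h4, zero_sub] at h3
    exact h2' t (neg_ne_zero.1 h3) hred
  · exact h2 t h4 hred

theorem exists_Rop (𝕜 : Type) [Field 𝕜] (cl : M → Finset (U × Bool)) (a1 D : ℕ)
    (hcl : ∀ t : Finset U, t.card ≤ D → ∃ J : Finset M, J.card ≤ a1 ∧ Clsd cl (2 * a1) J t) :
    ∃ Rop : ((U → Bool) → 𝕜) →ₗ[𝕜] ((U → Bool) → 𝕜),
      ∀ (J : Finset M) (Y : Finset U), J.card ≤ a1 → Clsd cl (2 * a1) J Y →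
        ∀ f ∈ Dg 𝕜 D, (∀ t, cf f t ≠ 0 → t ⊆ Vr cl J ∪ Y) →
          f - Rop f ∈ Zv 𝕜 cl J ∧ (∀ t, cf (Rop f) t ≠ 0 → t ⊆ Vr cl J ∪ Y) ∧
          (f ∈ Zv 𝕜 cl J → Rop f = 0) ∧ ∀ d, f ∈ Dg 𝕜 d → Rop f ∈ Dg 𝕜 d := by
  classical
  obtain ⟨o, ho⟩ := exists_ord U
  have hmonW : ∀ (t : Finset U) (s : Finset U), cf (mon 𝕜 t) s ≠ 0 → s = t := by
    intro t s hs
    rw [cf_mon] at hs
    by_contra h
    rw [if_neg (Ne.symm h)] at hs
    exact hs rfl
  have hnfJ : ∀ (J : Finset M) (Y : Finset U), Clsd cl (2 * a1) J Y → ∀ t ⊆ Vr cl J ∪ Y,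
      ∃ h : (U → Bool) → 𝕜, mon 𝕜 t - h ∈ Zv 𝕜 cl J ∧
        (∀ s, cf h s ≠ 0 → s ⊆ Vr cl J ∪ Y ∧ ¬ Red 𝕜 cl o (2 * a1) s) ∧
        ∀ d, mon 𝕜 t ∈ Dg 𝕜 d → h ∈ Dg 𝕜 d := by
    intro J Y hJ t ht
    exact nf_exists ho (Vr cl J ∪ Y) (Zv 𝕜 cl J) (Red 𝕜 cl o (2 * a1))
      (fun s hs hR => irr ho hJ hs hR) (mon 𝕜 t) (fun s hs => by rw [hmonW t s hs]; exact ht)
  have hex : ∀ t : Finset U, ∃ g : (U → Bool) → 𝕜, t.card ≤ D → ∃ J : Finset M, J.card ≤ a1 ∧
      mon 𝕜 t - g ∈ Zv 𝕜 cl J ∧ ∀ s, cf g s ≠ 0 → ¬ Red 𝕜 cl o (2 * a1) s := by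
    intro t
    by_cases ht : t.card ≤ D
    · obtain ⟨J, hJ1, hJ2⟩ := hcl t ht
      obtain ⟨h, h1, h2, -⟩ := hnfJ J t hJ2 t Finset.subset_union_right
      exact ⟨h, fun _ => ⟨J, hJ1, h1, fun s hs => (h2 s hs).2⟩⟩
    · exact ⟨0, fun h => absurd h ht⟩
  choose nf hnf using hex
  let Rop : ((U → Bool) → 𝕜) →ₗ[𝕜] ((U → Bool) → 𝕜) :=
    { toFun := fun f => ∑ t : Finset U, cf f t • nf t
      map_add' := by
        intro f g
        rw [← Finset.sum_add_distrib]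
        exact Finset.sum_congr rfl fun t _ => by rw [cf_add, add_smul]
      map_smul' := by
        intro c f
        rw [RingHom.id_apply, Finset.smul_sum]
        exact Finset.sum_congr rfl fun t _ => by rw [cf_smul, mul_smul] }
  have hRop : ∀ f, Rop f = ∑ t : Finset U, cf f t • nf t := fun f => rfl
  refine ⟨Rop, fun J Y hJc hJ f hfD hfW => ?_⟩
  have hmain : ∀ t : Finset U, cf f t ≠ 0 → mon 𝕜 t - nf t ∈ Zv 𝕜 cl J ∧
      (∀ s, cf (nf t) s ≠ 0 → s ⊆ Vr cl J ∪ Y ∧ ¬ Red 𝕜 cl o (2 * a1) s) ∧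
      nf t ∈ Dg 𝕜 t.card := by
    intro t ht
    have htD := (mem_Dg_iff f D).1 hfD t ht
    obtain ⟨J', hJ', h1', h2'⟩ := hnf t htD
    obtain ⟨h, h1, h2, h3⟩ := hnfJ J Y hJ t (hfW t ht)
    have heq : h = nf t := uniq (f := mon 𝕜 t) hJc hJ' h1 h1' (fun s hs => (h2 s hs).2) h2'
    rw [← heq]
    exact ⟨h1, h2, h3 _ (mon_mem_Dg le_rfl)⟩
  have hA : f - Rop f ∈ Zv 𝕜 cl J := by
    have e : f - Rop f = ∑ t : Finset U, cf f t • (mon 𝕜 t - nf t) := by
      rw [hRop]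
      conv_lhs => rw [sum_cf f]
      rw [← Finset.sum_sub_distrib, ← sum_cf f]
      exact Finset.sum_congr rfl fun t _ => by rw [smul_sub]
    rw [e]
    refine Submodule.sum_mem _ fun t _ => ?_
    by_cases h : cf f t = 0
    · rw [h, zero_smul]; exact Submodule.zero_mem _
    · exact Submodule.smul_mem _ _ (hmain t h).1
  have hB : ∀ s, cf (Rop f) s ≠ 0 → s ⊆ Vr cl J ∪ Y ∧ ¬ Red 𝕜 cl o (2 * a1) s := by
    intro s hs
    rw [hRop, cf_sum] at hs
    obtain ⟨t, -, ht⟩ := Finset.exists_ne_zero_of_sum_ne_zero hs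
    rw [cf_smul] at ht
    exact (hmain t (left_ne_zero_of_mul ht)).2.1 s (right_ne_zero_of_mul ht)
  refine ⟨hA, fun s hs => (hB s hs).1, ?_, ?_⟩
  · intro hf
    by_contra hne
    obtain ⟨t, ht⟩ := exists_LT o hne
    apply (hB t ht.1).2
    refine ⟨J, by omega, Rop f, ?_, ht⟩
    have e : Rop f = f - (f - Rop f) := by abel
    rw [e]
    exact Submodule.sub_mem _ hf hA
  · intro d hfd
    rw [hRop]
    refine Submodule.sum_mem _ fun t _ => ?_
    by_cases h : cf f t = 0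
    · rw [h, zero_smul]; exact Submodule.zero_mem _
    · exact Submodule.smul_mem _ _ (Dg_mono ((mem_Dg_iff f d).1 hfd t h) (hmain t h).2.2)

end Pool.Agent.Work.MP_c04246_lc.R
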