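import Pool.Agent.Work.MP_c04246_lc.R.PClo
import Pool.Agent.Work.MP_c04246_lc.R.MonC

/-!
MODULE PIrr (size M). Reducible terms can be reduced inside a closed set.

`Zv cl I`: the functions vanishing on all assignments that satisfy the clauses in `I`.
`Red cl o a0 t`: `t` is the leading term of a member of some `Zv cl I` with `I.card ≤ a0`.

Proof of `irr`. Let `f ∈ Zv cl I0`, `IsLT o f t`, `I0.card ≤ a0`, `W = Vr J ∪ Y`, `A = I0 \ J`. For a nonempty
`A' ⊆ A`, `bd A'` is not inside `W` (`Clsd`; `A'` is disjoint from `J`, `A'.card ≤ a0`). By `peel` there are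
`D`, `a` with `D` disjoint from `W` and all clauses of `A` satisfied by `a` on `D`.
`f' y = f (ovr D a y)`. `f' ∈ Zv cl J`: let `y` satisfy the clauses of `J`, `y' = ovr D a y`. A clause
of `I0` in `A` is satisfied by `y'` (`SatBy D a`); a clause of `I0` in `J` has its variables in `Vr J ⊆ W`,
outside `D`, where `y' = y`. So `y'` satisfies `I0` and `f' y = f y' = 0`. `IsLT o f' t` by `IsLT.ovr`
(`t ⊆ W` is disjoint from `D`).
Then let `g y = f' (ovr (univ \ W) (fun _ => false) y)`: `g` depends only on `W`, so all its terms are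
inside `W` (`cf_dep`); `g ∈ Zv cl J` since clauses of `J` only involve variables of `W`; `IsLT o g t` by
`IsLT.ovr` again (`t` is disjoint from `univ \ W`).
-/

set_option autoImplicit false

namespace Pool.Agent.Work.MP_c04246_lc.R

open Finset

variable {U M : Type} [Fintype U] [DecidableEq U] [DecidableEq M] [Fintype M] {𝕜 : Type} [Field 𝕜]
  {cl : M → Finset (U × Bool)}

/-- functions vanishing on the assignments satisfying the clauses in `I` -/
def Zv (𝕜 : Type) [Field 𝕜] (cl : M → Finset (U × Bool)) (I : Finset M) :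
    Submodule 𝕜 ((U → Bool) → 𝕜) where
  carrier := {f | ∀ y, SatAll cl I y → f y = 0}
  add_mem' := by
    intro f g hf hg y hy
    simp only [Pi.add_apply, hf y hy, hg y hy, add_zero]
  zero_mem' := by intro y _; rfl
  smul_mem' := by
    intro c f hf y hy
    simp only [Pi.smul_apply, hf y hy, smul_zero]

lemma Zv_mono {I J : Finset M} (h : I ⊆ J) : Zv 𝕜 cl I ≤ Zv 𝕜 cl J :=
  fun _ hf y hy => hf y fun i hi => hy i (h hi)

/-- reducible terms -/
def Red (𝕜 : Type) [Field 𝕜] (cl : M → Finset (U × Bool)) (o : Finset U → ℕ) (a0 : ℕ)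
    (t : Finset U) : Prop :=
  ∃ I : Finset M, I.card ≤ a0 ∧ ∃ f ∈ Zv 𝕜 cl I, IsLT o f t

lemma irr {o : Finset U → ℕ} (ho : Ord o) {a0 : ℕ} {J : Finset M} {Y : Finset U}
    (hJ : Clsd cl a0 J Y) {t : Finset U} (ht : t ⊆ Vr cl J ∪ Y) (hr : Red 𝕜 cl o a0 t) :
    ∃ g ∈ Zv 𝕜 cl J, IsLT o g t ∧ ∀ s, cf g s ≠ 0 → s ⊆ Vr cl J ∪ Y := by
  classical
  obtain ⟨I, hI, f, hf, hft⟩ := hr
  obtain ⟨D, a, hD, hsat⟩ := peel (cl := cl) (Vr cl J ∪ Y) (I \ J) (fun A' hA' hne => by
    refine hJ A' ?_ hne ?_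
    · exact Finset.disjoint_of_subset_left hA' Finset.sdiff_disjoint
    · exact (Finset.card_le_card (hA'.trans Finset.sdiff_subset)).trans hI)
  have hvar : ∀ i ∈ J, ∀ l ∈ cl i, l.1 ∈ Vr cl J ∪ Y := by
    intro i hi l hl
    apply Finset.mem_union_left
    unfold Vr
    rw [Finset.mem_biUnion]
    exact ⟨i, hi, Finset.mem_image_of_mem Prod.fst hl⟩
  have htD : Disjoint t D := (Finset.disjoint_of_subset_right ht hD).symm
  have htD2 : Disjoint t (univ \ (Vr cl J ∪ Y)) := by
    rw [Finset.disjoint_left]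
    intro x hx hx'
    exact (Finset.mem_sdiff.1 hx').2 (ht hx)
  have h1 : IsLT o (fun y => f (ovr D a y)) t := hft.ovr ho D a htD
  have h2 : IsLT o (fun y => (fun y => f (ovr D a y))
      (ovr (univ \ (Vr cl J ∪ Y)) (fun _ => false) y)) t :=
    h1.ovr ho (univ \ (Vr cl J ∪ Y)) (fun _ => false) htD2
  refine ⟨_, ?_, h2, ?_⟩
  · intro y hy
    show f (ovr D a (ovr (univ \ (Vr cl J ∪ Y)) (fun _ => false) y)) = 0
    apply hf
    intro i hi
    by_cases hiJ : i ∈ J
    · obtain ⟨l, hl, hyl⟩ := hy i hiJ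
      refine ⟨l, hl, ?_⟩
      have h3 := hvar i hiJ l hl
      have h4 : l.1 ∉ D := fun h => Finset.disjoint_left.1 hD h h3
      unfold ovr
      rw [if_neg h4, if_neg (fun h => (Finset.mem_sdiff.1 h).2 h3)]
      exact hyl
    · obtain ⟨l, hl, hlD, hal⟩ := hsat i (Finset.mem_sdiff.2 ⟨hi, hiJ⟩)
      refine ⟨l, hl, ?_⟩
      unfold ovr
      rw [if_pos hlD]
      exact hal
  · intro s hs
    have h3 := (cf_ovr_ne (fun y => f (ovr D a y)) (univ \ (Vr cl J ∪ Y)) (fun _ => false) s hs).1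
    intro x hx
    by_contra hxW
    exact Finset.disjoint_left.1 h3 hx (Finset.mem_sdiff.2 ⟨Finset.mem_univ x, hxW⟩)

end Pool.Agent.Work.MP_c04246_lc.R
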