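import Pool.Agent.Work.MP_c04246_lc.R.LClo

/-!
MODULE Pre (size M). Removing the variables of high degree by one fixed restriction.

For `W : Finset U`, `a : U → Bool` let `Mres` be the type of the clauses not satisfied by `a` on `W`, and
`clres` the residual clauses (literals with variables outside `W`).

Proof of `pre`. `Hi = {x | h < number of clauses containing x}`; double counting gives
`(h + 1) * Hi.card ≤ ∑ i, (vr i).card ≤ k * card M`, so `2 * e * Hi.card ≤ r / 2` by `hh`
(`4 * e * Hi.card * (h + 1) ≤ 4 * e * k * card M ≤ r * (h + 1)`).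
Let `J` be given by `lclo` for `Y = Hi`, `W = Vr J ∪ Hi`, and `a` an assignment satisfying the clauses of `J`
(`sat_of_expn`, `J.card ≤ r`).
* Every clause of `J` is satisfied by `a` on `W`, so no element of `Mres` is in `J`.
* width: `vr clres i ⊆ vr cl i`. Degree: if `x ∈ vr clres i` then `x ∉ W ⊇ Hi`, so `x` lies in at most `h`
  clauses of `cl`, hence in at most `h` clauses of `clres`.
* expansion: for `S : Finset (Mres)` with image `S1` in `M`, `bd clres S = bd cl S1 \ W`, and `lclo` (1) for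
  `S1` (disjoint from `J`), `S1.card + 2 e Hi.card ≤ r / 2 + r / 2 ≤ r`.
`resid_expnR`: let `ExpnR clres D v r e'`, and `D1 = W ∪ D`, `v1 = ovr W a v`. For `S : Finset M` all of whose
clauses are not satisfied by `v1` on `D1`: they are not satisfied by `a` on `W`, so `S` comes from
`S' : Finset Mres`, and `clres i` is not satisfied by `v` on `D`;
`bd cl S \ D1 = (bd clres S') \ D`.
`resid_sat`: for `i : Mres` and any `z`: `clres i` is satisfied by `z` iff `cl i` is satisfied by
`ovr W a z` (a literal of `cl i` with variable in `W` is not satisfied by `a`).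
-/

set_option autoImplicit false

namespace Pool.Agent.Work.MP_c04246_lc.R

open Finset

variable {U M : Type} [DecidableEq U] [DecidableEq M] [Fintype U] [Fintype M]

/-- clauses not satisfied by the restriction -/
def Mres (cl : M → Finset (U × Bool)) (W : Finset U) (a : U → Bool) : Type :=
  {i : M // ¬ SatBy W a (cl i)}

noncomputable instance (cl : M → Finset (U × Bool)) (W : Finset U) (a : U → Bool) :
    Fintype (Mres cl W a) := by
  classical
  exact (inferInstance : Fintype {i : M // ¬ SatBy W a (cl i)})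

instance (cl : M → Finset (U × Bool)) (W : Finset U) (a : U → Bool) :
    DecidableEq (Mres cl W a) := (inferInstance : DecidableEq {i : M // ¬ SatBy W a (cl i)})

/-- residual clauses -/
def clres (cl : M → Finset (U × Bool)) (W : Finset U) (a : U → Bool) :
    Mres cl W a → Finset (U × Bool) := fun i => (cl i.1).filter fun l => l.1 ∉ W

private def pe (cl : M → Finset (U × Bool)) (W : Finset U) (a : U → Bool) : Mres cl W a ↪ M :=
  ⟨fun i => i.1, fun _ _ h => Subtype.ext h⟩

private lemma pe_mem {cl : M → Finset (U × Bool)} {W : Finset U} {a : U → Bool}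
    {S : Finset (Mres cl W a)} {i : M} :
    i ∈ S.map (pe cl W a) ↔ ∃ j ∈ S, j.1 = i := by
  rw [mem_map]
  rfl

private lemma pe_vr (cl : M → Finset (U × Bool)) (W : Finset U) (a : U → Bool)
    (i : Mres cl W a) (x : U) : x ∈ vr (clres cl W a) i ↔ x ∈ vr cl i.1 ∧ x ∉ W := by
  unfold vr clres
  rw [mem_image, mem_image]
  constructor
  · rintro ⟨l, hl, rfl⟩
    rw [mem_filter] at hl
    exact ⟨⟨l, hl.1, rfl⟩, hl.2⟩
  · rintro ⟨⟨l, hl, rfl⟩, h2⟩
    exact ⟨l, mem_filter.2 ⟨hl, h2⟩, rfl⟩

private lemma pe_bd (cl : M → Finset (U × Bool)) (W : Finset U) (a : U → Bool)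
    (S : Finset (Mres cl W a)) : bd (clres cl W a) S = bd cl (S.map (pe cl W a)) \ W := by
  ext x
  rw [mem_sdiff, mem_bd, mem_bd]
  constructor
  · rintro ⟨i, hi, hx, hu⟩
    rw [pe_vr] at hx
    refine ⟨⟨i.1, pe_mem.2 ⟨i, hi, rfl⟩, hx.1, ?_⟩, hx.2⟩
    intro j hj hxj
    obtain ⟨j', hj', rfl⟩ := pe_mem.1 hj
    have := hu j' hj' ((pe_vr cl W a j' x).2 ⟨hxj, hx.2⟩)
    rw [this]
  · rintro ⟨⟨i, hi, hx, hu⟩, hW⟩
    obtain ⟨i', hi', rfl⟩ := pe_mem.1 hi
    refine ⟨i', hi', (pe_vr cl W a i' x).2 ⟨hx, hW⟩, ?_⟩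
    intro j hj hxj
    rw [pe_vr] at hxj
    exact Subtype.ext (hu j.1 (pe_mem.2 ⟨j, hj, rfl⟩) hxj.1)

theorem pre (cl : M → Finset (U × Bool)) {r e k h : ℕ} (hE : Expn cl r e) (he : 1 ≤ e)
    (hk : ∀ i, (vr cl i).card ≤ k) (hh : 4 * e * k * Fintype.card M ≤ r * (h + 1)) :
    ∃ (W : Finset U) (a : U → Bool), Expn (clres cl W a) (r / 2) (2 * e) ∧
      (∀ i, (vr (clres cl W a) i).card ≤ k) ∧
      ∀ x, (univ.filter fun i => x ∈ vr (clres cl W a) i).card ≤ h := by
  obtain ⟨Hi, hHi⟩ : ∃ Hi : Finset U, Hi = univ.filter fun x =>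
      h < (univ.filter fun i : M => x ∈ vr cl i).card := ⟨_, rfl⟩
  have h1 : (h + 1) * Hi.card ≤ k * Fintype.card M := by
    have h2 : Hi.card • (h + 1) ≤ ∑ x ∈ Hi, (univ.filter fun i : M => x ∈ vr cl i).card := by
      apply card_nsmul_le_sum
      intro x hx
      rw [hHi, mem_filter] at hx
      exact hx.2
    have h3 : ∑ x ∈ Hi, (univ.filter fun i : M => x ∈ vr cl i).card ≤
        ∑ x : U, (univ.filter fun i : M => x ∈ vr cl i).card :=
      sum_le_sum_of_subset (subset_univ _)
    have h4 : ∑ x : U, (univ.filter fun i : M => x ∈ vr cl i).card =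
        ∑ i : M, (vr cl i).card := by
      have h5 := sum_card_bipartiteAbove_eq_sum_card_bipartiteBelow
        (s := (univ : Finset U)) (t := (univ : Finset M)) (fun x i => x ∈ vr cl i)
      unfold bipartiteAbove bipartiteBelow at h5
      rw [h5]
      refine sum_congr rfl fun i _ => ?_
      congr 1
      ext x
      simp
    have h5 : ∑ i : M, (vr cl i).card ≤ Fintype.card M • k := by
      rw [← card_univ]
      exact sum_le_card_nsmul _ _ k fun i _ => hk i
    rw [smul_eq_mul] at h2 h5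
    calc (h + 1) * Hi.card = Hi.card * (h + 1) := mul_comm _ _
      _ ≤ Fintype.card M * k := h2.trans (h3.trans (h4.le.trans h5))
      _ = k * Fintype.card M := mul_comm _ _
  have h2 : 4 * e * Hi.card ≤ r := by
    have h3 : 4 * e * Hi.card * (h + 1) ≤ r * (h + 1) := by
      calc 4 * e * Hi.card * (h + 1) = 4 * e * ((h + 1) * Hi.card) := by ring
        _ ≤ 4 * e * (k * Fintype.card M) := Nat.mul_le_mul_left _ h1
        _ = 4 * e * k * Fintype.card M := by ring
        _ ≤ r * (h + 1) := hh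
    exact Nat.le_of_mul_le_mul_right h3 (Nat.succ_pos h)
  obtain ⟨J, hJ1, hJr, hJ2, -⟩ := lclo hE he Hi
  obtain ⟨a, ha⟩ := sat_of_expn hE J hJr
  refine ⟨Vr cl J ∪ Hi, a, ?_, ?_, ?_⟩
  · intro S hS
    have hS1 : (S.map (pe cl (Vr cl J ∪ Hi) a)).card = S.card := card_map _
    have hdis : Disjoint (S.map (pe cl (Vr cl J ∪ Hi) a)) J := by
      rw [disjoint_left]
      intro i hi hiJ
      obtain ⟨j, -, rfl⟩ := pe_mem.1 hi
      apply j.2
      obtain ⟨l, hl, hl2⟩ := ha j.1 hiJ
      refine ⟨l, hl, ?_, hl2⟩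
      rw [mem_union]
      left
      unfold Vr
      rw [mem_biUnion]
      exact ⟨j.1, hiJ, mem_image_of_mem _ hl⟩
    have h3 := hJ2 _ hdis (by
      rw [hS1]
      have h4 : 2 * e * Hi.card ≤ r / 2 := by
        rw [Nat.le_div_iff_mul_le (by norm_num)]
        calc 2 * e * Hi.card * 2 = 4 * e * Hi.card := by ring
          _ ≤ r := h2
      omega)
    rw [hS1, ← pe_bd] at h3
    exact h3
  · intro i
    refine (card_le_card ?_).trans (hk i.1)
    intro x hx
    exact ((pe_vr cl _ a i x).1 hx).1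
  · intro x
    by_cases hx : x ∈ Vr cl J ∪ Hi
    · have : (univ.filter fun i => x ∈ vr (clres cl (Vr cl J ∪ Hi) a) i) = ∅ := by
        rw [eq_empty_iff_forall_notMem]
        intro i hi
        rw [mem_filter] at hi
        exact ((pe_vr cl _ a i x).1 hi.2).2 hx
      rw [this, card_empty]
      exact Nat.zero_le _
    · have h3 : (univ.filter fun i : M => x ∈ vr cl i).card ≤ h := by
        by_contra hc
        apply hx
        rw [mem_union]
        right
        rw [hHi, mem_filter]
        exact ⟨mem_univ _, not_le.1 hc⟩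
      refine le_trans ?_ h3
      rw [← card_map (pe cl (Vr cl J ∪ Hi) a)]
      apply card_le_card
      intro i hi
      obtain ⟨j, hj, rfl⟩ := pe_mem.1 hi
      rw [mem_filter] at hj ⊢
      exact ⟨mem_univ _, ((pe_vr cl _ a j x).1 hj.2).1⟩

lemma resid_sat (cl : M → Finset (U × Bool)) (W : Finset U) (a z : U → Bool)
    (i : Mres cl W a) : (∃ l ∈ clres cl W a i, z l.1 = l.2) ↔ ∃ l ∈ cl i.1, ovr W a z l.1 = l.2 := by
  constructor
  · rintro ⟨l, hl, hz⟩
    unfold clres at hl
    rw [mem_filter] at hl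
    refine ⟨l, hl.1, ?_⟩
    unfold ovr
    rw [if_neg hl.2]
    exact hz
  · rintro ⟨l, hl, hz⟩
    have hW : l.1 ∉ W := by
      intro hW
      apply i.2
      refine ⟨l, hl, hW, ?_⟩
      unfold ovr at hz
      rw [if_pos hW] at hz
      exact hz
    refine ⟨l, ?_, ?_⟩
    · unfold clres
      exact mem_filter.2 ⟨hl, hW⟩
    · unfold ovr at hz
      rw [if_neg hW] at hz
      exact hz

lemma resid_expnR (cl : M → Finset (U × Bool)) (W : Finset U) (a : U → Bool) (D : Finset U)
    (v : U → Bool) {r e : ℕ} (h : ExpnR (clres cl W a) D v r e) :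
    ExpnR cl (W ∪ D) (ovr W a v) r e := by
  classical
  intro S hS hsat
  have hW : ∀ i ∈ S, ¬ SatBy W a (cl i) := by
    rintro i hi ⟨l, hl, hlW, hl2⟩
    apply hsat i hi
    refine ⟨l, hl, mem_union_left _ hlW, ?_⟩
    unfold ovr
    rw [if_pos hlW]
    exact hl2
  obtain ⟨S', hS'⟩ : ∃ S' : Finset (Mres cl W a), S' = univ.filter fun i => i.1 ∈ S := ⟨_, rfl⟩
  have hmap : S'.map (pe cl W a) = S := by
    ext i
    rw [pe_mem]
    constructor
    · rintro ⟨j, hj, rfl⟩
      rw [hS', mem_filter] at hj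
      exact hj.2
    · intro hi
      obtain ⟨j, hj⟩ : ∃ j : Mres cl W a, j.1 = i := ⟨⟨i, hW i hi⟩, rfl⟩
      refine ⟨j, ?_, hj⟩
      rw [hS', mem_filter, hj]
      exact ⟨mem_univ _, hi⟩
  have hc : S'.card = S.card := by rw [← hmap, card_map]
  have h1 := h S' (by rw [hc]; exact hS) (by
    rintro i hi ⟨l, hl, hlD, hl2⟩
    rw [hS', mem_filter] at hi
    apply hsat i.1 hi.2
    unfold clres at hl
    rw [mem_filter] at hl
    refine ⟨l, hl.1, mem_union_right _ hlD, ?_⟩
    unfold ovr
    rw [if_neg hl.2]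
    exact hl2)
  rw [hc, pe_bd, hmap, sdiff_sdiff_left] at h1
  exact h1

end Pool.Agent.Work.MP_c04246_lc.R
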