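import Mathlib
import Pool.Agent.Work.MP_c04246_lc.R.RDefs
import Pool.Agent.Work.MP_c04246_lc.XUF
import Pool.Agent.Work.MP_c04246_lc.XTree

set_option autoImplicit false
set_option linter.unusedSectionVars false
set_option linter.unusedVariables false

namespace Pool.Agent.Work.MP_c04246_lc.R

open Finset

/-! ### CNFs, boundary, expansion -/

section cnf

variable {U M : Type} [DecidableEq U] [DecidableEq M]

/-- variables of a clause -/
def vr (cl : M → Finset (U × Bool)) (i : M) : Finset U := (cl i).image Prod.fst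

/-- variables of a set of clauses -/
def Vr (cl : M → Finset (U × Bool)) (S : Finset M) : Finset U := S.biUnion (vr cl)

/-- boundary: the variables lying in exactly one clause of `S` -/
def bd (cl : M → Finset (U × Bool)) (S : Finset M) : Finset U :=
  (Vr cl S).filter fun x => (S.filter fun i => x ∈ vr cl i).card = 1

/-- boundary expansion -/
def Expn (cl : M → Finset (U × Bool)) (r e : ℕ) : Prop :=
  ∀ S : Finset M, S.card ≤ r → S.card ≤ e * (bd cl S).card

/-- the clause `C` is satisfied by the values `v` of the variables in `D` -/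
def SatBy (D : Finset U) (v : U → Bool) (C : Finset (U × Bool)) : Prop :=
  ∃ l ∈ C, l.1 ∈ D ∧ v l.1 = l.2

/-- all clauses in `S` are satisfied by `v` -/
def SatAll (cl : M → Finset (U × Bool)) (S : Finset M) (v : U → Bool) : Prop :=
  ∀ i ∈ S, ∃ l ∈ cl i, v l.1 = l.2

/-- expansion of the clauses not satisfied by the restriction `(D, v)`, in the variables outside
`D` -/
def ExpnR (cl : M → Finset (U × Bool)) (D : Finset U) (v : U → Bool) (r e : ℕ) : Prop :=
  ∀ S : Finset M, S.card ≤ r → (∀ i ∈ S, ¬ SatBy D v (cl i)) → S.card ≤ e * (bd cl S \ D).card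

/-- override the assignment `y` by `a` on `D` -/
def ovr {T : Type} (D : Finset U) (a y : U → T) : U → T := fun x => if x ∈ D then a x else y x

variable [Fintype U] [Fintype M]

open Classical in
/-- neighbours of a variable (and the variable itself) -/
noncomputable def nbr (cl : M → Finset (U × Bool)) (x : U) : Finset U :=
  insert x (univ.filter fun y => ∃ i, x ∈ vr cl i ∧ y ∈ vr cl i)

/-- ball around a set of variables -/
noncomputable def ball (cl : M → Finset (U × Bool)) (A : Finset U) : ℕ → Finset U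
  | 0 => A
  | n + 1 => (ball cl A n).biUnion (nbr cl)

/-- connected set of clauses -/
def Cnn (cl : M → Finset (U × Bool)) (S : Finset M) : Prop :=
  ∀ T ⊆ S, T.Nonempty → (∀ i ∈ T, ∀ j ∈ S, ¬ Disjoint (vr cl i) (vr cl j) → j ∈ T) → T = S

/-- the clauses of `S` touching `A` -/
def tch (cl : M → Finset (U × Bool)) (S : Finset M) (A : Finset U) : Finset M :=
  S.filter fun i => ¬ Disjoint (vr cl i) A

/-! ### random restriction -/

/-- size scale -/
def s0 (e z : ℕ) : ℕ := 4 * e * z * 2 ^ z

/-- isolation radius -/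
def rad (e z : ℕ) : ℕ := 2 * s0 e z + 2

/-- `Z` is an isolated set of labelled variables -/
def Iso (cl : M → Finset (U × Bool)) (e : ℕ) (lam : U → Bool × Bool) (Z : Finset U) : Prop :=
  (∀ x ∈ Z, (lam x).1 = true) ∧ ∀ x ∈ ball cl Z (rad e Z.card), x ∉ Z → (lam x).1 = false

/-- `Z` does not spoil the expansion -/
def Good (cl : M → Finset (U × Bool)) (e : ℕ) (lam : U → Bool × Bool) (Z : Finset U) : Prop :=
  ∀ S : Finset M, Cnn cl S → S.card ≤ s0 e Z.card →
    (∀ i ∈ S, ¬ SatBy Z (fun x => (lam x).2) (cl i)) → S.card ≤ 2 * e * (bd cl S \ Z).card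

open Classical in
/-- domain of the random restriction -/
noncomputable def domL (cl : M → Finset (U × Bool)) (e : ℕ) (lam : U → Bool × Bool) : Finset U :=
  univ.filter fun x => ∃ Z : Finset U, x ∈ Z ∧ Iso cl e lam Z ∧ Good cl e lam Z

/-- values of the random restriction -/
def valL (lam : U → Bool × Bool) : U → Bool := fun x => (lam x).2

end cnf

/-! ### juntas, gates, killing -/

section kill

variable {U M : Type} [DecidableEq U]

/-- the junta is constant `c` on the subcube -/
def Con (sg : (U → Bool) → (U → Bool)) (f : (U → Bool) → Bool) (c : Bool) (H : Finset U)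
    (w : U → Bool) : Prop := ∀ y, X.Agr H w y → f (sg y) = c

/-- on the subcube the junta is never `c` for assignments satisfying a few clauses -/
def Nul (cl : M → Finset (U × Bool)) (B1 : ℕ) (sg : (U → Bool) → (U → Bool))
    (f : (U → Bool) → Bool) (c : Bool) (H : Finset U) (w : U → Bool) : Prop :=
  ∃ J : Finset M, J.card ≤ B1 ∧ ∀ y, X.Agr H w y → SatAll cl J (sg y) → f (sg y) ≠ c

/-- the gate is decided on the subcube -/
def GoodG (cl : M → Finset (U × Bool)) (B1 : ℕ) (sg : (U → Bool) → (U → Bool))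
    (g : Bool × List (X.Jn U Bool)) (H : Finset U) (w : U → Bool) : Prop :=
  (∃ s ∈ g.2, Con sg s.2 g.1 H w) ∨ ∀ s ∈ g.2, Nul cl B1 sg s.2 g.1 H w

/-- all gates are decided on the subcube -/
def GoodA (cl : M → Finset (U × Bool)) (B1 : ℕ) (sg : (U → Bool) → (U → Bool))
    (gs : List (Bool × List (X.Jn U Bool))) (H : Finset U) (w : U → Bool) : Prop :=
  ∀ g ∈ gs, GoodG cl B1 sg g H w

/-- Every junta `(Y, f)` of size at most `κ` is dead for the value `c`, or it is forced to have the
value `c` by an event `E` of probability at least `1/A` which depends only on a set `Rg` of at most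
`B0` labels, and which is close to `Y`. -/
def Kil {T : Type} [Fintype T] [Fintype U] (cl : M → Finset (U × Bool))
    (sg : (U → T) → (U → Bool) → (U → Bool)) (κ A B0 B1 B2 : ℕ) (Q : Finset U → Finset U) : Prop :=
  (∀ L, (Q L).card ≤ B2 * L.card) ∧
  ∀ (Y : Finset U) (f : (U → Bool) → Bool) (c : Bool), Y.card ≤ κ → X.Dep Y f →
    (∃ J : Finset M, J.card ≤ B1 ∧ ∀ lam y, SatAll cl J (sg lam y) → f (sg lam y) ≠ c) ∨
    ∃ (Rg : Finset U) (E : Finset (U → T)), Rg.card ≤ B0 ∧
      (∀ lam lam' : U → T, (∀ x ∈ Rg, lam x = lam' x) → lam ∈ E → lam' ∈ E) ∧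
      Fintype.card (U → T) ≤ A * E.card ∧
      (∀ lam ∈ E, ∀ y, f (sg lam y) = c) ∧
      ∀ L, ¬ Disjoint Rg L → ¬ Disjoint Y (Q L)

end kill

/-! ### functions on the cube, degree -/

section deg

variable {U : Type} (𝕜 : Type) [Field 𝕜]

/-- product of the variables in `t` -/
def mon (t : Finset U) : (U → Bool) → 𝕜 := fun y =>
  open Classical in if ∀ x ∈ t, y x = true then 1 else 0

/-- functions of degree at most `d` -/
def Dg (d : ℕ) : Submodule 𝕜 ((U → Bool) → 𝕜) :=
  Submodule.span 𝕜 {f | ∃ t : Finset U, t.card ≤ d ∧ f = mon 𝕜 t}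

variable {𝕜}

/-- `V` is closed under multiplication as long as the total degree is at most `D` -/
def ClV (V : Submodule 𝕜 ((U → Bool) → 𝕜)) (D : ℕ) : Prop :=
  ∀ (a b : ℕ) (f g : (U → Bool) → 𝕜), f ∈ V → f ∈ Dg 𝕜 a → g ∈ Dg 𝕜 b → a + b ≤ D → f * g ∈ V

/-- the functions `f` with `th * f ∈ V` -/
def Vth (V : Submodule 𝕜 ((U → Bool) → 𝕜)) (th : (U → Bool) → 𝕜) :
    Submodule 𝕜 ((U → Bool) → 𝕜) := V.comap (LinearMap.mulLeft 𝕜 th)

/-- indicator of a subcube -/
noncomputable def agr (𝕜 : Type) [Field 𝕜] (H : Finset U) (w : U → Bool) : (U → Bool) → 𝕜 :=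
  fun y => open Classical in if X.Agr H w y then 1 else 0

end deg

/-! ### evaluation of formulas -/

section ev

variable {p : ℕ} [Fact p.Prime] {U : Type}

/-- `P` has the value `c` -/
def tau (c : Bool) (P : (U → Bool) → ZMod p) : (U → Bool) → ZMod p := if c = true then P else 1 - P

/-- the function `A(s)` -/
def mdA (A : ZMod p → Bool) (s : (U → Bool) → ZMod p) : (U → Bool) → ZMod p :=
  fun y => if A (s y) = true then 1 else 0

/-- indicator function -/
def indF (f : (U → Bool) → Bool) : (U → Bool) → ZMod p := fun y => if f y = true then 1 else 0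

/-- `P` is an evaluation of the formula modulo `V`; degrees are at most `d` -/
inductive EvU (V : Submodule (ZMod p) ((U → Bool) → ZMod p)) (d : ℕ)
    (sg : (U → Bool) → (U → Bool)) : X.UF p U → ((U → Bool) → ZMod p) → Prop
  | lit (x : U) (b : Bool) (P : (U → Bool) → ZMod p) : P ∈ Dg (ZMod p) d →
      P - indF (fun y => sg y x == b) ∈ V → EvU V d sg (X.UF.lit x b) P
  | cst (b : Bool) (P : (U → Bool) → ZMod p) : P ∈ Dg (ZMod p) d →
      P - indF (fun _ => b) ∈ V → EvU V d sg (X.UF.cst b) P
  | gate (c : Bool) (k : ℕ) (f : Fin k → X.UF p U) (P : (U → Bool) → ZMod p)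
      (Q G : Fin k → (U → Bool) → ZMod p) : P ∈ Dg (ZMod p) d → (∀ j, EvU V d sg (f j) (Q j)) →
      (∀ j, G j ∈ Dg (ZMod p) d) → (∀ j, tau c (Q j) * (1 - tau c P) ∈ V) →
      tau c P - ∑ j, tau c (Q j) * G j ∈ V → EvU V d sg (X.UF.gate c k f) P
  | mod (A : ZMod p → Bool) (k : ℕ) (f : Fin k → X.UF p U) (P : (U → Bool) → ZMod p)
      (Q : Fin k → (U → Bool) → ZMod p) : P ∈ Dg (ZMod p) d → (∀ j, EvU V d sg (f j) (Q j)) →
      P - mdA A (∑ j, Q j) ∈ V → EvU V d sg (X.UF.mod A k f) P

/-- the relation at the outermost connective of a formula -/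
def RelV (V : Submodule (ZMod p) ((U → Bool) → ZMod p)) (sg : (U → Bool) → (U → Bool))
    (Pf : Fml p U → (U → Bool) → ZMod p) : Fml p U → Prop
  | .var x => Pf (.var x) - indF (fun y => sg y x) ∈ V
  | .cst b => Pf (.cst b) - indF (fun _ => b) ∈ V
  | .neg a => Pf (.neg a) - (1 - Pf a) ∈ V
  | .bin c a b => Pf (.bin c a b) -
      (if c = true then Pf a + Pf b - Pf a * Pf b else Pf a * Pf b) ∈ V
  | .mod i k f => Pf (.mod i k f) - mdA (fun r => decide (r = i)) (∑ j, Pf (f j)) ∈ V

end ev

/-! ### the upper part of a formula -/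

section clu

variable {p : ℕ} {U : Type}

open Classical in
/-- variables -/
noncomputable def varsU : X.UF p U → Finset U
  | .lit x _ => {x}
  | .cst _ => ∅
  | .gate _ _ f => univ.biUnion fun j => varsU (f j)
  | .mod _ _ f => univ.biUnion fun j => varsU (f j)

/-- subterm -/
inductive SbU : X.UF p U → X.UF p U → Prop
  | refl (u : X.UF p U) : SbU u u
  | gate (c : Bool) (k : ℕ) (f : Fin k → X.UF p U) (j : Fin k) (u : X.UF p U) :
      SbU u (f j) → SbU u (X.UF.gate c k f)
  | mod (A : ZMod p → Bool) (k : ℕ) (f : Fin k → X.UF p U) (j : Fin k) (u : X.UF p U) :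
      SbU u (f j) → SbU u (X.UF.mod A k f)

/-- small or medium formula -/
def Sml (κ : ℕ) (H : Finset U) (u : X.UF p U) : Prop := (varsU u).card ≤ κ ∨ varsU u ⊆ H

open Classical in
/-- the large gates above the free counting connectives, with their small arguments -/
noncomputable def gl (κ : ℕ) (H : Finset U) (fr : X.UF p U → Prop) :
    X.UF p U → List (Bool × List (X.Jn U Bool))
  | .lit _ _ => []
  | .cst _ => []
  | .gate c k f => if Sml κ H (X.UF.gate c k f) then [] else
      (c, ((List.finRange k).filter fun j => decide ((varsU (f j)).card ≤ κ)).map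
        fun j => (varsU (f j), fun z => X.UF.ev z (f j))) ::
        (List.ofFn fun j => gl κ H fr (f j)).flatten
  | .mod A k f => if Sml κ H (X.UF.mod A k f) ∨ fr (X.UF.mod A k f) then [] else
      (List.ofFn fun j => gl κ H fr (f j)).flatten

open Classical in
/-- degree bound; `E` is the degree of the free counting connectives -/
noncomputable def dgb (κ : ℕ) (H : Finset U) (fr : X.UF p U → Prop) (E : ℕ) : X.UF p U → ℕ
  | .lit _ _ => 0
  | .cst _ => 0
  | .gate c k f => if Sml κ H (X.UF.gate c k f) then 0 else ∑ j, dgb κ H fr E (f j)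
  | .mod A k f => if Sml κ H (X.UF.mod A k f) then 0 else if fr (X.UF.mod A k f) then E else
      p * κ + ∑ j, dgb κ H fr E (f j)

/-- cost -/
noncomputable def costU (κ τ n : ℕ) : X.UF p U → ℕ
  | .lit _ _ => 0
  | .cst _ => 0
  | .gate c k f => if (varsU (X.UF.gate c k f)).card ≤ κ then 0 else
      min (varsU (X.UF.gate c k f)).card τ + ∑ j, costU κ τ n (f j)
  | .mod A k f => if (varsU (X.UF.mod A k f)).card ≤ κ then 0 else
      min (min (varsU (X.UF.mod A k f)).card τ + ∑ j, costU κ τ n (f j))
        (n + univ.sup fun j => costU κ τ n (f j))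

/-- the counting connective is treated as free -/
def Free (κ τ n : ℕ) : X.UF p U → Prop
  | .lit _ _ => False
  | .cst _ => False
  | .gate _ _ _ => False
  | .mod A k f => κ < (varsU (X.UF.mod A k f)).card ∧
      n + (univ.sup fun j => costU κ τ n (f j)) ≤
        min (varsU (X.UF.mod A k f)).card τ + ∑ j, costU κ τ n (f j)

open Classical in
/-- total scope of the maximal subformulas with scope in `(κ, κ']`, above the free ones -/
noncomputable def massU (κ κ' : ℕ) (fr : X.UF p U → Prop) : X.UF p U → ℕ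
  | .lit _ _ => 0
  | .cst _ => 0
  | .gate c k f => if (varsU (X.UF.gate c k f)).card ≤ κ then 0 else
      if (varsU (X.UF.gate c k f)).card ≤ κ' then (varsU (X.UF.gate c k f)).card
      else ∑ j, massU κ κ' fr (f j)
  | .mod A k f => if (varsU (X.UF.mod A k f)).card ≤ κ then 0 else
      if (varsU (X.UF.mod A k f)).card ≤ κ' then (varsU (X.UF.mod A k f)).card
      else if fr (X.UF.mod A k f) then 0 else ∑ j, massU κ κ' fr (f j)

open Classical in
/-- variables of these subformulas -/
noncomputable def medU (κ κ' : ℕ) (fr : X.UF p U → Prop) : X.UF p U → Finset U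
  | .lit _ _ => ∅
  | .cst _ => ∅
  | .gate c k f => if (varsU (X.UF.gate c k f)).card ≤ κ then ∅ else
      if (varsU (X.UF.gate c k f)).card ≤ κ' then varsU (X.UF.gate c k f)
      else univ.biUnion fun j => medU κ κ' fr (f j)
  | .mod A k f => if (varsU (X.UF.mod A k f)).card ≤ κ then ∅ else
      if (varsU (X.UF.mod A k f)).card ≤ κ' then varsU (X.UF.mod A k f)
      else if fr (X.UF.mod A k f) then ∅ else univ.biUnion fun j => medU κ κ' fr (f j)

open Classical in
/-- number of connectives with scope greater than `κ'`, above and including the free ones -/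
noncomputable def nbg (κ' : ℕ) (fr : X.UF p U → Prop) : X.UF p U → ℕ
  | .lit _ _ => 0
  | .cst _ => 0
  | .gate c k f => if (varsU (X.UF.gate c k f)).card ≤ κ' then 0 else 1 + ∑ j, nbg κ' fr (f j)
  | .mod A k f => if (varsU (X.UF.mod A k f)).card ≤ κ' then 0 else
      if fr (X.UF.mod A k f) then 1 else 1 + ∑ j, nbg κ' fr (f j)

open Classical in
/-- number of outermost free counting connectives with scope greater than `κ'` -/
noncomputable def nfr (κ' : ℕ) (fr : X.UF p U → Prop) : X.UF p U → ℕ
  | .lit _ _ => 0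
  | .cst _ => 0
  | .gate c k f => if (varsU (X.UF.gate c k f)).card ≤ κ' then 0 else ∑ j, nfr κ' fr (f j)
  | .mod A k f => if (varsU (X.UF.mod A k f)).card ≤ κ' then 0 else
      if fr (X.UF.mod A k f) then 1 else ∑ j, nfr κ' fr (f j)

end clu

end Pool.Agent.Work.MP_c04246_lc.R
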