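import Pool.Agent.Work.MP_c04246_lc.R.RBd

/-!
MODULE RCnt (size M). Union bound for sets of clauses with few variables.

Proof of `card_local`. The set is a product (`Fintype.piFinset`): for `i ∈ S` the tuple `F i` has all its `k`
entries in `N ×ˢ univ` (`2 N.card` elements), for the other `i` it is arbitrary (`(2n)^k` possibilities). So
its cardinality is `(2 N.card)^(k s) * (2 n)^(k (m - s))`, and `card all = (2 n)^(k m)`.
Proof of `card_bad_le`. `c = (2 k + 1) * s / 4 ≤ n`. If `F` has a set `S` of `s` clauses with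
`4 (Vr S).card < (2 k + 1) s`, then `(Vr S).card ≤ c`, so there is `N ⊇ Vr S` with `N.card = c`
(`Finset.exists_superset_card_eq`, `c ≤ n = card (Fin n)`). Sum `card_local` over the
`(m.choose s) * (n.choose c)` pairs `(S, N)` (`Finset.powersetCard`), and divide by `n ^ (k s)`.
-/

set_option autoImplicit false

namespace Pool.Agent.Work.MP_c04246_lc.R

open Finset

lemma card_local {m k n : ℕ} (S : Finset (Fin m)) (N : Finset (Fin n)) :
    (univ.filter fun F : Fin m → Fin k → Fin n × Bool => ∀ i ∈ S, ∀ j, (F i j).1 ∈ N).card *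
      n ^ (k * S.card) = N.card ^ (k * S.card) *
        Fintype.card (Fin m → Fin k → Fin n × Bool) := by
  classical
  have h1 : (univ.filter fun F : Fin m → Fin k → Fin n × Bool => ∀ i ∈ S, ∀ j, (F i j).1 ∈ N) =
      Fintype.piFinset fun i : Fin m => if i ∈ S then
        Fintype.piFinset (fun _ : Fin k => N ×ˢ (univ : Finset Bool)) else univ := by
    ext F
    simp only [Finset.mem_filter, Finset.mem_univ, true_and, Fintype.mem_piFinset]
    refine forall_congr' fun i => ?_
    by_cases hi : i ∈ S
    · simp [hi, Fintype.mem_piFinset]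
    · simp [hi]
  rw [h1, Fintype.card_piFinset]
  have h2 : ∀ i : Fin m, (if i ∈ S then
        Fintype.piFinset (fun _ : Fin k => N ×ˢ (univ : Finset Bool)) else univ).card =
      if i ∈ S then (N.card * 2) ^ k else (n * 2) ^ k := by
    intro i
    by_cases hi : i ∈ S
    · simp [hi, Fintype.card_piFinset]
    · simp [hi]
  rw [Finset.prod_congr rfl fun i _ => h2 i, Finset.prod_ite, Finset.prod_const, Finset.prod_const,
    Finset.filter_mem_eq_inter, Finset.univ_inter]
  have h3 : (univ.filter fun i : Fin m => i ∉ S).card = m - S.card := by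
    rw [Finset.filter_not, Finset.filter_mem_eq_inter, Finset.univ_inter,
      Finset.card_sdiff_of_subset (Finset.subset_univ _), Finset.card_univ, Fintype.card_fin]
  have h4 : S.card ≤ m := by
    have := Finset.card_le_univ S
    rwa [Fintype.card_fin] at this
  rw [h3]
  simp only [Fintype.card_fun, Fintype.card_fin, Fintype.card_prod, Fintype.card_bool]
  have h5 : ((n * 2) ^ k) ^ m = ((n * 2) ^ k) ^ S.card * ((n * 2) ^ k) ^ (m - S.card) := by
    rw [← pow_add, Nat.add_sub_cancel' h4]
  rw [h5, mul_pow N.card 2 k, mul_pow (N.card ^ k), ← pow_mul, pow_mul n k S.card]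
  have h6 : ((n * 2) ^ k) ^ S.card = (n ^ k) ^ S.card * (2 ^ k) ^ S.card := by
    rw [mul_pow, mul_pow]
  rw [h6]
  ring

lemma card_bad_le {m k n s : ℕ} (hn : 1 ≤ n) (hs : (2 * k + 1) * s / 4 ≤ n) :
    ((open Classical in univ.filter fun F : Fin m → Fin k → Fin n × Bool =>
      ∃ S : Finset (Fin m), S.card = s ∧ 4 * (Vr (clF F) S).card < (2 * k + 1) * s).card : ℝ) ≤
    (m.choose s : ℝ) * (n.choose ((2 * k + 1) * s / 4) : ℝ) *
      ((((2 * k + 1) * s / 4 : ℕ) : ℝ) / n) ^ (k * s) *
        Fintype.card (Fin m → Fin k → Fin n × Bool) := by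
  classical
  set c : ℕ := (2 * k + 1) * s / 4 with hc
  set A : ℕ := Fintype.card (Fin m → Fin k → Fin n × Bool) with hA
  -- the union bound
  have h1 : (univ.filter fun F : Fin m → Fin k → Fin n × Bool =>
      ∃ S : Finset (Fin m), S.card = s ∧ 4 * (Vr (clF F) S).card < (2 * k + 1) * s).card *
        n ^ (k * s) ≤ m.choose s * n.choose c * (c ^ (k * s) * A) := by
    have h2 : (univ.filter fun F : Fin m → Fin k → Fin n × Bool =>
        ∃ S : Finset (Fin m), S.card = s ∧ 4 * (Vr (clF F) S).card < (2 * k + 1) * s) ⊆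
        ((univ : Finset (Fin m)).powersetCard s ×ˢ (univ : Finset (Fin n)).powersetCard c).biUnion
          fun q => univ.filter fun F : Fin m → Fin k → Fin n × Bool =>
            ∀ i ∈ q.1, ∀ j, (F i j).1 ∈ q.2 := by
      intro F hF
      obtain ⟨S, hS, hV⟩ := (Finset.mem_filter.1 hF).2
      have h3 : (Vr (clF F) S).card ≤ c := by
        rw [hc, Nat.le_div_iff_mul_le (by norm_num)]
        omega
      obtain ⟨N, hN, hNc⟩ := Finset.exists_superset_card_eq h3 (by
        rw [Fintype.card_fin]
        exact hs)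
      rw [Finset.mem_biUnion]
      refine ⟨(S, N), ?_, ?_⟩
      · rw [Finset.mem_product, Finset.mem_powersetCard, Finset.mem_powersetCard]
        exact ⟨⟨Finset.subset_univ _, hS⟩, Finset.subset_univ _, hNc⟩
      · rw [Finset.mem_filter]
        exact ⟨Finset.mem_univ _, (Vr_clF F S N).1 hN⟩
    calc _ ≤ (((univ : Finset (Fin m)).powersetCard s ×ˢ
          (univ : Finset (Fin n)).powersetCard c).biUnion
          fun q => univ.filter fun F : Fin m → Fin k → Fin n × Bool =>
            ∀ i ∈ q.1, ∀ j, (F i j).1 ∈ q.2).card * n ^ (k * s) :=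
          Nat.mul_le_mul_right _ (Finset.card_le_card h2)
      _ ≤ (∑ q ∈ (univ : Finset (Fin m)).powersetCard s ×ˢ
          (univ : Finset (Fin n)).powersetCard c,
          (univ.filter fun F : Fin m → Fin k → Fin n × Bool =>
            ∀ i ∈ q.1, ∀ j, (F i j).1 ∈ q.2).card) * n ^ (k * s) :=
          Nat.mul_le_mul_right _ Finset.card_biUnion_le
      _ = ∑ q ∈ (univ : Finset (Fin m)).powersetCard s ×ˢ
          (univ : Finset (Fin n)).powersetCard c, c ^ (k * s) * A := by
          rw [Finset.sum_mul]
          refine Finset.sum_congr rfl fun q hq => ?_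
          rw [Finset.mem_product, Finset.mem_powersetCard, Finset.mem_powersetCard] at hq
          have := card_local (k := k) q.1 q.2
          rw [hq.1.2, hq.2.2] at this
          exact this
      _ = m.choose s * n.choose c * (c ^ (k * s) * A) := by
          rw [Finset.sum_const, smul_eq_mul, Finset.card_product, Finset.card_powersetCard,
            Finset.card_powersetCard, Finset.card_univ, Finset.card_univ, Fintype.card_fin,
            Fintype.card_fin]
  have hn0 : (0 : ℝ) < (n : ℝ) ^ (k * s) := by
    have : (0 : ℝ) < n := by exact_mod_cast hn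
    positivity
  rw [div_pow, ← mul_le_mul_iff_left₀ hn0]
  have h5 : ((univ.filter fun F : Fin m → Fin k → Fin n × Bool =>
      ∃ S : Finset (Fin m), S.card = s ∧ 4 * (Vr (clF F) S).card < (2 * k + 1) * s).card : ℝ) *
        (n : ℝ) ^ (k * s) ≤ (m.choose s : ℝ) * (n.choose c : ℝ) * ((c : ℝ) ^ (k * s) * A) := by
    exact_mod_cast h1
  refine le_trans (le_of_eq ?_) (h5.trans (le_of_eq ?_))
  · congr!
  · field_simp

end Pool.Agent.Work.MP_c04246_lc.R
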