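import Pool.Agent.Work.MP_c04246_lc.R.Grow

/-!
MODULE ResA (size M). Residual expansion of a connected set of clauses after the random restriction,
for EVERY labelling `lam` (deterministic).

Proof of `resA` (some cluster `Z`, `|S| ≤ s0 |Z|`, meets `Vr S`). `Z` is `Iso` and `Good`. Some clause of
`S` meets `Z`, so by `grow_all` `Vr S ⊆ ball Z S.card ⊆ ball Z (rad e Z.card)` (`ball_le`;
`S.card ≤ s0 e Z.card ≤ rad e Z.card`). Every `x ∈ bd S \ Z` is therefore in `ball Z rad \ Z`, so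
`(lam x).1 = false` by `Iso Z`, hence `x ∉ domL` (a member of a cluster has label `true`). So
`bd S \ Z ⊆ bd S \ domL`. The clauses of `S` are not satisfied on `domL ⊇ Z`, so not on `Z`
(`Z ⊆ domL` by definition of `domL`, `valL lam x = (lam x).2`); `Good Z` gives
`S.card ≤ 2 e |bd S \ Z| ≤ 2 e |bd S \ domL|`.

Proof of `resB` (all clusters `Z` meeting `Vr S` have `s0 e Z.card < S.card`). For `z ≥ 1` let `U_z` be the
set of `x ∈ Vr S` lying in some cluster of size `z`.
(count) `s0 e z * U_z.card ≤ z * S.card`: for `x ∈ U_z` let `T x = tch S (ball {x} (s0 e z))`; by `grow`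
(`tch S {x}` is nonempty since `x ∈ Vr S`) `(T x).card ≥ min S.card (s0 e z + 1) ≥ s0 e z`, because
`s0 e z < S.card`. For a fixed clause `i ∈ S` at most `z` of the `x ∈ U_z` have `i ∈ T x`: if there is one, `x1`, let
`Z1 ∋ x1` be a cluster of size `z`. Any other such `x`: `vr i` meets `ball {x1} s0` and `ball {x} s0`; by
`vr_subset_ball` a point `b ∈ vr i ∩ ball {x} s0` is in `ball {x1} (s0 + 1)`, so by symmetry and `ball_add`
`x ∈ ball {x1} (2 s0 + 1) ⊆ ball Z1 (rad e z)`; `x` lies in a cluster so `(lam x).1 = true`; by `Iso Z1`,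
`x ∈ Z1`. So these `x` are all in `Z1`, `Z1.card = z`. Double counting
(`Finset.sum_card_bipartiteAbove_eq_sum_card_bipartiteBelow` or `Finset.card_mul_le_card_mul`).
(sum) `bd S ∩ domL ⊆ ⋃ z ≥ 1 U_z` (if `x ∈ Vr S ∩ domL` lies in a cluster `Z`, then `z = Z.card ≥ 1` and
`Z` meets `Vr S`), `z` ranges over `1, ..., card U`. With `s0 e z = 4 e z 2^z`: `4 e 2^z U_z.card ≤ S.card`, so (in
`ℝ` or `ℚ`) `4 e |bd S ∩ domL| ≤ S.card * ∑ z ≥ 1, 2^-z ≤ S.card`.
(end) `S.card ≤ e |bd S| = e |bd S \ domL| + e |bd S ∩ domL| ≤ e |bd S \ domL| + S.card / 4`, so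
`3 S.card ≤ 4 e |bd S \ domL|`, in particular `S.card ≤ 2 e |bd S \ domL|`.
(If `U_z` is empty for some `z` nothing is needed; for `U_z` nonempty the cluster through its element
meets `Vr S`, so `s0 e z < S.card`.)
-/

set_option autoImplicit false
set_option linter.unusedSectionVars false

namespace Pool.Agent.Work.MP_c04246_lc.R

open Finset

variable {U M : Type} [DecidableEq U] [DecidableEq M] [Fintype U] [Fintype M]
  {cl : M → Finset (U × Bool)}

private lemma mem_tch' {S : Finset M} {A : Finset U} {i : M} :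
    i ∈ tch cl S A ↔ i ∈ S ∧ ¬ Disjoint (vr cl i) A := by
  unfold tch; exact mem_filter

private lemma mem_Vr' {S : Finset M} {x : U} : x ∈ Vr cl S ↔ ∃ i ∈ S, x ∈ vr cl i := by
  unfold Vr; exact mem_biUnion

private lemma mem_domL' {e : ℕ} {lam : U → Bool × Bool} {x : U} :
    x ∈ domL cl e lam ↔ ∃ Z : Finset U, x ∈ Z ∧ Iso cl e lam Z ∧ Good cl e lam Z := by
  unfold domL; simp

private lemma s0_le_rad (e z : ℕ) : s0 e z ≤ rad e z := by unfold rad; omega

lemma resA {e : ℕ} (lam : U → Bool × Bool) {S : Finset M} (hS : Cnn cl S)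
    (hsat : ∀ i ∈ S, ¬ SatBy (domL cl e lam) (valL lam) (cl i)) (Z : Finset U)
    (hZ : Iso cl e lam Z) (hZ' : Good cl e lam Z) (hm : ¬ Disjoint (Vr cl S) Z)
    (hc : S.card ≤ s0 e Z.card) : S.card ≤ 2 * e * (bd cl S \ domL cl e lam).card := by
  have hne : (tch cl S Z).Nonempty := by
    rw [Finset.not_disjoint_iff] at hm
    obtain ⟨x, hx, hxZ⟩ := hm
    obtain ⟨i, hi, hxi⟩ := mem_Vr'.1 hx
    exact ⟨i, mem_tch'.2 ⟨hi, Finset.not_disjoint_iff.2 ⟨x, hxi, hxZ⟩⟩⟩
  have h1 := grow_all hS Z hne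
  have h2 : bd cl S \ Z ⊆ bd cl S \ domL cl e lam := by
    intro x hx
    rw [mem_sdiff] at hx ⊢
    refine ⟨hx.1, fun hd => ?_⟩
    obtain ⟨W, hxW, hW, -⟩ := mem_domL'.1 hd
    have ht := hW.1 x hxW
    have hxV : x ∈ Vr cl S := by
      have := hx.1
      unfold bd at this
      exact (mem_filter.1 this).1
    have hb : x ∈ ball cl Z (rad e Z.card) :=
      ball_le Z (le_trans hc (s0_le_rad e Z.card)) (h1 hxV)
    have hf := hZ.2 x hb hx.2
    rw [ht] at hf
    exact absurd hf (by decide)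
  have h3 : S.card ≤ 2 * e * (bd cl S \ Z).card := by
    apply hZ' S hS hc
    intro i hi hs
    apply hsat i hi
    obtain ⟨l, hl, hlZ, hv⟩ := hs
    exact ⟨l, hl, mem_domL'.2 ⟨Z, hlZ, hZ, hZ'⟩, hv⟩
  exact le_trans h3 (Nat.mul_le_mul_left _ (card_le_card h2))

open Classical in
/-- members of `Vr S` lying in a cluster of size `z` -/
private noncomputable def Uz (cl : M → Finset (U × Bool)) (e : ℕ) (lam : U → Bool × Bool)
    (S : Finset M) (z : ℕ) : Finset U :=
  (Vr cl S).filter fun x => ∃ Z : Finset U, x ∈ Z ∧ Iso cl e lam Z ∧ Good cl e lam Z ∧ Z.card = z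

private lemma mem_Uz {e : ℕ} {lam : U → Bool × Bool} {S : Finset M} {z : ℕ} {x : U} :
    x ∈ Uz cl e lam S z ↔ x ∈ Vr cl S ∧
      ∃ Z : Finset U, x ∈ Z ∧ Iso cl e lam Z ∧ Good cl e lam Z ∧ Z.card = z := by
  classical
  unfold Uz; rw [mem_filter]

private lemma countU {e : ℕ} (lam : U → Bool × Bool) {S : Finset M}
    (hS : Cnn cl S) (hc : ∀ Z : Finset U, Iso cl e lam Z → Good cl e lam Z →
      ¬ Disjoint (Vr cl S) Z → s0 e Z.card < S.card) (z : ℕ) :
    (Uz cl e lam S z).card * s0 e z ≤ S.card * z := by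
  classical
  refine Finset.card_mul_le_card_mul
    (fun (x : U) (i : M) => ¬ Disjoint (vr cl i) (ball cl {x} (s0 e z))) ?_ ?_
  · intro x hx
    obtain ⟨hxV, Z, hxZ, hI, hG, hz⟩ := mem_Uz.1 hx
    have hlt : s0 e z < S.card := by
      rw [← hz]
      exact hc Z hI hG (Finset.not_disjoint_iff.2 ⟨x, hxV, hxZ⟩)
    have hne : (tch cl S {x}).Nonempty := by
      obtain ⟨i, hi, hxi⟩ := mem_Vr'.1 hxV
      exact ⟨i, mem_tch'.2 ⟨hi, Finset.not_disjoint_iff.2 ⟨x, hxi, mem_singleton_self x⟩⟩⟩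
    have hg := grow hS {x} hne (s0 e z)
    have hle : s0 e z ≤ min S.card (s0 e z + 1) := by
      rw [le_min_iff]; omega
    refine le_trans (le_trans hle hg) (card_le_card ?_)
    intro i hi
    rw [mem_tch'] at hi
    rw [mem_bipartiteAbove]
    exact hi
  · intro i hi
    by_cases hemp : (bipartiteBelow
        (fun (x : U) (i : M) => ¬ Disjoint (vr cl i) (ball cl {x} (s0 e z)))
        (Uz cl e lam S z) i) = ∅
    · rw [hemp]; simp
    obtain ⟨x1, hx1⟩ := Finset.nonempty_iff_ne_empty.2 hemp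
    rw [mem_bipartiteBelow] at hx1
    obtain ⟨hx1U, hx1b⟩ := hx1
    obtain ⟨hx1V, Z1, hx1Z, hI1, hG1, hz1⟩ := mem_Uz.1 hx1U
    rw [← hz1]
    apply card_le_card
    intro x hx
    rw [mem_bipartiteBelow] at hx
    obtain ⟨hxU, hxb⟩ := hx
    obtain ⟨hxV, Z, hxZ, hI, hG, hz⟩ := mem_Uz.1 hxU
    by_contra hnot
    have ht := hI.1 x hxZ
    have hsub := vr_subset_ball hx1b
    rw [Finset.not_disjoint_iff] at hxb
    obtain ⟨b, hbi, hbx⟩ := hxb
    have hb1 := hsub hbi
    have hxb' : x ∈ ball cl {b} (s0 e z) := by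
      have := mem_ball_symm (cl := cl) (x := b) (y := x) (n := s0 e Z1.card) hbx
      rw [hz1] at this
      exact this
    have hx2 : x ∈ ball cl {x1} (s0 e z + 1 + s0 e z) := by
      rw [← ball_add]
      exact ball_mono (singleton_subset_iff.2 hb1) _ hxb'
    have hx3 : x ∈ ball cl Z1 (rad e Z1.card) := by
      rw [hz1]
      apply ball_le Z1 (m := s0 e z + 1 + s0 e z) (by unfold rad; omega)
      exact ball_mono (singleton_subset_iff.2 hx1Z) _ hx2
    have hf := hI1.2 x hx3 hnot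
    rw [ht] at hf
    exact absurd hf (by decide)

private lemma sum_half (N : ℕ) : ∑ z ∈ Icc 1 N, ((1 : ℚ) / 2) ^ z ≤ 1 := by
  have h : ∀ N : ℕ, ∑ z ∈ Icc 1 N, ((1 : ℚ) / 2) ^ z = 1 - (1 / 2) ^ N := by
    intro N
    induction N with
    | zero => simp
    | succ n ih =>
      rw [Finset.sum_Icc_succ_top (by omega), ih, pow_succ]
      ring
  rw [h N]
  have : (0 : ℚ) ≤ (1 / 2) ^ N := by positivity
  linarith

lemma resB {r e : ℕ} (hE : Expn cl r e) (he : 1 ≤ e) (lam : U → Bool × Bool) {S : Finset M}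
    (hS : Cnn cl S) (hr : S.card ≤ r)
    (hc : ∀ Z : Finset U, Iso cl e lam Z → Good cl e lam Z → ¬ Disjoint (Vr cl S) Z →
      s0 e Z.card < S.card) : S.card ≤ 2 * e * (bd cl S \ domL cl e lam).card := by
  classical
  have h1 : bd cl S ∩ domL cl e lam ⊆
      (Icc 1 (Fintype.card U)).biUnion fun z => Uz cl e lam S z := by
    intro x hx
    rw [mem_inter] at hx
    obtain ⟨hxb, hxd⟩ := hx
    obtain ⟨Z, hxZ, hI, hG⟩ := mem_domL'.1 hxd
    have hxV : x ∈ Vr cl S := by
      unfold bd at hxb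
      exact (mem_filter.1 hxb).1
    rw [mem_biUnion]
    refine ⟨Z.card, mem_Icc.2 ⟨card_pos.2 ⟨x, hxZ⟩, card_le_univ Z⟩, ?_⟩
    exact mem_Uz.2 ⟨hxV, Z, hxZ, hI, hG, rfl⟩
  have h2 : (bd cl S ∩ domL cl e lam).card ≤
      ∑ z ∈ Icc 1 (Fintype.card U), (Uz cl e lam S z).card :=
    le_trans (card_le_card h1) card_biUnion_le
  have h3 : ∀ z ∈ Icc 1 (Fintype.card U),
      (4 * e : ℚ) * (Uz cl e lam S z).card ≤ S.card * (1 / 2) ^ z := by
    intro z hz
    have hz1 : 1 ≤ z := (mem_Icc.1 hz).1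
    have h4 := countU (e := e) lam hS hc z
    have h5 : 4 * e * (Uz cl e lam S z).card * 2 ^ z ≤ S.card := by
      have : z * (4 * e * (Uz cl e lam S z).card * 2 ^ z) ≤ z * S.card := by
        calc z * (4 * e * (Uz cl e lam S z).card * 2 ^ z)
            = (Uz cl e lam S z).card * s0 e z := by unfold s0; ring
          _ ≤ S.card * z := h4
          _ = z * S.card := by ring
      exact Nat.le_of_mul_le_mul_left this (by omega)
    have h6 : (4 * e : ℚ) * (Uz cl e lam S z).card * 2 ^ z ≤ S.card := by exact_mod_cast h5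
    have h7 : (0 : ℚ) < 2 ^ z := by positivity
    rw [one_div, inv_pow, ← div_eq_mul_inv, le_div_iff₀ h7]
    exact h6
  have h8 : (4 * e : ℚ) * (bd cl S ∩ domL cl e lam).card ≤ S.card := by
    calc (4 * e : ℚ) * (bd cl S ∩ domL cl e lam).card
        ≤ (4 * e : ℚ) * ∑ z ∈ Icc 1 (Fintype.card U), ((Uz cl e lam S z).card : ℚ) := by
          apply mul_le_mul_of_nonneg_left _ (by positivity)
          exact_mod_cast h2
      _ = ∑ z ∈ Icc 1 (Fintype.card U), (4 * e : ℚ) * (Uz cl e lam S z).card := by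
          rw [mul_sum]
      _ ≤ ∑ z ∈ Icc 1 (Fintype.card U), (S.card : ℚ) * (1 / 2) ^ z := sum_le_sum h3
      _ = S.card * ∑ z ∈ Icc 1 (Fintype.card U), ((1 : ℚ) / 2) ^ z := by rw [mul_sum]
      _ ≤ S.card * 1 := mul_le_mul_of_nonneg_left (sum_half _) (by positivity)
      _ = S.card := mul_one _
  have h9 : 4 * e * (bd cl S ∩ domL cl e lam).card ≤ S.card := by exact_mod_cast h8
  have h10 := hE S hr
  have h11 : (bd cl S).card = (bd cl S \ domL cl e lam).card +
      (bd cl S ∩ domL cl e lam).card := by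
    rw [add_comm]
    exact (card_inter_add_card_sdiff _ _).symm
  rw [h11] at h10
  have h12 : e * ((bd cl S \ domL cl e lam).card + (bd cl S ∩ domL cl e lam).card) =
      e * (bd cl S \ domL cl e lam).card + e * (bd cl S ∩ domL cl e lam).card := by ring
  have h13 : 4 * e * (bd cl S ∩ domL cl e lam).card =
      4 * (e * (bd cl S ∩ domL cl e lam).card) := by ring
  have h14 : 2 * e * (bd cl S \ domL cl e lam).card =
      2 * (e * (bd cl S \ domL cl e lam).card) := by ring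
  rw [h14]
  rw [h12] at h10
  rw [h13] at h9
  omega

end Pool.Agent.Work.MP_c04246_lc.R
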