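import Pool.Agent.Work.MP_c04246_lc.R.ResA

/-!
MODULE ResC (size S). Residual expansion in general.

Proof. Strong induction on `S.card`. If `S` is connected (`Cnn`): if some cluster `Z` (`Iso`, `Good`) with
`¬ Disjoint (Vr S) Z` has `S.card ≤ s0 e Z.card` use `resA`, otherwise `resB`. If `S` is not connected there
is a nonempty `T ⊆ S`, `T ≠ S`, closed under sharing variables inside `S`; then `T' = S \ T` is nonempty and
no clause of `T` shares a variable with a clause of `T'`. By `bd_union_disj`
`bd S = bd T ∪ bd T'` disjointly, so `|bd S \ D| = |bd T \ D| + |bd T' \ D|`; apply the induction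
hypothesis to `T` and `T'`.
-/

set_option autoImplicit false
set_option linter.unusedSectionVars false

namespace Pool.Agent.Work.MP_c04246_lc.R

open Finset

variable {U M : Type} [DecidableEq U] [DecidableEq M] [Fintype U] [Fintype M]
  {cl : M → Finset (U × Bool)}

theorem resExp {r e : ℕ} (hE : Expn cl r e) (he : 1 ≤ e) (lam : U → Bool × Bool) :
    ExpnR cl (domL cl e lam) (valL lam) r (2 * e) := by
  classical
  suffices H : ∀ (n : ℕ) (S : Finset M), S.card = n → S.card ≤ r →
      (∀ i ∈ S, ¬ SatBy (domL cl e lam) (valL lam) (cl i)) →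
      S.card ≤ 2 * e * (bd cl S \ domL cl e lam).card by
    intro S hS hs
    exact H S.card S rfl hS hs
  intro n
  induction n using Nat.strong_induction_on with
  | _ n ih =>
    intro S hn hr hs
    by_cases hC : Cnn cl S
    · by_cases hZ : ∃ Z : Finset U, Iso cl e lam Z ∧ Good cl e lam Z ∧ ¬ Disjoint (Vr cl S) Z ∧
          S.card ≤ s0 e Z.card
      · obtain ⟨Z, h1, h2, h3, h4⟩ := hZ
        exact resA lam hC hs Z h1 h2 h3 h4
      · apply resB hE he lam hC hr
        intro Z h1 h2 h3
        by_contra h4
        exact hZ ⟨Z, h1, h2, h3, not_lt.1 h4⟩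
    · have hex : ∃ T ⊆ S, T.Nonempty ∧
          (∀ i ∈ T, ∀ j ∈ S, ¬ Disjoint (vr cl i) (vr cl j) → j ∈ T) ∧ T ≠ S := by
        by_contra hno
        apply hC
        intro T hT hne hcl
        by_contra hTS
        exact hno ⟨T, hT, hne, hcl, hTS⟩
      obtain ⟨T, hT, hne, hcl, hTS⟩ := hex
      have hdis : ∀ i ∈ T, ∀ j ∈ S \ T, Disjoint (vr cl i) (vr cl j) := by
        intro i hi j hj
        rw [mem_sdiff] at hj
        by_contra hd
        exact hj.2 (hcl i hi j hj.1 hd)
      obtain ⟨hb1, hb2⟩ := bd_union_disj hdis
      have hu : T ∪ (S \ T) = S := Finset.union_sdiff_of_subset hT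
      rw [hu] at hb1
      have hT'ne : (S \ T).Nonempty := by
        rw [Finset.nonempty_iff_ne_empty]
        intro h0
        rw [Finset.sdiff_eq_empty_iff_subset] at h0
        exact hTS (Finset.Subset.antisymm hT h0)
      have hc : T.card + (S \ T).card = S.card := by
        rw [add_comm]
        exact card_sdiff_add_card_eq_card hT
      have hp1 := card_pos.2 hne
      have hp2 := card_pos.2 hT'ne
      have i1 := ih T.card (by omega) T rfl (by omega) (fun i hi => hs i (hT hi))
      have i2 := ih (S \ T).card (by omega) (S \ T) rfl (by omega)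
        (fun i hi => hs i (mem_sdiff.1 hi).1)
      have hsp : (bd cl S \ domL cl e lam).card =
          (bd cl T \ domL cl e lam).card + (bd cl (S \ T) \ domL cl e lam).card := by
        rw [hb1, Finset.union_sdiff_distrib]
        apply card_union_of_disjoint
        exact Finset.disjoint_of_subset_left sdiff_subset
          (Finset.disjoint_of_subset_right sdiff_subset hb2)
      rw [hsp, Nat.mul_add]
      omega

end Pool.Agent.Work.MP_c04246_lc.R
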