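import Pool.Agent.Work.MP_c04246_lc.R.Mix

/-!
MODULE Rev (size M). The revealing process (generalizes `X.revG`, `X.rev` of XReveal.lean: copy the proofs
of `revG_mono, revG_card, revG_off, revG_on, revG_spec, rev_mono, ..., rev_spec` there, with the event
`lam ∈ s.2` in the place of `killed c s ρ`, and with the condition `Disjoint s.1 V` in the place of
`Disjoint s.1 V ∧ ∃ x, s.2 x = c`).

An item is a pair `(Rg, E)`: region and event. `It A B0 s`: the region has at most `B0` elements, the event
depends only on the labels in the region, and has probability at least `1 / A`.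
In `rev_spec` an item of a gate that is not killed has a region meeting the final set: if the item was
skipped, its region met the current set; if it was revealed without killing, its region is inside
the final set, and it is nonempty, because an event with empty region which contains some `lam` contains
all (`card Ω ≤ A * card E`; `card Ω > 0` because `lam` exists, so `E` is nonempty; then `lam ∈ E`).
-/

set_option autoImplicit false

namespace Pool.Agent.Work.MP_c04246_lc.R

open Finset

variable {U T : Type} [DecidableEq U] [Fintype U] [Fintype T]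

/-- admissible items -/
def It (A B0 : ℕ) (s : Finset U × Finset (U → T)) : Prop :=
  s.1.card ≤ B0 ∧ (∀ lam lam' : U → T, (∀ x ∈ s.1, lam x = lam' x) → lam ∈ s.2 → lam' ∈ s.2) ∧
    Fintype.card (U → T) ≤ A * s.2.card

open Classical in
/-- reveal the regions of the items in the list until one of the events happens -/
noncomputable def revG (lam : U → T) : List (Finset U × Finset (U → T)) → Finset U →
    (Finset U × ℕ)
  | [], V => (V, 0)
  | s :: l, V => if Disjoint s.1 V then
      (if lam ∈ s.2 then (V ∪ s.1, 1)
        else ((revG lam l (V ∪ s.1)).1, (revG lam l (V ∪ s.1)).2 + 1))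
      else revG lam l V

/-- run the revealing process through a list of gates -/
noncomputable def rev (lam : U → T) : List (List (Finset U × Finset (U → T))) → Finset U →
    (Finset U × ℕ)
  | [], V => (V, 0)
  | g :: gs, V => ((rev lam gs (revG lam g V).1).1,
      (revG lam g V).2 + (rev lam gs (revG lam g V).1).2)

lemma revG_mono (lam : U → T) (l : List (Finset U × Finset (U → T))) :
    ∀ V, V ⊆ (revG lam l V).1 := by
  induction l with
  | nil => intro V; exact Subset.rfl
  | cons s l ih =>
    intro V
    simp only [revG]
    split_ifs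
    · exact subset_union_left
    · exact subset_union_left.trans (ih _)
    · exact ih V

private lemma Rev_card {A B0 : ℕ} (lam : U → T) (l : List (Finset U × Finset (U → T)))
    (hl : ∀ s ∈ l, It A B0 s) :
    ∀ V, (revG lam l V).1.card ≤ V.card + B0 * (revG lam l V).2 := by
  induction l with
  | nil => intro V; simp [revG]
  | cons s l ih =>
    intro V
    have h1 := (hl s (by simp)).1
    have ih' := ih (fun s' hs' => hl s' (by simp [hs']))
    have h2 : (V ∪ s.1).card ≤ V.card + B0 := (card_union_le _ _).trans (by omega)
    simp only [revG]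
    split_ifs
    · simpa using h2
    · have h3 := ih' (V ∪ s.1)
      show (revG lam l (V ∪ s.1)).1.card ≤ V.card + B0 * ((revG lam l (V ∪ s.1)).2 + 1)
      have h4 : B0 * ((revG lam l (V ∪ s.1)).2 + 1) = B0 * (revG lam l (V ∪ s.1)).2 + B0 := by ring
      omega
    · exact ih' V

private lemma Rev_ev {A B0 : ℕ} {s : Finset U × Finset (U → T)} (hs : It A B0 s)
    {lam lam' : U → T} (h : ∀ x ∈ s.1, lam x = lam' x) : lam ∈ s.2 ↔ lam' ∈ s.2 :=
  ⟨hs.2.1 lam lam' h, hs.2.1 lam' lam fun x hx => (h x hx).symm⟩

lemma revG_off {A B0 : ℕ} {lam lam' : U → T} (l : List (Finset U × Finset (U → T)))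
    (hl : ∀ s ∈ l, It A B0 s) :
    ∀ V, (∀ x, x ∉ V → lam x = lam' x) → revG lam l V = revG lam' l V := by
  induction l with
  | nil => intro V _; rfl
  | cons s l ih =>
    intro V h
    have ih' := ih (fun s' hs' => hl s' (by simp [hs']))
    simp only [revG]
    by_cases hd : Disjoint s.1 V
    · rw [if_pos hd, if_pos hd]
      have h1 : lam ∈ s.2 ↔ lam' ∈ s.2 :=
        Rev_ev (hl s (by simp)) fun j hj => h j (disjoint_left.mp hd hj)
      have h2 : revG lam l (V ∪ s.1) = revG lam' l (V ∪ s.1) :=
        ih' _ fun j hj => h j fun hjV => hj (mem_union_left _ hjV)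
      rw [h2]
      by_cases hk : lam ∈ s.2
      · rw [if_pos hk, if_pos (h1.mp hk)]
      · rw [if_neg hk, if_neg (fun h => hk (h1.mpr h))]
    · rw [if_neg hd, if_neg hd]; exact ih' V h

lemma revG_on {A B0 : ℕ} {lam lam' : U → T} (l : List (Finset U × Finset (U → T)))
    (hl : ∀ s ∈ l, It A B0 s) :
    ∀ V, (∀ x ∈ (revG lam l V).1, lam x = lam' x) → revG lam' l V = revG lam l V := by
  induction l with
  | nil => intro V _; rfl
  | cons s l ih =>
    intro V h
    have ih' := ih (fun s' hs' => hl s' (by simp [hs']))
    simp only [revG] at h ⊢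
    by_cases hd : Disjoint s.1 V
    · rw [if_pos hd] at h ⊢
      rw [if_pos hd]
      by_cases hk : lam ∈ s.2
      · rw [if_pos hk] at h ⊢
        have h1 : lam' ∈ s.2 :=
          (Rev_ev (hl s (by simp)) fun j hj => h j (mem_union_right _ hj)).mp hk
        rw [if_pos h1]
      · rw [if_neg hk] at h ⊢
        have h1 : lam' ∉ s.2 := by
          intro h2
          exact hk ((Rev_ev (hl s (by simp)) fun j hj =>
            h j (revG_mono lam l _ (mem_union_right _ hj))).mpr h2)
        rw [if_neg h1, ih' _ h]
    · rw [if_neg hd] at h ⊢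
      rw [if_neg hd]
      exact ih' V h

private lemma Rev_spec {A B0 : ℕ} (lam : U → T) (l : List (Finset U × Finset (U → T)))
    (hl : ∀ s ∈ l, It A B0 s) : ∀ V,
    (∃ s ∈ l, lam ∈ s.2) ∨ ∀ s ∈ l, ¬ Disjoint s.1 (revG lam l V).1 := by
  induction l with
  | nil => intro V; right; simp
  | cons s l ih =>
    intro V
    have ih' := ih (fun s' hs' => hl s' (by simp [hs']))
    simp only [revG]
    by_cases hd : Disjoint s.1 V
    · rw [if_pos hd]
      by_cases hk : lam ∈ s.2
      · rw [if_pos hk]
        left
        exact ⟨s, by simp, hk⟩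
      · rw [if_neg hk]
        rcases ih' (V ∪ s.1) with ⟨s', hs', h2⟩ | h1
        · left; exact ⟨s', by simp [hs'], h2⟩
        · right
          intro s' hs'
          rcases List.mem_cons.mp hs' with rfl | hs'
          · intro hdis
            have h2 : s'.1 ⊆ (revG lam l (V ∪ s'.1)).1 :=
              subset_union_right.trans (revG_mono lam l _)
            have h3 : s'.1 = ∅ := by
              rw [eq_empty_iff_forall_notMem]
              intro j hj
              exact (disjoint_left.mp hdis) hj (h2 hj)
            apply hk
            obtain ⟨-, h4, h5⟩ := hl s' (by simp)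
            have h6 : 0 < Fintype.card (U → T) := Fintype.card_pos_iff.mpr ⟨lam⟩
            have h7 : 0 < s'.2.card := by
              rcases Nat.eq_zero_or_pos s'.2.card with h0 | h0
              · rw [h0, mul_zero] at h5
                omega
              · exact h0
            obtain ⟨lam0, h8⟩ := card_pos.mp h7
            exact h4 lam0 lam (by rw [h3]; simp) h8
          · exact h1 s' hs'
    · rw [if_neg hd]
      rcases ih' V with ⟨s', hs', h2⟩ | h1
      · left; exact ⟨s', by simp [hs'], h2⟩
      · right
        intro s' hs'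
        rcases List.mem_cons.mp hs' with rfl | hs'
        · intro hdis
          apply hd
          exact hdis.mono_right (revG_mono lam l V)
        · exact h1 s' hs'

lemma rev_mono (lam : U → T) (gs : List (List (Finset U × Finset (U → T)))) :
    ∀ V, V ⊆ (rev lam gs V).1 := by
  induction gs with
  | nil => intro V; exact Subset.rfl
  | cons g gs ih =>
    intro V
    simp only [rev]
    exact (revG_mono lam g V).trans (ih _)

lemma rev_card {A B0 : ℕ} (lam : U → T) (gs : List (List (Finset U × Finset (U → T))))
    (hl : ∀ g ∈ gs, ∀ s ∈ g, It A B0 s) :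
    ∀ V, (rev lam gs V).1.card ≤ V.card + B0 * (rev lam gs V).2 := by
  induction gs with
  | nil => intro V; simp [rev]
  | cons g gs ih =>
    intro V
    have h1 := Rev_card lam g (hl g (by simp)) V
    have h2 := ih (fun g' hg' => hl g' (by simp [hg'])) (revG lam g V).1
    simp only [rev, mul_add]
    omega

lemma rev_off {A B0 : ℕ} {lam lam' : U → T} (gs : List (List (Finset U × Finset (U → T))))
    (hl : ∀ g ∈ gs, ∀ s ∈ g, It A B0 s) :
    ∀ V, (∀ x, x ∉ V → lam x = lam' x) → rev lam gs V = rev lam' gs V := by
  induction gs with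
  | nil => intro V _; rfl
  | cons g gs ih =>
    intro V h
    have h1 := revG_off (lam := lam) (lam' := lam') g (hl g (by simp)) V h
    simp only [rev]
    rw [← h1]
    have h2 := ih (fun g' hg' => hl g' (by simp [hg'])) (revG lam g V).1
      (fun j hj => h j fun hjV => hj (revG_mono _ _ _ hjV))
    rw [h2]

lemma rev_on {A B0 : ℕ} {lam lam' : U → T} (gs : List (List (Finset U × Finset (U → T))))
    (hl : ∀ g ∈ gs, ∀ s ∈ g, It A B0 s) :
    ∀ V, (∀ x ∈ (rev lam gs V).1, lam x = lam' x) → rev lam' gs V = rev lam gs V := by
  induction gs with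
  | nil => intro V _; rfl
  | cons g gs ih =>
    intro V h
    simp only [rev] at h ⊢
    have h1 := revG_on (lam := lam) (lam' := lam') g (hl g (by simp)) V
      (fun j hj => h j (rev_mono _ _ _ hj))
    have h2 := ih (fun g' hg' => hl g' (by simp [hg'])) (revG lam g V).1 h
    rw [h1, h2]

lemma rev_spec {A B0 : ℕ} (lam : U → T) (gs : List (List (Finset U × Finset (U → T))))
    (hl : ∀ g ∈ gs, ∀ s ∈ g, It A B0 s) : ∀ V, ∀ g ∈ gs,
    (∃ s ∈ g, lam ∈ s.2) ∨ ∀ s ∈ g, ¬ Disjoint s.1 (rev lam gs V).1 := by
  induction gs with
  | nil => intro V g hg; simp at hg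
  | cons g0 gs ih =>
    intro V g hg
    rcases List.mem_cons.mp hg with rfl | hg
    · simp only [rev]
      rcases Rev_spec lam g (hl g (by simp)) V with ⟨s, hs, h2⟩ | h1
      · left; exact ⟨s, hs, h2⟩
      · right
        intro s hs hdis
        exact h1 s hs (hdis.mono_right (rev_mono _ _ _))
    · simp only [rev]
      exact ih (fun g' hg' => hl g' (by simp [hg'])) _ g hg

end Pool.Agent.Work.MP_c04246_lc.R
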