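import Pool.Agent.Work.MP_c04246_lc.R.Rev

/-!
MODULE RevT (size M). Tail of the number of reveals: copy of `X.revG_moment`, `X.rev_moment`, `X.rev_tail` of
XReveal.lean with the general events and an arbitrary starting set `V`.

Proof (as there). Let `z = 1 + 1/(2A)`; `z (2 - 1/A) ≤ 2` and `z^(2A) ≥ 2` (Bernoulli). For a function
`F V lam ≥ 0` depending only on the labels off `V` with `∑ lam, F V lam ≤ M card Ω` for all `V`:
`∑ lam, z ^ (revG lam l V).2 * F (revG lam l V).1 lam ≤ 2 M card Ω` by induction on `l`: if the first item `s` is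
disjoint from `V`, the event `lam ∈ s.2` depends on `s.1` and everything after it depends on labels off
`V ∪ s.1`, so by independence (`X.sum_mul_indep`) the sum is
`z (P(E) * [sum of F (V ∪ s.1)] + (1 - P(E)) * [sum for the rest]) ≤ z (P(E) M + (1 - P(E)) 2 M) card Ω`
`≤ z (2 - 1/A) M card Ω ≤ 2 M card Ω`, since `P(E) ≥ 1/A`. Iterating over the gates:
`∑ lam, z ^ (rev lam gs V).2 ≤ 2 ^ gs.length * card Ω`; Markov. (`A ≥ 1` may be assumed: if `A = 0` then `card Ω = 0`
as soon as there is an item; if there is no item, `rev` reveals nothing. The hypothesis `1 ≤ A` is given.)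
-/

set_option autoImplicit false

namespace Pool.Agent.Work.MP_c04246_lc.R

open Finset

variable {U T : Type} [DecidableEq U] [Fintype U] [Fintype T]

open Classical in
private lemma RevT_moment {A B0 : ℕ} (hA : 1 ≤ A) [Nonempty (U → T)] {z M : ℝ} (hz1 : 1 ≤ z)
    (hM : 0 ≤ M) (hz : z * (2 - (A : ℝ)⁻¹) ≤ 2)
    (F : Finset U → (U → T) → ℝ) (hF0 : ∀ V ρ, 0 ≤ F V ρ)
    (hFoff : ∀ V ρ ρ', (∀ j, j ∉ V → ρ j = ρ' j) → F V ρ = F V ρ')
    (hF : ∀ V, ∑ ρ, F V ρ ≤ M * Fintype.card (U → T)) (l : List (Finset U × Finset (U → T)))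
    (hl : ∀ s ∈ l, It A B0 s) :
    ∀ V, ∑ ρ, z ^ (revG ρ l V).2 * F (revG ρ l V).1 ρ ≤ 2 * M * Fintype.card (U → T) := by
  have hΩ : (0 : ℝ) < Fintype.card (U → T) := by exact_mod_cast Fintype.card_pos
  induction l with
  | nil =>
    intro V
    simp only [revG, pow_zero, one_mul]
    refine (hF V).trans ?_
    nlinarith [mul_nonneg hM hΩ.le]
  | cons s l ih =>
    intro V
    have ih' := ih (fun s' hs' => hl s' (by simp [hs']))
    have hsI := hl s (by simp)
    by_cases hd : Disjoint s.1 V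
    · -- the two continuations
      set G1 : (U → T) → ℝ := fun ρ => F (V ∪ s.1) ρ with hG1
      set G2 : (U → T) → ℝ := fun ρ =>
        z ^ (revG ρ l (V ∪ s.1)).2 * F (revG ρ l (V ∪ s.1)).1 ρ with hG2
      set E : (U → T) → ℝ := fun ρ => if ρ ∈ s.2 then 1 else 0 with hE
      set E' : (U → T) → ℝ := fun ρ => if ρ ∈ s.2 then 0 else 1 with hE'
      have hG1off : ∀ ρ ρ', (∀ j, j ∉ s.1 → ρ j = ρ' j) → G1 ρ = G1 ρ' := by
        intro ρ ρ' h
        exact hFoff _ _ _ fun j hj => h j fun hjs => hj (mem_union_right _ hjs)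
      have hG2off : ∀ ρ ρ', (∀ j, j ∉ s.1 → ρ j = ρ' j) → G2 ρ = G2 ρ' := by
        intro ρ ρ' h
        have h1 : revG ρ l (V ∪ s.1) = revG ρ' l (V ∪ s.1) :=
          revG_off l (fun s' hs' => (hl s' (by simp [hs']))) _
            fun j hj => h j fun hjs => hj (mem_union_right _ hjs)
        simp only [hG2]
        rw [h1]
        congr 1
        exact hFoff _ _ _ fun j hj => h j fun hjs =>
          hj (revG_mono _ _ _ (mem_union_right _ hjs))
      have hev : ∀ ρ ρ', (∀ j ∈ s.1, ρ j = ρ' j) → (ρ ∈ s.2 ↔ ρ' ∈ s.2) := by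
        intro ρ ρ' h
        exact ⟨hsI.2.1 ρ ρ' h, hsI.2.1 ρ' ρ fun x hx => (h x hx).symm⟩
      have hEon : ∀ ρ ρ', (∀ j ∈ s.1, ρ j = ρ' j) → E ρ = E ρ' := by
        intro ρ ρ' h
        simp only [hE, hev ρ ρ' h]
      have hE'on : ∀ ρ ρ', (∀ j ∈ s.1, ρ j = ρ' j) → E' ρ = E' ρ' := by
        intro ρ ρ' h
        simp only [hE', hev ρ ρ' h]
      have hi1 := X.sum_mul_indep s.1 E G1 hEon hG1off
      have hi2 := X.sum_mul_indep s.1 E' G2 hE'on hG2off
      have hEE' : ∑ ρ, E ρ + ∑ ρ, E' ρ = Fintype.card (U → T) := by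
        rw [← sum_add_distrib]
        have : ∀ ρ, E ρ + E' ρ = 1 := by
          intro ρ
          simp only [hE, hE']
          split_ifs <;> norm_num
        simp [this]
      have hsplit : ∀ ρ, z ^ (revG ρ (s :: l) V).2 * F (revG ρ (s :: l) V).1 ρ =
          z * (E ρ * G1 ρ) + z * (E' ρ * G2 ρ) := by
        intro ρ
        simp only [revG, if_pos hd, hE, hE', hG1, hG2]
        by_cases hk : ρ ∈ s.2
        · simp only [if_pos hk]; ring
        · simp only [if_neg hk]; ring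
      rw [sum_congr rfl (fun ρ _ => hsplit ρ), sum_add_distrib, ← mul_sum, ← mul_sum]
      have hS1 := hF (V ∪ s.1)
      have hS2 := ih' (V ∪ s.1)
      have hkill := hsI.2.2
      have hEsum : ∑ ρ, E ρ = (s.2.card : ℝ) := by
        simp only [hE, sum_boole]
        congr 2
        ext ρ
        simp
      have hAκ : (0 : ℝ) < (A : ℝ) := by
        exact_mod_cast hA
      have hkill' : (Fintype.card (U → T) : ℝ) ≤ (∑ ρ, E ρ) * (A : ℝ) := by
        rw [hEsum, mul_comm]
        exact_mod_cast hkill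
      set Ω : ℝ := ((Fintype.card (U → T) : ℕ) : ℝ) with hΩdef
      set e : ℝ := ∑ ρ, E ρ with he
      set e' : ℝ := ∑ ρ, E' ρ with he'
      have he0 : 0 ≤ e := sum_nonneg fun ρ _ => by simp only [hE]; split_ifs <;> norm_num
      have he'0 : 0 ≤ e' := sum_nonneg fun ρ _ => by simp only [hE']; split_ifs <;> norm_num
      have hb1 : ∑ ρ, E ρ * G1 ρ ≤ e * M := by
        have : Ω * ∑ ρ, E ρ * G1 ρ ≤ Ω * (e * M) := by
          rw [hi1]
          calc e * ∑ ρ, G1 ρ ≤ e * (M * Ω) := mul_le_mul_of_nonneg_left hS1 he0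
            _ = Ω * (e * M) := by ring
        exact le_of_mul_le_mul_left this hΩ
      have hb2 : ∑ ρ, E' ρ * G2 ρ ≤ e' * (2 * M) := by
        have : Ω * ∑ ρ, E' ρ * G2 ρ ≤ Ω * (e' * (2 * M)) := by
          rw [hi2]
          calc e' * ∑ ρ, G2 ρ ≤ e' * (2 * M * Ω) := mul_le_mul_of_nonneg_left hS2 he'0
            _ = Ω * (e' * (2 * M)) := by ring
        exact le_of_mul_le_mul_left this hΩ
      have hepos : Ω * (A : ℝ)⁻¹ ≤ e := by
        rw [mul_inv_le_iff₀ hAκ]; exact hkill'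
      have hfin : z * (e * M) + z * (e' * (2 * M)) ≤ 2 * M * Ω := by
        have h1 : e' = Ω - e := by linarith
        have h2 : z * (e * M) + z * (e' * (2 * M)) = M * (z * (2 * Ω - e)) := by rw [h1]; ring
        have h3 : z * (2 * Ω - e) ≤ 2 * Ω := by
          calc z * (2 * Ω - e) ≤ z * (2 * Ω - Ω * (A : ℝ)⁻¹) := by
                apply mul_le_mul_of_nonneg_left _ (by linarith)
                linarith
            _ = (z * (2 - (A : ℝ)⁻¹)) * Ω := by ring
            _ ≤ 2 * Ω := mul_le_mul_of_nonneg_right hz hΩ.le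
        rw [h2]
        calc M * (z * (2 * Ω - e)) ≤ M * (2 * Ω) := mul_le_mul_of_nonneg_left h3 hM
          _ = 2 * M * Ω := by ring
      have hz0 : 0 ≤ z := by linarith
      calc z * ∑ ρ, E ρ * G1 ρ + z * ∑ ρ, E' ρ * G2 ρ
          ≤ z * (e * M) + z * (e' * (2 * M)) :=
            add_le_add (mul_le_mul_of_nonneg_left hb1 hz0) (mul_le_mul_of_nonneg_left hb2 hz0)
        _ ≤ _ := hfin
    · have : ∀ ρ, revG ρ (s :: l) V = revG ρ l V := by
        intro ρ; simp only [revG, if_neg hd]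
      simp only [this]
      exact ih' V

private lemma RevT_moment' {A B0 : ℕ} (hA : 1 ≤ A) [Nonempty (U → T)] {z : ℝ} (hz1 : 1 ≤ z)
    (hz : z * (2 - (A : ℝ)⁻¹) ≤ 2) (gs : List (List (Finset U × Finset (U → T))))
    (hl : ∀ g ∈ gs, ∀ s ∈ g, It A B0 s) :
    ∀ V, ∑ ρ : U → T, z ^ (rev ρ gs V).2 ≤ 2 ^ gs.length * Fintype.card (U → T) := by
  induction gs with
  | nil => intro V; simp [rev]
  | cons g gs ih =>
    intro V
    have ih' := ih (fun g' hg' => hl g' (by simp [hg']))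
    have h1 := RevT_moment (B0 := B0) hA hz1 (M := 2 ^ gs.length) (by positivity) hz
      (fun V ρ => z ^ (rev ρ gs V).2) (fun V ρ => by positivity)
      (fun V ρ ρ' h => by
        rw [rev_off gs (fun g' hg' s hs => (hl g' (by simp [hg']) s hs)) V h])
      ih' g (hl g (by simp)) V
    refine le_trans (le_of_eq ?_) (h1.trans (le_of_eq ?_))
    · refine sum_congr rfl fun ρ _ => ?_
      simp only [rev, pow_add]
    · rw [List.length_cons, pow_succ]; ring

open Classical in
lemma rev_tail {A B0 : ℕ} (hA : 1 ≤ A) (gs : List (List (Finset U × Finset (U → T))))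
    (hl : ∀ g ∈ gs, ∀ s ∈ g, It A B0 s) (V : Finset U) (m : ℕ) :
    (univ.filter fun lam : U → T => 2 * A * m ≤ (rev lam gs V).2).card * 2 ^ m ≤
      2 ^ gs.length * Fintype.card (U → T) := by
  rcases isEmpty_or_nonempty (U → T) with hne | hne
  · have h0 : (univ.filter fun lam : U → T => 2 * A * m ≤ (rev lam gs V).2).card = 0 := by
      rw [card_eq_zero]
      ext lam
      exact (hne.false lam).elim
    rw [h0, zero_mul]
    exact Nat.zero_le _
  set A' : ℝ := (A : ℝ) with hA'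
  have hA1' : 1 ≤ A' := by rw [hA']; exact_mod_cast hA
  have hA0 : 0 < A' := by linarith
  set z : ℝ := 1 + (2 * A')⁻¹ with hz
  have hz1 : 1 ≤ z := by rw [hz]; have : 0 < (2 * A')⁻¹ := by positivity
                         linarith
  have hz2 : z * (2 - A'⁻¹) ≤ 2 := by
    have : (2 * A')⁻¹ = A'⁻¹ / 2 := by rw [mul_inv]; ring
    rw [hz, this]
    nlinarith [sq_nonneg (A'⁻¹)]
  have hz3 : (2 : ℝ) ≤ z ^ (2 * A) := by
    have h1 := one_add_mul_le_pow (a := (2 * A')⁻¹) (by
      have : 0 < (2 * A')⁻¹ := by positivity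
      linarith) (2 * A)
    have h2 : ((2 * A : ℕ) : ℝ) * (2 * A')⁻¹ = 1 := by
      push_cast
      rw [← hA']
      exact mul_inv_cancel₀ (by positivity)
    rw [h2] at h1
    rw [hz]
    linarith
  have h := RevT_moment' (B0 := B0) hA hz1 hz2 gs hl V
  have h4 : (((univ.filter fun ρ : U → T =>
      2 * A * m ≤ (rev ρ gs V).2).card * 2 ^ m : ℕ) : ℝ) ≤
      ∑ ρ : U → T, z ^ (rev ρ gs V).2 := by
    push_cast
    rw [← nsmul_eq_mul, ← sum_const]
    refine le_trans (sum_le_sum ?_) (sum_le_sum_of_subset_of_nonneg (filter_subset _ _)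
      (fun ρ _ _ => by positivity))
    intro ρ hρ
    rw [mem_filter] at hρ
    calc (2 : ℝ) ^ m ≤ (z ^ (2 * A)) ^ m :=
          pow_le_pow_left₀ (by norm_num) hz3 m
      _ = z ^ (2 * A * m) := by rw [← pow_mul]
      _ ≤ z ^ (rev ρ gs V).2 := pow_le_pow_right₀ hz1 hρ.2
  have h5 := h4.trans h
  exact_mod_cast h5

end Pool.Agent.Work.MP_c04246_lc.R
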