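import Pool.Agent.Work.MP_c04246_lc.R.ResC
import Pool.Agent.Work.MP_c04246_lc.R.Kill
import Pool.Agent.Work.MP_c04246_lc.R.Pre

/-!
MODULE World (size M). The random restriction of an expanding CNF of linear size.

Proof. `h = 4 * e * k * ρ`; `pre` (hypothesis: `4 e k card M ≤ 4 e k ρ r ≤ r (h + 1)`) gives `W`, `a`. Let
`cl' = clres cl W a`, `r' = r / 2`, `e' = 2 * e`, `g = h * k + 1` (`card_nbr_le`). Put
`dm lam = W ∪ domL cl' e' lam`, `vl lam = ovr W a (valL lam)`; note
`ovr (dm lam) (vl lam) y = ovr W a (ovr (domL cl' e' lam) (valL lam) y)`.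
(second) `resExp` for `cl'` (`Expn cl' r' e'`) gives `ExpnR cl' (domL ..) (valL lam) r' (4 * e)`, and
`resid_expnR` transfers it to `cl`.
(third) `B κ` is the maximum (or the sum) of `4 ^ (g ^ kR e' k κ * κ)`, `g ^ kR e' k κ * κ`, `2 * e' * κ`,
`g ^ kR e' k κ`, and `thr κ = 2 * (s0 e' (κ * (1 + 2 * e' * k)) + 2 * e' * κ) + 2`. `Q L = ball cl' L (kR e' k κ)`
(`card_ball_le`). Given `Y`, `f`, `c`: apply `kill` to `cl'`, `Y` and `f' z = f (ovr W a z)` (it
depends only on `Y`). Dead case: `J : Finset (Mres ..)`, take its image `J1` in `M` (not larger); if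
`ovr (dm lam) (vl lam) y = ovr W a z`, `z = ovr (domL ..) (valL lam) y`, satisfies the clauses `cl i`, `i ∈ J1`,
then by `resid_sat` `z` satisfies the clauses of `J`, so `f' z ≠ c`. Other case: same `Rg`, `E`; the last
property: `Rg` meets `L`, so `ball Y (kR ..)` meets `L`, so `Y` meets `ball L (kR ..)`
(`not_disjoint_ball`).
-/

set_option autoImplicit false

namespace Pool.Agent.Work.MP_c04246_lc.R

open Finset

theorem world (k e ρ : ℕ) (he : 1 ≤ e) : ∃ B thr : ℕ → ℕ,
    ∀ (U M : Type) [DecidableEq U] [DecidableEq M] [Fintype U] [Fintype M]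
      (cl : M → Finset (U × Bool)) (r : ℕ), (∀ i, (vr cl i).card ≤ k) → Expn cl r e →
      Fintype.card M ≤ ρ * r →
      ∃ (dm : (U → Bool × Bool) → Finset U) (vl : (U → Bool × Bool) → U → Bool),
        (∀ lam, ExpnR cl (dm lam) (vl lam) (r / 2) (4 * e)) ∧
        ∀ κ, thr κ ≤ r → ∃ Q : Finset U → Finset U,
          Kil cl (fun lam => ovr (dm lam) (vl lam)) κ (B κ) (B κ) (B κ) (B κ) Q := by
  obtain ⟨g, hgdef⟩ : ∃ g : ℕ, g = 4 * e * k * ρ * k + 1 := ⟨_, rfl⟩
  refine ⟨fun κ => 4 ^ (g ^ kR (2 * e) k κ * κ) + g ^ kR (2 * e) k κ * κ + 2 * (2 * e) * κ +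
      g ^ kR (2 * e) k κ,
    fun κ => 2 * (s0 (2 * e) (κ * (1 + 2 * (2 * e) * k)) + 2 * (2 * e) * κ) + 2, ?_⟩
  intro U M _ _ _ _ cl r hk hE hM
  have hh : 4 * e * k * Fintype.card M ≤ r * (4 * e * k * ρ + 1) := by
    calc 4 * e * k * Fintype.card M ≤ 4 * e * k * (ρ * r) := Nat.mul_le_mul_left _ hM
      _ = r * (4 * e * k * ρ) := by ring
      _ ≤ r * (4 * e * k * ρ + 1) := Nat.mul_le_mul_left _ (Nat.le_succ _)
  obtain ⟨W, a, hE', hk', hh'⟩ := pre cl hE he hk hh
  have he' : 1 ≤ 2 * e := by omega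
  have hg : ∀ x, (nbr (clres cl W a) x).card ≤ g := by
    intro x
    rw [hgdef]
    exact card_nbr_le hk' hh' x
  have hsg : ∀ (lam : U → Bool × Bool) (y : U → Bool),
      ovr (W ∪ domL (clres cl W a) (2 * e) lam) (ovr W a (valL lam)) y =
        ovr W a (ovr (domL (clres cl W a) (2 * e) lam) (valL lam) y) := by
    intro lam y
    funext x
    unfold ovr
    by_cases hW : x ∈ W
    · rw [if_pos (mem_union_left _ hW), if_pos hW, if_pos hW]
    · by_cases hD : x ∈ domL (clres cl W a) (2 * e) lam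
      · rw [if_pos (mem_union_right _ hD), if_neg hW, if_neg hW, if_pos hD]
      · rw [if_neg (fun h => (mem_union.1 h).elim hW hD), if_neg hW, if_neg hD]
  refine ⟨fun lam => W ∪ domL (clres cl W a) (2 * e) lam, fun lam => ovr W a (valL lam), ?_, ?_⟩
  · intro lam
    have h1 := resExp hE' he' lam
    have h2 : 2 * (2 * e) = 4 * e := by ring
    rw [h2] at h1
    exact resid_expnR cl W a _ _ h1
  · intro κ hκ
    refine ⟨fun L => ball (clres cl W a) L (kR (2 * e) k κ), ?_, ?_⟩
    · intro L
      refine (card_ball_le hg L _).trans (Nat.mul_le_mul_right _ ?_)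
      exact Nat.le_add_left _ _
    · intro Y f c hY hf
      have hf' : X.Dep Y (fun z : U → Bool => f (ovr W a z)) := by
        intro y y' hyy
        apply hf
        intro x hx
        unfold ovr
        by_cases hW : x ∈ W
        · rw [if_pos hW, if_pos hW]
        · rw [if_neg hW, if_neg hW]
          exact hyy x hx
      have hr : s0 (2 * e) (κ * (1 + 2 * (2 * e) * k)) + 2 * (2 * e) * κ ≤ r / 2 := by
        rw [Nat.le_div_iff_mul_le (by norm_num)]
        have : 2 * (s0 (2 * e) (κ * (1 + 2 * (2 * e) * k)) + 2 * (2 * e) * κ) + 2 ≤ r := hκ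
        omega
      rcases kill hE' he' hk' hg hr Y hY (fun z : U → Bool => f (ovr W a z)) hf' c with
        ⟨J, hJ, hJ2⟩ | ⟨Rg, E, hRg, hE1, hE2, hE3, hE4⟩
      · left
        refine ⟨J.image fun i => i.1, ?_, ?_⟩
        · refine card_image_le.trans (hJ.trans ?_)
          refine le_trans ?_ (Nat.le_add_right _ _)
          exact Nat.le_add_left _ _
        · intro lam y hs
          change f (ovr (W ∪ domL (clres cl W a) (2 * e) lam) (ovr W a (valL lam)) y) ≠ c
          rw [hsg]
          apply hJ2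
          intro i hi
          rw [resid_sat]
          have h1 := hs i.1 (mem_image_of_mem _ hi)
          change ∃ l ∈ cl i.1,
            ovr (W ∪ domL (clres cl W a) (2 * e) lam) (ovr W a (valL lam)) y l.1 = l.2 at h1
          rw [hsg] at h1
          exact h1
      · right
        refine ⟨Rg, E, ?_, hE1, ?_, ?_, ?_⟩
        · refine hRg.trans ?_
          refine le_trans ?_ (Nat.le_add_right _ _)
          refine le_trans ?_ (Nat.le_add_right _ _)
          exact Nat.le_add_left _ _
        · refine hE2.trans (Nat.mul_le_mul_right _ ?_)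
          refine le_trans ?_ (Nat.le_add_right _ _)
          refine le_trans ?_ (Nat.le_add_right _ _)
          exact Nat.le_add_right _ _
        · intro lam hlam y
          change f (ovr (W ∪ domL (clres cl W a) (2 * e) lam) (ovr W a (valL lam)) y) = c
          rw [hsg]
          exact hE3 lam hlam y
        · intro L hL
          apply not_disjoint_ball
          exact fun hd => hL (disjoint_of_subset_left hE4 hd)

end Pool.Agent.Work.MP_c04246_lc.R
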